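import Pool.Agent.H94.WeylB

/-!
Divisor bound, and the count of products in Weyl's inequality.
-/

namespace Pool.Agent.H94.Weyl

open Finset Polynomial

lemma card_divisors_le (ε : ℝ) (hε : 0 < ε) :
    ∃ C : ℝ, 1 ≤ C ∧ ∀ n : ℕ, 1 ≤ n → (n.divisors.card : ℝ) ≤ C * (n : ℝ) ^ ε := by
  set C0 : ℝ := 1 + 1 / (ε * Real.log 2) with hC0
  have hl2 : 0 < Real.log 2 := Real.log_pos (by norm_num)
  have hC01 : 1 ≤ C0 := by
    rw [hC0]
    have : 0 ≤ 1 / (ε * Real.log 2) := by positivity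
    linarith
  -- local bound for all primes
  have hloc : ∀ p : ℕ, 2 ≤ p → ∀ v : ℕ, ((v : ℝ) + 1) ≤ C0 * (((p : ℝ) ^ v) ^ ε) := by
    intro p hp v
    have h1 : (2 : ℝ) ^ (ε * v) ≤ ((p : ℝ) ^ v) ^ ε := by
      rw [← Real.rpow_natCast, ← Real.rpow_mul (by positivity), mul_comm (v : ℝ) ε]
      apply Real.rpow_le_rpow (by norm_num) (by exact_mod_cast hp) (by positivity)
    have h2 : 1 + (ε * v) * Real.log 2 ≤ (2 : ℝ) ^ (ε * v) := by
      rw [Real.rpow_def_of_pos (by norm_num)]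
      have := Real.add_one_le_exp (Real.log 2 * (ε * v))
      linarith
    have h3 : (v : ℝ) + 1 ≤ C0 * (1 + (ε * v) * Real.log 2) := by
      have h4 : C0 * (1 + (ε * v) * Real.log 2) =
          C0 + (ε * Real.log 2) * v + v := by
        rw [hC0]; field_simp; ring
      rw [h4]
      have : 0 ≤ (ε * Real.log 2) * v := by positivity
      linarith
    refine h3.trans ?_
    apply mul_le_mul_of_nonneg_left (h2.trans h1) (by linarith)
  -- better bound for large primes
  set P0 : ℕ := ⌈(2 : ℝ) ^ (1 / ε)⌉₊ with hP0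
  have hlarge : ∀ p : ℕ, P0 ≤ p → ∀ v : ℕ, ((v : ℝ) + 1) ≤ ((p : ℝ) ^ v) ^ ε := by
    intro p hp v
    have h1 : (2 : ℝ) ^ (1 / ε) ≤ p := (Nat.le_ceil _).trans (by exact_mod_cast hp)
    have h2 : (2 : ℝ) ≤ (p : ℝ) ^ ε := by
      have := Real.rpow_le_rpow (by positivity) h1 hε.le
      rwa [← Real.rpow_mul (by norm_num), one_div_mul_cancel hε.ne', Real.rpow_one] at this
    have h3 : ((p : ℝ) ^ v) ^ ε = ((p : ℝ) ^ ε) ^ v := by
      rw [← Real.rpow_natCast, ← Real.rpow_mul (by positivity), mul_comm,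
        Real.rpow_mul (by positivity), Real.rpow_natCast]
    rw [h3]
    have h4 : (v : ℝ) + 1 ≤ 2 ^ v := by
      have := Nat.lt_two_pow_self (n := v)
      exact_mod_cast this
    exact h4.trans (pow_le_pow_left₀ (by norm_num) h2 v)
  refine ⟨C0 ^ P0, one_le_pow₀ hC01, ?_⟩
  intro n hn
  have hn0 : n ≠ 0 := by omega
  rw [Nat.card_divisors hn0]
  have h1 : ((n : ℝ)) ^ ε = ∏ p ∈ n.primeFactors, (((p : ℝ) ^ (n.factorization p)) ^ ε) := by
    rw [Real.finsetProd_rpow _ _ (fun p _ => by positivity)]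
    congr 1
    have := Nat.prod_factorization_pow_eq_self hn0
    conv_lhs => rw [← this]
    rw [Finsupp.prod, Nat.support_factorization]
    push_cast
    rfl
  rw [h1]
  push_cast
  have h2 : ∏ p ∈ n.primeFactors, ((n.factorization p : ℝ) + 1) ≤
      ∏ p ∈ n.primeFactors, ((if p < P0 then C0 else 1) *
        (((p : ℝ) ^ (n.factorization p)) ^ ε)) := by
    apply Finset.prod_le_prod
    · intro p _; positivity
    · intro p hp
      split_ifs with h
      · exact hloc p (Nat.prime_of_mem_primeFactors hp).two_le _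
      · rw [one_mul]; exact hlarge p (by omega) _
  refine h2.trans ?_
  rw [Finset.prod_mul_distrib]
  apply mul_le_mul_of_nonneg_right
  · rw [Finset.prod_ite, Finset.prod_const_one, mul_one, Finset.prod_const]
    apply pow_le_pow_right₀ hC01
    calc (n.primeFactors.filter (fun p => p < P0)).card ≤ (range P0).card := by
          apply Finset.card_le_card
          intro p hp
          rw [mem_filter] at hp
          rw [mem_range]; exact hp.2
      _ = P0 := card_range _
  · apply Finset.prod_nonneg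
    intro p _; positivity

lemma sum_mul_le (N M : ℕ) (T : ℝ) (hT : ∀ n, 1 ≤ n → n ≤ N * M → (n.divisors.card : ℝ) ≤ T)
    (f : ℕ → ℝ) (hf : ∀ n, 0 ≤ f n) :
    ∑ h ∈ Icc 1 N, ∑ n ∈ Icc 1 M, f (h * n) ≤ T * ∑ n ∈ Icc 1 (N * M), f n := by
  rw [← Finset.sum_product']
  have hmaps : ∀ x ∈ Icc 1 N ×ˢ Icc 1 M, x.1 * x.2 ∈ Icc 1 (N * M) := by
    intro x hx
    rw [mem_product, mem_Icc, mem_Icc] at hx
    rw [mem_Icc]
    exact ⟨Nat.mul_pos hx.1.1 hx.2.1, Nat.mul_le_mul hx.1.2 hx.2.2⟩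
  rw [← Finset.sum_fiberwise_of_maps_to hmaps, Finset.mul_sum]
  apply Finset.sum_le_sum
  intro n hn
  have h1 : ∑ x ∈ (Icc 1 N ×ˢ Icc 1 M).filter (fun x => x.1 * x.2 = n), f (x.1 * x.2) =
      ((Icc 1 N ×ˢ Icc 1 M).filter (fun x => x.1 * x.2 = n)).card * f n := by
    rw [← nsmul_eq_mul, ← Finset.sum_const]
    apply Finset.sum_congr rfl
    intro x hx
    rw [mem_filter] at hx
    rw [hx.2]
  rw [h1]
  apply mul_le_mul_of_nonneg_right _ (hf n)
  rw [mem_Icc] at hn
  refine le_trans ?_ (hT n hn.1 hn.2)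
  have h2 : ((Icc 1 N ×ˢ Icc 1 M).filter (fun x => x.1 * x.2 = n)).card ≤ n.divisors.card := by
    apply Finset.card_le_card_of_injOn (fun x => x.1)
    · intro x hx
      have hx' := mem_filter.1 (Finset.mem_coe.1 hx)
      apply Finset.mem_coe.2
      rw [Nat.mem_divisors]
      exact ⟨⟨x.2, hx'.2.symm⟩, by omega⟩
    · intro x hx y hy hxy
      have hx' := mem_filter.1 (Finset.mem_coe.1 hx)
      have hy' := mem_filter.1 (Finset.mem_coe.1 hy)
      have h3 := hx'.2
      have h4 := hy'.2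
      simp only at hxy
      have h5 : 0 < x.1 := by
        have := (mem_product.1 hx'.1).1
        rw [mem_Icc] at this; omega
      apply Prod.ext hxy
      rw [← h4, ← hxy] at h3
      exact Nat.eq_of_mul_eq_mul_left h5 h3
  exact_mod_cast h2

lemma psi_neg (R N k : ℕ) (L : ℤ) : psi R N k (-L) = psi R N k L := by
  induction k generalizing L with
  | zero =>
    unfold psi
    push_cast
    rw [neg_div, lb_neg]
  | succ k ih =>
    unfold psi
    apply Finset.sum_congr rfl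
    intro h _
    rw [← ih]
    congr 1
    ring

lemma psi_triv (R N : ℕ) (k : ℕ) (L : ℤ) : psi R N k L ≤ (2 * N : ℝ) ^ k * N := by
  induction k generalizing L with
  | zero => unfold psi; simpa using lb_le _ _
  | succ k ih =>
    unfold psi
    calc ∑ h ∈ Ioo (-(N : ℤ)) N, psi R N k ((k + 2) * L * h)
        ≤ ∑ h ∈ Ioo (-(N : ℤ)) N, (2 * N : ℝ) ^ k * N := Finset.sum_le_sum (fun h _ => ih _)
      _ = ((Ioo (-(N : ℤ)) N).card : ℝ) * ((2 * N : ℝ) ^ k * N) := by
          rw [Finset.sum_const, nsmul_eq_mul]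
      _ ≤ (2 * N : ℝ) * ((2 * N : ℝ) ^ k * N) := by
          apply mul_le_mul_of_nonneg_right (card_Ioo_le N) (by positivity)
      _ = (2 * N : ℝ) ^ (k + 1) * N := by ring

lemma sum_Ioo_even (N : ℕ) (g : ℤ → ℝ) (hg : ∀ h, 0 ≤ g h) (he : ∀ h, g (-h) = g h) :
    ∑ h ∈ Ioo (-(N : ℤ)) N, g h ≤ g 0 + 2 * ∑ h ∈ Icc 1 N, g (h : ℤ) := by
  have hsub : Ioo (-(N : ℤ)) N ⊆ insert 0 ((Icc 1 N).image (fun h : ℕ => (h : ℤ)) ∪
      (Icc 1 N).image (fun h : ℕ => -(h : ℤ))) := by
    intro h hh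
    rw [mem_Ioo] at hh
    rw [mem_insert, mem_union, mem_image, mem_image]
    rcases lt_trichotomy h 0 with h1 | h1 | h1
    · right; right
      exact ⟨h.natAbs, by rw [mem_Icc]; omega, by omega⟩
    · left; exact h1
    · right; left
      exact ⟨h.natAbs, by rw [mem_Icc]; omega, by omega⟩
  refine (Finset.sum_le_sum_of_subset_of_nonneg hsub (fun h _ _ => hg h)).trans ?_
  rw [Finset.sum_insert, Finset.sum_union, Finset.sum_image, Finset.sum_image]
  · simp only [he]
    apply le_of_eq; ring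
  · intro x _ y _ h
    simpa using h
  · intro x _ y _ h
    simpa using h
  · rw [Finset.disjoint_left]
    intro x hx hy
    rw [mem_image] at hx hy
    obtain ⟨a, ha, rfl⟩ := hx
    obtain ⟨c, hc, hc2⟩ := hy
    rw [mem_Icc] at ha hc
    omega
  · rw [mem_union, mem_image, mem_image]
    rintro (⟨a, ha, ha2⟩ | ⟨a, ha, ha2⟩) <;> rw [mem_Icc] at ha <;> omega

theorem psi_le (R N : ℕ) (T : ℝ) (hT1 : 1 ≤ T) (k : ℕ)
    (hT : ∀ n, 1 ≤ n → n ≤ N ^ k → (n.divisors.card : ℝ) ≤ T) (hN : 1 ≤ N) : ∀ L : ℤ,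
    psi R N k L ≤ k * (2 * N : ℝ) ^ k +
      (2 * T) ^ k * ∑ n ∈ Icc 1 (N ^ k), lb N ((((k + 1).factorial * L * n : ℤ) : ℝ) / R) := by
  induction k with
  | zero =>
    intro L
    simp [psi]
  | succ k ih =>
    intro L
    have hT' : ∀ n, 1 ≤ n → n ≤ N ^ k → (n.divisors.card : ℝ) ≤ T := by
      intro n h1 h2
      exact hT n h1 (h2.trans (Nat.pow_le_pow_right hN (Nat.le_succ k)))
    have ih' := ih hT'
    have h1 : psi R N (k + 1) L ≤ psi R N k 0 +
        2 * ∑ h ∈ Icc 1 N, psi R N k ((k + 2) * L * ((h : ℕ) : ℤ)) := by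
      have := sum_Ioo_even N (fun h => psi R N k ((k + 2) * L * h)) (fun h => psi_nonneg _ _ _ _)
        (fun h => by
          have : ((k : ℤ) + 2) * L * -h = -((k + 2) * L * h) := by ring
          rw [this, psi_neg])
      simpa [psi] using this
    have h2 : ∑ h ∈ Icc 1 N, psi R N k ((k + 2) * L * ((h : ℕ) : ℤ)) ≤
        N * (k * (2 * N : ℝ) ^ k) + (2 * T) ^ k * (T * ∑ n ∈ Icc 1 (N ^ (k + 1)),
          lb N ((((k + 1 + 1).factorial * L * n : ℤ) : ℝ) / R)) := by
      calc ∑ h ∈ Icc 1 N, psi R N k ((k + 2) * L * ((h : ℕ) : ℤ))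
          ≤ ∑ h ∈ Icc 1 N, (k * (2 * N : ℝ) ^ k + (2 * T) ^ k * ∑ n ∈ Icc 1 (N ^ k),
            lb N ((((k + 1).factorial * ((k + 2) * L * ((h : ℕ) : ℤ)) * n : ℤ) : ℝ) / R)) :=
            Finset.sum_le_sum (fun h _ => ih' _)
        _ = N * (k * (2 * N : ℝ) ^ k) + (2 * T) ^ k * ∑ h ∈ Icc 1 N, ∑ n ∈ Icc 1 (N ^ k),
            lb N ((((k + 1 + 1).factorial * L * ((h * n : ℕ) : ℤ) : ℤ) : ℝ) / R) := by
            rw [Finset.sum_add_distrib, Finset.sum_const, Nat.card_Icc, Nat.add_sub_cancel,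
              nsmul_eq_mul, Finset.mul_sum]
            congr 1
            apply Finset.sum_congr rfl
            intro h _
            congr 1
            apply Finset.sum_congr rfl
            intro n _
            congr 3
            rw [Nat.factorial_succ (k + 1)]
            push_cast
            ring
        _ ≤ _ := by
            have h3 := sum_mul_le N (N ^ k) T (by
              intro n h1 h2
              apply hT n h1
              rw [pow_succ']; exact h2)
              (fun n => lb N ((((k + 1 + 1).factorial * L * (n : ℤ) : ℤ) : ℝ) / R))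
              (fun n => lb_nonneg (Nat.cast_nonneg N) _)
            rw [← pow_succ'] at h3
            have h4 : (0 : ℝ) ≤ (2 * T) ^ k := by positivity
            have h5 := mul_le_mul_of_nonneg_left h3 h4
            linarith
    have h6 := psi_triv R N k 0
    have h7 : (2 * N : ℝ) ^ k * N ≤ (2 * N : ℝ) ^ (k + 1) := by
      rw [pow_succ]
      apply mul_le_mul_of_nonneg_left _ (by positivity)
      have : (0 : ℝ) ≤ N := Nat.cast_nonneg N
      linarith
    calc psi R N (k + 1) L ≤ (2 * N : ℝ) ^ (k + 1) +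
          2 * (N * (k * (2 * N : ℝ) ^ k) + (2 * T) ^ k * (T * ∑ n ∈ Icc 1 (N ^ (k + 1)),
          lb N ((((k + 1 + 1).factorial * L * n : ℤ) : ℝ) / R))) := by linarith
      _ = ((k + 1 : ℕ) : ℝ) * (2 * N : ℝ) ^ (k + 1) + (2 * T) ^ (k + 1) *
          ∑ n ∈ Icc 1 (N ^ (k + 1)), lb N ((((k + 1 + 1).factorial * L * n : ℤ) : ℝ) / R) := by
          push_cast
          ring

end Pool.Agent.H94.Weyl
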