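import Pool.Agent.H94.Det

set_option autoImplicit false
open scoped ENNReal InnerProductSpace Classical

noncomputable section

namespace Pool.Agent.H94

lemma tsum_list_split (f : List ℕ → ℝ≥0∞) :
    ∑' w, f w = f [] + ∑' c, ∑' v, f (c :: v) := by
  rw [ENNReal.tsum_eq_add_tsum_ite []]
  congr 1
  rw [← ENNReal.tsum_prod (f := fun c v => f (c :: v))]
  have hinj : Function.Injective (fun p : ℕ × List ℕ => p.1 :: p.2) := by
    rintro ⟨a, b⟩ ⟨c, d⟩ h
    simp only [List.cons.injEq] at h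
    exact Prod.ext h.1 h.2
  have := hinj.tsum_eq (f := fun w : List ℕ => if w = [] then 0 else f w) (by
    intro w hw
    rw [Function.mem_support] at hw
    match w with
    | [] => simp at hw
    | c :: v => exact ⟨(c, v), rfl⟩)
  have h2 : ∀ p : ℕ × List ℕ, (if p.1 :: p.2 = [] then (0 : ℝ≥0∞) else f (p.1 :: p.2)) =
      f (p.1 :: p.2) := by
    intro p; simp
  simp only [h2] at this
  rw [this]
  congr 1
  ext w
  split_ifs <;> rfl

/-- size of the block of the root -/
def sz (Δ : ℕ) (lam : ℝ) (x : Env) : ℝ≥0∞ := ∑' v : List ℕ, if inC Δ lam v x then 1 else 0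

/-- contribution of child `c` to the block of the root -/
def gz (Δ : ℕ) (lam : ℝ) (x : Env) (c : ℕ) : ℝ≥0∞ :=
  if Zz Δ lam (sub x c) then 0 else sz Δ lam (sub x c)

lemma sz_eq (Δ : ℕ) (lam : ℝ) (x : Env) :
    sz Δ lam x = 1 + ∑ c ∈ Finset.range (dg Δ x []), gz Δ lam x c := by
  unfold sz
  rw [tsum_list_split]
  congr 1
  · simp [inC]
  · rw [tsum_eq_sum (s := Finset.range (dg Δ x []))]
    · apply Finset.sum_congr rfl
      intro c hc
      rw [Finset.mem_range] at hc
      unfold gz sz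
      by_cases hZ : Zz Δ lam (sub x c)
      · simp [inC, hZ]
      · simp [inC, hZ, hc]
    · intro c hc
      rw [Finset.mem_range] at hc
      simp [inC, hc]

lemma one_le_sz (Δ : ℕ) (lam : ℝ) (x : Env) : 1 ≤ sz Δ lam x := by
  rw [sz_eq]; exact le_self_add

lemma gz_swEnv (Δ : ℕ) (lam : ℝ) (x : Env) (i c : ℕ) :
    gz Δ lam (swEnv i x) c = gz Δ lam x (Equiv.swap 0 i c) := by
  unfold gz
  rw [sub_swEnv]

lemma sum_swap {M : Type*} [AddCommMonoid M] (g : ℕ → M) {i n : ℕ} (hi : i < n) :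
    ∑ c ∈ Finset.range n, g (Equiv.swap 0 i c) = ∑ c ∈ Finset.range n, g c := by
  refine Finset.sum_equiv (Equiv.swap 0 i) ?_ ?_
  · intro c
    simp only [Finset.mem_range]
    rw [Equiv.swap_apply_def]
    split_ifs with h1 h2
    · subst h1; omega
    · subst h2; omega
    · rfl
  · intro c _
    rfl

lemma dg_swEnv_nil (Δ : ℕ) (x : Env) (i : ℕ) : dg Δ (swEnv i x) [] = dg Δ x [] := rfl

lemma sz_swEnv {Δ : ℕ} {lam : ℝ} {x : Env} {i : ℕ} (hi : i < dg Δ x []) :
    sz Δ lam (swEnv i x) = sz Δ lam x := by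
  rw [sz_eq, sz_eq]
  congr 1
  simp only [gz_swEnv, dg_swEnv_nil]
  exact sum_swap _ hi

lemma sz_bump {Δ : ℕ} {lam : ℝ} {y : Env} (hy : Bdd Δ y) :
    sz Δ lam (bump y) = gz Δ lam y 0 + sz Δ lam (sub (rr y) 0) := by
  rw [sz_eq, sz_eq, dg_bump_nil hy, dg_sub_rr_nil hy, Finset.sum_range_succ']
  have h1 : ∀ c, gz Δ lam (bump y) (c + 1) = gz Δ lam (sub (rr y) 0) c := by
    intro c
    unfold gz
    rw [sub_bump, sub_sub_rr]
  have h2 : gz Δ lam (bump y) 0 = gz Δ lam y 0 := by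
    unfold gz
    rw [sub_bump]
  simp only [h1, h2]
  ring

/-- a function with `tt a b + tt b a = 1` -/
def tt (a b : ℝ≥0∞) : ℝ≥0∞ :=
  if a = ∞ then (if b = ∞ then 1 / 2 else 1) else (if b = ∞ then 0 else a / (a + b))

lemma tt_add {a b : ℝ≥0∞} (ha : a ≠ 0) : tt a b + tt b a = 1 := by
  unfold tt
  by_cases h1 : a = ∞
  · by_cases h2 : b = ∞
    · simp only [h1, h2, if_true]
      simp [ENNReal.inv_two_add_inv_two]
    · simp [h1, h2]
  · by_cases h2 : b = ∞
    · simp [h1, h2]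
    · simp only [h1, h2, if_false]
      rw [add_comm b a, ENNReal.div_add_div_same]
      apply ENNReal.div_self
      · simp [ha]
      · simp [h1, h2]

lemma tt_zero (b : ℝ≥0∞) : tt 0 b = 0 := by
  unfold tt
  by_cases h2 : b = ∞
  · simp [h2]
  · simp [h2]

lemma sum_tt (s : Finset ℕ) (g : ℕ → ℝ≥0∞) :
    1 ≤ ∑ c ∈ s, tt (g c) (1 + ∑ j ∈ s.erase c, g j) +
      (if 1 + ∑ c ∈ s, g c = ∞ then 0 else (1 + ∑ c ∈ s, g c)⁻¹) := by
  have hsplit : ∀ c ∈ s, g c + (1 + ∑ j ∈ s.erase c, g j) = 1 + ∑ j ∈ s, g j := by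
    intro c hc
    rw [← Finset.add_sum_erase s g hc]
    ring
  by_cases hT : 1 + ∑ c ∈ s, g c = ∞
  · rw [if_pos hT, add_zero]
    have hT' : ∑ c ∈ s, g c = ∞ := by
      by_contra h
      exact (ENNReal.add_ne_top.2 ⟨ENNReal.one_ne_top, h⟩) hT
    rw [ENNReal.sum_eq_top] at hT'
    obtain ⟨c, hc, hgc⟩ := hT'
    by_cases hr : 1 + ∑ j ∈ s.erase c, g j = ∞
    · have hr' : ∑ j ∈ s.erase c, g j = ∞ := by
        by_contra h
        exact (ENNReal.add_ne_top.2 ⟨ENNReal.one_ne_top, h⟩) hr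
      rw [ENNReal.sum_eq_top] at hr'
      obtain ⟨d, hd, hgd⟩ := hr'
      rw [Finset.mem_erase] at hd
      have hrd : 1 + ∑ j ∈ s.erase d, g j = ∞ := by
        rw [ENNReal.add_eq_top]
        right
        rw [ENNReal.sum_eq_top]
        exact ⟨c, Finset.mem_erase.2 ⟨hd.1.symm, hc⟩, hgc⟩
      have h1 : tt (g c) (1 + ∑ j ∈ s.erase c, g j) = 1 / 2 := by
        unfold tt; rw [if_pos hgc, if_pos hr]
      have h2 : tt (g d) (1 + ∑ j ∈ s.erase d, g j) = 1 / 2 := by
        unfold tt; rw [if_pos hgd, if_pos hrd]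
      calc (1 : ℝ≥0∞) = 1 / 2 + 1 / 2 := by simp [ENNReal.inv_two_add_inv_two]
        _ = ∑ k ∈ ({c, d} : Finset ℕ), tt (g k) (1 + ∑ j ∈ s.erase k, g j) := by
            rw [Finset.sum_pair hd.1.symm, h1, h2]
        _ ≤ ∑ c ∈ s, tt (g c) (1 + ∑ j ∈ s.erase c, g j) := by
            apply Finset.sum_le_sum_of_subset
            intro k hk
            rw [Finset.mem_insert, Finset.mem_singleton] at hk
            rcases hk with rfl | rfl
            · exact hc
            · exact hd.2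
    · have h1 : tt (g c) (1 + ∑ j ∈ s.erase c, g j) = 1 := by
        unfold tt; rw [if_pos hgc, if_neg hr]
      refine h1.symm.le.trans ?_
      exact Finset.single_le_sum (f := fun c => tt (g c) (1 + ∑ j ∈ s.erase c, g j))
        (fun _ _ => bot_le) hc
  · rw [if_neg hT]
    have h1 : ∀ c ∈ s, tt (g c) (1 + ∑ j ∈ s.erase c, g j) = g c / (1 + ∑ j ∈ s, g j) := by
      intro c hc
      have h2 := hsplit c hc
      have h3 : g c ≠ ∞ := by
        intro h; rw [h, top_add] at h2; exact hT h2.symm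
      have h4 : 1 + ∑ j ∈ s.erase c, g j ≠ ∞ := by
        intro h; rw [h, add_top] at h2; exact hT h2.symm
      unfold tt
      rw [if_neg h3, if_neg h4, h2]
    rw [Finset.sum_congr rfl h1]
    simp only [div_eq_mul_inv]
    rw [← Finset.sum_mul]
    have : (∑ i ∈ s, g i) * (1 + ∑ j ∈ s, g j)⁻¹ + (1 + ∑ c ∈ s, g c)⁻¹ =
        (1 + ∑ j ∈ s, g j) * (1 + ∑ j ∈ s, g j)⁻¹ := by ring
    rw [this, ENNReal.mul_inv_cancel]
    · simp
    · exact hT

/-- numbers which are eigenvalues of a 0/1 matrix of size at most `N` -/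
def Ev (N : ℕ) : Set ℝ := {lam | ∃ n ≤ N, ∃ M : Fin n → Fin n → Bool, ∃ u : Fin n → ℝ, u ≠ 0 ∧
  ∀ i, ∑ j, (if M i j then u j else 0) = lam * u i}

lemma Ev_finite (N : ℕ) : (Ev N).Finite := by
  have h : Ev N ⊆ ⋃ n ∈ Set.Iic N, ⋃ M : Fin n → Fin n → Bool,
      {lam | Module.End.HasEigenvalue
        (Matrix.toLin' (Matrix.of (fun i j => if M i j then (1 : ℝ) else 0))) lam} := by
    rintro lam ⟨n, hn, M, u, hu, h⟩
    simp only [Set.mem_iUnion]
    refine ⟨n, hn, M, ?_⟩
    rw [Set.mem_ofPred_eq]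
    apply Module.End.hasEigenvalue_of_hasEigenvector (x := u)
    rw [Module.End.hasEigenvector_iff, Module.End.mem_eigenspace_iff]
    refine ⟨?_, hu⟩
    ext i
    rw [Matrix.toLin'_apply, Matrix.mulVec, dotProduct]
    simp only [Matrix.of_apply, Pi.smul_apply, smul_eq_mul, ite_mul, one_mul, zero_mul]
    exact h i
  refine Set.Finite.subset ?_ h
  refine Set.Finite.biUnion (Set.finite_Iic N) ?_
  intro n _
  refine Set.finite_iUnion ?_
  intro M
  exact Module.End.finite_hasEigenvalue _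

/-- if the block of a root of type P is finite, then `lam` is an eigenvalue of a 0/1 matrix -/
lemma mem_Ev_of_sz_le {Δ : ℕ} {lam : ℝ} {x : Env} {N : ℕ} (hP : Pp Δ lam x)
    (hs : sz Δ lam x ≤ N) : lam ∈ Ev N := by
  set F := phi Δ lam x [] with hF
  have hFm : HK Δ lam x 0 F := HK_zero_iff.2 (phi_mem _ _ _ _)
  have hF0 : F [] ≠ 0 := ne_of_gt hP
  set S : Set (List ℕ) := {v | inC Δ lam v x} with hS
  have henc : sz Δ lam x = (S.encard : ℝ≥0∞) := by
    rw [← ENNReal.tsum_set_one, tsum_subtype S (fun _ => (1 : ℝ≥0∞))]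
    unfold sz
    congr 1
  have hfin : S.Finite := by
    rw [← Set.encard_ne_top_iff]
    intro h
    rw [henc, h] at hs
    simp at hs
  have hcard : hfin.toFinset.card ≤ N := by
    rw [henc, hfin.encard_eq_coe_toFinset_card] at hs
    exact_mod_cast hs
  set T := hfin.toFinset with hT
  have hTS : ∀ v, v ∈ T ↔ inC Δ lam v x := fun v => by rw [hT, hfin.mem_toFinset]; rfl
  set e := T.equivFin with he
  refine ⟨T.card, hcard, fun i j => decide ((e.symm j : List ℕ) ∈ nbr Δ x (e.symm i)),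
    fun i => F (e.symm i), ?_, ?_⟩
  · intro h0
    have hnil : ([] : List ℕ) ∈ T := (hTS []).2 trivial
    have := congrFun h0 (e ⟨[], hnil⟩)
    simp only [Equiv.symm_apply_apply, Pi.zero_apply] at this
    exact hF0 this
  · intro i
    set v : List ℕ := (e.symm i : List ℕ) with hv
    have hvT : v ∈ T := (e.symm i).2
    have hvC : inC Δ lam v x := (hTS v).1 hvT
    have h1 : ∑ j, (if decide ((e.symm j : List ℕ) ∈ nbr Δ x v) = true then F (e.symm j) else 0) =
        ∑ w ∈ T, (if w ∈ nbr Δ x v then F w else 0) := by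
      simp only [decide_eq_true_eq]
      rw [← Finset.sum_coe_sort T]
      exact e.symm.sum_comp (fun w : T => if (w : List ℕ) ∈ nbr Δ x v then F w else 0)
    rw [h1, ← Finset.sum_filter]
    have h2 : ∑ w ∈ T with w ∈ nbr Δ x v, F w = ∑ w ∈ nbr Δ x v, F w := by
      apply Finset.sum_subset
      · intro w hw
        exact (Finset.mem_filter.1 hw).2
      · intro w hw hw2
        rw [Finset.mem_filter, not_and'] at hw2
        have hwT := hw2 hw
        rw [hTS] at hwT
        rw [mem_nbr] at hw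
        rcases hw with ⟨c, hc, rfl⟩ | ⟨c, hc, hvw⟩
        · exact HK_boundary_zero v hFm hF0 hvC hc hwT
        · exfalso
          apply hwT
          rw [hvw] at hvC
          exact (inC_of_append w hvC).1
    rw [h2, ← Aop_eq_sum_nbr]
    have h3 : Lop Δ lam x F = 0 := mem_Kx.1 (HK_zero_iff.1 hFm)
    have h4 := Lop_apply Δ lam x F v
    rw [h3] at h4
    have h5 : (0 : H) v = 0 := rfl
    rw [h5] at h4
    linarith

end Pool.Agent.H94
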