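import Pool.Agent.H94.GF

set_option autoImplicit false
open scoped ENNReal InnerProductSpace Classical
open Filter Topology MeasureTheory

noncomputable section

namespace Pool.Agent.H94

variable {Δ : ℕ} {lam : ℝ} {μ0 qh : Measure ℕ} [IsProbabilityMeasure μ0] [IsProbabilityMeasure qh]
  {m : ℝ≥0∞}

lemma final_of_Z_null (hpos : 0 < Δ) (h0 : ∀ᵐ y ∂(QQ qh), ∀ v, y v ≠ 0)
    (h0' : ∀ᵐ x ∂(PP μ0 qh), x [] ≠ 0)
    (hb : ∀ᵐ y ∂(QQ qh), Bdd Δ y) (hroot : ∀ᵐ x ∂(PP μ0 qh), x [] ≤ Δ)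
    (hm : ∀ k : ℕ, ((k : ℝ≥0∞) + 1) * μ0 {k + 1} = m * qh {k})
    (hZ : QQ qh {x | Zz Δ lam x} = 0) :
    ∫⁻ x, ENNReal.ofReal (aa Δ lam x) ∂(PP μ0 qh) = 0 := by
  have h1 := infinite_null (lam := lam) hb hroot hm
  have h2 := finite_null (lam := lam) hpos h0 hZ
  have hms : MeasurableSet {x : Env | sz Δ lam x ≠ ∞} :=
    (measurable_sz Δ lam (measurableSet_singleton _)).compl
  have h3 := PP_sub_null (μ0 := μ0) hms 0 h2
  have h4 := PP_sub_null (μ0 := μ0) (measurableSet_Zz Δ lam) 0 hZ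
  have hmeas : Measurable (fun x : Env => ENNReal.ofReal (aa Δ lam x)) :=
    ENNReal.measurable_ofReal.comp (measurable_aa Δ lam)
  rw [lintegral_eq_zero_iff hmeas]
  rw [measure_eq_zero_iff_ae_notMem] at h1 h3 h4
  filter_upwards [h1, h3, h4, h0'] with x hx1 hx3 hx4 hx5
  simp only [not_not] at hx3
  have hx4' : ¬ Zz Δ lam (sub x 0) := hx4
  by_cases hP : Pp Δ lam x
  · exfalso
    apply hx1
    refine ⟨hP, ?_⟩
    rw [sz_eq]
    have hd : 0 < dg Δ x [] := by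
      unfold dg
      omega
    have h5 : gz Δ lam x 0 = ∞ := by
      unfold gz; rw [if_neg hx4', hx3]
    have h6 : ∑ c ∈ Finset.range (dg Δ x []), gz Δ lam x c = ∞ := by
      rw [ENNReal.sum_eq_top]
      exact ⟨0, Finset.mem_range.2 hd, h5⟩
    rw [h6, add_top]
  · unfold Pp at hP
    have : aa Δ lam x = 0 := le_antisymm (not_lt.1 hP) (aa_nonneg _ _ _)
    simp [this]

lemma q_sq_le (hb : ∀ᵐ y ∂(QQ qh), Bdd Δ y) (hroot : ∀ᵐ x ∂(PP μ0 qh), x [] ≤ Δ)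
    (hroot2 : ∀ᵐ x ∂(PP μ0 qh), 2 ≤ x [])
    (hm : ∀ k : ℕ, ((k : ℝ≥0∞) + 1) * μ0 {k + 1} = m * qh {k}) {N : ℕ}
    (hlam : lam ∉ Ev N) :
    (QQ qh {x | Pp Δ lam x}) ^ 2 ≤ (N : ℝ≥0∞)⁻¹ := by
  have h1 := basic_ineq (lam := lam) hb hroot hroot2 hm
  rw [PP_two] at h1
  refine (le_add_self.trans h1).trans ?_
  calc ∫⁻ x, {x | Pp Δ lam x}.indicator (isz Δ lam) x ∂(PP μ0 qh) ≤
      ∫⁻ x, (N : ℝ≥0∞)⁻¹ ∂(PP μ0 qh) := by
        apply lintegral_mono
        intro x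
        by_cases hP : x ∈ {x | Pp Δ lam x}
        · rw [Set.indicator_of_mem hP]
          unfold isz
          split_ifs
          · exact bot_le
          · rw [ENNReal.inv_le_inv]
            by_contra h
            exact hlam (mem_Ev_of_sz_le hP (not_le.1 h).le)
        · rw [Set.indicator_of_notMem hP]
          exact bot_le
    _ = (N : ℝ≥0∞)⁻¹ := by simp

lemma P_le_Z (hpos : 0 < Δ) (h0 : ∀ᵐ y ∂(QQ qh), ∀ v, y v ≠ 0) :
    QQ qh {x | Pp Δ lam x} ≤ QQ qh {x | Zz Δ lam x} := by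
  rw [← QQ_sub {x | Pp Δ lam x} (measurableSet_Pp Δ lam) 0]
  apply measure_mono_ae
  filter_upwards [h0] with x hx hP
  refine ⟨0, ?_, hP⟩
  unfold dg
  have := hx []
  omega

lemma Z_null_of (hΔ : 2 ≤ Δ) (hq0 : qh {0} = 0)
    (hb : ∀ᵐ y ∂(QQ qh), Bdd Δ y) (hroot : ∀ᵐ x ∂(PP μ0 qh), x [] ≤ Δ)
    (hroot2 : ∀ᵐ x ∂(PP μ0 qh), 2 ≤ x [])
    (hm : ∀ k : ℕ, ((k : ℝ≥0∞) + 1) * μ0 {k + 1} = m * qh {k}) (hm0 : m ≠ 0)
    (p : ℝ) (hp0 : 0 ≤ p) (hp1 : p < 1) (hp : qh {1} = ENNReal.ofReal p) {N : ℕ}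
    (hN0 : 0 < N)
    (hN1 : (32 * Δ / (1 - p)) ^ 2 ≤ (N : ℝ)) (hN2 : 4 * Δ / (1 - p) < (2 / (1 + p)) ^ N)
    (hlam : lam ∉ Ev N) : QQ qh {x | Zz Δ lam x} = 0 := by
  set q : ℝ := (QQ qh {x | Pp Δ lam x}).toReal with hq
  set r : ℝ := (QQ qh {x | Zz Δ lam x}).toReal with hr
  have hqe : QQ qh {x | Pp Δ lam x} = ENNReal.ofReal q := by
    rw [hq, ENNReal.ofReal_toReal (measure_ne_top _ _)]
  have hre : QQ qh {x | Zz Δ lam x} = ENNReal.ofReal r := by
    rw [hr, ENNReal.ofReal_toReal (measure_ne_top _ _)]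
  have hq_nn : 0 ≤ q := ENNReal.toReal_nonneg
  have hr_nn : 0 ≤ r := ENNReal.toReal_nonneg
  have hNR : (0 : ℝ) < N := by exact_mod_cast hN0
  have hΔR : (2 : ℝ) ≤ Δ := by exact_mod_cast hΔ
  have hp1' : 0 < 1 - p := by linarith
  have h1 : q ^ 2 ≤ (N : ℝ)⁻¹ := by
    have := q_sq_le (lam := lam) hb hroot hroot2 hm hlam
    rw [hqe, ← ENNReal.ofReal_pow hq_nn, ← ENNReal.ofReal_natCast,
      ← ENNReal.ofReal_inv_of_pos hNR] at this
    exact (ENNReal.ofReal_le_ofReal_iff (by positivity)).1 this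
  have h2 : r ≤ Δ * q := by
    have := Zz_le (Δ := Δ) (lam := lam) (qh := qh)
    rw [hqe, hre, ← ENNReal.ofReal_natCast, ← ENNReal.ofReal_mul (by positivity)] at this
    exact (ENNReal.ofReal_le_ofReal_iff (by positivity)).1 this
  have h3 : r ≤ (1 - p) / 32 := by
    have h4 : r ^ 2 ≤ ((1 - p) / 32) ^ 2 := by
      calc r ^ 2 ≤ (Δ * q) ^ 2 := by gcongr
        _ = Δ ^ 2 * q ^ 2 := by ring
        _ ≤ Δ ^ 2 * (N : ℝ)⁻¹ := by gcongr
        _ ≤ ((1 - p) / 32) ^ 2 := by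
            rw [← div_eq_mul_inv, div_le_iff₀ hNR]
            have : ((1 - p) / 32) ^ 2 * (32 * Δ / (1 - p)) ^ 2 = (Δ : ℝ) ^ 2 := by
              field_simp
            rw [← this]
            gcongr
    exact le_of_sq_le_sq h4 (by positivity)
  set X : ℝ := 4 * r / (1 - p) with hX
  have hX0 : 0 ≤ X := by positivity
  have hX8 : X ≤ 1 / 8 := by
    rw [hX, div_le_iff₀ hp1']
    linarith
  have hrX : r ≤ X := by
    rw [hX, le_div_iff₀ hp1']
    nlinarith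
  set t : ℝ := 2 / (1 + p) with ht
  have ht0 : 0 < t := by positivity
  have ht1 : 1 ≤ t := by
    rw [ht, le_div_iff₀ (by linarith)]
    linarith
  have hineq : t * (p * X + (1 - p) * X ^ 2) ≤ X - r := by
    have h5 : r = X * (1 - p) / 4 := by
      rw [hX]; field_simp
    rw [ht, div_mul_eq_mul_div, div_le_iff₀ (by linarith), h5]
    nlinarith [mul_nonneg hX0 hp1'.le, mul_nonneg (mul_nonneg hX0 hp1'.le) hp0,
      mul_nonneg (mul_nonneg hX0 hp1'.le) (by linarith : 0 ≤ 1 / 8 - X)]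
  have hYnn : 0 ≤ X - r := by linarith
  have hadd : QQ qh {x | Zz Δ lam x} + ENNReal.ofReal (X - r) = ENNReal.ofReal X := by
    rw [hre, ← ENNReal.ofReal_add hr_nn hYnn]
    congr 1
    ring
  have hY1 : QQ qh {x | Zz Δ lam x} + ENNReal.ofReal (X - r) ≤ 1 := by
    rw [hadd, ← ENNReal.ofReal_one]
    exact ENNReal.ofReal_le_ofReal (by linarith)
  have hY2 : ENNReal.ofReal t * (qh {1} * (QQ qh {x | Zz Δ lam x} + ENNReal.ofReal (X - r)) +
      (1 - qh {1}) * (QQ qh {x | Zz Δ lam x} + ENNReal.ofReal (X - r)) ^ 2) ≤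
      ENNReal.ofReal (X - r) := by
    rw [hadd, hp, ← ENNReal.ofReal_one, ← ENNReal.ofReal_sub _ hp0, ← ENNReal.ofReal_pow hX0,
      ← ENNReal.ofReal_mul hp0, ← ENNReal.ofReal_mul hp1'.le,
      ← ENNReal.ofReal_add (by positivity) (by positivity), ← ENNReal.ofReal_mul ht0.le]
    exact ENNReal.ofReal_le_ofReal hineq
  have h6 := P_finite_le (lam := lam) hΔ hq0 (ENNReal.ofReal t) (ENNReal.ofReal (X - r))
    (by rw [← ENNReal.ofReal_one]; exact ENNReal.ofReal_le_ofReal ht1) N hlam hY1 hY2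
  have h7 := inf_mul_Z (lam := lam) hb hroot hm hm0
  by_contra hZ
  have h8 : QQ qh {x | Pp Δ lam x ∧ sz Δ lam x = ∞} = 0 := by
    rcases mul_eq_zero.1 h7 with h | h
    · exact absurd h hZ
    · exact h
  have h9 : QQ qh {x | Pp Δ lam x} ≤ QQ qh {x | Pp Δ lam x ∧ sz Δ lam x ≠ ∞} := by
    calc QQ qh {x | Pp Δ lam x} ≤ QQ qh ({x | Pp Δ lam x ∧ sz Δ lam x = ∞} ∪
          {x | Pp Δ lam x ∧ sz Δ lam x ≠ ∞}) := by
          apply measure_mono
          intro x hx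
          by_cases h : sz Δ lam x = ∞
          · left; exact ⟨hx, h⟩
          · right; exact ⟨hx, h⟩
      _ ≤ _ := (measure_union_le _ _).trans (by rw [h8, zero_add])
  have h10 : t ^ N * q ≤ X - r := by
    have : ENNReal.ofReal t ^ N * QQ qh {x | Pp Δ lam x} ≤ ENNReal.ofReal (X - r) :=
      le_trans (by gcongr) h6
    rw [hqe, ← ENNReal.ofReal_pow ht0.le, ← ENNReal.ofReal_mul (by positivity)] at this
    exact (ENNReal.ofReal_le_ofReal_iff hYnn).1 this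
  have hr0 : 0 < r := by
    rcases hr_nn.eq_or_lt with h | h
    · exfalso
      apply hZ
      rw [hre, ← h, ENNReal.ofReal_zero]
    · exact h
  have hq0' : 0 < q := by
    rcases hq_nn.eq_or_lt with h | h
    · rw [← h, mul_zero] at h2
      linarith
    · exact h
  have h11 : X ≤ 4 * Δ / (1 - p) * q := by
    rw [hX]
    calc 4 * r / (1 - p) ≤ 4 * (Δ * q) / (1 - p) := by gcongr
      _ = _ := by ring
  have h12 : 4 * Δ / (1 - p) * q < t ^ N * q := by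
    apply mul_lt_mul_of_pos_right hN2 hq0'
  linarith

/-- the core theorem on Galton-Watson environments -/
theorem core (hΔ : 2 ≤ Δ) (hq0 : qh {0} = 0) (hqΔ : ∀ k, Δ ≤ k → qh {k} = 0)
    (hμ : ∀ k, (k < 2 ∨ Δ < k) → μ0 {k} = 0)
    (hm : ∀ k : ℕ, ((k : ℝ≥0∞) + 1) * μ0 {k + 1} = m * qh {k}) (hm0 : m ≠ 0) :
    ∃ N : ℕ, ∀ lam : ℝ, lam ∉ Ev N →
      ∫⁻ x, ENNReal.ofReal (aa Δ lam x) ∂(PP μ0 qh) = 0 := by
  have aeq : ∀ s : Set ℕ, (∀ k, k ∉ s → qh {k} = 0) → ∀ᵐ k ∂qh, k ∈ s := by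
    intro s hs
    rw [ae_iff]
    have : {k | ¬ k ∈ s} = ⋃ k ∈ {k | ¬ k ∈ s}, {k} := by ext; simp
    rw [this, measure_biUnion_null_iff (Set.to_countable _)]
    intro k hk
    exact hs k hk
  have aeμ : ∀ s : Set ℕ, (∀ k, k ∉ s → μ0 {k} = 0) → ∀ᵐ k ∂μ0, k ∈ s := by
    intro s hs
    rw [ae_iff]
    have : {k | ¬ k ∈ s} = ⋃ k ∈ {k | ¬ k ∈ s}, {k} := by ext; simp
    rw [this, measure_biUnion_null_iff (Set.to_countable _)]
    intro k hk
    exact hs k hk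
  have hb : ∀ᵐ y ∂(QQ qh), Bdd Δ y := by
    have := ae_QQ_of (aeq {k | k < Δ} (fun k hk => hqΔ k (by simpa using hk)))
    filter_upwards [this] with y hy v using hy v
  have h0 : ∀ᵐ y ∂(QQ qh), ∀ v, y v ≠ 0 := by
    have := ae_QQ_of (aeq {k | k ≠ 0} (fun k hk => by
      have : k = 0 := by simpa using hk
      rw [this]; exact hq0))
    filter_upwards [this] with y hy v using hy v
  have hroot : ∀ᵐ x ∂(PP μ0 qh), x [] ≤ Δ := by
    have := ae_PP_root (qh := qh) (aeμ {k | k ≤ Δ} (fun k hk => hμ k (Or.inr (by simpa using hk))))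
    filter_upwards [this] with x hx using hx
  have hroot2 : ∀ᵐ x ∂(PP μ0 qh), 2 ≤ x [] := by
    have := ae_PP_root (qh := qh) (aeμ {k | 2 ≤ k} (fun k hk => hμ k (Or.inl (by simpa using hk))))
    filter_upwards [this] with x hx using hx
  have h0' : ∀ᵐ x ∂(PP μ0 qh), x [] ≠ 0 := by
    filter_upwards [hroot2] with x hx
    omega
  have hpos : 0 < Δ := by omega
  by_cases hp1 : qh {1} = 1
  · refine ⟨2, ?_⟩
    intro lam hlam
    refine final_of_Z_null hpos h0 h0' hb hroot hm ?_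
    have h1 : ∀ᵐ y ∂(QQ qh), y = fun _ => 1 := by
      have hs : ∀ᵐ k ∂qh, k ∈ ({1} : Set ℕ) := by
        rw [ae_iff]
        have e : {k | ¬ k ∈ ({1} : Set ℕ)} = ({1} : Set ℕ)ᶜ := rfl
        rw [e, prob_compl_eq_zero_iff (measurableSet_singleton 1)]
        exact hp1
      filter_upwards [ae_QQ_of hs] with y hy
      ext v
      exact hy v
    have h2 := q_sq_le (lam := lam) hb hroot hroot2 hm hlam
    have h3 : ¬ Pp Δ lam (fun _ => 1) := by
      intro hP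
      have h4 : QQ qh {x | Pp Δ lam x} = 1 := by
        have h5 : {x | Pp Δ lam x} ∈ ae (QQ qh) := by
          filter_upwards [h1] with y hy
          rw [hy]
          exact hP
        exact (mem_ae_iff_prob_eq_one (measurableSet_Pp Δ lam)).1 h5
      rw [h4, one_pow] at h2
      have : (1 : ℝ≥0∞) ≤ 2⁻¹ := by exact_mod_cast h2
      rw [ENNReal.one_le_inv] at this
      norm_num at this
    have h5 : QQ qh {x | Pp Δ lam x} = 0 := by
      rw [measure_eq_zero_iff_ae_notMem]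
      filter_upwards [h1] with y hy hP
      rw [hy] at hP
      exact h3 hP
    have h6 := Zz_le (Δ := Δ) (lam := lam) (qh := qh)
    rw [h5, mul_zero] at h6
    exact le_antisymm h6 bot_le
  · set p : ℝ := (qh {1}).toReal with hp
    have hpe : qh {1} = ENNReal.ofReal p := by
      rw [hp, ENNReal.ofReal_toReal (measure_ne_top _ _)]
    have hp0 : 0 ≤ p := ENNReal.toReal_nonneg
    have hp1' : p < 1 := by
      have h1 : qh {1} < 1 := lt_of_le_of_ne prob_le_one hp1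
      rw [hpe, ← ENNReal.ofReal_one] at h1
      exact (ENNReal.ofReal_lt_ofReal_iff (by norm_num)).1 h1
    have ht : 1 < 2 / (1 + p) := by
      rw [lt_div_iff₀ (by linarith)]
      linarith
    obtain ⟨N1, hN1⟩ := pow_unbounded_of_one_lt (4 * Δ / (1 - p)) ht
    obtain ⟨N2, hN2⟩ := exists_nat_ge ((32 * Δ / (1 - p)) ^ 2)
    refine ⟨max (max N1 N2) 1, ?_⟩
    intro lam hlam
    refine final_of_Z_null hpos h0 h0' hb hroot hm ?_
    refine Z_null_of hΔ hq0 hb hroot hroot2 hm hm0 p hp0 hp1' hpe (N := max (max N1 N2) 1)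
      (by omega) ?_ ?_ hlam
    · refine hN2.trans ?_
      exact_mod_cast (le_max_right N1 N2).trans (le_max_left _ _)
    · refine hN1.trans_le ?_
      exact pow_le_pow_right₀ ht.le ((le_max_left N1 N2).trans (le_max_left _ _))

end Pool.Agent.H94
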