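import Pool.Agent.H94.Iso

set_option autoImplicit false
open scoped ENNReal InnerProductSpace

noncomputable section

namespace Pool.Agent.H94

lemma rho_apply_nil (c : ℕ) (f : H) : rho c f [] = f [c] := rfl

lemma sum_rho_le (f : H) (n : ℕ) :
    f [] ^ 2 + ∑ i ∈ Finset.range n, ‖rho i f‖ ^ 2 ≤ ‖f‖ ^ 2 := by
  set S : ℝ := f [] ^ 2 + ∑ i ∈ Finset.range n, ‖rho i f‖ ^ 2 with hS
  set g : H := f [] • δ [] + ∑ i ∈ Finset.range n, iot i (rho i f) with hg
  have hin : ∀ h : H, ⟪g, h⟫_ℝ = f [] * h [] + ∑ i ∈ Finset.range n, ⟪rho i f, rho i h⟫_ℝ := by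
    intro h
    rw [hg, inner_add_left, inner_smul_left, inner_δ_left, sum_inner]
    simp only [inner_iot]
    rfl
  have h1 : ⟪g, f⟫_ℝ = S := by
    rw [hin, hS]
    congr 1
    · ring
    · apply Finset.sum_congr rfl
      intro i _
      rw [real_inner_self_eq_norm_sq]
  have hg0 : g [] = f [] := by
    rw [hg, lp.coeFn_add, Pi.add_apply, lp.coeFn_smul, Pi.smul_apply, δ_apply, lp.coeFn_sum,
      Finset.sum_apply]
    simp [iot_apply_nil]
  have hgi : ∀ i ∈ Finset.range n, rho i g = rho i f := by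
    intro i hi
    rw [hg, map_add, rho_smul_δ_nil, zero_add, map_sum, Finset.sum_eq_single i]
    · rw [rho_iot_same]
    · intro j _ hj
      exact rho_iot_ne i j hj.symm _
    · intro h; exact absurd hi h
  have h2 : ‖g‖ ^ 2 = S := by
    rw [← real_inner_self_eq_norm_sq, hin, hS, hg0]
    congr 1
    · ring
    · apply Finset.sum_congr rfl
      intro i hi
      rw [hgi i hi, real_inner_self_eq_norm_sq]
  have h3 : ⟪g, f⟫_ℝ ≤ ‖g‖ * ‖f‖ := real_inner_le_norm _ _
  rw [h1] at h3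
  have hS0 : 0 ≤ S := by rw [← h2]; positivity
  have h4 : S ^ 2 ≤ S * ‖f‖ ^ 2 := by
    have : S ^ 2 ≤ (‖g‖ * ‖f‖) ^ 2 := by
      apply pow_le_pow_left₀ hS0 h3
    calc S ^ 2 ≤ (‖g‖ * ‖f‖) ^ 2 := this
      _ = ‖g‖ ^ 2 * ‖f‖ ^ 2 := by ring
      _ = S * ‖f‖ ^ 2 := by rw [h2]
  rcases hS0.eq_or_lt with h5 | h5
  · rw [← h5]; positivity
  · nlinarith

/-- fraction of the mass of the eigenfunction of the root carried by child `i` -/
def th (Δ : ℕ) (lam : ℝ) (x : Env) (i : ℕ) : ℝ := ‖rho i (phi Δ lam x [])‖ ^ 2 / aa Δ lam x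

lemma th_nonneg (Δ : ℕ) (lam : ℝ) (x : Env) (i : ℕ) : 0 ≤ th Δ lam x i :=
  div_nonneg (by positivity) (aa_nonneg _ _ _)

lemma aa_add_sum_th_le {Δ : ℕ} {lam : ℝ} {x : Env} (h : Pp Δ lam x) :
    aa Δ lam x + ∑ i ∈ Finset.range (dg Δ x []), th Δ lam x i ≤ 1 := by
  have h1 := sum_rho_le (phi Δ lam x []) (dg Δ x [])
  rw [phi_norm_sq] at h1
  unfold th
  rw [← Finset.sum_div]
  have h2 : 0 < aa Δ lam x := h
  have h3 : aa Δ lam x = phi Δ lam x [] [] := rfl
  rw [← h3] at h1
  rw [← le_sub_iff_add_le', div_le_iff₀ h2]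
  nlinarith

lemma th_swEnv {Δ : ℕ} {lam : ℝ} {x : Env} {i : ℕ} (hi : i < dg Δ x []) :
    th Δ lam (swEnv i x) 0 = th Δ lam x i := by
  unfold th
  have h := swEnv_iso hi
  have h2 : rho 0 (relab (sw i) (phi Δ lam x [])) = rho i (phi Δ lam x []) := by
    ext v
    rw [rho_apply, relab_apply, sw_cons, Equiv.swap_apply_left]
    rfl
  rw [h.aa (sw_nil i), h.phi, sw_nil, h2]

/-- partition of the words into those in the subtree of child `0` and the others -/
lemma norm_sq_split (f : H) :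
    ‖f‖ ^ 2 = ‖rho 0 f‖ ^ 2 + ‖rho 0 (relab pr f)‖ ^ 2 := by
  have h1 := H.hasSum_norm_sq (rho 0 f)
  have h2 := H.hasSum_norm_sq (rho 0 (relab pr f))
  have hi1 : Function.Injective (fun v : List ℕ => 0 :: v) := cons_inj 0
  have hi2 : Function.Injective (fun v : List ℕ => pr (0 :: v)) :=
    pr.injective.comp (cons_inj 0)
  have h1' := (hi1.hasSum_range_iff (f := fun v => f v ^ 2)).2 h1
  have h2' := (hi2.hasSum_range_iff (f := fun v => f v ^ 2)).2 h2
  have hc : IsCompl (Set.range (fun v : List ℕ => (0 : ℕ) :: v))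
      (Set.range (fun v : List ℕ => pr ((0 : ℕ) :: v))) := by
    constructor
    · rw [Set.disjoint_left]
      rintro _ ⟨v, rfl⟩ ⟨w, hw⟩
      match w with
      | [] => simp at hw
      | c :: w => simp at hw
    · rw [codisjoint_iff_le_sup]
      intro v _
      match v with
      | [] => right; exact ⟨[], rfl⟩
      | 0 :: v => left; exact ⟨v, rfl⟩
      | (c + 1) :: v => right; exact ⟨c :: v, rfl⟩
  exact (H.hasSum_norm_sq f).unique (HasSum.add_isCompl hc h1' h2')

/-- bounded environments -/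
def Bdd (Δ : ℕ) (y : Env) : Prop := ∀ v, y v < Δ

lemma Bdd.rr {Δ : ℕ} {y : Env} (h : Bdd Δ y) : Bdd Δ (rr y) := fun v => h _

lemma dg_bump_nil {Δ : ℕ} {y : Env} (hy : Bdd Δ y) : dg Δ (bump y) [] = y [] + 1 := by
  unfold dg
  rw [bump_nil]
  have := hy []
  omega

lemma dg_bdd {Δ : ℕ} {y : Env} (hy : Bdd Δ y) (v : List ℕ) : dg Δ y v = y v := by
  unfold dg
  have := hy v
  omega

lemma sub_sub_rr (y : Env) (c : ℕ) : sub (sub (rr y) 0) c = sub y (c + 1) := by
  ext v; simp [sub, rr]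

lemma dg_sub_rr_nil {Δ : ℕ} {y : Env} (hy : Bdd Δ y) : dg Δ (sub (rr y) 0) [] = y [] := by
  rw [dg_sub, dg_bdd hy.rr]
  simp [rr]

lemma sub_rr_zero_nil (y : Env) : sub (rr y) 0 [] = y [] := rfl

/-- children of the root which are not of type P -/
lemma Pp_child {Δ : ℕ} {lam : ℝ} {x : Env} (h : Pp Δ lam x) {c : ℕ} (hc : c < dg Δ x []) :
    ¬ Pp Δ lam (sub x c) :=
  HK_child_not_Pp (HK_zero_iff.2 (phi_mem Δ lam x [])) (ne_of_gt h) hc

lemma Pp_not_Zz {Δ : ℕ} {lam : ℝ} {x : Env} (h : Pp Δ lam x) : ¬ Zz Δ lam x := by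
  rintro ⟨c, hc, hP⟩
  exact Pp_child h hc hP

/-- re-rooting inside a block -/
lemma reroot_block {Δ : ℕ} {lam : ℝ} {y : Env} (hy : Bdd Δ y) (hP : Pp Δ lam (bump y))
    (hZ : ¬ Zz Δ lam (sub y 0)) :
    Pp Δ lam (bump (rr y)) ∧ ¬ Zz Δ lam (sub (rr y) 0) ∧
      th Δ lam (bump y) 0 + th Δ lam (bump (rr y)) 0 = 1 := by
  set x := bump y with hx
  set F := phi Δ lam x [] with hF
  have hFm : F ∈ Kx Δ lam x := phi_mem _ _ _ _
  have hF0 : F [] ≠ 0 := ne_of_gt hP
  have hd : 0 < dg Δ x [] := by rw [dg_bump_nil hy]; omega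
  have hZ' : ¬ Zz Δ lam (sub x 0) := by rw [hx, sub_bump]; exact hZ
  have h1 : HK Δ lam (sub x 0) (-F []) (rho 0 F) := HK_rho_lt (HK_zero_iff.2 hFm) hd
  have h2 : F [0] ≠ 0 := HK_ne_zero h1 (neg_ne_zero.2 hF0) hZ'
  have hiso := bump_iso (Δ := Δ) hy
  have hcP : ∀ c, c < dg Δ x [] → ¬ Pp Δ lam (sub x c) := fun c hc => Pp_child hP hc
  have hP' : Pp Δ lam (bump (rr y)) := by
    refine Pp_of_mem (k := relab pr F) (hiso.mem_Kx hFm) ?_
    rw [relab_apply, pr_nil]
    exact h2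
  have hZr : ¬ Zz Δ lam (sub (rr y) 0) := by
    rintro ⟨c, hc, hPc⟩
    rw [dg_sub_rr_nil hy] at hc
    rw [sub_sub_rr] at hPc
    apply hcP (c + 1)
    · rw [dg_bump_nil hy]; omega
    · rw [hx, sub_bump]; exact hPc
  refine ⟨hP', hZr, ?_⟩
  set c := F [0] / F [] with hc
  have hc0 : c ≠ 0 := div_ne_zero h2 hF0
  have hphi : phi Δ lam x [0] = c • F := by
    symm
    apply phi_unique
    · exact Submodule.smul_mem _ _ hFm
    · intro k hk
      rw [inner_smul_left, phi_inner _ _ _ _ hk]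
      have hk' : k - (k [] / F []) • F ∈ Kx Δ lam x :=
        Submodule.sub_mem _ hk (Submodule.smul_mem _ _ hFm)
      have hk0 : (k - (k [] / F []) • F : H) [] = 0 := by
        rw [lp.coeFn_sub, Pi.sub_apply, lp.coeFn_smul, Pi.smul_apply, smul_eq_mul,
          div_mul_cancel₀ _ hF0, sub_self]
      have h3 : HK Δ lam (sub x 0) (-(k - (k [] / F []) • F : H) [])
          (rho 0 (k - (k [] / F []) • F)) := HK_rho_lt (HK_zero_iff.2 hk') hd
      rw [hk0, neg_zero, HK_zero_iff] at h3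
      have h4 : (k - (k [] / F []) • F : H) [0] = 0 := by
        by_contra h5
        exact hcP 0 hd (Pp_of_mem h3 h5)
      rw [lp.coeFn_sub, Pi.sub_apply, lp.coeFn_smul, Pi.smul_apply, smul_eq_mul] at h4
      have h6 : k [0] = k [] / F [] * F [0] := by linarith
      rw [h6, hc]
      simp only [conj_trivial]
      field_simp
  have h7 : phi Δ lam (bump (rr y)) [] = c • relab pr F := by
    rw [hiso.phi, pr_nil, ← hx, hphi, map_smul]
  have hFn : 0 < ‖F‖ ^ 2 := by
    have : F ≠ 0 := by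
      intro h; rw [h] at hF0; exact hF0 rfl
    have := norm_pos_iff.2 this
    positivity
  have h8 : aa Δ lam (bump (rr y)) = c ^ 2 * ‖F‖ ^ 2 := by
    unfold aa
    rw [← phi_norm_sq, h7, norm_smul, norm_relab, mul_pow, Real.norm_eq_abs, sq_abs]
  have h9 : aa Δ lam x = ‖F‖ ^ 2 := by
    unfold aa
    rw [← phi_norm_sq]
  have h10 : 0 < c ^ 2 := by positivity
  unfold th
  rw [h8, h9, h7, map_smul, norm_smul, mul_pow, Real.norm_eq_abs, sq_abs,
    mul_div_mul_left _ _ (ne_of_gt h10), ← add_div, ← hF, ← norm_sq_split F]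
  exact div_self (ne_of_gt hFn)

lemma rho_sum_iot (x : Env) (Δ : ℕ) (lam : ℝ) (n c : ℕ) :
    rho c (∑ j ∈ Finset.range n, iot j (phi Δ lam (sub x j) [])) =
      if c < n then phi Δ lam (sub x c) [] else 0 := by
  rw [map_sum]
  by_cases h : c < n
  · rw [if_pos h, Finset.sum_eq_single c]
    · rw [rho_iot_same]
    · intro j _ hj; exact rho_iot_ne c j hj.symm _
    · intro h'; exact absurd (Finset.mem_range.2 h) h'
  · rw [if_neg h]
    apply Finset.sum_eq_zero
    intro j hj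
    apply rho_iot_ne
    rintro rfl
    exact h (Finset.mem_range.1 hj)

lemma one_sub_smul' (r : ℝ) (f : H) : (1 - r) • f = f - r • f := by
  rw [sub_smul, one_smul]

/-- total mass of the children -/
def Sa (Δ : ℕ) (lam : ℝ) (x : Env) : ℝ := ∑ j ∈ Finset.range (dg Δ x []), aa Δ lam (sub x j)

lemma Sa_nonneg (Δ : ℕ) (lam : ℝ) (x : Env) : 0 ≤ Sa Δ lam x :=
  Finset.sum_nonneg (fun _ _ => aa_nonneg _ _ _)

lemma Zz_iff_Sa {Δ : ℕ} {lam : ℝ} {x : Env} : Zz Δ lam x ↔ 0 < Sa Δ lam x := by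
  unfold Zz Sa
  constructor
  · rintro ⟨c, hc, hP⟩
    refine Finset.sum_pos' (fun _ _ => aa_nonneg _ _ _) ⟨c, Finset.mem_range.2 hc, hP⟩
  · intro h
    obtain ⟨c, hc, h1⟩ := Finset.exists_ne_zero_of_sum_ne_zero (ne_of_gt h)
    exact ⟨c, Finset.mem_range.1 hc, lt_of_le_of_ne (aa_nonneg _ _ _) (Ne.symm h1)⟩

lemma Sa_bump {Δ : ℕ} {lam : ℝ} {y : Env} (hy : Bdd Δ y) :
    Sa Δ lam (bump y) = aa Δ lam (sub y 0) + Sa Δ lam (sub (rr y) 0) := by
  unfold Sa
  rw [dg_bump_nil hy, dg_sub_rr_nil hy, Finset.sum_range_succ', add_comm]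
  simp only [sub_bump, sub_sub_rr]

/-- re-rooting at a child of type P if there is another one -/
lemma reroot_boundary {Δ : ℕ} {lam : ℝ} {y : Env} (hy : Bdd Δ y) (hP0 : Pp Δ lam (sub y 0))
    (hZ : Zz Δ lam (sub (rr y) 0)) :
    Pp Δ lam (bump (rr y)) ∧
      th Δ lam (bump (rr y)) 0 = aa Δ lam (sub y 0) / Sa Δ lam (bump y) := by
  set x := bump y with hx
  set n := dg Δ x [] with hn
  have hn0 : 0 < n := by rw [hn, dg_bump_nil hy]; omega
  set a0 := aa Δ lam (sub x 0) with ha0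
  have ha0' : aa Δ lam (sub y 0) = a0 := by rw [ha0, hx, sub_bump]
  set s := Sa Δ lam x with hs
  have ha0pos : 0 < a0 := by rw [← ha0']; exact hP0
  have hs1 : s = a0 + Sa Δ lam (sub (rr y) 0) := by rw [hs, hx, Sa_bump hy, ha0']
  have hA : 0 < Sa Δ lam (sub (rr y) 0) := Zz_iff_Sa.1 hZ
  have hspos : 0 < s := by rw [hs1]; positivity
  set Ψ : H := ∑ j ∈ Finset.range n, iot j (phi Δ lam (sub x j) []) with hΨ
  set ψ : H := iot 0 (phi Δ lam (sub x 0) []) - (a0 / s) • Ψ with hψ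
  have hPx0 : Pp Δ lam (sub x 0) := by rw [hx, sub_bump]; exact hP0
  have hrho : ∀ c, rho c ψ = (if c = 0 then phi Δ lam (sub x 0) [] else 0) -
      (a0 / s) • (if c < n then phi Δ lam (sub x c) [] else 0) := by
    intro c
    rw [hψ, map_sub, map_smul, hΨ, rho_sum_iot]
    congr 1
    by_cases h : c = 0
    · subst h; rw [if_pos rfl, rho_iot_same]
    · rw [if_neg h, rho_iot_ne c 0 h]
  have hψ0 : ψ [] = 0 := by
    rw [hψ, hΨ, lp.coeFn_sub, Pi.sub_apply, iot_apply_nil, lp.coeFn_smul, Pi.smul_apply,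
      lp.coeFn_sum, Finset.sum_apply]
    simp [iot_apply_nil]
  have hψc : ∀ c, c < n → ψ [c] = (if c = 0 then a0 else 0) - (a0 / s) * aa Δ lam (sub x c) := by
    intro c hc
    rw [← rho_apply_nil, hrho, if_pos hc, lp.coeFn_sub, Pi.sub_apply, lp.coeFn_smul, Pi.smul_apply]
    by_cases h : c = 0
    · rw [if_pos h, if_pos h]; rfl
    · rw [if_neg h, if_neg h]; rfl
  have hψm : ψ ∈ Kx Δ lam x := by
    rw [← HK_zero_iff]
    apply HK_of
    · rw [hψ0, mul_zero, zero_add, Finset.sum_congr rfl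
        (fun c hc => hψc c (Finset.mem_range.1 hc)), Finset.sum_sub_distrib,
        Finset.sum_ite_eq', if_pos (Finset.mem_range.2 hn0), ← Finset.mul_sum]
      have : ∑ i ∈ Finset.range (dg Δ x []), aa Δ lam (sub x i) = s := rfl
      rw [this]
      field_simp
      ring
    · intro c
      rw [hψ0]
      simp only [ite_self, neg_zero]
      rw [HK_zero_iff, hrho]
      apply Submodule.sub_mem
      · split_ifs with h
        · subst h; exact phi_mem _ _ _ _
        · exact Submodule.zero_mem _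
      · apply Submodule.smul_mem
        split_ifs
        · exact phi_mem _ _ _ _
        · exact Submodule.zero_mem _
  have hphi : phi Δ lam x [0] = ψ := by
    symm
    apply phi_unique hψm
    intro k hk
    have hk' := HK_zero_iff.2 hk
    have hk0 : k [] = 0 := by
      have := HK_not_Pp (HK_rho_lt hk' hn0) hPx0
      linarith
    have hkc : ∀ c, rho c k ∈ Kx Δ lam (sub x c) := by
      intro c
      have := HK_rho hk' c
      rw [hk0] at this
      simp only [ite_self, neg_zero] at this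
      exact HK_zero_iff.1 this
    have hΨk : ⟪Ψ, k⟫_ℝ = 0 := by
      rw [hΨ, sum_inner]
      have : ∀ j ∈ Finset.range n, ⟪iot j (phi Δ lam (sub x j) []), k⟫_ℝ = k [j] := by
        intro j _
        rw [inner_iot, phi_inner _ _ _ _ (hkc j)]
        rfl
      rw [Finset.sum_congr rfl this]
      have := HK_nil hk'
      rw [hk0] at this
      simpa using this
    rw [hψ, inner_sub_left, inner_smul_left, hΨk, mul_zero, sub_zero, inner_iot,
      phi_inner _ _ _ _ (hkc 0)]
    rfl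
  clear_value ψ Ψ
  have hiso := bump_iso (Δ := Δ) hy
  have h7 : phi Δ lam (bump (rr y)) [] = relab pr ψ := by
    rw [hiso.phi, pr_nil, ← hx, hphi]
  have h8 : aa Δ lam (bump (rr y)) = a0 * (1 - a0 / s) := by
    unfold aa
    rw [h7, relab_apply, pr_nil, hψc 0 hn0, if_pos rfl]
    ring
  have h9 : ‖ψ‖ ^ 2 = a0 * (1 - a0 / s) := by
    rw [← hphi, phi_norm_sq, hphi, hψc 0 hn0, if_pos rfl]
    ring
  have h10 : ‖rho 0 ψ‖ ^ 2 = (1 - a0 / s) ^ 2 * a0 := by
    have e0 : (if (0 : ℕ) = 0 then phi Δ lam (sub x 0) [] else 0) = phi Δ lam (sub x 0) [] :=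
      if_pos (rfl : (0 : ℕ) = 0)
    have e00 : (if (0 : ℕ) < n then phi Δ lam (sub x 0) [] else 0) = phi Δ lam (sub x 0) [] :=
      if_pos hn0
    obtain ⟨r, hr⟩ : ∃ r : ℝ, r = 1 - a0 / s := ⟨_, rfl⟩
    have e1 : rho 0 ψ = r • phi Δ lam (sub x 0) [] := by
      refine (hrho 0).trans ?_
      rw [e0, e00, hr]
      exact (one_sub_smul' _ _).symm
    rw [e1, norm_smul, mul_pow, Real.norm_eq_abs, sq_abs, phi_norm_sq, hr]
    rfl
  have h11 : a0 / s < 1 := by
    rw [div_lt_one hspos, hs1]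
    linarith
  have h12 : 0 < a0 * (1 - a0 / s) := mul_pos ha0pos (by linarith)
  constructor
  · unfold Pp
    rw [h8]; exact h12
  · have h13 := norm_sq_split ψ
    unfold th
    rw [h7, h8, ha0']
    have h14 : ‖rho 0 (relab pr ψ)‖ ^ 2 = a0 * (1 - a0 / s) * (a0 / s) := by
      have : ‖rho 0 (relab pr ψ)‖ ^ 2 = ‖ψ‖ ^ 2 - ‖rho 0 ψ‖ ^ 2 := by linarith
      rw [this, h9, h10]
      ring
    rw [h14, mul_div_assoc, mul_comm, div_mul_cancel₀ _ (ne_of_gt h12)]

/-- extension of an eigenfunction over a boundary child -/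
lemma extend_boundary {Δ : ℕ} {lam : ℝ} {y : Env} (hy : Bdd Δ y) (hZ : Zz Δ lam (sub y 0))
    (hP : Pp Δ lam (sub (rr y) 0)) : Pp Δ lam (bump y) := by
  set x := bump y with hx
  set z := sub (rr y) 0 with hz
  set G := phi Δ lam z [] with hG
  have hGm : HK Δ lam z 0 G := HK_zero_iff.2 (phi_mem _ _ _ _)
  have hG0 : G [] ≠ 0 := ne_of_gt hP
  obtain ⟨d, hd, hPd⟩ := hZ
  set ad := aa Δ lam (sub (sub x 0) d) with had
  have hsx0 : sub x 0 = sub y 0 := by rw [hx, sub_bump]
  have had0 : ad ≠ 0 := by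
    rw [had, hsx0]; exact ne_of_gt hPd
  set w' : H := iot d ((-(G [] / ad)) • phi Δ lam (sub (sub x 0) d) []) with hw'
  have hw'0 : w' [] = 0 := by rw [hw', iot_apply_nil]
  have hw'c : ∀ c, w' [c] = if c = d then -G [] else 0 := by
    intro c
    rw [hw', iot_apply_cons]
    split_ifs
    · rw [lp.coeFn_smul, Pi.smul_apply]
      change -(G [] / ad) * ad = -G []
      field_simp
    · rfl
  have hw : HK Δ lam (sub x 0) (-G []) w' := by
    apply HK_of
    · rw [hw'0, mul_zero, zero_add]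
      simp only [hw'c]
      rw [Finset.sum_ite_eq', if_pos]
      rw [Finset.mem_range, hsx0]
      exact hd
    · intro c
      rw [hw'0]
      simp only [ite_self, neg_zero]
      rw [HK_zero_iff]
      by_cases h : c = d
      · subst h
        rw [hw', rho_iot_same]
        exact Submodule.smul_mem _ _ (phi_mem _ _ _ _)
      · rw [hw', rho_iot_ne c d h]
        exact Submodule.zero_mem _
  set F : H := relab pr (iot 0 G) + iot 0 w' with hF
  have hF0 : F [] = G [] := by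
    rw [hF, lp.coeFn_add, Pi.add_apply, relab_apply, pr_nil, iot_apply_cons, if_pos rfl,
      iot_apply_nil, add_zero]
  have hrho0 : rho 0 F = w' := by
    rw [hF, map_add, rho_iot_same]
    have : rho 0 (relab pr (iot 0 G)) = 0 := by
      ext v
      rw [rho_apply, relab_apply]
      cases v with
      | nil => rw [pr_zero, iot_apply_nil]; rfl
      | cons c v => rw [pr_zero_cons, iot_apply_cons, if_neg (by omega)]; rfl
    rw [this, zero_add]
  have hrhoc : ∀ c, rho (c + 1) F = rho c G := by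
    intro c
    rw [hF, map_add, rho_iot_ne (c + 1) 0 (by omega), add_zero]
    ext v
    rw [rho_apply, relab_apply, pr_succ_cons, iot_apply_cons, if_pos rfl]
    rfl
  have hFm : HK Δ lam x 0 F := by
    apply HK_of
    · rw [dg_bump_nil hy, Finset.sum_range_succ', hF0]
      have h1 : ∀ c, F [c + 1] = G [c] := by
        intro c
        rw [← rho_apply_nil, hrhoc]
        rfl
      have h2 : F [0] = 0 := by
        rw [← rho_apply_nil, hrho0, hw'0]
      simp only [h1]
      rw [h2, add_zero]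
      have h3 := HK_nil hGm
      rw [hz, dg_sub_rr_nil hy] at h3
      exact h3
    · intro c
      rw [hF0]
      cases c with
      | zero =>
        rw [if_pos (by rw [dg_bump_nil hy]; omega), hrho0]
        exact hw
      | succ c =>
        rw [hrhoc]
        have h1 := HK_rho hGm c
        rw [hz, dg_sub_rr_nil hy, sub_sub_rr] at h1
        rw [dg_bump_nil hy, hx, sub_bump]
        have h2 : (c + 1 < y [] + 1) ↔ c < y [] := by omega
        simp only [h2]
        exact h1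
  exact Pp_of_mem (HK_zero_iff.1 hFm) (by rw [hF0]; exact hG0)

end Pool.Agent.H94
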