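import Mathlib

/-!
Bookkeeping for the digits of a concatenation of words.
-/

namespace Pool.Agent.H94.Dig

open Finset

/-- length of the word of `y` in base `b` -/
def len (b y : ℕ) : ℕ := (Nat.digits b y).length

/-- start of the `j`-th word -/
def start (b : ℕ) (w : ℕ → ℕ) (j : ℕ) : ℕ := ∑ t ∈ range j, len b (w t)

/-- value of the `j`-th block of `m` digits -/
def blk (b m : ℕ) (d : ℕ → ℕ) (j : ℕ) : ℕ := ∑ i ∈ range m, d (m * j + i) * b ^ (m - 1 - i)

lemma start_succ (b : ℕ) (w : ℕ → ℕ) (j : ℕ) :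
    start b w (j + 1) = start b w j + len b (w j) := by
  unfold start; rw [Finset.sum_range_succ]

lemma len_pos (b y : ℕ) (hy : 1 ≤ y) : 1 ≤ len b y := by
  unfold len
  by_contra h
  have h1 : (Nat.digits b y).length = 0 := by omega
  rw [List.length_eq_zero_iff, Nat.digits_eq_nil_iff_eq_zero] at h1
  omega

lemma sum_pow_digits (b : ℕ) (m y : ℕ) :
    ∑ l ∈ range m, (y / b ^ l % b) * b ^ l = y % b ^ m := by
  induction m with
  | zero => simp [Nat.mod_one]
  | succ m ih =>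
    rw [Finset.sum_range_succ, ih, Nat.mod_pow_succ]
    ring

variable {b : ℕ} {w d : ℕ → ℕ}

/-- the digit property of the frozen statement -/
def IsConcat (b : ℕ) (w d : ℕ → ℕ) : Prop :=
  ∀ j i : ℕ, i < len b (w j) →
    d (start b w j + i) = ((Nat.digits b (w j)).reverse).getD i 0

lemma digit_val (hb : 2 ≤ b) (h : IsConcat b w d) (t i : ℕ) (hi : i < len b (w t)) :
    d (start b w t + i) = w t / b ^ (len b (w t) - 1 - i) % b := by
  rw [h t i hi]
  unfold len at hi ⊢
  rw [List.getD_eq_getElem _ _ (by rw [List.length_reverse]; exact hi), List.getElem_reverse,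
    ← List.getD_eq_getElem _ 0, Nat.getD_digits _ _ hb]

lemma block_val (hb : 2 ≤ b) (h : IsConcat b w d) (m t i0 σ : ℕ)
    (hi : i0 + m ≤ len b (w t)) (hσ : start b w t + i0 = m * σ) :
    blk b m d σ = w t / b ^ (len b (w t) - i0 - m) % b ^ m := by
  unfold blk
  rw [← sum_pow_digits, ← Finset.sum_range_reflect]
  apply Finset.sum_congr rfl
  intro i hi'
  rw [mem_range] at hi'
  have h1 : m * σ + (m - 1 - i) = start b w t + (i0 + (m - 1 - i)) := by omega
  rw [h1, digit_val hb h t _ (by omega), Nat.div_div_eq_div_mul, ← pow_add]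
  have h2 : len b (w t) - 1 - (i0 + (m - 1 - i)) = len b (w t) - i0 - m + i := by omega
  have h3 : m - 1 - (m - 1 - i) = i := by omega
  rw [h2, h3]

lemma start_mono (hw : ∀ t, 1 ≤ w t) (j : ℕ) : j ≤ start b w j := by
  induction j with
  | zero => exact Nat.zero_le _
  | succ j ih =>
    rw [start_succ]
    have := len_pos b (w j) (hw j)
    omega

lemma digit_lt (hb : 2 ≤ b) (hw : ∀ t, 1 ≤ w t) (h : IsConcat b w d) (n : ℕ) : d n < b := by
  have hex : ∃ j, n < start b w (j + 1) := ⟨n, by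
    have := start_mono (b := b) hw (n + 1)
    omega⟩
  classical
  obtain ⟨j, hj, hmin⟩ : ∃ j, n < start b w (j + 1) ∧ start b w j ≤ n := by
    refine ⟨Nat.find hex, Nat.find_spec hex, ?_⟩
    rcases Nat.eq_zero_or_pos (Nat.find hex) with h0 | h0
    · rw [h0]; simp [start]
    · have h1 := Nat.find_min hex (m := Nat.find hex - 1) (by omega)
      have h2 : Nat.find hex - 1 + 1 = Nat.find hex := by omega
      rw [h2] at h1
      omega
  obtain ⟨i, rfl⟩ : ∃ i, n = start b w j + i := ⟨n - start b w j, by omega⟩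
  rw [start_succ] at hj
  rw [digit_val hb h j i (by omega)]
  exact Nat.mod_lt _ (by omega)

lemma blk_lt (hb : 2 ≤ b) (hd : ∀ n, d n < b) (m j : ℕ) : blk b m d j < b ^ m := by
  unfold blk
  have h1 : ∑ i ∈ range m, d (m * j + i) * b ^ (m - 1 - i) ≤
      ∑ i ∈ range m, (b - 1) * b ^ i := by
    rw [← Finset.sum_range_reflect (fun i => (b - 1) * b ^ i)]
    apply Finset.sum_le_sum
    intro i _
    apply Nat.mul_le_mul_right
    have := hd (m * j + i)
    omega
  have h2 : ∀ m : ℕ, ∑ i ∈ range m, (b - 1) * b ^ i + 1 = b ^ m := by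
    intro m
    induction m with
    | zero => simp
    | succ m ih =>
      rw [Finset.sum_range_succ, pow_succ]
      have h3 : (b - 1) * b ^ m + b ^ m = b ^ m * b := by
        calc (b - 1) * b ^ m + b ^ m = (b - 1 + 1) * b ^ m := by ring
          _ = b ^ m * b := by rw [Nat.sub_add_cancel (by omega)]; ring
      omega
  have := h2 m
  omega

/-- the offset of the aligned blocks inside the words of a run of words of length `m * M` -/
def offset (b m : ℕ) (w : ℕ → ℕ) (T1 : ℕ) : ℕ := (m - start b w T1 % m) % m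

/-- index of the first aligned block inside word `t` -/
def sig (b m M : ℕ) (w : ℕ → ℕ) (T1 t : ℕ) : ℕ :=
  (start b w T1 + offset b m w T1) / m + (t - T1) * M

lemma offset_lt (b m : ℕ) (hm : 1 ≤ m) (w : ℕ → ℕ) (T1 : ℕ) : offset b m w T1 < m :=
  Nat.mod_lt _ hm

lemma sig_spec (m M : ℕ) (hm : 1 ≤ m) (T1 T2 : ℕ)
    (hlen : ∀ t, T1 ≤ t → t < T2 → len b (w t) = m * M) (t : ℕ) (h1 : T1 ≤ t) (h2 : t ≤ T2) :
    start b w t + offset b m w T1 = m * sig b m M w T1 t := by
  induction t, h1 using Nat.le_induction with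
  | base =>
    unfold sig
    rw [Nat.sub_self, zero_mul, add_zero]
    have hdvd : m ∣ start b w T1 + offset b m w T1 := by
      unfold offset
      rw [Nat.dvd_iff_mod_eq_zero, Nat.add_mod, Nat.mod_mod]
      rcases Nat.eq_zero_or_pos (start b w T1 % m) with h | h
      · rw [h]; simp
      · have h3 := Nat.mod_lt (start b w T1) (by omega : m > 0)
        rw [Nat.mod_eq_of_lt (a := m - start b w T1 % m) (by omega),
          show start b w T1 % m + (m - start b w T1 % m) = m by omega, Nat.mod_self]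
    exact (Nat.mul_div_cancel' hdvd).symm
  | succ t ht ih =>
    have ih' := ih (by omega)
    rw [start_succ, hlen t ht (by omega)]
    unfold sig at ih' ⊢
    have h3 : t + 1 - T1 = (t - T1) + 1 := by omega
    rw [h3]
    calc start b w t + m * M + offset b m w T1 = (start b w t + offset b m w T1) + m * M := by ring
      _ = m * ((start b w T1 + offset b m w T1) / m + (t - T1) * M) + m * M := by rw [ih']
      _ = _ := by ring

/-- splitting a run of blocks into words -/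
lemma sum_sig (m M T1 T2 : ℕ) (t1 t2 : ℕ) (h1 : T1 ≤ t1)
    (h12 : t1 ≤ t2) (h2 : t2 ≤ T2) (Φ : ℕ → ℝ) :
    ∑ j ∈ Ico (sig b m M w T1 t1) (sig b m M w T1 t2), Φ j =
      ∑ t ∈ Ico t1 t2, ∑ i ∈ range M, Φ (sig b m M w T1 t + i) := by
  induction t2, h12 using Nat.le_induction with
  | base => simp
  | succ t ht ih =>
    rw [Finset.sum_Ico_succ_top ht, ← ih (by omega)]
    have h3 : sig b m M w T1 (t + 1) = sig b m M w T1 t + M := by
      unfold sig
      have : t + 1 - T1 = (t - T1) + 1 := by omega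
      rw [this]; ring
    have h4 : sig b m M w T1 t1 ≤ sig b m M w T1 t := by
      unfold sig
      apply Nat.add_le_add_left
      apply Nat.mul_le_mul_right
      omega
    rw [h3, ← Finset.sum_Ico_consecutive Φ h4 (Nat.le_add_right _ _)]
    congr 1
    rw [Finset.sum_Ico_eq_sum_range, Nat.add_sub_cancel_left]

/-- number of blocks equal to `k` among the first `n` ones -/
def cnt (b m : ℕ) (d : ℕ → ℕ) (k n : ℕ) : ℕ := ((range n).filter (fun j => blk b m d j = k)).card

lemma sum_blocks_bound (m : ℕ) (hlt : ∀ j, blk b m d j < b ^ m) (G : ℕ → ℝ)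
    (hG : ∑ k ∈ range (b ^ m), G k = 0) (n1 n2 : ℕ) (h12 : n1 ≤ n2) (δ1 δ2 : ℝ)
    (h1 : ∀ k < b ^ m, |(cnt b m d k n1 : ℝ) - n1 / (b : ℝ) ^ m| ≤ δ1)
    (h2 : ∀ k < b ^ m, |(cnt b m d k n2 : ℝ) - n2 / (b : ℝ) ^ m| ≤ δ2) :
    |∑ j ∈ Ico n1 n2, G (blk b m d j)| ≤ (∑ k ∈ range (b ^ m), |G k|) * (δ1 + δ2) := by
  have hsum : ∀ n, ∑ j ∈ range n, G (blk b m d j) =
      ∑ k ∈ range (b ^ m), G k * (cnt b m d k n) := by
    intro n
    have h3 : ∀ j ∈ range n, G (blk b m d j) =
        ∑ k ∈ range (b ^ m), if blk b m d j = k then G k else 0 := by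
      intro j _
      rw [Finset.sum_ite_eq (range (b ^ m)) (blk b m d j), if_pos (mem_range.2 (hlt j))]
    rw [Finset.sum_congr rfl h3, Finset.sum_comm]
    apply Finset.sum_congr rfl
    intro k _
    unfold cnt
    rw [← Finset.sum_filter, Finset.sum_const, nsmul_eq_mul, mul_comm]
  have hsum' : ∀ n : ℕ, ∑ k ∈ range (b ^ m), G k * (cnt b m d k n) =
      ∑ k ∈ range (b ^ m), G k * ((cnt b m d k n : ℝ) - n / (b : ℝ) ^ m) := by
    intro n
    simp only [mul_sub]
    rw [Finset.sum_sub_distrib, ← Finset.sum_mul, hG, zero_mul, sub_zero]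
  have h3 : ∑ j ∈ Ico n1 n2, G (blk b m d j) =
      ∑ k ∈ range (b ^ m), G k * (((cnt b m d k n2 : ℝ) - n2 / (b : ℝ) ^ m) -
        ((cnt b m d k n1 : ℝ) - n1 / (b : ℝ) ^ m)) := by
    rw [Finset.sum_Ico_eq_sub _ h12, hsum, hsum, hsum', hsum', ← Finset.sum_sub_distrib]
    apply Finset.sum_congr rfl
    intro k _
    ring
  rw [h3, Finset.sum_mul]
  refine (Finset.abs_sum_le_sum_abs _ _).trans (Finset.sum_le_sum (fun k hk => ?_))
  rw [mem_range] at hk
  rw [abs_mul]
  apply mul_le_mul_of_nonneg_left _ (abs_nonneg _)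
  have h4 := abs_sub (((cnt b m d k n2 : ℝ) - n2 / (b : ℝ) ^ m))
    ((cnt b m d k n1 : ℝ) - n1 / (b : ℝ) ^ m)
  linarith [h1 k hk, h2 k hk]

/-- The main inequality for a window of words of equal length. -/
theorem window_sum_bound (hb : 2 ≤ b) (hw : ∀ t, 1 ≤ w t) (h : IsConcat b w d)
    (m M : ℕ) (hm : 1 ≤ m) (hM : 1 ≤ M) (T1 T2 : ℕ)
    (hlen : ∀ t, T1 ≤ t → t < T2 → len b (w t) = m * M) (t1 t2 : ℕ) (ht1 : T1 ≤ t1)
    (ht12 : t1 ≤ t2) (ht2 : t2 ≤ T2) (G : ℕ → ℝ) (A : ℝ) (hA : ∀ k < b ^ m, |G k| ≤ A)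
    (hG : ∑ k ∈ range (b ^ m), G k = 0) (δ1 δ2 : ℝ)
    (h1 : ∀ k < b ^ m, |(cnt b m d k (sig b m M w T1 t1) : ℝ) -
      (sig b m M w T1 t1 : ℕ) / (b : ℝ) ^ m| ≤ δ1)
    (h2 : ∀ k < b ^ m, |(cnt b m d k (sig b m M w T1 t2) : ℝ) -
      (sig b m M w T1 t2 : ℕ) / (b : ℝ) ^ m| ≤ δ2) :
    |∑ t ∈ Ico t1 t2, ∑ a ∈ range (M - 1),
      G (w t / b ^ ((m - offset b m w T1) + m * a) % b ^ m)| ≤
      ((t2 - t1 : ℕ) : ℝ) * A + (∑ k ∈ range (b ^ m), |G k|) * (δ1 + δ2) := by
  have hlt := fun j => blk_lt (b := b) hb (digit_lt hb hw h) m j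
  set o := offset b m w T1 with ho
  have hom : o < m := offset_lt b m hm w T1
  have hsig : sig b m M w T1 t1 ≤ sig b m M w T1 t2 := by
    unfold sig
    apply Nat.add_le_add_left
    apply Nat.mul_le_mul_right
    omega
  have h3 := sum_blocks_bound m hlt G hG _ _ hsig δ1 δ2 h1 h2
  have h4 := sum_sig (b := b) (w := w) m M T1 T2 t1 t2 ht1 ht12 ht2 (fun j => G (blk b m d j))
  rw [h4] at h3
  have h5 : ∑ t ∈ Ico t1 t2, ∑ i ∈ range M, G (blk b m d (sig b m M w T1 t + i)) =
      (∑ t ∈ Ico t1 t2, ∑ a ∈ range (M - 1), G (w t / b ^ ((m - o) + m * a) % b ^ m)) +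
      ∑ t ∈ Ico t1 t2, G (blk b m d (sig b m M w T1 t + (M - 1))) := by
    rw [← Finset.sum_add_distrib]
    apply Finset.sum_congr rfl
    intro t ht
    rw [mem_Ico] at ht
    obtain ⟨M', rfl⟩ : ∃ M', M = M' + 1 := ⟨M - 1, by omega⟩
    rw [Finset.sum_range_succ, Nat.add_sub_cancel]
    congr 1
    rw [← Finset.sum_range_reflect]
    apply Finset.sum_congr rfl
    intro a ha
    rw [mem_range] at ha
    have hs := sig_spec (b := b) (w := w) m (M' + 1) hm T1 T2 hlen t (by omega) (by omega)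
    rw [← ho] at hs
    have hl := hlen t (by omega) (by omega)
    have e1 : m * (M' + 1) = m * a + m * (M' - 1 - a) + m + m := by
      have : M' + 1 = a + (M' - 1 - a) + 1 + 1 := by omega
      calc m * (M' + 1) = m * (a + (M' - 1 - a) + 1 + 1) := by rw [← this]
        _ = _ := by ring
    rw [block_val hb h m t (o + m * (M' - 1 - a)) (sig b m (M' + 1) w T1 t + (M' - 1 - a))
      (by rw [hl]; omega) (by rw [← add_assoc, hs]; ring), hl]
    congr 4
    omega
  rw [h5] at h3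
  have h6 : |∑ t ∈ Ico t1 t2, G (blk b m d (sig b m M w T1 t + (M - 1)))| ≤
      ((t2 - t1 : ℕ) : ℝ) * A := by
    calc _ ≤ ∑ t ∈ Ico t1 t2, |G (blk b m d (sig b m M w T1 t + (M - 1)))| :=
          Finset.abs_sum_le_sum_abs _ _
      _ ≤ ∑ t ∈ Ico t1 t2, A := Finset.sum_le_sum (fun t _ => hA _ (hlt _))
      _ = _ := by rw [Finset.sum_const, Nat.card_Ico, nsmul_eq_mul]
  set X := ∑ t ∈ Ico t1 t2, ∑ a ∈ range (M - 1), G (w t / b ^ ((m - o) + m * a) % b ^ m)
  set Y := ∑ t ∈ Ico t1 t2, G (blk b m d (sig b m M w T1 t + (M - 1)))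
  have h7 : |X| ≤ |X + Y| + |Y| := by
    have := abs_sub (X + Y) Y
    rwa [add_sub_cancel_right] at this
  linarith

end Pool.Agent.H94.Dig
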