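import Pool.Agent.H94.Block

set_option autoImplicit false
open scoped ENNReal InnerProductSpace
open Filter Topology

noncomputable section

namespace Pool.Agent.H94

section gen
variable {E : Type*} [NormedAddCommGroup E] [InnerProductSpace ℝ E] [CompleteSpace E]

/-- the contraction `1 - C⁻² L²` -/
def Bgen (L : E →L[ℝ] E) (C : ℝ) : E →L[ℝ] E := 1 - (C⁻¹ ^ 2) • (L ^ 2)

omit [CompleteSpace E] in
lemma Bgen_apply (L : E →L[ℝ] E) (C : ℝ) (f : E) : Bgen L C f = f - (C⁻¹ ^ 2) • L (L f) := by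
  unfold Bgen
  rw [pow_two L]
  rfl

omit [CompleteSpace E] in
lemma Bgen_norm_le (L : E →L[ℝ] E) (C : ℝ) (hC : 0 < C) (hL : ‖L‖ ≤ C)
    (hs : ∀ f g, ⟪L f, g⟫_ℝ = ⟪f, L g⟫_ℝ) : ‖Bgen L C‖ ≤ 1 := by
  refine ContinuousLinearMap.opNorm_le_bound _ zero_le_one ?_
  intro f
  rw [one_mul, Bgen_apply]
  have h1 : ‖f - (C⁻¹ ^ 2) • L (L f)‖ ^ 2 = ‖f‖ ^ 2 - 2 * (C⁻¹ ^ 2 * ‖L f‖ ^ 2) +
      (C⁻¹ ^ 2) ^ 2 * ‖L (L f)‖ ^ 2 := by
    rw [norm_sub_sq_real, inner_smul_right, ← hs, real_inner_self_eq_norm_sq, norm_smul, mul_pow]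
    congr 2
    rw [Real.norm_eq_abs, sq_abs]
  have h2 : ‖L (L f)‖ ≤ C * ‖L f‖ := (L.le_opNorm _).trans (by gcongr)
  have h3 : ‖L (L f)‖ ^ 2 ≤ C ^ 2 * ‖L f‖ ^ 2 := by
    calc ‖L (L f)‖ ^ 2 ≤ (C * ‖L f‖) ^ 2 := by gcongr
      _ = _ := by ring
  have h4 : (C⁻¹ ^ 2) ^ 2 * ‖L (L f)‖ ^ 2 ≤ C⁻¹ ^ 2 * ‖L f‖ ^ 2 := by
    calc (C⁻¹ ^ 2) ^ 2 * ‖L (L f)‖ ^ 2 ≤ (C⁻¹ ^ 2) ^ 2 * (C ^ 2 * ‖L f‖ ^ 2) := by gcongr
      _ = C⁻¹ ^ 2 * ‖L f‖ ^ 2 := by field_simp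
  have h5 : ‖f - (C⁻¹ ^ 2) • L (L f)‖ ^ 2 ≤ ‖f‖ ^ 2 := by
    rw [h1]
    have : 0 ≤ C⁻¹ ^ 2 * ‖L f‖ ^ 2 := by positivity
    linarith
  have h6 := abs_le_of_sq_le_sq h5 (norm_nonneg _)
  rwa [abs_of_nonneg (norm_nonneg _)] at h6

omit [CompleteSpace E] in
lemma Bgen_fix (L : E →L[ℝ] E) (C : ℝ) (hC : 0 < C)
    (hs : ∀ f g, ⟪L f, g⟫_ℝ = ⟪f, L g⟫_ℝ) (f : E) : Bgen L C f = f ↔ L f = 0 := by
  rw [Bgen_apply]
  constructor
  · intro h
    have h1 : (C⁻¹ ^ 2) • L (L f) = 0 := by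
      have := sub_eq_self.1 h
      exact this
    have h2 : L (L f) = 0 := by
      rcases smul_eq_zero.1 h1 with h | h
      · exfalso
        have : C⁻¹ ^ 2 ≠ 0 := by positivity
        exact this h
      · exact h
    have h3 : ⟪L f, L f⟫_ℝ = 0 := by
      rw [hs, h2, inner_zero_right]
    exact inner_self_eq_zero.1 h3
  · intro h
    rw [h, map_zero, smul_zero, sub_zero]

omit [CompleteSpace E] in
lemma pow_apply_eq_iterate (T : E →L[ℝ] E) (k : ℕ) (v : E) : (T ^ k) v = T^[k] v := by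
  induction k with
  | zero => rfl
  | succ k ih =>
    rw [pow_succ', Function.iterate_succ_apply', ← ih]
    rfl

lemma Bgen_tendsto (L : E →L[ℝ] E) (C : ℝ) (hC : 0 < C) (hL : ‖L‖ ≤ C)
    (hs : ∀ f g, ⟪L f, g⟫_ℝ = ⟪f, L g⟫_ℝ) (v : E) :
    ∃ p : E, L p = 0 ∧ (∀ k, L k = 0 → ⟪p, k⟫_ℝ = ⟪v, k⟫_ℝ) ∧
      Tendsto (fun N : ℕ => (N : ℝ)⁻¹ • ∑ k ∈ Finset.range N, (Bgen L C ^ k) v) atTop (𝓝 p) := by
  have h1 := ContinuousLinearMap.tendsto_birkhoffAverage_orthogonalProjection (𝕜 := ℝ)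
    (Bgen L C) (Bgen_norm_le L C hC hL hs) v
  set K := ((Bgen L C).eqLocus (1 : E →L[ℝ] E)) with hK
  refine ⟨(K.orthogonalProjectionOnto v : E), ?_, ?_, ?_⟩
  · have h2 : ((K.orthogonalProjectionOnto v : E)) ∈ K := Submodule.coe_mem _
    have h3 : Bgen L C (K.orthogonalProjectionOnto v : E) = (K.orthogonalProjectionOnto v : E) := h2
    exact (Bgen_fix L C hC hs _).1 h3
  · intro k hk
    have hkK : k ∈ K := (Bgen_fix L C hC hs _).2 hk
    have h4 := Submodule.starProjection_inner_eq_zero (K := K) v k hkK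
    rw [inner_sub_left] at h4
    have h5 : K.starProjection v = (K.orthogonalProjectionOnto v : E) := rfl
    rw [h5] at h4
    linarith
  · have h6 : (fun N : ℕ => (N : ℝ)⁻¹ • ∑ k ∈ Finset.range N, (Bgen L C ^ k) v) =
        fun N => birkhoffAverage ℝ (Bgen L C) id N v := by
      ext N
      unfold birkhoffAverage birkhoffSum
      congr 1
      apply Finset.sum_congr rfl
      intro k _
      exact pow_apply_eq_iterate _ _ _
    rw [h6]
    exact h1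

end gen

lemma Rop_norm_le (Δ : ℕ) (x : Env) (c : ℕ) : ‖Rop Δ x c‖ ≤ 1 := by
  unfold Rop
  refine (ContinuousLinearMap.opNorm_comp_le _ _).trans ?_
  have h1 : ‖indL (fun v => c < dg Δ x v)‖ ≤ 1 := LinearMap.mkContinuous_norm_le _ zero_le_one _
  have h2 : ‖compL (fun v : List ℕ => v ++ [c]) (append_inj c)‖ ≤ 1 :=
    LinearMap.mkContinuous_norm_le _ zero_le_one _
  calc _ ≤ (1 : ℝ) * 1 := by gcongr
    _ = 1 := by ring

lemma Dop_norm_le (Δ : ℕ) (x : Env) : ‖Dop Δ x‖ ≤ Δ := by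
  unfold Dop
  refine (norm_sum_le _ _).trans ?_
  calc _ ≤ ∑ c ∈ Finset.range Δ, (1 : ℝ) := Finset.sum_le_sum (fun c _ => Rop_norm_le Δ x c)
    _ = Δ := by simp

lemma Aop_norm_le (Δ : ℕ) (x : Env) : ‖Aop Δ x‖ ≤ 2 * Δ := by
  unfold Aop
  refine (norm_add_le _ _).trans ?_
  have h1 : ‖ContinuousLinearMap.adjoint (Dop Δ x)‖ = ‖Dop Δ x‖ :=
    LinearIsometryEquiv.norm_map _ _
  rw [h1]
  have := Dop_norm_le Δ x
  linarith

lemma Lop_norm_le (Δ : ℕ) (lam : ℝ) (x : Env) : ‖Lop Δ lam x‖ ≤ 2 * Δ + |lam| := by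
  unfold Lop
  refine (norm_sub_le _ _).trans ?_
  have h1 := Aop_norm_le Δ x
  have h2 : ‖lam • ContinuousLinearMap.id ℝ H‖ ≤ |lam| := by
    rw [norm_smul, Real.norm_eq_abs]
    calc |lam| * ‖ContinuousLinearMap.id ℝ H‖ ≤ |lam| * 1 := by
          gcongr; exact ContinuousLinearMap.norm_id_le
      _ = |lam| := by ring
  linarith

lemma tendsto_phi (Δ : ℕ) (lam C : ℝ) (hC : 0 < C) (hC2 : 2 * Δ + |lam| ≤ C) (x : Env)
    (u : List ℕ) :
    Tendsto (fun N : ℕ => (N : ℝ)⁻¹ • ∑ k ∈ Finset.range N, (Bgen (Lop Δ lam x) C ^ k) (δ u))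
      atTop (𝓝 (phi Δ lam x u)) := by
  obtain ⟨p, h1, h2, h3⟩ := Bgen_tendsto (Lop Δ lam x) C hC ((Lop_norm_le Δ lam x).trans hC2)
    (inner_Lop Δ lam x) (δ u)
  have : p = phi Δ lam x u := by
    apply phi_unique (mem_Kx.2 h1)
    intro k hk
    rw [h2 k (mem_Kx.1 hk), inner_δ_left]
  rw [← this]
  exact h3

lemma tendsto_apply {ι : Type*} {l : Filter ι} {F : ι → H} {f : H} (h : Tendsto F l (𝓝 f))
    (v : List ℕ) : Tendsto (fun i => F i v) l (𝓝 (f v)) := by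
  have h1 : Tendsto (fun i => ⟪δ v, F i⟫_ℝ) l (𝓝 ⟪δ v, f⟫_ℝ) := tendsto_const_nhds.inner h
  simpa only [inner_δ_left] using h1

/-- coordinatewise measurable families of vectors -/
def Mf (F : Env → H) : Prop := ∀ v, Measurable (fun x => F x v)

lemma measurable_dg (Δ : ℕ) (v : List ℕ) : Measurable (fun x : Env => dg Δ x v) := by
  unfold dg
  exact (measurable_pi_apply v).min measurable_const

lemma measurableSet_lt_dg (Δ : ℕ) (v : List ℕ) (c : ℕ) :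
    MeasurableSet {x : Env | c < dg Δ x v} :=
  measurableSet_lt measurable_const (measurable_dg Δ v)

lemma Mf_Aop (Δ : ℕ) {F : Env → H} (hF : Mf F) : Mf (fun x => Aop Δ x (F x)) := by
  have hD : ∀ v, Measurable (fun x => Dop Δ x (F x) v) := by
    intro v
    have : (fun x => Dop Δ x (F x) v) =
        fun x => ∑ c ∈ Finset.range Δ, if c < dg Δ x v then F x (v ++ [c]) else 0 := by
      ext x
      unfold Dop
      rw [coe_sum_apply]
      rfl
    rw [this]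
    refine Finset.measurable_sum _ (fun c _ => ?_)
    exact Measurable.ite (measurableSet_lt_dg Δ v c) (hF _) measurable_const
  intro v
  rcases List.eq_nil_or_concat v with h | ⟨w, d, h⟩
  · subst h
    have : (fun x => Aop Δ x (F x) []) = fun x => Dop Δ x (F x) [] := by
      ext x
      rw [Aop_apply_nil, Dop_apply]
      rfl
    rw [this]
    exact hD []
  · rw [List.concat_eq_append] at h
    subst h
    have : (fun x => Aop Δ x (F x) (w ++ [d])) = fun x => Dop Δ x (F x) (w ++ [d]) +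
        (if d < dg Δ x w then F x w else 0) := by
      ext x
      rw [Aop_apply_concat, Dop_apply]
    rw [this]
    exact (hD _).add (Measurable.ite (measurableSet_lt_dg Δ w d) (hF _) measurable_const)

lemma Mf_add {F G : Env → H} (hF : Mf F) (hG : Mf G) : Mf (fun x => F x + G x) :=
  fun v => (hF v).add (hG v)

lemma Mf_sub {F G : Env → H} (hF : Mf F) (hG : Mf G) : Mf (fun x => F x - G x) :=
  fun v => (hF v).sub (hG v)

lemma Mf_smul (c : ℝ) {F : Env → H} (hF : Mf F) : Mf (fun x => c • F x) :=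
  fun v => (hF v).const_mul c

lemma Mf_sum {ι : Type*} (s : Finset ι) {F : ι → Env → H} (hF : ∀ i ∈ s, Mf (F i)) :
    Mf (fun x => ∑ i ∈ s, F i x) := by
  intro v
  have : (fun x => (∑ i ∈ s, F i x : H) v) = fun x => ∑ i ∈ s, F i x v := by
    ext x
    rw [lp.coeFn_sum, Finset.sum_apply]
  rw [this]
  exact Finset.measurable_sum _ (fun i hi => hF i hi v)

lemma Mf_Lop (Δ : ℕ) (lam : ℝ) {F : Env → H} (hF : Mf F) : Mf (fun x => Lop Δ lam x (F x)) :=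
  Mf_sub (Mf_Aop Δ hF) (Mf_smul lam hF)

lemma Mf_Bgen (Δ : ℕ) (lam C : ℝ) {F : Env → H} (hF : Mf F) :
    Mf (fun x => Bgen (Lop Δ lam x) C (F x)) := by
  simp only [Bgen_apply]
  exact Mf_sub hF (Mf_smul _ (Mf_Lop Δ lam (Mf_Lop Δ lam hF)))

lemma Mf_Bgen_pow (Δ : ℕ) (lam C : ℝ) (k : ℕ) (f : H) :
    Mf (fun x => (Bgen (Lop Δ lam x) C ^ k) f) := by
  induction k with
  | zero =>
    intro v
    simp only [pow_zero]
    exact measurable_const
  | succ k ih =>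
    simp only [pow_succ']
    exact Mf_Bgen Δ lam C ih

lemma measurable_phi (Δ : ℕ) (lam : ℝ) (u v : List ℕ) :
    Measurable (fun x : Env => phi Δ lam x u v) := by
  set C : ℝ := 2 * Δ + |lam| + 1 with hC
  have hC0 : 0 < C := by positivity
  refine measurable_of_tendsto_metrizable (f := fun (N : ℕ) x =>
    ((N : ℝ)⁻¹ • ∑ k ∈ Finset.range N, (Bgen (Lop Δ lam x) C ^ k) (δ u) : H) v) ?_ ?_
  · intro N
    exact Mf_smul _ (Mf_sum _ (fun k _ => Mf_Bgen_pow Δ lam C k (δ u))) v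
  · rw [tendsto_pi_nhds]
    intro x
    exact tendsto_apply (tendsto_phi Δ lam C hC0 (by rw [hC]; linarith) x u) v

lemma measurable_aa (Δ : ℕ) (lam : ℝ) : Measurable (fun x : Env => aa Δ lam x) :=
  measurable_phi Δ lam [] []

end Pool.Agent.H94
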