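import Pool.Agent.H94.TopA

/-!
Second moment of the high blocks over primes in a window.
-/

namespace Pool.Agent.H94.Weyl

open Finset

/-- block sums in terms of `bsum` -/
lemma blocks_eq_bsum (b m r0 aH aJ y : ℕ) (G : ℕ → ℝ) :
    ∑ a ∈ Ico aH aJ, G (y / b ^ (r0 + m * a) % b ^ m) =
      bsum (b ^ m) G (aJ - aH) (y / b ^ (r0 + m * aH)) := by
  unfold bsum
  rw [Finset.sum_Ico_eq_sum_range]
  apply Finset.sum_congr rfl
  intro a _
  congr 2
  rw [Nat.div_div_eq_div_mul, ← pow_mul, ← pow_add]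
  congr 2
  ring

/-- the high blocks -/
theorem high_bound (S : Finset ℕ) (g : ℕ → ℕ) (b m r0 aH aJ u W' : ℕ) (hb : 1 ≤ b)
    (haHJ : aH ≤ aJ)
    (G : ℕ → ℝ) (hG0 : ∑ k ∈ range (b ^ m), G k = 0)
    (hu : ∀ p ∈ S, g p / b ^ (r0 + m * aJ) = u)
    (hW' : ∀ v : ℕ, v / (b ^ m) ^ (aJ - aH) = u →
      (S.filter (fun p => g p / b ^ (r0 + m * aH) = v)).card ≤ W') :
    ∑ p ∈ S, (∑ a ∈ Ico aH aJ, G (g p / b ^ (r0 + m * a) % b ^ m)) ^ 2 ≤
      W' * (((aJ - aH : ℕ) : ℝ) * ((b ^ m : ℕ) : ℝ) ^ (aJ - aH) *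
        ((∑ k ∈ range (b ^ m), G k ^ 2) / (b ^ m : ℕ))) := by
  set q := b ^ m with hq
  have hq1 : 1 ≤ q := Nat.one_le_pow _ _ (by omega)
  set n := aJ - aH with hn
  set v : ℕ → ℕ := fun p => g p / b ^ (r0 + m * aH) with hv
  have hqn : 0 < q ^ n := by positivity
  have hvu : ∀ p ∈ S, v p / q ^ n = u := by
    intro p hp
    rw [← hu p hp, hv]
    simp only
    rw [Nat.div_div_eq_div_mul, hq, ← pow_mul, ← pow_add]
    congr 2
    have : m * aH + m * (aJ - aH) = m * aJ := by rw [← Nat.mul_add]; congr 1; omega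
    rw [hn]; omega
  have h1 : ∀ p ∈ S, (∑ a ∈ Ico aH aJ, G (g p / b ^ (r0 + m * a) % b ^ m)) ^ 2 =
      bsum q G n (v p % q ^ n) ^ 2 := by
    intro p _
    rw [blocks_eq_bsum b m r0 aH aJ (g p) G, ← bsum_mod q hq1]
  rw [← sum_bsum_sq q hq1 G hG0 n]
  rw [Finset.sum_congr rfl h1]
  have hmaps : ∀ p ∈ S, v p % q ^ n ∈ range (q ^ n) := by
    intro p _
    rw [mem_range]; exact Nat.mod_lt _ hqn
  rw [← Finset.sum_fiberwise_of_maps_to hmaps, Finset.mul_sum]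
  apply Finset.sum_le_sum
  intro i hi
  rw [mem_range] at hi
  have h2 : ∑ p ∈ S.filter (fun p => v p % q ^ n = i), bsum q G n (v p % q ^ n) ^ 2 =
      ((S.filter (fun p => v p % q ^ n = i)).card : ℝ) * bsum q G n i ^ 2 := by
    rw [← nsmul_eq_mul, ← Finset.sum_const]
    apply Finset.sum_congr rfl
    intro p hp
    rw [mem_filter] at hp
    rw [hp.2]
  rw [h2]
  apply mul_le_mul_of_nonneg_right _ (by positivity)
  have h3 : S.filter (fun p => v p % q ^ n = i) ⊆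
      S.filter (fun p => g p / b ^ (r0 + m * aH) = q ^ n * u + i) := by
    intro p hp
    rw [mem_filter] at hp ⊢
    refine ⟨hp.1, ?_⟩
    have h4 := Nat.div_add_mod (v p) (q ^ n)
    rw [hvu p hp.1, hp.2] at h4
    exact h4.symm
  have h5 := hW' (q ^ n * u + i) (by
    rw [Nat.mul_add_div hqn, Nat.div_eq_of_lt hi, add_zero])
  exact_mod_cast (Finset.card_le_card h3).trans h5

end Pool.Agent.H94.Weyl
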