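import Pool.Agent.H94.MidB

/-!
The second moment of the middle blocks over primes.
-/

namespace Pool.Agent.H94.Weyl

open Finset Polynomial

theorem mid_bound (F : ℤ[X]) (B b : ℕ) (hB : 1 ≤ B) (hb : 2 ≤ b) (g : ℕ → ℕ)
    (hg : ∀ n : ℕ, 1 ≤ n → (B : ℤ) * g n = F.eval (n : ℤ)) (d : ℕ) (C c : ℝ)
    (hC : 0 ≤ C) (hc : 0 ≤ c) (hc1 : c ≤ 1)
    (hW : ∀ (e : ℕ), e.Coprime b → ∀ (q : ℕ), 1 ≤ q →
      (∃ j, q ∣ b ^ j) → ∀ c0 : ℤ, IsCoprime c0 (q : ℤ) → ∀ N : ℕ, 1 ≤ N →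
      q ^ 4 ≤ N ^ (4 * d - 1) → ∀ x y : ℤ, y - x ≤ N →
      ‖SS (B * q) (dil F c0 e) x y‖ ≤ C * N * (q : ℝ) ^ (-c))
    (m r0 a0 a1 κ nmax D L : ℕ) (hD : 2 ≤ D) (G : ℕ → ℝ) (A : ℝ) (hA0 : 0 ≤ A)
    (hA : ∀ k < b ^ m, |G k| ≤ A) (hG0 : ∑ k ∈ range (b ^ m), G k = 0)
    (hnmax : r0 + m * (a1 + 1) ≤ nmax) (hκ : 3 * κ ≤ r0 + m * a0 + m)
    (hP : (b ^ nmax) ^ 4 ≤ (L / D ^ 2 + 1) ^ (4 * d - 1)) (x y : ℕ) (hx : 1 ≤ x) (hDx : D < x)
    (hxy : x ≤ y) (hL : y - x ≤ L) :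
    ∑ p ∈ (Ico x y).filter Nat.Prime,
      (∑ a ∈ Ico a0 a1, G (g p / b ^ (r0 + m * a) % b ^ m)) ^ 2 ≤
      Pool.Agent.H17.Cb b * (((a1 - a0 : ℕ) : ℝ) * ((∑ k ∈ range (b ^ m), G k ^ 2) / (b ^ m : ℕ)) *
        ((y - x : ℕ) : ℝ)) / Real.log D +
      (1 + Real.log ((D ^ 2 : ℕ) : ℝ)) ^ 3 *
        ((D : ℝ) ^ 2 * (((a1 - a0 : ℕ) : ℝ) * ((∑ k ∈ range (b ^ m), G k ^ 2) / (b ^ m : ℕ))) +
        ((a1 - a0 : ℕ) : ℝ) ^ 2 * A ^ 2 * C *
        (5 * (1 + (b ^ m : ℕ) * (1 + Real.log (b ^ nmax : ℕ))) ^ 2 * ((2 : ℝ) ^ κ) ^ (-c)) *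
          (L + (D : ℝ) ^ 2)) := by
  set V : ℝ := (∑ k ∈ range (b ^ m), G k ^ 2) / (b ^ m : ℕ) with hV
  set η : ℝ := 5 * (1 + (b ^ m : ℕ) * (1 + Real.log (b ^ nmax : ℕ))) ^ 2 *
    ((2 : ℝ) ^ κ) ^ (-c) with hη
  set nn : ℝ := ((a1 - a0 : ℕ) : ℝ) with hnn
  have hV0 : 0 ≤ V := by positivity
  have hη0 : 0 ≤ η := by positivity
  have hnn0 : 0 ≤ nn := Nat.cast_nonneg _
  set Z : ℕ → ℝ := fun n => ∑ a ∈ Ico a0 a1, G (g n / b ^ (r0 + m * a) % b ^ m) with hZ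
  have hDpos : 0 < D ^ 2 := by positivity
  have h1 := Pool.Agent.H17.weighted_bt_explicit b (by omega) D hD (Ico x y) (fun n => Z n ^ 2)
    (fun n => by positivity) (nn * V * ((y - x : ℕ) : ℝ)) (by positivity)
  have h2 : (Ico x y).filter (fun n => n.Prime ∧ D < n) = (Ico x y).filter Nat.Prime := by
    apply Finset.filter_congr
    intro n hn
    rw [mem_Ico] at hn
    constructor
    · exact fun h => h.1
    · exact fun h => ⟨h, by omega⟩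
  rw [h2] at h1
  refine h1.trans (add_le_add le_rfl ?_)
  -- the error terms
  have h3 : ∀ e ∈ (Finset.Icc 1 (D ^ 2)).filter (fun e => Squarefree e ∧ e.Coprime b),
      (3 : ℝ) ^ e.primeFactors.card * |(∑ n ∈ (Ico x y).filter (fun n => e ∣ n), Z n ^ 2) -
        nn * V * ((y - x : ℕ) : ℝ) / e| ≤
      (3 : ℝ) ^ e.primeFactors.card / e *
        ((D : ℝ) ^ 2 * (nn * V) + nn ^ 2 * A ^ 2 * C * η * (L + (D : ℝ) ^ 2)) := by
    intro e he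
    rw [mem_filter, mem_Icc] at he
    obtain ⟨⟨he1, heD⟩, -, heb⟩ := he
    have he0 : (0 : ℝ) < e := by exact_mod_cast he1
    have heD' : (e : ℝ) ≤ (D : ℝ) ^ 2 := by exact_mod_cast heD
    obtain ⟨hcard1, hcard2⟩ := card_multiples x y e L he1 hxy hL
    set x' := (x + e - 1) / e with hx'
    set y' := (y + e - 1) / e with hy'
    have hx'1 : 1 ≤ x' := by
      rw [hx', Nat.one_le_div_iff (by omega)]
      omega
    rw [sum_multiples x y e he1]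
    have hsm := second_moment (Ico x' y') (fun t => g (e * t)) b m r0 a0 a1 κ nmax hb G A hA0
      hA hG0 (C * ((L / e + 1 : ℕ) : ℝ)) c (by positivity) hc hc1 hnmax hκ (by
        intro n hn H _
        apply exp_sum_g F B b hB hb g hg d C c hW e he1 heb x' y' (L / e + 1) n hx'1
          (Nat.le_add_left 1 _) hcard1
        calc (b ^ n) ^ 4 ≤ (b ^ nmax) ^ 4 :=
              Nat.pow_le_pow_left (Nat.pow_le_pow_right (by omega) hn) 4
          _ ≤ (L / D ^ 2 + 1) ^ (4 * d - 1) := hP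
          _ ≤ (L / e + 1) ^ (4 * d - 1) := by
              apply Nat.pow_le_pow_left
              exact Nat.add_le_add_right (Nat.div_le_div_left (a := L) heD (by omega)) 1)
    rw [Nat.card_Ico] at hsm
    have h4 : |(∑ t ∈ Ico x' y', Z (e * t) ^ 2) - nn * V * ((y - x : ℕ) : ℝ) / e| ≤
        nn ^ 2 * (A ^ 2 * (C * ((L / e + 1 : ℕ) : ℝ)) * η) + nn * V := by
      have h5 : (∑ t ∈ Ico x' y', Z (e * t) ^ 2) - nn * V * ((y - x : ℕ) : ℝ) / e =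
          ((∑ t ∈ Ico x' y', Z (e * t) ^ 2) - ((y' - x' : ℕ) : ℝ) * (nn * V)) +
          (((y' - x' : ℕ) : ℝ) - ((y - x : ℕ) : ℝ) / e) * (nn * V) := by ring
      rw [h5]
      refine (abs_add_le _ _).trans (add_le_add hsm ?_)
      rw [abs_mul, abs_of_nonneg (by positivity : (0 : ℝ) ≤ nn * V)]
      calc _ ≤ 1 * (nn * V) := mul_le_mul_of_nonneg_right hcard2 (by positivity)
        _ = nn * V := one_mul _
    have h6 : ((L / e + 1 : ℕ) : ℝ) ≤ (L + (D : ℝ) ^ 2) / e := by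
      push_cast
      have := @Nat.cast_div_le ℝ _ _ _ L e
      rw [add_div]
      have h7 : (1 : ℝ) ≤ (D : ℝ) ^ 2 / e := by
        rw [le_div_iff₀ he0, one_mul]; exact heD'
      linarith
    have h8 : nn * V ≤ (D : ℝ) ^ 2 * (nn * V) / e := by
      rw [le_div_iff₀ he0]
      have : 0 ≤ nn * V := by positivity
      nlinarith
    have h9 : nn ^ 2 * (A ^ 2 * (C * ((L / e + 1 : ℕ) : ℝ)) * η) ≤
        nn ^ 2 * A ^ 2 * C * η * (L + (D : ℝ) ^ 2) / e := by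
      calc nn ^ 2 * (A ^ 2 * (C * ((L / e + 1 : ℕ) : ℝ)) * η)
          = (nn ^ 2 * A ^ 2 * C * η) * ((L / e + 1 : ℕ) : ℝ) := by ring
        _ ≤ (nn ^ 2 * A ^ 2 * C * η) * ((L + (D : ℝ) ^ 2) / e) :=
            mul_le_mul_of_nonneg_left h6 (by positivity)
        _ = _ := by ring
    calc (3 : ℝ) ^ e.primeFactors.card * |(∑ t ∈ Ico x' y', Z (e * t) ^ 2) -
          nn * V * ((y - x : ℕ) : ℝ) / e|
        ≤ (3 : ℝ) ^ e.primeFactors.card *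
          (nn ^ 2 * A ^ 2 * C * η * (L + (D : ℝ) ^ 2) / e + (D : ℝ) ^ 2 * (nn * V) / e) :=
          mul_le_mul_of_nonneg_left (h4.trans (add_le_add h9 h8)) (by positivity)
      _ = _ := by ring
  refine (Finset.sum_le_sum h3).trans ?_
  rw [← Finset.sum_mul]
  apply mul_le_mul_of_nonneg_right _ (by positivity)
  have h10 := Pool.Agent.H17.sum_three_omega (D ^ 2) (by omega)
  refine le_trans ?_ h10
  apply Finset.sum_le_sum_of_subset_of_nonneg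
  · intro e he
    rw [mem_filter] at he ⊢
    exact ⟨he.1, he.2.1⟩
  · intro e _ _
    positivity

end Pool.Agent.H94.Weyl
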