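import Pool.Agent.H94.GrowC
import Pool.Agent.H94.MidC
import Pool.Agent.H94.HighA
import Pool.Agent.H94.DigA

/-!
Collected data, and the existence of a good window.
-/

namespace Pool.Agent.H94.Fin

open Finset Polynomial Filter Topology Pool.Agent.H94.Weyl

/-- all constants attached to the polynomial -/
structure Data (b : ℕ) (g : ℕ → ℕ) where
  d : ℕ
  F : ℤ[X]
  B : ℕ
  n0 : ℕ
  cu : ℝ
  th : ℕ → ℕ
  c2 : ℕ
  C4 : ℕ
  cp : ℝ
  CT : ℝ
  C : ℝ
  c : ℝ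
  hb : 2 ≤ b
  hd : 1 ≤ d
  hB : 1 ≤ B
  hn0 : 1 ≤ n0
  hcu : 1 ≤ cu
  hc2 : 1 ≤ c2
  hC4 : 1 ≤ C4
  hcp : 0 < cp
  hCT : 0 < CT
  hC : 1 ≤ C
  hc : 0 < c
  hc1 : c ≤ 1
  hBg : ∀ n : ℕ, 1 ≤ n → (B : ℤ) * g n = F.eval (n : ℤ)
  hup : ∀ n ≥ n0, (g n : ℝ) ≤ cu * (n : ℝ) ^ d
  hth0 : ∀ V, n0 ≤ th V
  hth : ∀ V n, n0 ≤ n → (V ≤ g n ↔ th V ≤ n)
  hwin : ∀ Λ j V : ℕ, 1 ≤ Λ → (d - 1) * Λ ≤ j → b ^ (d * Λ - 1) ≤ V →
      th (V + b ^ j) - th V ≤ c2 * b ^ (j - (d - 1) * Λ)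
  hthC : ∀ Λ, th (b ^ (d * Λ)) ≤ C4 * b ^ Λ
  hprimes : ∀ᶠ Λ : ℕ in atTop, cp * (b : ℝ) ^ Λ / Λ ≤
      (((Ico (th (b ^ (d * Λ - 1))) (th (b ^ (d * Λ)))).filter Nat.Prime).card : ℝ)
  hbt : ∀ x y L : ℕ, 2 ≤ L → y - x ≤ L →
    (((Ico x y).filter Nat.Prime).card : ℝ) ≤ CT * L / Real.log L
  hweyl : ∀ (e : ℕ), e.Coprime b → ∀ (q : ℕ), 1 ≤ q →
      (∃ j, q ∣ b ^ j) → ∀ c0 : ℤ, IsCoprime c0 (q : ℤ) → ∀ N : ℕ, 1 ≤ N →
      q ^ 4 ≤ N ^ (4 * d - 1) → ∀ x y : ℤ, y - x ≤ N →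
      ‖SS (B * q) (dil F c0 e) x y‖ ≤ C * N * (q : ℝ) ^ (-c)

theorem exists_data (b : ℕ) (hb : 2 ≤ b) (f : ℚ[X]) (hf : 0 < f.degree) (g : ℕ → ℕ)
    (hg : ∀ n : ℕ, 1 ≤ n → 1 ≤ g n ∧ ((g n : ℚ) = f.eval (n : ℚ))) : Nonempty (Data b g) := by
  obtain ⟨d, F, B, α, n0, cs, cu, hd, hF, hB, hBg, hα, hlim, hn0, hcs, hcu, hup, hstep⟩ :=
    Grow.growth f hf g hg
  obtain ⟨th, hth0, hth⟩ := Grow.exists_th g n0 d hn0 cs hcs hstep
  obtain ⟨c2, hc2, hwin⟩ := Grow.window_len g n0 d b hb hd cs cu hcs hcu hup hstep th hth0 hth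
  obtain ⟨C4, hC4, hthC⟩ := Grow.th_upper g n0 d b hb hd α hα hlim th hth
  obtain ⟨cp, hcp, hprimes⟩ := Grow.many_primes g n0 d b hb hd α hα hlim th hth
  obtain ⟨CT, hCT, hbt⟩ := Grow.bt_window
  obtain ⟨C, c, hC, hc, hc1, hweyl⟩ := weyl_star F d hd hF B b hB
  exact ⟨⟨d, F, B, n0, cu, th, c2, C4, cp, CT, C, c, hb, hd, hB, hn0, hcu, hc2, hC4, hcp, hCT, hC,
    hc, hc1, hBg, hup, hth0, hth, hwin, hthC, hprimes, hbt, hweyl⟩⟩

variable {b : ℕ} {g : ℕ → ℕ} (D : Data b g)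

lemma Data.th_mono {V V' : ℕ} (h : V ≤ V') : D.th V ≤ D.th V' :=
  Grow.th_mono D.hth0 D.hth h

/-- membership in a window -/
lemma Data.mem_window (J u n : ℕ) :
    n ∈ Ico (D.th (u * b ^ J)) (D.th (u * b ^ J + b ^ J)) ↔ D.n0 ≤ n ∧ g n / b ^ J = u := by
  have hbJ : 0 < b ^ J := by have := D.hb; positivity
  rw [mem_Ico]
  constructor
  · rintro ⟨h1, h2⟩
    have h3 : D.n0 ≤ n := (D.hth0 _).trans h1
    refine ⟨h3, ?_⟩
    have h4 : u * b ^ J ≤ g n := (D.hth _ n h3).2 h1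
    have h5 : ¬ (u * b ^ J + b ^ J ≤ g n) := fun h => by
      have := (D.hth _ n h3).1 h
      omega
    have h6 : u * b ^ J + b ^ J = (u + 1) * b ^ J := by ring
    rw [h6] at h5
    exact Nat.div_eq_of_lt_le h4 (by omega)
  · rintro ⟨h3, h4⟩
    have h5 : u * b ^ J ≤ g n := by
      rw [← h4]; exact Nat.div_mul_le_self _ _
    have h6 : g n < u * b ^ J + b ^ J := by
      rw [← h4]
      exact Nat.lt_div_mul_add hbJ
    refine ⟨(D.hth _ n h3).1 h5, ?_⟩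
    by_contra h7
    have := (D.hth (u * b ^ J + b ^ J) n h3).2 (by omega)
    omega

/-- Existence of a good window. -/
theorem Data.good_window (m s o : ℕ) (hm : 1 ≤ m) (hs : 1 ≤ s) (ho : o < m)
    (hq : 64 * D.CT * D.c2 ≤ D.cp * ((b : ℝ) ^ m - 1) * Real.log b)
    (hpr : D.cp * (b : ℝ) ^ (32 * D.d * m * s) / ((32 * D.d * m * s : ℕ) : ℝ) ≤
      (((Ico (D.th (b ^ (D.d * (32 * D.d * m * s) - 1)))
        (D.th (b ^ (D.d * (32 * D.d * m * s))))).filter Nat.Prime).card : ℝ)) :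
    ∃ u : ℕ, b ^ (4 * m * s + o - 1) ≤ u ∧ u < b ^ (4 * m * s + o) ∧
      (4 * s : ℕ) * ((b : ℝ) ^ m - 1) / 2 ≤ chi (b ^ m) (4 * s) u ∧
      D.cp / 4 * (b : ℝ) ^ (32 * D.d * m * s - 4 * m * s - o) / ((32 * D.d * m * s : ℕ) : ℝ) ≤
      (((Ico (D.th (u * b ^ (D.d * (32 * D.d * m * s) - o - 4 * m * s)))
        (D.th (u * b ^ (D.d * (32 * D.d * m * s) - o - 4 * m * s) +
          b ^ (D.d * (32 * D.d * m * s) - o - 4 * m * s)))).filter Nat.Prime).card : ℝ) := by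
  have hb := D.hb
  have hd := D.hd
  set Λ := 32 * D.d * m * s with hΛ
  have hms : 1 ≤ m * s := Nat.mul_pos hm hs
  have hms2 : m ≤ m * s := Nat.le_mul_of_pos_right m hs
  have hΛ32 : 32 * (m * s) ≤ Λ := by
    rw [hΛ]
    calc 32 * (m * s) = 32 * 1 * m * s := by ring
      _ ≤ 32 * D.d * m * s := by
        apply Nat.mul_le_mul_right; apply Nat.mul_le_mul_right
        exact Nat.mul_le_mul_left _ hd
  have h4ms : 4 * m * s = 4 * (m * s) := by ring
  have hdΛ : Λ ≤ D.d * Λ := Nat.le_mul_of_pos_left Λ hd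
  set J := D.d * Λ - o - 4 * m * s with hJ
  have hJΛ : (D.d - 1) * Λ ≤ J := by
    have : (D.d - 1) * Λ + Λ = D.d * Λ := by
      calc (D.d - 1) * Λ + Λ = (D.d - 1 + 1) * Λ := by ring
        _ = D.d * Λ := by rw [Nat.sub_add_cancel hd]
    omega
  have hJexp : J - (D.d - 1) * Λ = Λ - 4 * m * s - o := by
    have : (D.d - 1) * Λ + Λ = D.d * Λ := by
      calc (D.d - 1) * Λ + Λ = (D.d - 1 + 1) * Λ := by ring
        _ = D.d * Λ := by rw [Nat.sub_add_cancel hd]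
    omega
  have hJsum : J + (4 * m * s + o) = D.d * Λ := by omega
  set H := b ^ (Λ - 4 * m * s - o) with hH
  set q := b ^ m with hqdef
  have hb1 : (1 : ℝ) < b := by exact_mod_cast (by omega : 1 < b)
  have hb0 : (0 : ℝ) < b := by linarith
  have hlogb : 0 < Real.log b := Real.log_pos hb1
  have hq2 : 2 ≤ q := by
    rw [hqdef]
    calc 2 ≤ b := hb
      _ = b ^ 1 := (pow_one b).symm
      _ ≤ b ^ m := Nat.pow_le_pow_right (by omega) hm
  have hqr : ((q : ℕ) : ℝ) = (b : ℝ) ^ m := by rw [hqdef]; push_cast; rfl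
  have hq2r : (2 : ℝ) ≤ (b : ℝ) ^ m := by rw [← hqr]; exact_mod_cast hq2
  -- windows
  set W : ℕ → ℕ := fun u => ((Ico (D.th (u * b ^ J)) (D.th (u * b ^ J + b ^ J))).filter
    Nat.Prime).card with hW
  by_contra hcon
  push Not at hcon
  have hΛ0 : (0 : ℝ) < Λ := by exact_mod_cast (by omega : 0 < Λ)
  have hH0 : (0 : ℝ) < H := by rw [hH]; positivity
  -- total count
  have htot : (((Ico (D.th (b ^ (D.d * Λ - 1))) (D.th (b ^ (D.d * Λ)))).filter
      Nat.Prime).card : ℝ) ≤ ∑ u ∈ Ico (b ^ (4 * m * s + o - 1)) (b ^ (4 * m * s + o)), (W u : ℝ) := by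
    set S := (Ico (D.th (b ^ (D.d * Λ - 1))) (D.th (b ^ (D.d * Λ)))).filter Nat.Prime with hS
    have hmaps : ∀ p ∈ S, g p / b ^ J ∈ Ico (b ^ (4 * m * s + o - 1)) (b ^ (4 * m * s + o)) := by
      intro p hp
      rw [hS, mem_filter, mem_Ico] at hp
      have h3 : D.n0 ≤ p := (D.hth0 _).trans hp.1.1
      have h4 := (D.hth _ p h3).2 hp.1.1
      have h5 : ¬ (b ^ (D.d * Λ) ≤ g p) := fun h => by
        have := (D.hth _ p h3).1 h
        omega
      rw [mem_Ico]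
      constructor
      · rw [Nat.le_div_iff_mul_le (by positivity), ← pow_add]
        have : 4 * m * s + o - 1 + J = D.d * Λ - 1 := by omega
        rw [this]; exact h4
      · rw [Nat.div_lt_iff_lt_mul (by positivity), ← pow_add]
        have : 4 * m * s + o + J = D.d * Λ := by omega
        rw [this]; omega
    have h6 := Finset.card_eq_sum_card_fiberwise hmaps
    rw [h6]
    push_cast
    apply Finset.sum_le_sum
    intro u _
    have h7 : S.filter (fun p => g p / b ^ J = u) ⊆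
        (Ico (D.th (u * b ^ J)) (D.th (u * b ^ J + b ^ J))).filter Nat.Prime := by
      intro p hp
      rw [mem_filter, hS, mem_filter, mem_Ico] at hp
      rw [mem_filter, D.mem_window]
      exact ⟨⟨(D.hth0 _).trans hp.1.1.1, hp.2⟩, hp.1.2⟩
    exact_mod_cast Finset.card_le_card h7
  -- bound for each window
  have hlogL : Λ * Real.log b / 2 ≤ Real.log ((D.c2 * H : ℕ) : ℝ) := by
    have e1 : (b : ℝ) ^ (16 * (m * s) * D.d) ≤ ((D.c2 * H : ℕ) : ℝ) := by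
      have e2 : b ^ (16 * (m * s) * D.d) ≤ D.c2 * H := by
        calc b ^ (16 * (m * s) * D.d) ≤ H := by
              rw [hH]
              apply Nat.pow_le_pow_right (by omega)
              have : Λ = 2 * (16 * (m * s) * D.d) := by rw [hΛ]; ring
              have h8 : 16 * (m * s) ≤ 16 * (m * s) * D.d := Nat.le_mul_of_pos_right _ hd
              omega
          _ ≤ D.c2 * H := Nat.le_mul_of_pos_left _ D.hc2
      exact_mod_cast e2
    have e3 := Real.log_le_log (by positivity) e1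
    rw [Real.log_pow] at e3
    refine le_trans (le_of_eq ?_) e3
    rw [hΛ]; push_cast; ring
  have hbound : ∀ u, b ^ (4 * m * s + o - 1) ≤ u →
      (W u : ℝ) ≤ 2 * D.CT * D.c2 * H / (Λ * Real.log b) := by
    intro u hu
    have h1 : b ^ (D.d * Λ - 1) ≤ u * b ^ J := by
      calc b ^ (D.d * Λ - 1) = b ^ (4 * m * s + o - 1) * b ^ J := by
            rw [← pow_add]; congr 1; omega
        _ ≤ u * b ^ J := Nat.mul_le_mul_right _ hu
    have h2 := D.hwin Λ J (u * b ^ J) (by omega) hJΛ h1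
    rw [hJexp] at h2
    have h3 : 2 ≤ D.c2 * H := by
      calc 2 ≤ b := hb
        _ = b ^ 1 := (pow_one b).symm
        _ ≤ H := by rw [hH]; exact Nat.pow_le_pow_right (by omega) (by omega)
        _ ≤ D.c2 * H := Nat.le_mul_of_pos_left _ D.hc2
    refine (D.hbt _ _ (D.c2 * H) h3 h2).trans ?_
    have h4 : 0 < Λ * Real.log b / 2 := by positivity
    have hCT := D.hCT
    calc D.CT * ((D.c2 * H : ℕ) : ℝ) / Real.log ((D.c2 * H : ℕ) : ℝ)
        ≤ D.CT * ((D.c2 * H : ℕ) : ℝ) / (Λ * Real.log b / 2) :=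
          div_le_div_of_nonneg_left (by positivity) h4 hlogL
      _ = _ := by push_cast; field_simp
  -- number of windows with small statistic
  have hsmall := count_small_chi' q hq2 (4 * s) (by omega) (b ^ o)
  have hpow1 : q ^ (4 * s) * b ^ o = b ^ (4 * m * s + o) := by
    rw [hqdef, ← pow_mul, ← pow_add]; congr 1; ring
  rw [hpow1] at hsmall
  set Sm := (range (b ^ (4 * m * s + o))).filter
    (fun u => chi q (4 * s) u < ((4 * s : ℕ) : ℝ) * ((q : ℝ) - 1) / 2) with hSm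
  have hsum : ∑ u ∈ Ico (b ^ (4 * m * s + o - 1)) (b ^ (4 * m * s + o)), (W u : ℝ) ≤
      (Sm.card : ℝ) * (2 * D.CT * D.c2 * H / (Λ * Real.log b)) +
      ((b ^ (4 * m * s + o) : ℕ) : ℝ) * (D.cp / 4 * H / Λ) := by
    have e1 : ∀ u ∈ Ico (b ^ (4 * m * s + o - 1)) (b ^ (4 * m * s + o)), (W u : ℝ) ≤
        (if u ∈ Sm then 2 * D.CT * D.c2 * H / (Λ * Real.log b) else 0) + D.cp / 4 * H / Λ := by
      intro u hu
      rw [mem_Ico] at hu
      have hcp := D.hcp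
      have hpos : 0 ≤ D.cp / 4 * H / Λ := by positivity
      by_cases h : u ∈ Sm
      · rw [if_pos h]
        have := hbound u hu.1
        linarith
      · rw [if_neg h, zero_add]
        have h1 : (4 * s : ℕ) * ((b : ℝ) ^ m - 1) / 2 ≤ chi q (4 * s) u := by
          by_contra h2
          apply h
          rw [hSm, mem_filter, mem_range]
          refine ⟨hu.2, ?_⟩
          rw [hqr]
          linarith
        have h2 := hcon u hu.1 hu.2 h1
        have h3 : ((b : ℝ) ^ (Λ - 4 * m * s - o)) = H := by rw [hH]; push_cast; rfl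
        rw [h3] at h2
        exact h2.le
    refine (Finset.sum_le_sum e1).trans ?_
    rw [Finset.sum_add_distrib]
    apply add_le_add
    · rw [← Finset.sum_filter, Finset.sum_const, nsmul_eq_mul]
      apply mul_le_mul_of_nonneg_right
      · have : (Ico (b ^ (4 * m * s + o - 1)) (b ^ (4 * m * s + o))).filter (fun u => u ∈ Sm) ⊆ Sm := by
          intro u hu
          exact (mem_filter.1 hu).2
        exact_mod_cast Finset.card_le_card this
      · have hCT := D.hCT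
        positivity
    · rw [Finset.sum_const, nsmul_eq_mul, Nat.card_Ico]
      apply mul_le_mul_of_nonneg_right
      · exact_mod_cast Nat.sub_le _ _
      · have hcp := D.hcp
        positivity
  have hfinal := hpr.trans (htot.trans hsum)
  -- compare
  have hXH : ((b ^ (4 * m * s + o) : ℕ) : ℝ) * H = (b : ℝ) ^ Λ := by
    rw [hH]; push_cast; rw [← pow_add]; congr 1; omega
  have hq1 : (0 : ℝ) < (b : ℝ) ^ m - 1 := by linarith
  have hcard : (Sm.card : ℝ) ≤ 8 * ((b ^ (4 * m * s + o) : ℕ) : ℝ) / ((b : ℝ) ^ m - 1) := by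
    rw [le_div_iff₀ hq1]
    rw [hqr] at hsmall
    refine hsmall.trans (le_of_eq ?_)
    have : ((b : ℝ) ^ m) ^ (4 * s) * ((b ^ o : ℕ) : ℝ) = ((b ^ (4 * m * s + o) : ℕ) : ℝ) := by
      push_cast; rw [← pow_mul, ← pow_add]; congr 1; ring
    rw [mul_assoc, this]
  have hCT := D.hCT
  have hcp := D.hcp
  have hc2 : (1 : ℝ) ≤ D.c2 := by exact_mod_cast D.hc2
  have hXpos : (0 : ℝ) < (b : ℝ) ^ Λ := by positivity
  have e1 : (Sm.card : ℝ) * (2 * D.CT * D.c2 * H / (Λ * Real.log b)) ≤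
      D.cp / 4 * (b : ℝ) ^ Λ / Λ := by
    calc (Sm.card : ℝ) * (2 * D.CT * D.c2 * H / (Λ * Real.log b))
        ≤ (8 * ((b ^ (4 * m * s + o) : ℕ) : ℝ) / ((b : ℝ) ^ m - 1)) *
          (2 * D.CT * D.c2 * H / (Λ * Real.log b)) :=
          mul_le_mul_of_nonneg_right hcard (by positivity)
      _ = (16 * D.CT * D.c2 / (((b : ℝ) ^ m - 1) * Real.log b)) *
          (((b ^ (4 * m * s + o) : ℕ) : ℝ) * H) / Λ := by
          field_simp; ring
      _ ≤ D.cp / 4 * (b : ℝ) ^ Λ / Λ := by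
          rw [hXH]
          apply div_le_div_of_nonneg_right _ hΛ0.le
          apply mul_le_mul_of_nonneg_right _ hXpos.le
          rw [div_le_iff₀ (by positivity)]
          linarith
  have e2 : ((b ^ (4 * m * s + o) : ℕ) : ℝ) * (D.cp / 4 * H / Λ) = D.cp / 4 * (b : ℝ) ^ Λ / Λ := by
    rw [← hXH]; ring
  rw [e2] at hfinal
  have e3 : D.cp * (b : ℝ) ^ Λ / Λ ≤ D.cp / 2 * (b : ℝ) ^ Λ / Λ := by
    calc D.cp * (b : ℝ) ^ Λ / Λ ≤ D.cp / 4 * (b : ℝ) ^ Λ / Λ + D.cp / 4 * (b : ℝ) ^ Λ / Λ := by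
          linarith
      _ = _ := by ring
  have e4 : 0 < (b : ℝ) ^ Λ / Λ := by positivity
  have e5 : D.cp * ((b : ℝ) ^ Λ / Λ) ≤ D.cp / 2 * ((b : ℝ) ^ Λ / Λ) := by
    rw [← mul_div_assoc, ← mul_div_assoc]; exact e3
  nlinarith

end Pool.Agent.H94.Fin
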