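import Pool.Agent.H94.FinA

/-!
The window inequality from the digit counts.
-/

namespace Pool.Agent.H94.Fin

open Finset Polynomial Filter Topology Pool.Agent.H94.Weyl Pool.Agent.H94.Dig

variable {b : ℕ} {g : ℕ → ℕ} (D : Data b g)

/-- the words -/
noncomputable def wd (g : ℕ → ℕ) (t : ℕ) : ℕ := g (Nat.nth Nat.Prime t)

lemma primes_inf : (Set.ofPred Nat.Prime).Infinite := Nat.infinite_setOfPred_prime

/-- sum over primes in an interval as a sum over indices -/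
lemma sum_primes (x y : ℕ) (Φ : ℕ → ℝ) :
    ∑ t ∈ Ico (Nat.count Nat.Prime x) (Nat.count Nat.Prime y), Φ (Nat.nth Nat.Prime t) =
      ∑ p ∈ (Ico x y).filter Nat.Prime, Φ p := by
  apply Finset.sum_nbij' (fun t => Nat.nth Nat.Prime t) (fun p => Nat.count Nat.Prime p)
  · intro t ht
    rw [mem_Ico] at ht
    rw [mem_filter, mem_Ico]
    exact ⟨⟨(Nat.count_le_iff_le_nth primes_inf).1 ht.1, (Nat.lt_nth_iff_count_lt primes_inf).1 ht.2⟩,
      Nat.prime_nth_prime t⟩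
  · intro p hp
    rw [mem_filter, mem_Ico] at hp
    rw [mem_Ico]
    constructor
    · rw [Nat.count_le_iff_le_nth primes_inf, Nat.nth_count hp.2]; exact hp.1.1
    · rw [Nat.lt_nth_iff_count_lt primes_inf, Nat.nth_count hp.2]; exact hp.1.2
  · intro t _
    exact Nat.count_nth_of_infinite primes_inf t
  · intro p hp
    rw [mem_filter] at hp
    exact Nat.nth_count hp.2
  · intro t _; rfl

lemma card_primes (x y : ℕ) :
    Nat.count Nat.Prime y - Nat.count Nat.Prime x = ((Ico x y).filter Nat.Prime).card := by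
  have h := sum_primes x y (fun _ => 1)
  rw [Finset.sum_const, Finset.sum_const, Nat.card_Ico] at h
  simp only [nsmul_eq_mul, mul_one] at h
  exact_mod_cast h

/-- length of words -/
lemma Data.len_eq (Λ t : ℕ) (hΛ : 1 ≤ Λ)
    (h1 : Nat.count Nat.Prime (D.th (b ^ (D.d * Λ - 1))) ≤ t)
    (h2 : t < Nat.count Nat.Prime (D.th (b ^ (D.d * Λ)))) : len b (wd g t) = D.d * Λ := by
  have hb := D.hb
  have hdΛ : 1 ≤ D.d * Λ := Nat.mul_pos D.hd hΛ
  have e1 := (Nat.count_le_iff_le_nth primes_inf).1 h1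
  have e2 := (Nat.lt_nth_iff_count_lt primes_inf).1 h2
  have e3 : D.n0 ≤ Nat.nth Nat.Prime t := (D.hth0 _).trans e1
  have e4 := (D.hth _ _ e3).2 e1
  have e5 : ¬ (b ^ (D.d * Λ) ≤ g (Nat.nth Nat.Prime t)) := fun h => by
    have := (D.hth _ _ e3).1 h
    omega
  unfold len wd
  have hpos : g (Nat.nth Nat.Prime t) ≠ 0 := by
    have : 0 < b ^ (D.d * Λ - 1) := by positivity
    omega
  rw [Nat.length_digits b _ (by omega) hpos,
    Nat.log_eq_of_pow_le_of_lt_pow e4 (by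
      rw [Nat.sub_add_cancel hdΛ]; omega)]
  omega

/-- a bound for the length of all words up to a threshold -/
lemma Data.len_le (Λ t : ℕ) (h2 : t < Nat.count Nat.Prime (D.th (b ^ (D.d * Λ)))) :
    len b (wd g t) ≤ D.d * Λ + ∑ n ∈ range D.n0, len b (g n) := by
  have hb := D.hb
  have e2 := (Nat.lt_nth_iff_count_lt primes_inf).1 h2
  rcases Nat.lt_or_ge (Nat.nth Nat.Prime t) D.n0 with h | h
  · have h3 : len b (wd g t) ≤ ∑ n ∈ range D.n0, len b (g n) :=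
      Finset.single_le_sum (f := fun n => len b (g n)) (fun _ _ => Nat.zero_le _)
        (mem_range.2 h)
    omega
  · have e5 : ¬ (b ^ (D.d * Λ) ≤ g (Nat.nth Nat.Prime t)) := fun h' => by
      have := (D.hth _ _ h).1 h'
      omega
    have e6 : len b (wd g t) ≤ D.d * Λ := by
      unfold len wd
      rw [Nat.digits_length_le_iff (by omega)]
      omega
    omega

lemma start_le (w : ℕ → ℕ) (K T : ℕ) (h : ∀ t < T, len b (w t) ≤ K) : start b w T ≤ T * K := by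
  unfold start
  calc ∑ t ∈ range T, len b (w t) ≤ ∑ t ∈ range T, K :=
        Finset.sum_le_sum (fun t ht => h t (mem_range.1 ht))
    _ = T * K := by rw [Finset.sum_const, card_range, smul_eq_mul]

lemma start_mono' (w : ℕ → ℕ) {s t : ℕ} (h : s ≤ t) : start b w s ≤ start b w t := by
  unfold start
  apply Finset.sum_le_sum_of_subset
  intro x hx
  rw [mem_range] at hx ⊢
  omega

theorem Data.window_bound (hg1 : ∀ n : ℕ, 1 ≤ n → 1 ≤ g n) (dd : ℕ → ℕ)
    (hcc : IsConcat b (wd g) dd) (m M Λ : ℕ) (hm : 1 ≤ m) (hM : m * M = D.d * Λ) (hM1 : 1 ≤ M)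
    (hΛ : 1 ≤ Λ) (nδ : ℕ)
    (hδ : ∀ n ≥ nδ, ∀ k < b ^ m, |(cnt b m dd k n : ℝ) - n / (b : ℝ) ^ m| ≤ (n : ℝ) ^ ((3 : ℝ) / 4))
    (hT1 : m * nδ ≤ Nat.count Nat.Prime (D.th (b ^ (D.d * Λ - 1)))) (u J : ℕ)
    (hJ1 : b ^ (D.d * Λ - 1) ≤ u * b ^ J) (hJ2 : u * b ^ J + b ^ J ≤ b ^ (D.d * Λ))
    (G : ℕ → ℝ) (A : ℝ) (hA : ∀ k < b ^ m, |G k| ≤ A) (hG : ∑ k ∈ range (b ^ m), G k = 0) :
    |∑ p ∈ (Ico (D.th (u * b ^ J)) (D.th (u * b ^ J + b ^ J))).filter Nat.Prime,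
      ∑ a ∈ range (M - 1), G (g p / b ^ ((m - offset b m (wd g)
        (Nat.count Nat.Prime (D.th (b ^ (D.d * Λ - 1))))) + m * a) % b ^ m)| ≤
      (((Ico (D.th (u * b ^ J)) (D.th (u * b ^ J + b ^ J))).filter Nat.Prime).card : ℝ) * A +
      (∑ k ∈ range (b ^ m), |G k|) *
        (2 * ((D.C4 * b ^ Λ * (D.d * Λ + ∑ n ∈ range D.n0, len b (g n)) + m : ℕ) : ℝ) ^
          ((3 : ℝ) / 4)) := by
  have hb := D.hb
  have hw : ∀ t, 1 ≤ wd g t := fun t => hg1 _ (Nat.prime_nth_prime t).one_le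
  set T1 := Nat.count Nat.Prime (D.th (b ^ (D.d * Λ - 1))) with hT1d
  set T2 := Nat.count Nat.Prime (D.th (b ^ (D.d * Λ))) with hT2d
  set t1 := Nat.count Nat.Prime (D.th (u * b ^ J)) with ht1d
  set t2 := Nat.count Nat.Prime (D.th (u * b ^ J + b ^ J)) with ht2d
  have hT1t1 : T1 ≤ t1 := Nat.count_monotone _ (D.th_mono hJ1)
  have ht12 : t1 ≤ t2 := Nat.count_monotone _ (D.th_mono (Nat.le_add_right _ _))
  have ht2T2 : t2 ≤ T2 := Nat.count_monotone _ (D.th_mono hJ2)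
  have hlen : ∀ t, T1 ≤ t → t < T2 → len b (wd g t) = m * M := by
    intro t h1 h2
    rw [hM]
    exact D.len_eq Λ t hΛ h1 h2
  set U : ℕ := D.C4 * b ^ Λ * (D.d * Λ + ∑ n ∈ range D.n0, len b (g n)) + m with hU
  have hstart : ∀ t, t ≤ T2 → start b (wd g) t + offset b m (wd g) T1 ≤ U := by
    intro t ht
    have h1 := start_mono' (b := b) (wd g) ht
    have h2 := start_le (b := b) (wd g) (D.d * Λ + ∑ n ∈ range D.n0, len b (g n)) T2
      (fun t ht => D.len_le Λ t ht)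
    have h3 : T2 ≤ D.C4 * b ^ Λ := by
      have h4 : T2 ≤ D.th (b ^ (D.d * Λ)) := by
        rw [hT2d]; exact Nat.count_le _
      exact h4.trans (D.hthC Λ)
    have h5 := Nat.mul_le_mul_right (D.d * Λ + ∑ n ∈ range D.n0, len b (g n)) h3
    have h6 := offset_lt b m hm (wd g) T1
    omega
  have hsigU : ∀ t, T1 ≤ t → t ≤ T2 → sig b m M (wd g) T1 t ≤ U ∧ nδ ≤ sig b m M (wd g) T1 t := by
    intro t h1 h2
    have h3 := sig_spec (b := b) (w := wd g) m M hm T1 T2 hlen t h1 h2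
    have h4 := hstart t h2
    have h5 := start_mono (b := b) hw t
    constructor
    · have : sig b m M (wd g) T1 t ≤ m * sig b m M (wd g) T1 t := Nat.le_mul_of_pos_left _ hm
      omega
    · have h6 : m * nδ ≤ m * sig b m M (wd g) T1 t := by omega
      exact Nat.le_of_mul_le_mul_left h6 hm
  have hδ' : ∀ t, T1 ≤ t → t ≤ T2 → ∀ k < b ^ m,
      |(cnt b m dd k (sig b m M (wd g) T1 t) : ℝ) - (sig b m M (wd g) T1 t : ℕ) / (b : ℝ) ^ m| ≤
        (U : ℝ) ^ ((3 : ℝ) / 4) := by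
    intro t h1 h2 k hk
    obtain ⟨h3, h4⟩ := hsigU t h1 h2
    refine (hδ _ h4 k hk).trans ?_
    apply Real.rpow_le_rpow (by positivity) (by exact_mod_cast h3) (by norm_num)
  have h1 := window_sum_bound hb hw hcc m M hm hM1 T1 T2 hlen t1 t2 hT1t1 ht12 ht2T2 G A hA hG
    ((U : ℝ) ^ ((3 : ℝ) / 4)) ((U : ℝ) ^ ((3 : ℝ) / 4)) (hδ' t1 hT1t1 (ht12.trans ht2T2))
    (hδ' t2 (hT1t1.trans ht12) ht2T2)
  rw [card_primes] at h1
  have h2 := sum_primes (D.th (u * b ^ J)) (D.th (u * b ^ J + b ^ J)) (fun p =>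
    ∑ a ∈ range (M - 1), G (g p / b ^ ((m - offset b m (wd g) T1) + m * a) % b ^ m))
  rw [← h2]
  have h3 : ∀ x : ℝ, x + x = 2 * x := fun x => by ring
  rw [h3] at h1
  exact h1

end Pool.Agent.H94.Fin
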