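import Pool.Agent.H94.FinB

/-!
The final inequality at a good window.
-/

namespace Pool.Agent.H94.Fin

open Finset Polynomial Filter Topology Pool.Agent.H94.Weyl Pool.Agent.H94.Dig

/-- Cauchy-Schwarz in the form used here -/
lemma cs_abs (S : Finset ℕ) (Z : ℕ → ℝ) (X : ℝ) (hX : ∑ p ∈ S, Z p ^ 2 ≤ X) :
    ∑ p ∈ S, |Z p| ≤ Real.sqrt (S.card * X) := by
  apply Real.le_sqrt_of_sq_le
  have h1 := sq_sum_le_card_mul_sum_sq (s := S) (f := fun p => |Z p|)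
  refine h1.trans ?_
  apply mul_le_mul_of_nonneg_left _ (Nat.cast_nonneg _)
  refine le_trans (le_of_eq ?_) hX
  apply Finset.sum_congr rfl
  intro p _
  rw [sq_abs]

/-- abstract final inequality -/
theorem final_ineq (S : Finset ℕ) (Z Zl Zm Zh : ℕ → ℝ) (χ A W0 Err Xm Xh M κ q a0 : ℝ)
    (hS : 0 < (S.card : ℝ)) (hχ : 0 < χ) (hM : 0 ≤ M)
    (hA : A = Real.sqrt (q * χ)) (hq : 0 ≤ q)
    (hsplit : ∀ p ∈ S, Z p = Zl p + Zm p + Zh p + χ)
    (htot : |∑ p ∈ S, Z p| ≤ S.card * A + Err) (hErr : Err ≤ S.card * A)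
    (hl : ∀ p ∈ S, |Zl p| ≤ a0 * A)
    (hm : ∑ p ∈ S, Zm p ^ 2 ≤ Xm * (M * χ * W0)) (hh : ∑ p ∈ S, Zh p ^ 2 ≤ Xh * (M * χ * W0))
    (hXm : 0 ≤ Xm) (hXh : 0 ≤ Xh) (hκ : 0 < κ) (hW : κ * W0 ≤ S.card) :
    Real.sqrt χ ≤ (2 + a0) * Real.sqrt q +
      (Real.sqrt (Xm / κ) + Real.sqrt (Xh / κ)) * Real.sqrt M := by
  set W : ℝ := (S.card : ℝ) with hWdef
  have hsqχ : 0 < Real.sqrt χ := Real.sqrt_pos.2 hχ
  have hW0 : W0 ≤ W / κ := by rw [le_div_iff₀ hκ]; linarith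
  have hX : ∀ Y : ℝ, 0 ≤ Y → Real.sqrt (W * (Y * (M * χ * W0))) ≤
      W * (Real.sqrt (Y / κ) * Real.sqrt M * Real.sqrt χ) := by
    intro Y hY
    have h1 : W * (Y * (M * χ * W0)) ≤ W ^ 2 * ((Y / κ) * M * χ) := by
      have h2 : Y * (M * χ * W0) ≤ Y * (M * χ * (W / κ)) := by
        apply mul_le_mul_of_nonneg_left _ hY
        apply mul_le_mul_of_nonneg_left hW0 (by positivity)
      calc W * (Y * (M * χ * W0)) ≤ W * (Y * (M * χ * (W / κ))) :=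
            mul_le_mul_of_nonneg_left h2 hS.le
        _ = _ := by field_simp
    refine (Real.sqrt_le_sqrt h1).trans (le_of_eq ?_)
    rw [Real.sqrt_mul (by positivity), Real.sqrt_sq hS.le, Real.sqrt_mul (by positivity),
      Real.sqrt_mul (by positivity)]
  have e1 : ∑ p ∈ S, Z p = ∑ p ∈ S, (Zl p + Zm p + Zh p) + W * χ := by
    rw [Finset.sum_congr rfl hsplit, Finset.sum_add_distrib, Finset.sum_const, nsmul_eq_mul]
  have e2 : |∑ p ∈ S, (Zl p + Zm p + Zh p)| ≤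
      W * (a0 * A) + Real.sqrt (W * (Xm * (M * χ * W0))) + Real.sqrt (W * (Xh * (M * χ * W0))) := by
    have h1 : ∀ p ∈ S, |Zl p + Zm p + Zh p| ≤ a0 * A + |Zm p| + |Zh p| := by
      intro p hp
      have := abs_add_three (Zl p) (Zm p) (Zh p)
      linarith [hl p hp]
    refine (Finset.abs_sum_le_sum_abs _ _).trans ((Finset.sum_le_sum h1).trans ?_)
    rw [Finset.sum_add_distrib, Finset.sum_add_distrib, Finset.sum_const, nsmul_eq_mul]
    have h2 := cs_abs S Zm _ hm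
    have h3 := cs_abs S Zh _ hh
    linarith
  have e3 : W * χ ≤ W * A + Err + (W * (a0 * A) + Real.sqrt (W * (Xm * (M * χ * W0))) +
      Real.sqrt (W * (Xh * (M * χ * W0)))) := by
    have h1 : W * χ = ∑ p ∈ S, Z p - ∑ p ∈ S, (Zl p + Zm p + Zh p) := by rw [e1]; ring
    have h2 := abs_sub (∑ p ∈ S, Z p) (∑ p ∈ S, (Zl p + Zm p + Zh p))
    have h3 := le_abs_self (∑ p ∈ S, Z p - ∑ p ∈ S, (Zl p + Zm p + Zh p))
    linarith
  have e4 := hX Xm hXm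
  have e5 := hX Xh hXh
  have hAq : A = Real.sqrt q * Real.sqrt χ := by rw [hA, Real.sqrt_mul hq]
  have e6 : W * χ ≤ W * (((2 + a0) * Real.sqrt q +
      (Real.sqrt (Xm / κ) + Real.sqrt (Xh / κ)) * Real.sqrt M) * Real.sqrt χ) := by
    have h1 : Err ≤ W * (Real.sqrt q * Real.sqrt χ) := by rw [← hAq]; exact hErr
    rw [hAq] at e3
    nlinarith
  have e7 := le_of_mul_le_mul_left e6 hS
  have e8 : Real.sqrt χ * Real.sqrt χ = χ := Real.mul_self_sqrt hχ.le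
  rw [← e8] at e7
  have e9 : Real.sqrt χ * Real.sqrt χ ≤ ((2 + a0) * Real.sqrt q +
      (Real.sqrt (Xm / κ) + Real.sqrt (Xh / κ)) * Real.sqrt M) * Real.sqrt χ := by
    rw [e8] at e7 ⊢
    exact e7
  exact le_of_mul_le_mul_right e9 hsqχ

end Pool.Agent.H94.Fin
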