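import Pool.Agent.H94.FinC

/-!
The core inequality.
-/

namespace Pool.Agent.H94.Fin

open Finset Polynomial Filter Topology Pool.Agent.H94.Weyl Pool.Agent.H94.Dig

variable {b : ℕ} {g : ℕ → ℕ} (D : Data b g)

/-- constant for the middle blocks -/
noncomputable def Data.Xm : ℝ := Pool.Agent.H17.Cb b * D.c2 * (32 * D.d) / Real.log b + 1

/-- constant for the high blocks -/
noncomputable def Data.Xh : ℝ := 4 * D.CT * D.c2 / Real.log b

theorem Data.core (hg1 : ∀ n : ℕ, 1 ≤ n → 1 ≤ g n) (dd : ℕ → ℕ)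
    (hcc : IsConcat b (wd g) dd) (m a s Λ M : ℕ) (hm : 3 ≤ m) (ha : 1 ≤ a) (hs : s = a ^ 4)
    (hΛ : Λ = 32 * D.d * m * s) (hM : M = 32 * D.d ^ 2 * s) (nδ : ℕ)
    (hδ : ∀ n ≥ nδ, ∀ k < b ^ m, |(cnt b m dd k n : ℝ) - n / (b : ℝ) ^ m| ≤ (n : ℝ) ^ ((3 : ℝ) / 4))
    (hT1 : m * nδ ≤ Nat.count Nat.Prime (D.th (b ^ (D.d * Λ - 1))))
    (hq : 64 * D.CT * D.c2 ≤ D.cp * ((b : ℝ) ^ m - 1) * Real.log b)
    (hpr : D.cp * (b : ℝ) ^ Λ / (Λ : ℝ) ≤
      (((Ico (D.th (b ^ (D.d * Λ - 1))) (D.th (b ^ (D.d * Λ)))).filter Nat.Prime).card : ℝ))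
    (hE2 : ∀ o < m, (1 + Real.log (((b ^ (m * s)) ^ 2 : ℕ) : ℝ)) ^ 3 *
      (((b ^ (m * s) : ℕ) : ℝ) ^ 2 + M * (b ^ m : ℕ) * D.C *
        (5 * (1 + (b ^ m : ℕ) * (1 + Real.log (b ^ (D.d * Λ) : ℕ))) ^ 2 * ((2 : ℝ) ^ a) ^ (-D.c)) *
        ((D.c2 : ℝ) * (b : ℝ) ^ (Λ - 4 * m * s - o) + ((b ^ (m * s) : ℕ) : ℝ) ^ 2)) ≤
      (b : ℝ) ^ (Λ - 4 * m * s - o) / Λ)
    (hE3 : ∀ o < m, (b ^ m : ℕ) * (2 * ((D.C4 * b ^ Λ * (D.d * Λ + ∑ n ∈ range D.n0, len b (g n)) +
      m : ℕ) : ℝ) ^ ((3 : ℝ) / 4)) ≤ D.cp / 4 * (b : ℝ) ^ (Λ - 4 * m * s - o) / Λ)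
    (hE5 : b ^ (m * s) < D.th (b ^ (D.d * Λ - 1))) :
    Real.sqrt (((4 * s : ℕ) : ℝ) * ((b : ℝ) ^ m - 1) / 2) ≤ (2 + (a : ℝ)) * Real.sqrt (b ^ m : ℕ) +
      (Real.sqrt (D.Xm / (D.cp / 4)) + Real.sqrt (D.Xh / (D.cp / 4))) * Real.sqrt M := by
  have hb := D.hb
  have hd := D.hd
  have hs1 : 1 ≤ s := by rw [hs]; exact Nat.one_le_pow _ _ (by omega)
  have has : a ≤ s := by
    rw [hs]
    calc a = a ^ 1 := (pow_one a).symm
      _ ≤ a ^ 4 := Nat.pow_le_pow_right (by omega) (by norm_num)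
  have hms : 1 ≤ m * s := Nat.mul_pos (by omega) hs1
  have hms2 : m ≤ m * s := Nat.le_mul_of_pos_right m hs1
  have hdms : m * s ≤ D.d * (m * s) := Nat.le_mul_of_pos_left _ hd
  have hΛ' : Λ = 32 * (D.d * (m * s)) := by rw [hΛ]; ring
  have hmM : m * M = D.d * Λ := by rw [hM, hΛ]; ring
  have h4ms : 4 * m * s = 4 * (m * s) := by ring
  have hdΛ : Λ ≤ D.d * Λ := Nat.le_mul_of_pos_left Λ hd
  have hΛ1 : 1 ≤ Λ := by omega
  have hM1 : 1 ≤ M := by
    rw [hM]
    exact Nat.mul_pos (Nat.mul_pos (by norm_num) (Nat.pow_pos (by omega))) hs1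
  -- parameters
  set T1 := Nat.count Nat.Prime (D.th (b ^ (D.d * Λ - 1))) with hT1d
  set o := offset b m (wd g) T1 with ho
  have hom : o < m := offset_lt b m (by omega) (wd g) T1
  obtain ⟨u, hu1, hu2, hχ, hWu⟩ := D.good_window m s o (by omega) hs1 hom hq (by
    rw [← hΛ]; exact hpr)
  rw [← hΛ] at hWu
  set q := b ^ m with hqdef
  have hqr : ((q : ℕ) : ℝ) = (b : ℝ) ^ m := by rw [hqdef]; push_cast; rfl
  have hq8 : 8 ≤ q := by
    rw [hqdef]
    calc 8 = 2 ^ 3 := by norm_num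
      _ ≤ b ^ 3 := Nat.pow_le_pow_left hb 3
      _ ≤ b ^ m := Nat.pow_le_pow_right (by omega) hm
  have hq1 : 1 ≤ q := by omega
  set J := D.d * Λ - o - 4 * m * s with hJ
  -- block indices
  have hMs : 32 * (D.d * s) ≤ M := by
    rw [hM]
    calc 32 * (D.d * s) = 32 * (D.d * s) * 1 := by ring
      _ ≤ 32 * (D.d * s) * D.d := Nat.mul_le_mul_left _ hd
      _ = 32 * D.d ^ 2 * s := by ring
  have hds : s ≤ D.d * s := Nat.le_mul_of_pos_left _ hd
  set aJ := M - 1 - 4 * s with haJ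
  set aH := M - 1 - 16 * (D.d * s) with haH
  have haHJ : aH ≤ aJ := by omega
  have ha0H : a ≤ aH := by omega
  have haJM : aJ ≤ M - 1 := by omega
  have hJeq : (m - o) + m * aJ = J := by
    have e1 : m * aJ + m * (4 * s) + m = m * M := by
      calc m * aJ + m * (4 * s) + m = m * (aJ + 4 * s + 1) := by ring
        _ = m * M := by congr 1; omega
    have e2 : m * (4 * s) = 4 * (m * s) := by ring
    rw [hmM] at e1
    omega
  have hJ'eq : (m - o) + m * aH = D.d * Λ - o - 16 * (D.d * (m * s)) := by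
    have e1 : m * aH + m * (16 * (D.d * s)) + m = m * M := by
      calc m * aH + m * (16 * (D.d * s)) + m = m * (aH + 16 * (D.d * s) + 1) := by ring
        _ = m * M := by congr 1; omega
    have e2 : m * (16 * (D.d * s)) = 16 * (D.d * (m * s)) := by ring
    rw [hmM] at e1
    omega
  have hJ1 : b ^ (D.d * Λ - 1) ≤ u * b ^ J := by
    calc b ^ (D.d * Λ - 1) = b ^ (4 * m * s + o - 1) * b ^ J := by
          rw [← pow_add]; congr 1; omega
      _ ≤ u * b ^ J := Nat.mul_le_mul_right _ hu1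
  have hJ2 : u * b ^ J + b ^ J ≤ b ^ (D.d * Λ) := by
    calc u * b ^ J + b ^ J = (u + 1) * b ^ J := by ring
      _ ≤ b ^ (4 * m * s + o) * b ^ J := Nat.mul_le_mul_right _ hu2
      _ = b ^ (D.d * Λ) := by rw [← pow_add]; congr 1; omega
  have hpred : (D.d - 1) * Λ + Λ = D.d * Λ := by
    calc (D.d - 1) * Λ + Λ = (D.d - 1 + 1) * Λ := by ring
      _ = D.d * Λ := by rw [Nat.sub_add_cancel hd]
  have hJΛ : (D.d - 1) * Λ ≤ J := by omega
  have hJexp : J - (D.d - 1) * Λ = Λ - 4 * m * s - o := by omega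
  set x := D.th (u * b ^ J) with hx
  set y := D.th (u * b ^ J + b ^ J) with hy
  set H := b ^ (Λ - 4 * m * s - o) with hH
  have hxy : x ≤ y := D.th_mono (Nat.le_add_right _ _)
  have hlen : y - x ≤ D.c2 * H := by
    have := D.hwin Λ J (u * b ^ J) hΛ1 hJΛ hJ1
    rwa [hJexp] at this
  have hDx : b ^ (m * s) < x := lt_of_lt_of_le hE5 (D.th_mono hJ1)
  set S := (Ico x y).filter Nat.Prime with hS
  -- the function
  set χ := chi q (4 * s) u with hχd
  set G : ℕ → ℝ := dev q (4 * s) u with hG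
  have hGsum : ∑ k ∈ range q, G k = 0 := sum_dev q hq1 (4 * s) u
  have hV : (∑ k ∈ range q, G k ^ 2) / (q : ℕ) = χ := rfl
  have hb1 : (1 : ℝ) < b := by exact_mod_cast (by omega : 1 < b)
  have hb0 : (0 : ℝ) < b := by linarith
  have hlogb : 0 < Real.log b := Real.log_pos hb1
  have hq8r : (8 : ℝ) ≤ q := by exact_mod_cast hq8
  have hq0 : (0 : ℝ) < q := by linarith
  have hsr : (1 : ℝ) ≤ s := by exact_mod_cast hs1
  have hχlow : 0 < ((4 * s : ℕ) : ℝ) * ((b : ℝ) ^ m - 1) / 2 := by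
    rw [← hqr]
    push_cast
    have : (0 : ℝ) < (q : ℝ) - 1 := by linarith
    positivity
  have hχ0 : 0 < χ := lt_of_lt_of_le hχlow hχ
  set A := Real.sqrt (q * χ) with hAdef
  have hA0 : 0 ≤ A := Real.sqrt_nonneg _
  have hA : ∀ k < q, |G k| ≤ A := by
    intro k hk
    rw [← Real.sqrt_sq_eq_abs, hAdef]
    apply Real.sqrt_le_sqrt
    have h1 : G k ^ 2 ≤ ∑ k ∈ range q, G k ^ 2 :=
      Finset.single_le_sum (f := fun k => G k ^ 2) (fun _ _ => by positivity) (mem_range.2 hk)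
    have h2 : (q : ℝ) * χ = ∑ k ∈ range q, G k ^ 2 := by rw [← hV]; field_simp
    rw [h2]; exact h1
  have hA2 : A ^ 2 = q * χ := Real.sq_sqrt (by positivity)
  have hΛr : (1 : ℝ) ≤ Λ := by exact_mod_cast hΛ1
  have hH1 : 1 ≤ H := Nat.one_le_pow _ _ (by omega)
  have hHr : ((H : ℕ) : ℝ) = (b : ℝ) ^ (Λ - 4 * m * s - o) := by rw [hH]; push_cast; rfl
  have hH0 : (0 : ℝ) < (H : ℝ) := by exact_mod_cast hH1
  set W0 : ℝ := (H : ℝ) / Λ with hW0
  have hW00 : 0 < W0 := by positivity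
  have hcp := D.hcp
  have hWS : D.cp / 4 * W0 ≤ (S.card : ℝ) := by
    rw [hW0, hHr]
    refine le_trans (le_of_eq ?_) hWu
    ring
  have hSpos : (0 : ℝ) < (S.card : ℝ) := lt_of_lt_of_le (by positivity) hWS
  -- total
  have htot := D.window_bound hg1 dd hcc m M Λ (by omega) hmM hM1 hΛ1 nδ hδ hT1 u J hJ1 hJ2 G A hA
    hGsum
  set U : ℕ := D.C4 * b ^ Λ * (D.d * Λ + ∑ n ∈ range D.n0, len b (g n)) + m with hU
  -- error term
  have hErr : (∑ k ∈ range q, |G k|) * (2 * (U : ℝ) ^ ((3 : ℝ) / 4)) ≤ (S.card : ℝ) * A := by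
    have h1 : ∑ k ∈ range q, |G k| ≤ q * A := by
      calc ∑ k ∈ range q, |G k| ≤ ∑ k ∈ range q, A :=
            Finset.sum_le_sum (fun k hk => hA k (mem_range.1 hk))
        _ = q * A := by rw [Finset.sum_const, card_range, nsmul_eq_mul]
    have h2 := hE3 o hom
    rw [← hHr] at h2
    have h3 : (q : ℝ) * (2 * (U : ℝ) ^ ((3 : ℝ) / 4)) ≤ (S.card : ℝ) := by
      refine h2.trans ?_
      refine le_trans (le_of_eq ?_) hWS
      rw [hW0]; ring
    calc (∑ k ∈ range q, |G k|) * (2 * (U : ℝ) ^ ((3 : ℝ) / 4))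
        ≤ (q * A) * (2 * (U : ℝ) ^ ((3 : ℝ) / 4)) := mul_le_mul_of_nonneg_right h1 (by positivity)
      _ = ((q : ℝ) * (2 * (U : ℝ) ^ ((3 : ℝ) / 4))) * A := by ring
      _ ≤ _ := mul_le_mul_of_nonneg_right h3 hA0
  -- window membership
  have hmem : ∀ p ∈ S, g p / b ^ J = u := by
    intro p hp
    rw [hS, mem_filter] at hp
    exact ((D.mem_window J u p).1 hp.1).2
  -- splitting
  have hsplit : ∀ p ∈ S, ∑ i ∈ range (M - 1), G (g p / b ^ ((m - o) + m * i) % b ^ m) =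
      (∑ i ∈ range a, G (g p / b ^ ((m - o) + m * i) % b ^ m)) +
      (∑ i ∈ Ico a aH, G (g p / b ^ ((m - o) + m * i) % b ^ m)) +
      (∑ i ∈ Ico aH aJ, G (g p / b ^ ((m - o) + m * i) % b ^ m)) + χ := by
    intro p hp
    have htop : ∑ i ∈ Ico aJ (M - 1), G (g p / b ^ ((m - o) + m * i) % b ^ m) = χ := by
      rw [blocks_eq_bsum b m (m - o) aJ (M - 1) (g p) G, hJeq, hmem p hp]
      have h4s : M - 1 - aJ = 4 * s := by omega
      rw [h4s]
      exact bsum_dev q hq1 (4 * s) u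
    rw [← htop]
    simp only [Finset.range_eq_Ico]
    rw [← Finset.sum_Ico_consecutive _ (Nat.zero_le a)
      (ha0H.trans (haHJ.trans haJM)), ← Finset.sum_Ico_consecutive _ ha0H (haHJ.trans haJM),
      ← Finset.sum_Ico_consecutive _ haHJ haJM]
    ring
  -- low blocks
  have hlow : ∀ p ∈ S, |∑ i ∈ range a, G (g p / b ^ ((m - o) + m * i) % b ^ m)| ≤ (a : ℝ) * A := by
    intro p _
    refine (Finset.abs_sum_le_sum_abs _ _).trans ?_
    calc ∑ i ∈ range a, |G (g p / b ^ ((m - o) + m * i) % b ^ m)| ≤ ∑ i ∈ range a, A := by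
          apply Finset.sum_le_sum
          intro i _
          exact hA _ (Nat.mod_lt _ (by omega))
      _ = (a : ℝ) * A := by rw [Finset.sum_const, card_range, nsmul_eq_mul]
  -- middle blocks
  have hmid := mid_bound D.F D.B b D.hB hb g D.hBg D.d D.C D.c (by linarith [D.hC]) D.hc.le D.hc1
    D.hweyl m (m - o) a aH a ((m - o) + m * (aH + 1)) (b ^ (m * s)) (D.c2 * H) (by
      calc 2 ≤ b := hb
        _ = b ^ 1 := (pow_one b).symm
        _ ≤ b ^ (m * s) := Nat.pow_le_pow_right (by omega) hms) G A hA0 hA hGsum le_rfl (by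
      have : 3 * a ≤ m * a := Nat.mul_le_mul_right a hm
      omega) (by
      -- condition (P)
      have hnm : (m - o) + m * (aH + 1) = D.d * Λ - o - 16 * (D.d * (m * s)) + m := by
        rw [← hJ'eq]; ring
      rw [hnm]
      have h1 : b ^ (Λ - 6 * (m * s) - o) ≤ D.c2 * H / (b ^ (m * s)) ^ 2 := by
        rw [Nat.le_div_iff_mul_le (by positivity), ← pow_mul, ← pow_add]
        calc b ^ (Λ - 6 * (m * s) - o + m * s * 2) = H := by rw [hH]; congr 1; omega
          _ ≤ D.c2 * H := Nat.le_mul_of_pos_left _ D.hc2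
      calc (b ^ (D.d * Λ - o - 16 * (D.d * (m * s)) + m)) ^ 4
          = b ^ (4 * (D.d * Λ - o - 16 * (D.d * (m * s)) + m)) := by rw [← pow_mul]; congr 1; ring
        _ ≤ b ^ ((4 * D.d - 1) * (Λ - 6 * (m * s) - o)) := by
            apply Nat.pow_le_pow_right (by omega)
            -- arithmetic
            obtain ⟨k, hk⟩ : ∃ k, D.d = k + 1 := ⟨D.d - 1, by omega⟩
            have e1 : 4 * D.d - 1 = 4 * k + 3 := by omega
            rw [e1]
            set X := m * s with hX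
            have e2 : Λ = 32 * (k * X) + 32 * X := by rw [hΛ', hk]; ring
            have e3 : D.d * Λ = 32 * (k * (k * X)) + 64 * (k * X) + 32 * X := by
              rw [hΛ', hk]; ring
            have e4 : D.d * X = k * X + X := by rw [hk]; ring
            have e5 : (4 * k + 3) * (Λ - 6 * X - o) + (4 * k + 3) * o =
                128 * (k * (k * X)) + 200 * (k * X) + 78 * X := by
              rw [← Nat.mul_add]
              have : Λ - 6 * X - o + o = 32 * (k * X) + 26 * X := by omega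
              rw [this]; ring
            have e6 : (4 * k + 3) * o ≤ 4 * (k * X) + 3 * X := by
              calc (4 * k + 3) * o ≤ (4 * k + 3) * X := Nat.mul_le_mul_left _ (by omega)
                _ = 4 * (k * X) + 3 * X := by ring
            omega
        _ = (b ^ (Λ - 6 * (m * s) - o)) ^ (4 * D.d - 1) := by rw [← pow_mul]; congr 1; ring
        _ ≤ (D.c2 * H / (b ^ (m * s)) ^ 2 + 1) ^ (4 * D.d - 1) :=
            Nat.pow_le_pow_left (h1.trans (Nat.le_succ _)) _)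
      x y (D.hn0.trans (D.hth0 _)) hDx hxy hlen
  have hnn : ((aH - a : ℕ) : ℝ) ≤ M := by exact_mod_cast (by omega : aH - a ≤ M)
  have hC0 : 0 < D.C := by linarith [D.hC]
  have hmid' : ∑ p ∈ S, (∑ i ∈ Ico a aH, G (g p / b ^ ((m - o) + m * i) % b ^ m)) ^ 2 ≤
      D.Xm * (M * χ * W0) := by
    refine hmid.trans ?_
    rw [hV]
    -- first term
    have hlogD : Real.log ((b ^ (m * s) : ℕ) : ℝ) = (m * s : ℕ) * Real.log b := by
      push_cast; rw [Real.log_pow]; push_cast; ring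
    have hCb := Pool.Agent.H17.Cb_pos b
    have hc2r : (1 : ℝ) ≤ D.c2 := by exact_mod_cast D.hc2
    have hmsr : (1 : ℝ) ≤ ((m * s : ℕ) : ℝ) := by exact_mod_cast hms
    have hΛr2 : (Λ : ℝ) = 32 * D.d * ((m * s : ℕ) : ℝ) := by rw [hΛ']; push_cast; ring
    have hd0 : (0 : ℝ) < D.d := by exact_mod_cast hd
    have hyx : ((y - x : ℕ) : ℝ) ≤ D.c2 * H := by exact_mod_cast hlen
    have t1 : Pool.Agent.H17.Cb b * (((aH - a : ℕ) : ℝ) * χ * ((y - x : ℕ) : ℝ)) /
        Real.log ((b ^ (m * s) : ℕ) : ℝ) ≤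
        Pool.Agent.H17.Cb b * D.c2 * (32 * D.d) / Real.log b * (M * χ * W0) := by
      rw [hlogD]
      calc Pool.Agent.H17.Cb b * (((aH - a : ℕ) : ℝ) * χ * ((y - x : ℕ) : ℝ)) /
            (((m * s : ℕ) : ℝ) * Real.log b)
          ≤ Pool.Agent.H17.Cb b * (M * χ * (D.c2 * H)) / (((m * s : ℕ) : ℝ) * Real.log b) := by
            apply div_le_div_of_nonneg_right _ (by positivity)
            apply mul_le_mul_of_nonneg_left _ hCb.le
            apply mul_le_mul _ hyx (by positivity) (by positivity)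
            exact mul_le_mul_of_nonneg_right hnn hχ0.le
        _ = _ := by
            rw [hW0, hΛr2]; field_simp
    -- second term
    have t2 : (1 + Real.log (((b ^ (m * s)) ^ 2 : ℕ) : ℝ)) ^ 3 *
        (((b ^ (m * s) : ℕ) : ℝ) ^ 2 * (((aH - a : ℕ) : ℝ) * χ) +
        ((aH - a : ℕ) : ℝ) ^ 2 * A ^ 2 * D.C *
        (5 * (1 + (b ^ m : ℕ) * (1 + Real.log (b ^ ((m - o) + m * (aH + 1)) : ℕ))) ^ 2 *
          ((2 : ℝ) ^ a) ^ (-D.c)) * (((D.c2 * H : ℕ) : ℝ) + ((b ^ (m * s) : ℕ) : ℝ) ^ 2)) ≤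
        M * χ * W0 := by
      have hE := hE2 o hom
      rw [← hHr] at hE
      have hη : (5 * (1 + ((b ^ m : ℕ) : ℝ) * (1 + Real.log ((b ^ ((m - o) + m * (aH + 1)) : ℕ) : ℝ))) ^ 2 *
          ((2 : ℝ) ^ a) ^ (-D.c)) ≤ (5 * (1 + ((b ^ m : ℕ) : ℝ) *
            (1 + Real.log ((b ^ (D.d * Λ) : ℕ) : ℝ))) ^ 2 * ((2 : ℝ) ^ a) ^ (-D.c)) := by
        apply mul_le_mul_of_nonneg_right _ (by positivity)
        apply mul_le_mul_of_nonneg_left _ (by norm_num)
        have hl0 : 0 ≤ Real.log ((b ^ ((m - o) + m * (aH + 1)) : ℕ) : ℝ) :=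
          Real.log_natCast_nonneg _
        apply pow_le_pow_left₀ (by positivity)
        have hl1 : Real.log ((b ^ ((m - o) + m * (aH + 1)) : ℕ) : ℝ) ≤
            Real.log ((b ^ (D.d * Λ) : ℕ) : ℝ) := by
          apply Real.log_le_log (by positivity)
          have : (m - o) + m * (aH + 1) ≤ D.d * Λ := by
            have e1 : m * (aH + 1) = m * aH + m := by ring
            omega
          exact_mod_cast Nat.pow_le_pow_right (by omega) this
        have := mul_le_mul_of_nonneg_left hl1 (Nat.cast_nonneg (α := ℝ) (b ^ m))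
        linarith
      set η := (5 * (1 + ((b ^ m : ℕ) : ℝ) * (1 + Real.log ((b ^ ((m - o) + m * (aH + 1)) : ℕ) : ℝ))) ^ 2 *
          ((2 : ℝ) ^ a) ^ (-D.c)) with hηd
      set η' := (5 * (1 + ((b ^ m : ℕ) : ℝ) *
            (1 + Real.log ((b ^ (D.d * Λ) : ℕ) : ℝ))) ^ 2 * ((2 : ℝ) ^ a) ^ (-D.c)) with hη'd
      have hη0 : 0 ≤ η := by positivity
      have hlog3 : 0 ≤ (1 + Real.log (((b ^ (m * s)) ^ 2 : ℕ) : ℝ)) ^ 3 := by
        have := Real.log_natCast_nonneg ((b ^ (m * s)) ^ 2)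
        positivity
      set nn : ℝ := ((aH - a : ℕ) : ℝ) with hnnd
      have hnn0 : 0 ≤ nn := Nat.cast_nonneg _
      have hM0 : (0 : ℝ) ≤ M := Nat.cast_nonneg _
      set Dn : ℝ := ((b ^ (m * s) : ℕ) : ℝ) with hDn
      have hDn0 : 0 ≤ Dn := Nat.cast_nonneg _
      have s1 : Dn ^ 2 * (nn * χ) ≤ (M * χ) * Dn ^ 2 := by
        have := mul_le_mul_of_nonneg_right hnn (by positivity : 0 ≤ χ * Dn ^ 2)
        linarith
      have s2 : nn ^ 2 * A ^ 2 * D.C * η * (((D.c2 * H : ℕ) : ℝ) + Dn ^ 2) ≤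
          (M * χ) * (M * (q : ℝ) * D.C * η' * ((D.c2 : ℝ) * H + Dn ^ 2)) := by
        rw [hA2]
        have hnn2 : nn ^ 2 ≤ (M : ℝ) ^ 2 := pow_le_pow_left₀ hnn0 hnn 2
        have hcast : ((D.c2 * H : ℕ) : ℝ) = (D.c2 : ℝ) * H := by push_cast; ring
        rw [hcast]
        calc nn ^ 2 * (q * χ) * D.C * η * ((D.c2 : ℝ) * H + Dn ^ 2)
            ≤ (M : ℝ) ^ 2 * (q * χ) * D.C * η' * ((D.c2 : ℝ) * H + Dn ^ 2) := by
              apply mul_le_mul_of_nonneg_right _ (by positivity)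
              apply mul_le_mul _ hη hη0 (by positivity)
              apply mul_le_mul_of_nonneg_right _ hC0.le
              exact mul_le_mul_of_nonneg_right hnn2 (by positivity)
          _ = _ := by ring
      calc (1 + Real.log (((b ^ (m * s)) ^ 2 : ℕ) : ℝ)) ^ 3 *
          (Dn ^ 2 * (nn * χ) + nn ^ 2 * A ^ 2 * D.C * η * (((D.c2 * H : ℕ) : ℝ) + Dn ^ 2))
          ≤ (1 + Real.log (((b ^ (m * s)) ^ 2 : ℕ) : ℝ)) ^ 3 *
          ((M * χ) * Dn ^ 2 + (M * χ) * (M * (q : ℝ) * D.C * η' * ((D.c2 : ℝ) * H + Dn ^ 2))) :=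
            mul_le_mul_of_nonneg_left (add_le_add s1 s2) hlog3
        _ = (M * χ) * ((1 + Real.log (((b ^ (m * s)) ^ 2 : ℕ) : ℝ)) ^ 3 *
          (Dn ^ 2 + M * (q : ℝ) * D.C * η' * ((D.c2 : ℝ) * H + Dn ^ 2))) := by ring
        _ ≤ (M * χ) * ((H : ℝ) / Λ) := mul_le_mul_of_nonneg_left hE (by positivity)
        _ = M * χ * W0 := by rw [hW0]
    unfold Data.Xm
    have t3 : (Pool.Agent.H17.Cb b * D.c2 * (32 * D.d) / Real.log b + 1) * (M * χ * W0) =
        Pool.Agent.H17.Cb b * D.c2 * (32 * D.d) / Real.log b * (M * χ * W0) + M * χ * W0 := by ring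
    rw [t3]
    exact add_le_add t1 t2
  -- high blocks
  have hCT := D.hCT
  set H' := b ^ (Λ - 16 * (D.d * (m * s)) - o) with hH'
  have hJ'Λ : (D.d - 1) * Λ ≤ (m - o) + m * aH := by rw [hJ'eq]; omega
  have hJ'exp : (m - o) + m * aH - (D.d - 1) * Λ = Λ - 16 * (D.d * (m * s)) - o := by
    rw [hJ'eq]; omega
  set Wb : ℝ := 4 * D.CT * D.c2 * H' / (Λ * Real.log b) with hWb
  have hWb0 : 0 ≤ Wb := by positivity
  have hqpow : q ^ (aJ - aH) = b ^ (16 * (D.d * (m * s)) - 4 * (m * s)) := by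
    rw [hqdef, ← pow_mul]
    congr 1
    have e1 : aJ - aH + 4 * s = 16 * (D.d * s) := by omega
    have e2 : m * (aJ - aH) + 4 * (m * s) = 16 * (D.d * (m * s)) := by
      calc m * (aJ - aH) + 4 * (m * s) = m * (aJ - aH + 4 * s) := by ring
        _ = _ := by rw [e1]; ring
    omega
  have hhigh := high_bound S g b m (m - o) aH aJ u ⌊Wb⌋₊ (by omega) haHJ G hGsum (by
      intro p hp
      rw [hJeq]; exact hmem p hp) (by
      intro v hv
      apply Nat.le_floor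
      have h1 : S.filter (fun p => g p / b ^ ((m - o) + m * aH) = v) ⊆
          (Ico (D.th (v * b ^ ((m - o) + m * aH))) (D.th (v * b ^ ((m - o) + m * aH) +
            b ^ ((m - o) + m * aH)))).filter Nat.Prime := by
        intro p hp
        rw [mem_filter, hS, mem_filter] at hp
        rw [mem_filter, D.mem_window]
        exact ⟨⟨((D.mem_window J u p).1 hp.1.1).1, hp.2⟩, hp.1.2⟩
      have h2 : ((S.filter (fun p => g p / b ^ ((m - o) + m * aH) = v)).card : ℝ) ≤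
          (((Ico (D.th (v * b ^ ((m - o) + m * aH))) (D.th (v * b ^ ((m - o) + m * aH) +
            b ^ ((m - o) + m * aH)))).filter Nat.Prime).card : ℝ) := by
        exact_mod_cast Finset.card_le_card h1
      refine h2.trans ?_
      have hvlow : b ^ (D.d * Λ - 1) ≤ v * b ^ ((m - o) + m * aH) := by
        have e1 : u * (b ^ m) ^ (aJ - aH) ≤ v := by
          rw [← hv]; exact Nat.div_mul_le_self _ _
        have e2 : J = (m - o) + m * aH + m * (aJ - aH) := by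
          rw [← hJeq]
          have : m * aH + m * (aJ - aH) = m * aJ := by rw [← Nat.mul_add]; congr 1; omega
          omega
        calc b ^ (D.d * Λ - 1) ≤ u * b ^ J := hJ1
          _ = (u * (b ^ m) ^ (aJ - aH)) * b ^ ((m - o) + m * aH) := by
              rw [e2, pow_add, ← pow_mul]; ring
          _ ≤ _ := Nat.mul_le_mul_right _ e1
      have h3 := D.hwin Λ ((m - o) + m * aH) (v * b ^ ((m - o) + m * aH)) hΛ1 hJ'Λ hvlow
      rw [hJ'exp] at h3
      have h4 : 2 ≤ D.c2 * H' := by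
        calc 2 ≤ b := hb
          _ = b ^ 1 := (pow_one b).symm
          _ ≤ H' := by rw [hH']; exact Nat.pow_le_pow_right (by omega) (by omega)
          _ ≤ D.c2 * H' := Nat.le_mul_of_pos_left _ D.hc2
      refine (D.hbt _ _ (D.c2 * H') h4 h3).trans ?_
      have hlogL : Λ * Real.log b / 4 ≤ Real.log ((D.c2 * H' : ℕ) : ℝ) := by
        have e1 : (b : ℝ) ^ (8 * (D.d * (m * s))) ≤ ((D.c2 * H' : ℕ) : ℝ) := by
          have e2 : b ^ (8 * (D.d * (m * s))) ≤ D.c2 * H' := by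
            calc b ^ (8 * (D.d * (m * s))) ≤ H' := by
                  rw [hH']
                  apply Nat.pow_le_pow_right (by omega)
                  omega
              _ ≤ D.c2 * H' := Nat.le_mul_of_pos_left _ D.hc2
          exact_mod_cast e2
        have e3 := Real.log_le_log (by positivity) e1
        rw [Real.log_pow] at e3
        refine le_trans (le_of_eq ?_) e3
        rw [hΛ']; push_cast; ring
      have h5 : 0 < Λ * Real.log b / 4 := by positivity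
      calc D.CT * ((D.c2 * H' : ℕ) : ℝ) / Real.log ((D.c2 * H' : ℕ) : ℝ)
          ≤ D.CT * ((D.c2 * H' : ℕ) : ℝ) / (Λ * Real.log b / 4) :=
            div_le_div_of_nonneg_left (by positivity) h5 hlogL
        _ = Wb := by rw [hWb]; push_cast; field_simp)
  have hhigh' : ∑ p ∈ S, (∑ i ∈ Ico aH aJ, G (g p / b ^ ((m - o) + m * i) % b ^ m)) ^ 2 ≤
      D.Xh * (M * χ * W0) := by
    refine hhigh.trans ?_
    rw [hV]
    have h1 : ((⌊Wb⌋₊ : ℕ) : ℝ) ≤ Wb := Nat.floor_le hWb0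
    have h2 : ((aJ - aH : ℕ) : ℝ) ≤ M := by exact_mod_cast (by omega : aJ - aH ≤ M)
    have h3 : ((q : ℕ) : ℝ) ^ (aJ - aH) * H' = H := by
      have : q ^ (aJ - aH) * H' = H := by
        rw [hqpow, hH', hH, ← pow_add]; congr 1; omega
      exact_mod_cast this
    calc ((⌊Wb⌋₊ : ℕ) : ℝ) * (((aJ - aH : ℕ) : ℝ) * ((b ^ m : ℕ) : ℝ) ^ (aJ - aH) * χ)
        ≤ Wb * (M * ((b ^ m : ℕ) : ℝ) ^ (aJ - aH) * χ) := by
          apply mul_le_mul h1 _ (by positivity) hWb0
          apply mul_le_mul_of_nonneg_right _ hχ0.le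
          exact mul_le_mul_of_nonneg_right h2 (by positivity)
      _ = 4 * D.CT * D.c2 / Real.log b * (M * χ * (((q : ℕ) : ℝ) ^ (aJ - aH) * H' / Λ)) := by
          rw [hWb, ← hqdef]; field_simp
      _ = D.Xh * (M * χ * W0) := by rw [h3, Data.Xh, hW0]
  -- final
  have hXm0 : 0 ≤ D.Xm := by
    unfold Data.Xm
    have := Pool.Agent.H17.Cb_pos b
    positivity
  have hXh0 : 0 ≤ D.Xh := by
    unfold Data.Xh
    positivity
  have hfin := final_ineq S (fun p => ∑ i ∈ range (M - 1), G (g p / b ^ ((m - o) + m * i) % b ^ m))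
    (fun p => ∑ i ∈ range a, G (g p / b ^ ((m - o) + m * i) % b ^ m))
    (fun p => ∑ i ∈ Ico a aH, G (g p / b ^ ((m - o) + m * i) % b ^ m))
    (fun p => ∑ i ∈ Ico aH aJ, G (g p / b ^ ((m - o) + m * i) % b ^ m))
    χ A W0 ((∑ k ∈ range q, |G k|) * (2 * (U : ℝ) ^ ((3 : ℝ) / 4))) D.Xm D.Xh M (D.cp / 4) q a
    hSpos hχ0 (Nat.cast_nonneg _) hAdef hq0.le hsplit htot hErr hlow hmid' hhigh' hXm0 hXh0
    (by positivity) hWS
  exact (Real.sqrt_le_sqrt hχ).trans hfin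

end Pool.Agent.H94.Fin
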