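import Pool.Agent.H94.FinD

/-!
Asymptotics of the parameters.
-/

namespace Pool.Agent.H94.Fin

open Finset Polynomial Filter Topology Pool.Agent.H94.Weyl Pool.Agent.H94.Dig

lemma ev_pow_exp (K : ℝ) (k b m : ℕ) (hb : 2 ≤ b) (hm : 1 ≤ m) :
    ∀ᶠ a : ℕ in atTop, K * ((a ^ 4 : ℕ) : ℝ) ^ k ≤ (b : ℝ) ^ (m * a ^ 4) := by
  have h1 : Tendsto (fun n : ℕ => (n : ℝ) ^ k * ((1 : ℝ) / 2) ^ n) atTop (𝓝 0) :=
    tendsto_pow_const_mul_const_pow_of_abs_lt_one k (by rw [abs_of_pos] <;> norm_num)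
  have h2 : Tendsto (fun n : ℕ => K * ((n : ℝ) ^ k * ((1 : ℝ) / 2) ^ n)) atTop (𝓝 (K * 0)) :=
    h1.const_mul K
  rw [mul_zero] at h2
  have h3 : Tendsto (fun a : ℕ => a ^ 4) atTop atTop := tendsto_pow_atTop (by norm_num)
  have h4 := (h2.comp h3).eventually (gt_mem_nhds (zero_lt_one))
  filter_upwards [h4] with a ha
  simp only [Function.comp] at ha
  set s := a ^ 4
  have h5 : (0 : ℝ) < (1 / 2) ^ s := by positivity
  have h6 : (K * (s : ℝ) ^ k) * (1 / 2) ^ s < (2 : ℝ) ^ s * (1 / 2) ^ s := by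
    rw [← mul_pow]; norm_num
    norm_num at ha
    linarith
  have h8 : K * (s : ℝ) ^ k < 2 ^ s := lt_of_mul_lt_mul_right h6 h5.le
  have hbr : (2 : ℝ) ≤ b := by exact_mod_cast hb
  calc K * (s : ℝ) ^ k ≤ 2 ^ s := h8.le
    _ ≤ (b : ℝ) ^ s := pow_le_pow_left₀ (by norm_num) hbr s
    _ ≤ (b : ℝ) ^ (m * s) := pow_le_pow_right₀ (by linarith) (Nat.le_mul_of_pos_left s hm)

lemma ev_geom (K : ℝ) (k : ℕ) (c : ℝ) (hc : 0 < c) :
    ∀ᶠ a : ℕ in atTop, K * ((a ^ 4 : ℕ) : ℝ) ^ k * ((2 : ℝ) ^ a) ^ (-c) ≤ 1 / 2 := by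
  set r : ℝ := (2 : ℝ) ^ (-c) with hr
  have hr0 : 0 < r := by positivity
  have hr1 : r < 1 := Real.rpow_lt_one_of_one_lt_of_neg (by norm_num) (by linarith)
  have h1 : Tendsto (fun n : ℕ => (n : ℝ) ^ (4 * k) * r ^ n) atTop (𝓝 0) :=
    tendsto_pow_const_mul_const_pow_of_abs_lt_one _ (by rw [abs_of_pos hr0]; exact hr1)
  have h2 := h1.const_mul K
  rw [mul_zero] at h2
  have h4 := h2.eventually (gt_mem_nhds (show (0 : ℝ) < 1 / 2 by norm_num))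
  filter_upwards [h4] with a ha
  have h5 : ((2 : ℝ) ^ a) ^ (-c) = r ^ a := by
    rw [hr, ← Real.rpow_natCast, ← Real.rpow_natCast, ← Real.rpow_mul (by norm_num),
      ← Real.rpow_mul (by norm_num)]
    congr 1; ring
  rw [h5]
  push_cast
  rw [← pow_mul]
  linarith

variable {b : ℕ} {g : ℕ → ℕ} (D : Data b g)

lemma Data.th_tendsto : Tendsto D.th atTop atTop := by
  rw [tendsto_atTop]
  intro N
  filter_upwards [eventually_gt_atTop (g (max N D.n0))] with V hV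
  by_contra h
  have h1 : D.th V ≤ max N D.n0 := by omega
  have h2 := (D.hth V (max N D.n0) (le_max_right _ _)).2 h1
  omega

lemma tendsto_L (A m : ℕ) (hA : 1 ≤ A) (hm : 1 ≤ m) :
    Tendsto (fun a : ℕ => A * m * a ^ 4) atTop atTop := by
  apply tendsto_atTop_mono (f := fun a : ℕ => a)
  · intro a
    rcases Nat.eq_zero_or_pos a with h | h
    · rw [h]; exact Nat.zero_le _
    · calc a = a ^ 1 := (pow_one a).symm
        _ ≤ a ^ 4 := Nat.pow_le_pow_right h (by norm_num)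
        _ ≤ A * m * a ^ 4 := Nat.le_mul_of_pos_left _ (Nat.mul_pos hA hm)
  · exact tendsto_id

/-- hT1 -/
lemma Data.ev_T1 (m nδ : ℕ) (hm : 1 ≤ m) :
    ∀ᶠ a : ℕ in atTop, m * nδ ≤
      Nat.count Nat.Prime (D.th (b ^ (D.d * (32 * D.d * m * a ^ 4) - 1))) := by
  have hb := D.hb
  have hd := D.hd
  have h1 : Tendsto (fun a : ℕ => 32 * D.d * m * a ^ 4) atTop atTop :=
    tendsto_L (32 * D.d) m (by omega) hm
  have h2 : Tendsto (fun a : ℕ => D.d * (32 * D.d * m * a ^ 4) - 1) atTop atTop := by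
    apply (tendsto_sub_atTop_nat 1).comp
    exact h1.const_mul_atTop' hd
  have h3 : Tendsto (fun a : ℕ => b ^ (D.d * (32 * D.d * m * a ^ 4) - 1)) atTop atTop :=
    (tendsto_pow_atTop_atTop_of_one_lt (by omega)).comp h2
  have h4 := D.th_tendsto.comp h3
  have h5 : Tendsto (Nat.count Nat.Prime) atTop atTop := by
    rw [tendsto_atTop]
    intro N
    filter_upwards [eventually_ge_atTop (Nat.nth Nat.Prime N)] with x hx
    have := Nat.count_monotone Nat.Prime hx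
    rwa [Nat.count_nth_of_infinite primes_inf] at this
  exact (h5.comp h4).eventually_ge_atTop (m * nδ)

/-- hE5 -/
lemma Data.ev_E5 (m : ℕ) (hm : 1 ≤ m) :
    ∀ᶠ a : ℕ in atTop, b ^ (m * a ^ 4) < D.th (b ^ (D.d * (32 * D.d * m * a ^ 4) - 1)) := by
  have hb := D.hb
  have hd := D.hd
  filter_upwards [ev_pow_exp (D.cu + 1) 0 b m hb hm, ev_pow_exp D.n0 0 b m hb hm,
    eventually_ge_atTop 1] with a h1 h2 h3
  rw [pow_zero, mul_one] at h1 h2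
  set X := m * a ^ 4 with hX
  have hX1 : 1 ≤ X := Nat.mul_pos hm (Nat.pow_pos h3)
  have h2' : D.n0 ≤ b ^ X := by exact_mod_cast h2
  by_contra hcon
  rw [not_lt] at hcon
  have h4 := (D.hth _ _ h2').2 hcon
  have h5 := D.hup _ h2'
  have h6 : (b : ℝ) ^ (D.d * (32 * D.d * m * a ^ 4) - 1) ≤ (g (b ^ X) : ℝ) := by exact_mod_cast h4
  have hb1 : (1 : ℝ) < b := by exact_mod_cast (by omega : 1 < b)
  have h7 : ((b ^ X : ℕ) : ℝ) ^ D.d = (b : ℝ) ^ (X * D.d) := by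
    rw [Nat.cast_pow, ← pow_mul]
  rw [h7] at h5
  have h8 : D.cu * (b : ℝ) ^ (X * D.d) < (b : ℝ) ^ (X * D.d + X) := by
    rw [pow_add, mul_comm]
    apply mul_lt_mul_of_pos_left _ (by positivity)
    linarith
  have h9 : (b : ℝ) ^ (X * D.d + X) ≤ (b : ℝ) ^ (D.d * (32 * D.d * m * a ^ 4) - 1) := by
    apply pow_le_pow_right₀ hb1.le
    have e1 : 32 * D.d * m * a ^ 4 = 32 * (D.d * X) := by rw [hX]; ring
    have e2 : D.d * X ≤ D.d * (D.d * X) := Nat.le_mul_of_pos_left _ hd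
    have e3 : X ≤ D.d * X := Nat.le_mul_of_pos_left _ hd
    have e4 : D.d * (32 * (D.d * X)) = 32 * (D.d * (D.d * X)) := by ring
    have e5 : X * D.d = D.d * X := by ring
    rw [e1, e4, e5]
    omega
  linarith

/-- hE3 -/
lemma Data.ev_E3 (m : ℕ) (hm : 1 ≤ m) :
    ∀ᶠ a : ℕ in atTop, ∀ o < m, (b ^ m : ℕ) * (2 * ((D.C4 * b ^ (32 * D.d * m * a ^ 4) *
      (D.d * (32 * D.d * m * a ^ 4) + ∑ n ∈ range D.n0, len b (g n)) +
      m : ℕ) : ℝ) ^ ((3 : ℝ) / 4)) ≤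
      D.cp / 4 * (b : ℝ) ^ (32 * D.d * m * a ^ 4 - 4 * m * a ^ 4 - o) /
        ((32 * D.d * m * a ^ 4 : ℕ) : ℝ) := by
  have hb := D.hb
  have hd := D.hd
  have hcp := D.hcp
  set L0 := ∑ n ∈ range D.n0, len b (g n) with hL0
  set K : ℝ := D.C4 * (D.d + L0) + m with hK
  have hmr : (1 : ℝ) ≤ m := by exact_mod_cast hm
  have hK1 : 1 ≤ K := by
    have : (0 : ℝ) ≤ D.C4 * (D.d + L0) := by positivity
    rw [hK]; linarith
  filter_upwards [ev_pow_exp ((b : ℝ) ^ m * 2 * K * (32 * D.d * m) * (32 * D.d * m) * 4 / D.cp) 2 b m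
    hb hm, eventually_ge_atTop 1] with a h1 h3
  intro o ho
  set X := m * a ^ 4 with hX
  have ha4 : 1 ≤ a ^ 4 := Nat.pow_pos h3
  have hX1 : 1 ≤ X := Nat.mul_pos hm ha4
  have hmX : m ≤ X := Nat.le_mul_of_pos_right _ ha4
  have hΛ : 32 * D.d * m * a ^ 4 = 32 * (D.d * X) := by rw [hX]; ring
  have h4 : 4 * m * a ^ 4 = 4 * X := by rw [hX]; ring
  rw [hΛ, h4]
  have hdX : X ≤ D.d * X := Nat.le_mul_of_pos_left _ hd
  set Λ := 32 * (D.d * X) with hΛd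
  have hΛ1 : 1 ≤ Λ := by omega
  have hΛr : (1 : ℝ) ≤ (Λ : ℝ) := by exact_mod_cast hΛ1
  have hb1 : (1 : ℝ) < b := by exact_mod_cast (by omega : 1 < b)
  have hb0 : (0 : ℝ) < b := by linarith
  have hbΛ : (1 : ℝ) ≤ (b : ℝ) ^ Λ := one_le_pow₀ hb1.le
  -- bound for U
  have hU : ((D.C4 * b ^ Λ * (D.d * Λ + L0) + m : ℕ) : ℝ) ≤ (K * Λ) * (b : ℝ) ^ Λ := by
    push_cast
    have e1 : (L0 : ℝ) ≤ L0 * Λ := le_mul_of_one_le_right (Nat.cast_nonneg _) hΛr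
    have e2 : (m : ℝ) ≤ m * Λ := le_mul_of_one_le_right (Nat.cast_nonneg _) hΛr
    have e3 : (m : ℝ) * Λ ≤ m * Λ * (b : ℝ) ^ Λ := le_mul_of_one_le_right (by positivity) hbΛ
    have e4 : (D.C4 : ℝ) * (b : ℝ) ^ Λ * (D.d * Λ + L0) ≤ D.C4 * (b : ℝ) ^ Λ * (D.d * Λ + L0 * Λ) := by
      apply mul_le_mul_of_nonneg_left _ (by positivity)
      linarith
    rw [hK]
    calc (D.C4 : ℝ) * (b : ℝ) ^ Λ * (D.d * Λ + L0) + m ≤
        D.C4 * (b : ℝ) ^ Λ * (D.d * Λ + L0 * Λ) + m * Λ * (b : ℝ) ^ Λ := by linarith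
      _ = _ := by ring
  have hKΛ : 1 ≤ K * Λ := by nlinarith
  have hU2 : ((D.C4 * b ^ Λ * (D.d * Λ + L0) + m : ℕ) : ℝ) ^ ((3 : ℝ) / 4) ≤
      (K * Λ) * (b : ℝ) ^ (24 * (D.d * X)) := by
    refine (Real.rpow_le_rpow (by positivity) hU (by norm_num)).trans ?_
    rw [Real.mul_rpow (by positivity) (by positivity)]
    apply mul_le_mul
    · calc (K * Λ) ^ ((3 : ℝ) / 4) ≤ (K * Λ) ^ (1 : ℝ) :=
          Real.rpow_le_rpow_of_exponent_le hKΛ (by norm_num)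
        _ = K * Λ := Real.rpow_one _
    · apply le_of_eq
      rw [← Real.rpow_natCast, ← Real.rpow_natCast, ← Real.rpow_mul hb0.le]
      congr 1
      rw [hΛd]; push_cast; ring
    · positivity
    · positivity
  have hH : (b : ℝ) ^ (24 * (D.d * X)) * (b : ℝ) ^ X ≤ (b : ℝ) ^ (Λ - 4 * X - o) := by
    rw [← pow_add]
    apply pow_le_pow_right₀ hb1.le
    omega
  have ha4r : (1 : ℝ) ≤ ((a ^ 4 : ℕ) : ℝ) := by exact_mod_cast ha4
  have hΛs : (Λ : ℝ) = 32 * D.d * m * ((a ^ 4 : ℕ) : ℝ) := by rw [hΛd, hX]; push_cast; ring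
  rw [le_div_iff₀ (by linarith)]
  calc ((b ^ m : ℕ) : ℝ) * (2 * ((D.C4 * b ^ Λ * (D.d * Λ + L0) + m : ℕ) : ℝ) ^ ((3 : ℝ) / 4)) * Λ
      ≤ ((b ^ m : ℕ) : ℝ) * (2 * ((K * Λ) * (b : ℝ) ^ (24 * (D.d * X)))) * Λ := by
        apply mul_le_mul_of_nonneg_right _ (by linarith)
        apply mul_le_mul_of_nonneg_left _ (by positivity)
        linarith
    _ = D.cp / 4 * ((b : ℝ) ^ (24 * (D.d * X)) * (((b : ℝ) ^ m * 2 * K * (32 * D.d * m) * (32 * D.d * m) * 4 / D.cp) *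
          ((a ^ 4 : ℕ) : ℝ) ^ 2)) := by
        rw [hΛs]; push_cast; field_simp
    _ ≤ D.cp / 4 * ((b : ℝ) ^ (24 * (D.d * X)) * (b : ℝ) ^ X) := by
        apply mul_le_mul_of_nonneg_left _ (by positivity)
        exact mul_le_mul_of_nonneg_left h1 (by positivity)
    _ ≤ D.cp / 4 * (b : ℝ) ^ (Λ - 4 * X - o) := mul_le_mul_of_nonneg_left hH (by positivity)

/-- hE2 -/
lemma Data.ev_E2 (m : ℕ) (hm : 1 ≤ m) :
    ∀ᶠ a : ℕ in atTop, ∀ o < m, (1 + Real.log (((b ^ (m * a ^ 4)) ^ 2 : ℕ) : ℝ)) ^ 3 *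
      (((b ^ (m * a ^ 4) : ℕ) : ℝ) ^ 2 + ((32 * D.d ^ 2 * a ^ 4 : ℕ) : ℝ) * (b ^ m : ℕ) * D.C *
        (5 * (1 + (b ^ m : ℕ) * (1 + Real.log (b ^ (D.d * (32 * D.d * m * a ^ 4)) : ℕ))) ^ 2 *
          ((2 : ℝ) ^ a) ^ (-D.c)) *
        ((D.c2 : ℝ) * (b : ℝ) ^ (32 * D.d * m * a ^ 4 - 4 * m * a ^ 4 - o) +
          ((b ^ (m * a ^ 4) : ℕ) : ℝ) ^ 2)) ≤
      (b : ℝ) ^ (32 * D.d * m * a ^ 4 - 4 * m * a ^ 4 - o) / ((32 * D.d * m * a ^ 4 : ℕ) : ℝ) := by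
  have hb := D.hb
  have hd := D.hd
  have hC := D.hC
  have hc2 : (1 : ℝ) ≤ D.c2 := by exact_mod_cast D.hc2
  have hb1 : (1 : ℝ) < b := by exact_mod_cast (by omega : 1 < b)
  have hb0 : (0 : ℝ) < b := by linarith
  set L := Real.log b with hL
  have hL0 : 0 < L := Real.log_pos hb1
  have hmr : (1 : ℝ) ≤ m := by exact_mod_cast hm
  set Q : ℝ := (b : ℝ) ^ m with hQ
  have hQ0 : 0 < Q := by positivity
  filter_upwards [ev_pow_exp (2 * (32 * D.d * m) * (1 + 2 * m * L) ^ 3) 4 b m hb hm,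
    ev_geom ((32 * D.d * m) * (1 + 2 * m * L) ^ 3 * ((32 * D.d ^ 2) * Q * D.C *
      (5 * (1 + Q * (1 + D.d * (32 * D.d * m) * L)) ^ 2)) * (D.c2 + 1)) 7 D.c D.hc,
    eventually_ge_atTop 1] with a h1 h2 h3
  intro o ho
  set X := m * a ^ 4 with hX
  have ha4 : 1 ≤ a ^ 4 := Nat.pow_pos h3
  have hX1 : 1 ≤ X := Nat.mul_pos hm ha4
  have hmX : m ≤ X := Nat.le_mul_of_pos_right _ ha4
  have hΛ : 32 * D.d * m * a ^ 4 = 32 * (D.d * X) := by rw [hX]; ring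
  have h4 : 4 * m * a ^ 4 = 4 * X := by rw [hX]; ring
  rw [hΛ, h4]
  have hdX : X ≤ D.d * X := Nat.le_mul_of_pos_left _ hd
  set Λ := 32 * (D.d * X) with hΛd
  have hΛ1 : 1 ≤ Λ := by omega
  have hΛr : (1 : ℝ) ≤ (Λ : ℝ) := by exact_mod_cast hΛ1
  set s : ℝ := ((a ^ 4 : ℕ) : ℝ) with hs
  have hs1 : (1 : ℝ) ≤ s := by rw [hs]; exact_mod_cast ha4
  have hΛs : (Λ : ℝ) = 32 * D.d * m * s := by rw [hΛd, hX, hs]; push_cast; ring
  have hlog1 : Real.log (((b ^ X) ^ 2 : ℕ) : ℝ) = 2 * m * L * s := by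
    push_cast
    rw [Real.log_pow, Real.log_pow, hX, hs]; push_cast; ring
  have hlog2 : Real.log ((b ^ (D.d * Λ) : ℕ) : ℝ) = D.d * (32 * D.d * m) * L * s := by
    push_cast
    rw [Real.log_pow]; push_cast; rw [hΛs]; ring
  rw [hlog1, hlog2]
  have hMs : ((32 * D.d ^ 2 * a ^ 4 : ℕ) : ℝ) = 32 * D.d ^ 2 * s := by rw [hs]; push_cast; ring
  have hQc : ((b ^ m : ℕ) : ℝ) = Q := by rw [hQ]; push_cast; rfl
  rw [hMs, hQc]
  set Y : ℝ := ((b ^ X : ℕ) : ℝ) with hY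
  have hYb : Y = (b : ℝ) ^ X := by rw [hY]; push_cast; rfl
  have hY1 : 1 ≤ Y := by rw [hYb]; exact one_le_pow₀ hb1.le
  rw [← hYb] at h1
  set H : ℝ := (b : ℝ) ^ (Λ - 4 * X - o) with hH
  have hH0 : 0 < H := by positivity
  have hY3 : Y ^ 2 * Y ≤ H := by
    rw [hYb, hH, ← pow_mul, ← pow_add]
    apply pow_le_pow_right₀ hb1.le
    omega
  have hY2 : Y ^ 2 ≤ H := by
    have : Y ^ 2 ≤ Y ^ 2 * Y := le_mul_of_one_le_right (by positivity) hY1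
    linarith
  have hC0 : 0 < D.C := by linarith
  have hd0 : (0 : ℝ) < D.d := by exact_mod_cast hd
  -- bound the polynomial factors
  have p1 : (1 + 2 * m * L * s) ^ 3 ≤ (1 + 2 * m * L) ^ 3 * s ^ 3 := by
    rw [← mul_pow]
    apply pow_le_pow_left₀ (by positivity)
    linarith
  have p2 : (1 + Q * (1 + D.d * (32 * D.d * m) * L * s)) ^ 2 ≤
      (1 + Q * (1 + D.d * (32 * D.d * m) * L)) ^ 2 * s ^ 2 := by
    rw [← mul_pow]
    apply pow_le_pow_left₀ (by positivity)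
    have e1 : (1 : ℝ) + D.d * (32 * D.d * m) * L * s ≤ (1 + D.d * (32 * D.d * m) * L) * s := by
      linarith
    have e2 := mul_le_mul_of_nonneg_left e1 hQ0.le
    calc 1 + Q * (1 + D.d * (32 * D.d * m) * L * s) ≤
        s + Q * ((1 + D.d * (32 * D.d * m) * L) * s) := by linarith
      _ = _ := by ring
  set ρ : ℝ := ((2 : ℝ) ^ a) ^ (-D.c) with hρ
  have hρ0 : 0 < ρ := by positivity
  set P1 := (1 + 2 * m * L * s) ^ 3 with hP1
  set P2 := (1 + Q * (1 + D.d * (32 * D.d * m) * L * s)) ^ 2 with hP2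
  have hP10 : 0 ≤ P1 := by positivity
  have hP20 : 0 ≤ P2 := by positivity
  rw [le_div_iff₀ (by linarith)]
  -- first half
  have q1 : P1 * Y ^ 2 * Λ ≤ H / 2 := by
    have e1 : P1 * Λ * 2 ≤ Y := by
      refine le_trans ?_ h1
      rw [hΛs]
      calc P1 * (32 * D.d * m * s) * 2 ≤ ((1 + 2 * m * L) ^ 3 * s ^ 3) * (32 * D.d * m * s) * 2 := by
            apply mul_le_mul_of_nonneg_right _ (by norm_num)
            exact mul_le_mul_of_nonneg_right p1 (by positivity)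
        _ = _ := by ring
    have e2 := mul_le_mul_of_nonneg_left e1 (by positivity : (0 : ℝ) ≤ Y ^ 2)
    linarith
  have q2 : P1 * (32 * D.d ^ 2 * s * Q * D.C * (5 * P2 * ρ) * (D.c2 * H + Y ^ 2)) * Λ ≤ H / 2 := by
    have e1 : (D.c2 : ℝ) * H + Y ^ 2 ≤ (D.c2 + 1) * H := by linarith
    have e2 : P1 * (32 * D.d ^ 2 * s * Q * D.C * (5 * P2 * ρ) * (D.c2 * H + Y ^ 2)) * Λ ≤
        ((1 + 2 * m * L) ^ 3 * s ^ 3) * (32 * D.d ^ 2 * s * Q * D.C *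
        (5 * ((1 + Q * (1 + D.d * (32 * D.d * m) * L)) ^ 2 * s ^ 2) * ρ) * ((D.c2 + 1) * H)) * Λ := by
      apply mul_le_mul_of_nonneg_right _ (by linarith)
      apply mul_le_mul p1 _ (by positivity) (by positivity)
      apply mul_le_mul _ e1 (by positivity) (by positivity)
      apply mul_le_mul_of_nonneg_left _ (by positivity)
      apply mul_le_mul_of_nonneg_right _ hρ0.le
      exact mul_le_mul_of_nonneg_left p2 (by norm_num)
    refine e2.trans ?_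
    have e3 := mul_le_mul_of_nonneg_right h2 hH0.le
    refine le_trans (le_of_eq ?_) (e3.trans (le_of_eq ?_))
    · rw [hΛs]; ring
    · ring
  calc P1 * (Y ^ 2 + 32 * D.d ^ 2 * s * Q * D.C * (5 * P2 * ρ) * (D.c2 * H + Y ^ 2)) * Λ
      = P1 * Y ^ 2 * Λ + P1 * (32 * D.d ^ 2 * s * Q * D.C * (5 * P2 * ρ) * (D.c2 * H + Y ^ 2)) * Λ := by
        ring
    _ ≤ H / 2 + H / 2 := add_le_add q1 q2
    _ = H := by ring

end Pool.Agent.H94.Fin
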