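import Pool.Agent.H94.FinE

/-!
The contradiction.
-/

namespace Pool.Agent.H94.Fin

open Finset Polynomial Filter Topology Pool.Agent.H94.Weyl Pool.Agent.H94.Dig

theorem Data.contra {b : ℕ} {g : ℕ → ℕ} (D : Data b g) (hg1 : ∀ n : ℕ, 1 ≤ n → 1 ≤ g n) (dd : ℕ → ℕ)
    (hcc : IsConcat b (wd g) dd)
    (hδ : ∀ m : ℕ, 1 ≤ m → ∃ nδ, ∀ n ≥ nδ, ∀ k < b ^ m,
      |(cnt b m dd k n : ℝ) - n / (b : ℝ) ^ m| ≤ (n : ℝ) ^ ((3 : ℝ) / 4)) : False := by
  have hb := D.hb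
  have hd := D.hd
  have hcp := D.hcp
  have hb1 : (1 : ℝ) < b := by exact_mod_cast (by omega : 1 < b)
  have hb0 : (0 : ℝ) < b := by linarith
  have hL0 : 0 < Real.log b := Real.log_pos hb1
  set Kt : ℝ := Real.sqrt (D.Xm / (D.cp / 4)) + Real.sqrt (D.Xh / (D.cp / 4)) with hKt
  have hKt0 : 0 ≤ Kt := by positivity
  set R : ℝ := Kt * (Real.sqrt 32 * D.d) with hR
  -- choice of m
  obtain ⟨m, hm3, hmq, hmR⟩ : ∃ m : ℕ, 3 ≤ m ∧
      64 * D.CT * D.c2 / (D.cp * Real.log b) + 1 ≤ (b : ℝ) ^ m ∧ (R + 1) ^ 2 + 1 ≤ (b : ℝ) ^ m := by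
    have h1 : Tendsto (fun m : ℕ => (b : ℝ) ^ m) atTop atTop := tendsto_pow_atTop_atTop_of_one_lt hb1
    exact ((eventually_ge_atTop 3).and ((h1.eventually_ge_atTop _).and
      (h1.eventually_ge_atTop _))).exists
  have hm1 : 1 ≤ m := by omega
  have hq : 64 * D.CT * D.c2 ≤ D.cp * ((b : ℝ) ^ m - 1) * Real.log b := by
    have h1 : 64 * D.CT * D.c2 / (D.cp * Real.log b) ≤ (b : ℝ) ^ m - 1 := by linarith
    rw [div_le_iff₀ (by positivity)] at h1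
    linarith
  obtain ⟨nδ, hnδ⟩ := hδ m hm1
  have hpr : ∀ᶠ a : ℕ in atTop, D.cp * (b : ℝ) ^ (32 * D.d * m * a ^ 4) /
      ((32 * D.d * m * a ^ 4 : ℕ) : ℝ) ≤
      (((Ico (D.th (b ^ (D.d * (32 * D.d * m * a ^ 4) - 1)))
        (D.th (b ^ (D.d * (32 * D.d * m * a ^ 4))))).filter Nat.Prime).card : ℝ) :=
    (tendsto_L (32 * D.d) m (by omega) hm1).eventually D.hprimes
  set Q : ℝ := (b : ℝ) ^ m with hQ
  have hQ1 : 1 ≤ Q := by rw [hQ]; exact one_le_pow₀ hb1.le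
  -- the small quantity
  have hsm : ∀ᶠ a : ℕ in atTop, 3 * Real.sqrt Q ≤ (a : ℝ) := by
    have h1 : Tendsto (fun a : ℕ => (a : ℝ)) atTop atTop := tendsto_natCast_atTop_atTop
    exact h1.eventually_ge_atTop _
  obtain ⟨a, ha1, hpr', hT1, hE5, hE3, hE2, hsm'⟩ := ((eventually_ge_atTop 1).and (hpr.and
    ((D.ev_T1 m nδ hm1).and ((D.ev_E5 m hm1).and ((D.ev_E3 m hm1).and
      ((D.ev_E2 m hm1).and hsm)))))).exists
  have hcore := D.core hg1 dd hcc m a (a ^ 4) (32 * D.d * m * a ^ 4) (32 * D.d ^ 2 * a ^ 4) hm3 ha1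
    rfl rfl rfl nδ hnδ hT1 hq hpr' hE2 hE3 hE5
  rw [← hKt] at hcore
  -- simplify
  have har : (1 : ℝ) ≤ (a : ℝ) := by exact_mod_cast ha1
  have e1 : Real.sqrt (((4 * a ^ 4 : ℕ) : ℝ) * ((b : ℝ) ^ m - 1) / 2) =
      (a : ℝ) ^ 2 * Real.sqrt (2 * (Q - 1)) := by
    have : ((4 * a ^ 4 : ℕ) : ℝ) * ((b : ℝ) ^ m - 1) / 2 = ((a : ℝ) ^ 2) ^ 2 * (2 * (Q - 1)) := by
      push_cast; ring
    rw [this, Real.sqrt_mul (by positivity), Real.sqrt_sq (by positivity)]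
  have e2 : Real.sqrt ((32 * D.d ^ 2 * a ^ 4 : ℕ) : ℝ) = (a : ℝ) ^ 2 * (Real.sqrt 32 * D.d) := by
    have : ((32 * D.d ^ 2 * a ^ 4 : ℕ) : ℝ) = ((a : ℝ) ^ 2 * D.d) ^ 2 * 32 := by
      push_cast; ring
    rw [this, Real.sqrt_mul (by positivity), Real.sqrt_sq (by positivity)]
    ring
  have e3 : ((b ^ m : ℕ) : ℝ) = Q := by rw [hQ]; push_cast; rfl
  rw [e1, e2, e3] at hcore
  have hsq0 : 0 ≤ Real.sqrt Q := Real.sqrt_nonneg _
  have e4 : (2 + (a : ℝ)) * Real.sqrt Q ≤ (a : ℝ) ^ 2 := by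
    calc (2 + (a : ℝ)) * Real.sqrt Q ≤ (3 * a) * Real.sqrt Q := by
          apply mul_le_mul_of_nonneg_right _ hsq0
          linarith
      _ = a * (3 * Real.sqrt Q) := by ring
      _ ≤ a * a := mul_le_mul_of_nonneg_left hsm' (by linarith)
      _ = _ := by ring
  have e5 : (a : ℝ) ^ 2 * Real.sqrt (2 * (Q - 1)) ≤ (a : ℝ) ^ 2 * (1 + R) := by
    rw [hR]
    linarith
  have e6 : Real.sqrt (2 * (Q - 1)) ≤ 1 + R := le_of_mul_le_mul_left e5 (by positivity)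
  have hR0 : 0 ≤ R := by rw [hR]; positivity
  have e7 : 2 * (Q - 1) ≤ (1 + R) ^ 2 := by
    rwa [Real.sqrt_le_left (by linarith)] at e6
  nlinarith

lemma growth_bound : ∀ᶠ n : ℕ in atTop,
    0 < Real.sqrt (2 * (n : ℝ) * Real.log (Real.log (n : ℝ))) ∧
    2 * Real.sqrt (2 * (n : ℝ) * Real.log (Real.log (n : ℝ))) ≤ (n : ℝ) ^ ((3 : ℝ) / 4) := by
  have h1 : ∀ᶠ x : ℝ in atTop, Real.log x ≤ 1 / 8 * x ^ ((1 : ℝ) / 2) := by
    have := (isLittleO_log_rpow_atTop (show (0 : ℝ) < 1 / 2 by norm_num)).bound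
      (show (0 : ℝ) < 1 / 8 by norm_num)
    filter_upwards [this, eventually_ge_atTop 1] with x hx hx1
    rw [Real.norm_of_nonneg (Real.log_nonneg hx1), Real.norm_of_nonneg (by positivity)] at hx
    exact hx
  have h2 : Tendsto (fun n : ℕ => (n : ℝ)) atTop atTop := tendsto_natCast_atTop_atTop
  have h3 : Tendsto (fun n : ℕ => Real.log (n : ℝ)) atTop atTop := Real.tendsto_log_atTop.comp h2
  filter_upwards [h2.eventually h1, h3.eventually_gt_atTop 1, h2.eventually_ge_atTop 1] with n hn hl hn1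
  have hll : 0 < Real.log (Real.log (n : ℝ)) := Real.log_pos hl
  have hn0 : (0 : ℝ) < n := by linarith
  constructor
  · exact Real.sqrt_pos.2 (by positivity)
  · have h4 : Real.log (Real.log (n : ℝ)) ≤ 1 / 8 * (n : ℝ) ^ ((1 : ℝ) / 2) := by
      have := Real.log_le_self (show 0 ≤ Real.log (n : ℝ) by linarith)
      linarith
    have h5 : Real.sqrt (2 * (n : ℝ) * Real.log (Real.log (n : ℝ))) ≤ (n : ℝ) ^ ((3 : ℝ) / 4) / 2 := by
      apply Real.sqrt_le_iff.2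
      refine ⟨by positivity, ?_⟩
      have h6 : ((n : ℝ) ^ ((3 : ℝ) / 4) / 2) ^ 2 = (n : ℝ) * (n : ℝ) ^ ((1 : ℝ) / 2) / 4 := by
        rw [div_pow, ← Real.rpow_natCast, ← Real.rpow_mul hn0.le]
        have : (n : ℝ) * (n : ℝ) ^ ((1 : ℝ) / 2) = (n : ℝ) ^ ((1 : ℝ) + 1 / 2) := by
          rw [Real.rpow_add hn0, Real.rpow_one]
        rw [this]; norm_num
      rw [h6]
      have := mul_le_mul_of_nonneg_left h4 (by positivity : (0 : ℝ) ≤ 2 * n)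
      linarith
    linarith

/-- the digit counts from the law of the iterated logarithm bounds -/
theorem counts_bound (b : ℕ) (hb : 2 ≤ b) (m : ℕ) (c : ℕ → ℕ → ℝ)
    (h : ∀ k : ℕ, k < b ^ m →
        (∀ᶠ n in atTop,
          (c k n - (n : ℝ) / (b : ℝ) ^ m) / Real.sqrt (2 * (n : ℝ) * Real.log (Real.log (n : ℝ)))
            ≤ Real.sqrt ((b : ℝ) ^ m - 1) / (b : ℝ) ^ m + 1) ∧
        (∀ᶠ n in atTop,
          -(Real.sqrt ((b : ℝ) ^ m - 1) / (b : ℝ) ^ m) - 1 ≤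
          (c k n - (n : ℝ) / (b : ℝ) ^ m) / Real.sqrt (2 * (n : ℝ) * Real.log (Real.log (n : ℝ))))) :
    ∃ nδ, ∀ n ≥ nδ, ∀ k < b ^ m,
      |c k n - n / (b : ℝ) ^ m| ≤ (n : ℝ) ^ ((3 : ℝ) / 4) := by
  have hb1 : (1 : ℝ) < b := by exact_mod_cast (by omega : 1 < b)
  set Q : ℝ := (b : ℝ) ^ m with hQ
  have hQ1 : 1 ≤ Q := by rw [hQ]; exact one_le_pow₀ hb1.le
  have hsq : Real.sqrt (Q - 1) / Q ≤ 1 := by
    rw [div_le_one (by linarith)]
    apply Real.sqrt_le_iff.2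
    constructor
    · linarith
    · nlinarith
  have hall : ∀ᶠ n in atTop, ∀ k ∈ range (b ^ m), |c k n - n / Q| ≤ (n : ℝ) ^ ((3 : ℝ) / 4) := by
    rw [Filter.eventually_all_finset]
    intro k hk
    obtain ⟨h1, h2⟩ := h k (mem_range.1 hk)
    filter_upwards [h1, h2, growth_bound] with n h1 h2 h3
    obtain ⟨h3, h4⟩ := h3
    rw [div_le_iff₀ h3] at h1
    rw [le_div_iff₀ h3] at h2
    have e1 : (Real.sqrt (Q - 1) / Q + 1) * Real.sqrt (2 * (n : ℝ) * Real.log (Real.log (n : ℝ))) ≤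
        2 * Real.sqrt (2 * (n : ℝ) * Real.log (Real.log (n : ℝ))) :=
      mul_le_mul_of_nonneg_right (by linarith) h3.le
    rw [abs_le]
    constructor
    · have e2 : (-(Real.sqrt (Q - 1) / Q) - 1) * Real.sqrt (2 * (n : ℝ) * Real.log (Real.log (n : ℝ))) =
          -((Real.sqrt (Q - 1) / Q + 1) * Real.sqrt (2 * (n : ℝ) * Real.log (Real.log (n : ℝ)))) := by
        ring
      rw [e2] at h2
      linarith
    · linarith
  rw [eventually_atTop] at hall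
  obtain ⟨nδ, hn⟩ := hall
  exact ⟨nδ, fun n hn' k hk => hn n hn' k (mem_range.2 hk)⟩

end Pool.Agent.H94.Fin
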