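import Pool.Agent.H94.WeylA

/-!
Finite Fourier analysis modulo `Q` with the character `ee`.
-/

namespace Pool.Agent.H94.Weyl

open Finset

lemma ee_eq_one_iff (x : ℝ) : ee x = 1 ↔ ∃ n : ℤ, x = n := by
  constructor
  · intro h
    by_contra hne
    push Not at hne
    have h0 : Int.fract x ≠ 0 := by
      intro h1
      rw [Int.fract_eq_iff] at h1
      obtain ⟨_, _, z, hz⟩ := h1
      exact hne z (by linarith)
    have h1 := norm_ee_sub_one_ge (Int.fract_nonneg x) (Int.fract_lt_one x).le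
    rw [ee_fract, h, sub_self, norm_zero] at h1
    have h2 : 0 < min (Int.fract x) (1 - Int.fract x) :=
      lt_min (lt_of_le_of_ne (Int.fract_nonneg x) (Ne.symm h0)) (by linarith [Int.fract_lt_one x])
    linarith
  · rintro ⟨n, rfl⟩
    exact ee_int n

/-- orthogonality -/
lemma sum_ee (Q : ℕ) (hQ : 1 ≤ Q) (k : ℤ) :
    ∑ h ∈ range Q, ee ((h : ℝ) * ((k : ℝ) / Q)) = if (Q : ℤ) ∣ k then (Q : ℂ) else 0 := by
  have hQ0 : (Q : ℝ) ≠ 0 := by positivity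
  simp only [ee_natMul]
  split_ifs with hk
  · obtain ⟨c, hc⟩ := hk
    have h1 : ee ((k : ℝ) / Q) = 1 := by
      rw [ee_eq_one_iff]
      refine ⟨c, ?_⟩
      rw [hc]; push_cast; field_simp
    simp [h1]
  · have h1 : ee ((k : ℝ) / Q) ≠ 1 := by
      rw [Ne, ee_eq_one_iff]
      rintro ⟨n, hn⟩
      apply hk
      refine ⟨n, ?_⟩
      have : (k : ℝ) = (Q : ℝ) * n := by
        rw [← hn]; field_simp
      exact_mod_cast this
    rw [geom_sum_eq h1, ← ee_natMul]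
    have h2 : (Q : ℝ) * ((k : ℝ) / Q) = (k : ℤ) := by field_simp
    rw [h2, ee_int, sub_self, zero_div]

/-- Fourier coefficients modulo `Q` -/
noncomputable def fhat (Q : ℕ) (G : ℕ → ℝ) (h : ℕ) : ℂ :=
  (1 / (Q : ℂ)) * ∑ z ∈ range Q, (G z : ℂ) * ee (-((h : ℝ) * ((z : ℝ) / Q)))

lemma fourier_inv (Q : ℕ) (hQ : 1 ≤ Q) (G : ℕ → ℝ) (y : ℕ) :
    (G (y % Q) : ℂ) = ∑ h ∈ range Q, fhat Q G h * ee ((h : ℝ) * ((y : ℝ) / Q)) := by
  have hQ0 : (Q : ℂ) ≠ 0 := by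
    have : Q ≠ 0 := by omega
    exact_mod_cast this
  have h1 : ∑ h ∈ range Q, fhat Q G h * ee ((h : ℝ) * ((y : ℝ) / Q)) =
      (1 / (Q : ℂ)) * ∑ z ∈ range Q, (G z : ℂ) *
        ∑ h ∈ range Q, ee ((h : ℝ) * ((((y : ℤ) - (z : ℤ) : ℤ) : ℝ) / Q)) := by
    unfold fhat
    simp only [Finset.mul_sum, Finset.sum_mul]
    rw [Finset.sum_comm]
    apply Finset.sum_congr rfl
    intro z _
    apply Finset.sum_congr rfl
    intro h _
    rw [mul_assoc, mul_assoc, ← ee_add]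
    congr 3
    push_cast
    ring
  rw [h1]
  have h2 : ∀ z ∈ range Q, (G z : ℂ) *
        ∑ h ∈ range Q, ee ((h : ℝ) * ((((y : ℤ) - (z : ℤ) : ℤ) : ℝ) / Q)) =
      if z = y % Q then (Q : ℂ) * G z else 0 := by
    intro z hz
    rw [mem_range] at hz
    rw [sum_ee Q hQ]
    by_cases hd : (Q : ℤ) ∣ (y : ℤ) - z
    · have h3 : z = y % Q := by
        have h4 : (z : ℤ) ≡ y [ZMOD Q] := (Int.modEq_iff_dvd).2 hd
        have h5 : z ≡ y [MOD Q] := (Int.natCast_modEq_iff).1 h4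
        unfold Nat.ModEq at h5
        rw [Nat.mod_eq_of_lt hz] at h5
        exact h5
      rw [if_pos hd, if_pos h3]; ring
    · have h3 : z ≠ y % Q := by
        intro h4
        apply hd
        rw [h4]
        refine ⟨((y / Q : ℕ) : ℤ), ?_⟩
        have := Nat.div_add_mod y Q
        have h5 : ((y : ℤ)) = (Q : ℤ) * ((y / Q : ℕ) : ℤ) + ((y % Q : ℕ) : ℤ) := by
          exact_mod_cast this.symm
        linarith
      rw [if_neg hd, if_neg h3, mul_zero]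
  rw [Finset.sum_congr rfl h2, Finset.sum_ite_eq' (range Q) (y % Q), if_pos (by
    rw [mem_range]; exact Nat.mod_lt _ (by omega))]
  field_simp

/-- the average over a period, through Fourier coefficients -/
lemma avg_eq (Q s : ℕ) (hQ : 1 ≤ Q) (hs : 1 ≤ s) (G1 G2 : ℕ → ℝ) :
    ((1 / ((Q * s : ℕ) : ℂ)) * ∑ z ∈ range (Q * s), ((G1 (z % Q) * G2 z : ℝ) : ℂ)) =
      ∑ h ∈ range Q, ∑ h' ∈ range (Q * s), fhat Q G1 h * fhat (Q * s) G2 h' *
        (if ((Q * s : ℕ) : ℤ) ∣ ((h * s + h' : ℕ) : ℤ) then 1 else 0) := by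
  have hQs : 1 ≤ Q * s := Nat.mul_pos hQ hs
  have hQ0 : ((Q * s : ℕ) : ℂ) ≠ 0 := by
    have : Q * s ≠ 0 := by omega
    exact_mod_cast this
  have hQr : (Q : ℝ) ≠ 0 := by positivity
  have hsr : (s : ℝ) ≠ 0 := by positivity
  have h1 : ∀ z ∈ range (Q * s), ((G1 (z % Q) * G2 z : ℝ) : ℂ) =
      ∑ h ∈ range Q, ∑ h' ∈ range (Q * s), fhat Q G1 h * fhat (Q * s) G2 h' *
        ee ((z : ℝ) * ((((h * s + h' : ℕ) : ℤ) : ℝ) / ((Q * s : ℕ) : ℝ))) := by
    intro z hz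
    rw [mem_range] at hz
    have h2 := fourier_inv (Q * s) hQs G2 z
    rw [Nat.mod_eq_of_lt hz] at h2
    push_cast
    rw [fourier_inv Q hQ G1 z, h2, Finset.sum_mul_sum]
    apply Finset.sum_congr rfl
    intro h _
    apply Finset.sum_congr rfl
    intro h' _
    rw [mul_mul_mul_comm, ← ee_add]
    congr 2
    push_cast
    field_simp
  rw [Finset.sum_congr rfl h1, Finset.sum_comm, Finset.mul_sum]
  apply Finset.sum_congr rfl
  intro h _
  rw [Finset.sum_comm, Finset.mul_sum]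
  apply Finset.sum_congr rfl
  intro h' _
  rw [← Finset.mul_sum, sum_ee (Q * s) hQs]
  split_ifs
  · field_simp
  · ring

/-- The abstract pair estimate. -/
theorem pair_abstract {ι : Type*} (S : Finset ι) (v : ι → ℕ) (Q s : ℕ) (hQ : 1 ≤ Q)
    (hs : 1 ≤ s) (G1 G2 : ℕ → ℝ) (E : ℕ → ℝ)
    (hW : ∀ H : ℕ, ¬ (Q * s) ∣ H → ‖∑ t ∈ S, ee ((v t : ℝ) * ((H : ℝ) / ((Q * s : ℕ) : ℝ)))‖ ≤ E H) :
    |∑ t ∈ S, G1 (v t % Q) * G2 (v t % (Q * s)) -
      S.card * ((1 / ((Q * s : ℕ) : ℝ)) * ∑ z ∈ range (Q * s), G1 (z % Q) * G2 z)| ≤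
      ∑ h ∈ range Q, ∑ h' ∈ range (Q * s), ‖fhat Q G1 h‖ * ‖fhat (Q * s) G2 h'‖ *
        (if (Q * s) ∣ (h * s + h') then 0 else E (h * s + h')) := by
  have hQs : 1 ≤ Q * s := Nat.mul_pos hQ hs
  have hQr : (Q : ℝ) ≠ 0 := by positivity
  have hsr : (s : ℝ) ≠ 0 := by positivity
  have h1 : ((∑ t ∈ S, G1 (v t % Q) * G2 (v t % (Q * s)) : ℝ) : ℂ) =
      ∑ h ∈ range Q, ∑ h' ∈ range (Q * s), fhat Q G1 h * fhat (Q * s) G2 h' *
        ∑ t ∈ S, ee ((v t : ℝ) * (((h * s + h' : ℕ) : ℝ) / ((Q * s : ℕ) : ℝ))) := by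
    have h2 : ∀ t ∈ S, ((G1 (v t % Q) * G2 (v t % (Q * s)) : ℝ) : ℂ) =
      ∑ h ∈ range Q, ∑ h' ∈ range (Q * s), fhat Q G1 h * fhat (Q * s) G2 h' *
        ee ((v t : ℝ) * (((h * s + h' : ℕ) : ℝ) / ((Q * s : ℕ) : ℝ))) := by
      intro t _
      push_cast
      rw [fourier_inv Q hQ G1 (v t), fourier_inv (Q * s) hQs G2 (v t), Finset.sum_mul_sum]
      apply Finset.sum_congr rfl
      intro h _
      apply Finset.sum_congr rfl
      intro h' _
      rw [mul_mul_mul_comm, ← ee_add]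
      congr 2
      push_cast
      field_simp
    rw [Complex.ofReal_sum, Finset.sum_congr rfl h2, Finset.sum_comm]
    apply Finset.sum_congr rfl
    intro h _
    rw [Finset.sum_comm]
    apply Finset.sum_congr rfl
    intro h' _
    rw [← Finset.mul_sum]
  have h3 := avg_eq Q s hQ hs G1 G2
  have h4 : ((∑ t ∈ S, G1 (v t % Q) * G2 (v t % (Q * s)) -
      S.card * ((1 / ((Q * s : ℕ) : ℝ)) * ∑ z ∈ range (Q * s), G1 (z % Q) * G2 z) : ℝ) : ℂ) =
      ∑ h ∈ range Q, ∑ h' ∈ range (Q * s), fhat Q G1 h * fhat (Q * s) G2 h' *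
        (if (Q * s) ∣ (h * s + h') then 0 else
          ∑ t ∈ S, ee ((v t : ℝ) * (((h * s + h' : ℕ) : ℝ) / ((Q * s : ℕ) : ℝ)))) := by
    rw [Complex.ofReal_sub, h1, Complex.ofReal_mul, Complex.ofReal_mul, Complex.ofReal_sum]
    have h5 : ((1 / ((Q * s : ℕ) : ℝ) : ℝ) : ℂ) = 1 / ((Q * s : ℕ) : ℂ) := by push_cast; rfl
    rw [h5, h3, Finset.mul_sum, ← Finset.sum_sub_distrib]
    apply Finset.sum_congr rfl
    intro h _
    rw [Finset.mul_sum, ← Finset.sum_sub_distrib]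
    apply Finset.sum_congr rfl
    intro h' _
    by_cases hd : (Q * s) ∣ (h * s + h')
    · have hd' : ((Q * s : ℕ) : ℤ) ∣ ((h * s + h' : ℕ) : ℤ) := by exact_mod_cast hd
      rw [if_pos hd, if_pos hd']
      have h6 : ∀ t ∈ S, ee ((v t : ℝ) * (((h * s + h' : ℕ) : ℝ) / ((Q * s : ℕ) : ℝ))) = 1 := by
        intro t _
        rw [ee_eq_one_iff]
        obtain ⟨c, hc⟩ := hd
        refine ⟨(v t * c : ℕ), ?_⟩
        rw [hc]
        push_cast
        field_simp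
      rw [Finset.sum_congr rfl h6, Finset.sum_const, nsmul_eq_mul, mul_one]
      push_cast
      ring
    · have hd' : ¬ ((Q * s : ℕ) : ℤ) ∣ ((h * s + h' : ℕ) : ℤ) := by exact_mod_cast hd
      rw [if_neg hd, if_neg hd']
      ring
  have h7 : ∀ x : ℝ, |x| = ‖(x : ℂ)‖ := fun x => by
    rw [Complex.norm_real, Real.norm_eq_abs]
  rw [h7, h4]
  refine (norm_sum_le _ _).trans (Finset.sum_le_sum (fun h _ => ?_))
  refine (norm_sum_le _ _).trans (Finset.sum_le_sum (fun h' _ => ?_))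
  rw [norm_mul, norm_mul]
  apply mul_le_mul_of_nonneg_left _ (by positivity)
  split_ifs with hd
  · simp
  · exact hW _ hd

end Pool.Agent.H94.Weyl
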