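import Pool.Agent.H94.WeylC

/-!
Sums of linear bounds over residues.
-/

namespace Pool.Agent.H94.Weyl

open Finset Polynomial

lemma harm_le (n : ℕ) (hn : 1 ≤ n) : ∑ r ∈ Ico 1 n, (1 : ℝ) / r ≤ 1 + Real.log n := by
  have h1 : ∑ r ∈ Ico 1 n, (1 : ℝ) / r ≤ (harmonic n : ℝ) := by
    rw [harmonic_eq_sum_Icc]
    push_cast
    simp only [one_div]
    apply Finset.sum_le_sum_of_subset_of_nonneg
    · intro r hr
      rw [mem_Ico] at hr
      rw [mem_Icc]; omega
    · intro r _ _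
      positivity
  exact h1.trans (harmonic_le_one_add_log n)

/-- the sum over all residues -/
lemma sum_residues (N : ℝ) (R : ℕ) (hR : 1 ≤ R) :
    ∑ r ∈ range R, lb N ((r : ℝ) / R) ≤ N + R * (1 + Real.log R) := by
  have hR0 : (0 : ℝ) < R := by exact_mod_cast hR
  have h0 : range R = insert 0 (Ico 1 R) := by
    ext r; rw [mem_insert, mem_Ico, mem_range]; omega
  rw [h0, Finset.sum_insert (by rw [mem_Ico]; omega)]
  have h1 : lb N (((0 : ℕ) : ℝ) / R) ≤ N := lb_le _ _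
  have h2 : ∀ r ∈ Ico 1 R, lb N ((r : ℝ) / R) ≤ (R : ℝ) / 2 * (1 / (r : ℝ)) +
      (R : ℝ) / 2 * (1 / ((R - r : ℕ) : ℝ)) := by
    intro r hr
    rw [mem_Ico] at hr
    have hr0 : (0 : ℝ) < r := by exact_mod_cast hr.1
    have hr1 : (r : ℝ) < R := by exact_mod_cast hr.2
    have hfr : Int.fract ((r : ℝ) / R) = (r : ℝ) / R := by
      rw [Int.fract_eq_self]
      exact ⟨by positivity, by rw [div_lt_one hR0]; exact hr1⟩
    unfold lb
    rw [hfr, if_neg (by positivity)]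
    refine (min_le_right _ _).trans ?_
    rw [Nat.cast_sub hr.2.le]
    have h3 : (0 : ℝ) < R - r := by linarith
    have h4 : (1 : ℝ) - r / R = (R - r) / R := by field_simp
    rw [h4]
    apply le_of_eq
    field_simp
  have h3 : ∑ r ∈ Ico 1 R, (1 : ℝ) / ((R - r : ℕ) : ℝ) = ∑ r ∈ Ico 1 R, (1 : ℝ) / r := by
    apply Finset.sum_nbij' (fun r => R - r) (fun r => R - r)
    · intro r hr; rw [mem_Ico] at hr ⊢; omega
    · intro r hr; rw [mem_Ico] at hr ⊢; omega
    · intro r hr; rw [mem_Ico] at hr; omega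
    · intro r hr; rw [mem_Ico] at hr; omega
    · intro r _; rfl
  have h4 := Finset.sum_le_sum h2
  rw [Finset.sum_add_distrib, ← Finset.mul_sum, ← Finset.mul_sum, h3] at h4
  have h5 := harm_le R hR
  have h6 : (R : ℝ) / 2 * ∑ r ∈ Ico 1 R, (1 : ℝ) / r ≤ (R : ℝ) / 2 * (1 + Real.log R) :=
    mul_le_mul_of_nonneg_left h5 (by positivity)
  linarith

/-- the sum over one period -/
lemma sum_period (N : ℝ) (hN : 0 ≤ N) (R : ℕ) (hR : 1 ≤ R) (a : ℤ) (ha : IsCoprime a (R : ℤ)) :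
    ∑ j ∈ range R, lb N (((a * j : ℤ) : ℝ) / R) ≤ N + R * (1 + Real.log R) := by
  have hR0 : (0 : ℝ) < R := by exact_mod_cast hR
  have hRz : (R : ℤ) ≠ 0 := by omega
  set σ : ℕ → ℕ := fun j => ((a * j) % (R : ℤ)).toNat with hσ
  have hσ1 : ∀ j : ℕ, ((σ j : ℕ) : ℤ) = (a * j) % (R : ℤ) := by
    intro j
    exact Int.toNat_of_nonneg (Int.emod_nonneg _ hRz)
  have hmaps : ∀ j ∈ range R, σ j ∈ range R := by
    intro j _
    rw [mem_range]
    have h1 := hσ1 j
    have h2 := Int.emod_lt_of_pos (a * j) (by omega : (0 : ℤ) < R)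
    omega
  have hinj : Set.InjOn σ (range R) := by
    intro i hi j hj hij
    have hi' : i < R := mem_range.1 (Finset.mem_coe.1 hi)
    have hj' : j < R := mem_range.1 (Finset.mem_coe.1 hj)
    have h1 : (a * i) % (R : ℤ) = (a * j) % (R : ℤ) := by rw [← hσ1, ← hσ1, hij]
    have h2 : (R : ℤ) ∣ a * i - a * j :=
      Int.ModEq.dvd (h1.symm : (a * j) ≡ (a * i) [ZMOD R])
    rw [← mul_sub] at h2
    have h3 : (R : ℤ) ∣ (i : ℤ) - j := ha.symm.dvd_of_dvd_mul_left h2
    obtain ⟨c, hc⟩ := h3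
    have h4 : |(i : ℤ) - j| < R := by rw [abs_lt]; omega
    have h5 : c = 0 := by
      by_contra hne
      have h6 : 1 ≤ |c| := Int.one_le_abs hne
      rw [hc, abs_mul, Nat.abs_cast] at h4
      nlinarith
    rw [h5, mul_zero] at hc
    omega
  have himg : (range R).image σ = range R := by
    apply Finset.eq_of_subset_of_card_le
    · intro x hx
      rw [mem_image] at hx
      obtain ⟨j, hj, rfl⟩ := hx
      exact hmaps j hj
    · rw [Finset.card_image_of_injOn hinj]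
  have h1 : ∑ j ∈ range R, lb N (((a * j : ℤ) : ℝ) / R) = ∑ j ∈ range R, lb N ((σ j : ℝ) / R) := by
    apply Finset.sum_congr rfl
    intro j _
    have h2 : (((a * j : ℤ)) : ℝ) / R = (σ j : ℝ) / R + (((a * j) / (R : ℤ) : ℤ) : ℝ) := by
      have h3 := Int.emod_add_mul_ediv (a * j) (R : ℤ)
      have h4 : ((a * j : ℤ) : ℝ) = (σ j : ℝ) + (R : ℝ) * (((a * j) / (R : ℤ) : ℤ) : ℝ) := by
        rw [← hσ1] at h3
        exact_mod_cast h3.symm
      rw [h4]
      field_simp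
    rw [h2, lb_add_int]
  rw [h1, ← Finset.sum_image (f := fun r : ℕ => lb N ((r : ℝ) / R)) hinj, himg]
  exact sum_residues N R hR

lemma sum_blocks (F : ℕ → ℝ) (R : ℕ) (hF : ∀ n, F (n + R) = F n) (m : ℕ) :
    ∑ n ∈ range (m * R), F n = m * ∑ j ∈ range R, F j := by
  have hper : ∀ m n : ℕ, F (m * R + n) = F n := by
    intro m n
    induction m with
    | zero => simp
    | succ m ih =>
      have : (m + 1) * R + n = (m * R + n) + R := by ring
      rw [this, hF, ih]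
  induction m with
  | zero => simp
  | succ m ih =>
    have h1 : (m + 1) * R = m * R + R := by ring
    rw [h1, Finset.sum_range_add, ih]
    simp only [hper]
    push_cast
    ring

/-- the sum over an initial segment -/
lemma sum_Icc_lb (N : ℝ) (hN : 0 ≤ N) (R : ℕ) (hR : 1 ≤ R) (a : ℤ) (ha : IsCoprime a (R : ℤ))
    (K : ℕ) : ∑ n ∈ Icc 1 K, lb N (((a * n : ℤ) : ℝ) / R) ≤
      ((K : ℝ) / R + 1) * (N + R * (1 + Real.log R)) := by
  have hR0 : (0 : ℝ) < R := by exact_mod_cast hR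
  have hlog : 0 ≤ Real.log R := Real.log_nonneg (by exact_mod_cast hR)
  have h1 : ∑ n ∈ Icc 1 K, lb N (((a * n : ℤ) : ℝ) / R) ≤
      ∑ n ∈ range ((K / R + 1) * R), lb N (((a * n : ℤ) : ℝ) / R) := by
    apply Finset.sum_le_sum_of_subset_of_nonneg
    · intro n hn
      rw [mem_Icc] at hn
      rw [mem_range]
      have := Nat.lt_div_mul_add (a := K) (b := R) (by omega)
      have h2 : (K / R + 1) * R = K / R * R + R := by ring
      omega
    · intro n _ _
      exact lb_nonneg hN _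
  have h2 := sum_blocks (fun n => lb N (((a * n : ℤ) : ℝ) / R)) R (by
    intro n
    have h3 : (((a * ((n + R : ℕ) : ℤ) : ℤ)) : ℝ) / R = ((a * n : ℤ) : ℝ) / R + (a : ℤ) := by
      push_cast
      field_simp
    simp only [h3, lb_add_int]) (K / R + 1)
  rw [h2] at h1
  refine h1.trans ?_
  apply mul_le_mul _ (sum_period N hN R hR a ha) (Finset.sum_nonneg (fun _ _ => lb_nonneg hN _))
    (by positivity)
  push_cast
  have := @Nat.cast_div_le ℝ _ _ _ K R
  linarith

/-- Weyl's inequality: `L = gcd · a`, with the reduced denominator `R'` of `(k+1)! L / R`. -/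
theorem weyl_final (R N : ℕ) (hN : 1 ≤ N) (T : ℝ) (hT1 : 1 ≤ T) (k : ℕ)
    (hT : ∀ n, 1 ≤ n → n ≤ N ^ k → (n.divisors.card : ℝ) ≤ T)
    (P : ℤ[X]) (hP : P.natDegree ≤ k + 1) (a b : ℤ) (hab : b - a ≤ N)
    (R' : ℕ) (hR' : 1 ≤ R') (a' : ℤ) (ha' : IsCoprime a' (R' : ℤ))
    (hred : (((k + 1).factorial * P.coeff (k + 1) : ℤ) : ℝ) / R = (a' : ℝ) / R') :
    (2 * N : ℝ) ^ (k + 1) * ‖SS R P a b‖ ^ (2 ^ k) ≤ (2 * N : ℝ) ^ (2 ^ k) *
      (k * (2 * N : ℝ) ^ k + (2 * T) ^ k *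
        (((N : ℝ) ^ k / R' + 1) * (N + R' * (1 + Real.log R')))) := by
  refine (weyl_ineq R N hN k P hP a b hab).trans ?_
  apply mul_le_mul_of_nonneg_left _ (by positivity)
  refine (psi_le R N T hT1 k hT hN (P.coeff (k + 1))).trans ?_
  have h1 : ∀ n : ℕ, lb N ((((k + 1).factorial * P.coeff (k + 1) * n : ℤ) : ℝ) / R) =
      lb N (((a' * n : ℤ) : ℝ) / R') := by
    intro n
    congr 1
    have : (((k + 1).factorial * P.coeff (k + 1) * n : ℤ) : ℝ) / R =
        (((k + 1).factorial * P.coeff (k + 1) : ℤ) : ℝ) / R * n := by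
      push_cast; ring
    rw [this, hred]
    push_cast
    ring
  simp only [h1]
  have h2 := sum_Icc_lb (N : ℝ) (Nat.cast_nonneg N) R' hR' a' ha' (N ^ k)
  push_cast at h2 ⊢
  have h3 : (0 : ℝ) ≤ (2 * T) ^ k := by positivity
  have h4 := mul_le_mul_of_nonneg_left h2 h3
  linarith

end Pool.Agent.H94.Weyl
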