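import Pool.Agent.H94.FourA
import Pool.Agent.H94.WeylD

/-!
Fourier coefficients of block functions and the weighted count of frequencies.
-/

namespace Pool.Agent.H94.Weyl

open Finset

lemma sum_range_blocks {M : Type*} [AddCommMonoid M] (f : ℕ → M) (P r : ℕ) :
    ∑ z ∈ range (P * r), f z = ∑ k ∈ range r, ∑ i ∈ range P, f (P * k + i) := by
  induction r with
  | zero => simp
  | succ r ih =>
    rw [Nat.mul_succ, Finset.sum_range_add, ih, Finset.sum_range_succ]

/-- majorant of Fourier coefficients of block functions -/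
noncomputable def om (Q r h : ℕ) : ℝ :=
  if h = 0 then 1 else (r : ℝ) / 2 * (1 / (h : ℝ) + 1 / ((Q - h : ℕ) : ℝ))

lemma om_nonneg (Q r h : ℕ) : 0 ≤ om Q r h := by
  unfold om
  split_ifs
  · exact zero_le_one
  · positivity

lemma fhat_zero_le (Q : ℕ) (hQ : 1 ≤ Q) (G : ℕ → ℝ) (A : ℝ) (hA : ∀ z < Q, |G z| ≤ A) (h : ℕ) :
    ‖fhat Q G h‖ ≤ A := by
  have hQ0 : (0 : ℝ) < Q := by exact_mod_cast hQ
  unfold fhat
  rw [norm_mul]
  have h1 : ‖∑ z ∈ range Q, (G z : ℂ) * ee (-((h : ℝ) * ((z : ℝ) / Q)))‖ ≤ Q * A := by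
    refine (norm_sum_le _ _).trans ?_
    calc ∑ z ∈ range Q, ‖(G z : ℂ) * ee (-((h : ℝ) * ((z : ℝ) / Q)))‖
        ≤ ∑ z ∈ range Q, A := by
          apply Finset.sum_le_sum
          intro z hz
          rw [norm_mul, norm_ee, mul_one, Complex.norm_real, Real.norm_eq_abs]
          exact hA z (mem_range.1 hz)
      _ = Q * A := by rw [Finset.sum_const, card_range, nsmul_eq_mul]
  have h2 : ‖(1 / (Q : ℂ))‖ = 1 / (Q : ℝ) := by
    rw [norm_div, norm_one, Complex.norm_natCast]
  rw [h2]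
  calc 1 / (Q : ℝ) * ‖∑ z ∈ range Q, (G z : ℂ) * ee (-((h : ℝ) * ((z : ℝ) / Q)))‖
      ≤ 1 / (Q : ℝ) * (Q * A) := mul_le_mul_of_nonneg_left h1 (by positivity)
    _ = A := by field_simp

lemma fhat_block_le (P r : ℕ) (hP : 1 ≤ P) (hr : 1 ≤ r) (g : ℕ → ℝ) (A : ℝ) (hA0 : 0 ≤ A)
    (hA : ∀ k < r, |g k| ≤ A) (h : ℕ) (hh : h < P * r) :
    ‖fhat (P * r) (fun z => g (z / P)) h‖ ≤ A * om (P * r) r h := by
  have hQ : 1 ≤ P * r := Nat.mul_pos hP hr
  have hQ0 : (0 : ℝ) < ((P * r : ℕ) : ℝ) := by exact_mod_cast hQ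
  by_cases h0 : h = 0
  · subst h0
    unfold om
    rw [if_pos rfl, mul_one]
    apply fhat_zero_le _ hQ
    intro z hz
    apply hA
    rw [Nat.div_lt_iff_lt_mul hP]
    rw [mul_comm]; exact hz
  · unfold om
    rw [if_neg h0]
    have hh0 : (0 : ℝ) < h := by exact_mod_cast Nat.pos_of_ne_zero h0
    have hh1 : (h : ℝ) < ((P * r : ℕ) : ℝ) := by exact_mod_cast hh
    set α : ℝ := (h : ℝ) / ((P * r : ℕ) : ℝ) with hα
    have hfr : Int.fract α = α := by
      rw [Int.fract_eq_self]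
      exact ⟨by positivity, by rw [hα, div_lt_one hQ0]; exact hh1⟩
    have h1 : ∑ z ∈ range (P * r), ((g (z / P) : ℝ) : ℂ) *
        ee (-((h : ℝ) * ((z : ℝ) / ((P * r : ℕ) : ℝ)))) =
        ∑ k ∈ range r, ((g k : ℝ) : ℂ) * ee (-(α * ((P * k : ℕ) : ℝ))) *
          ∑ i ∈ range P, ee ((-α) * i) := by
      rw [sum_range_blocks]
      apply Finset.sum_congr rfl
      intro k _
      rw [Finset.mul_sum]
      apply Finset.sum_congr rfl
      intro i hi
      rw [mem_range] at hi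
      have h2 : (P * k + i) / P = k := by
        rw [Nat.mul_add_div hP, Nat.div_eq_of_lt hi, add_zero]
      rw [h2, mul_assoc, ← ee_add]
      congr 2
      rw [hα]
      push_cast
      field_simp
      ring
    have h3 : ‖∑ i ∈ range P, ee ((-α) * i)‖ ≤ (1 / α + 1 / (1 - α)) / 2 := by
      have h4 := geom_bound P (-α) (le_refl (P : ℝ))
      rw [lb_neg] at h4
      refine h4.trans ?_
      unfold lb
      rw [hfr, if_neg (by positivity)]
      exact min_le_right _ _
    have h5 : ‖∑ z ∈ range (P * r), ((g (z / P) : ℝ) : ℂ) *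
        ee (-((h : ℝ) * ((z : ℝ) / ((P * r : ℕ) : ℝ))))‖ ≤ r * (A * ((1 / α + 1 / (1 - α)) / 2)) := by
      rw [h1]
      refine (norm_sum_le _ _).trans ?_
      calc ∑ k ∈ range r, ‖((g k : ℝ) : ℂ) * ee (-(α * ((P * k : ℕ) : ℝ))) *
            ∑ i ∈ range P, ee ((-α) * i)‖
          ≤ ∑ k ∈ range r, (A * ((1 / α + 1 / (1 - α)) / 2)) := by
            apply Finset.sum_le_sum
            intro k hk
            rw [norm_mul, norm_mul, norm_ee, mul_one, Complex.norm_real, Real.norm_eq_abs]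
            exact mul_le_mul (hA k (mem_range.1 hk)) h3 (norm_nonneg _) hA0
        _ = _ := by rw [Finset.sum_const, card_range, nsmul_eq_mul]
    unfold fhat
    rw [norm_mul]
    have h2 : ‖(1 / ((P * r : ℕ) : ℂ))‖ = 1 / ((P * r : ℕ) : ℝ) := by
      rw [norm_div, norm_one, Complex.norm_natCast]
    rw [h2]
    calc 1 / ((P * r : ℕ) : ℝ) * ‖∑ z ∈ range (P * r), ((g (z / P) : ℝ) : ℂ) *
          ee (-((h : ℝ) * ((z : ℝ) / ((P * r : ℕ) : ℝ))))‖
        ≤ 1 / ((P * r : ℕ) : ℝ) * (r * (A * ((1 / α + 1 / (1 - α)) / 2))) :=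
          mul_le_mul_of_nonneg_left h5 (by positivity)
      _ = A * ((r : ℝ) / 2 * (1 / (h : ℝ) + 1 / ((P * r - h : ℕ) : ℝ))) := by
          rw [Nat.cast_sub hh.le, hα]
          have h6 : ((P * r : ℕ) : ℝ) - h ≠ 0 := by linarith
          have h7 : (1 : ℝ) - h / ((P * r : ℕ) : ℝ) = (((P * r : ℕ) : ℝ) - h) / ((P * r : ℕ) : ℝ) := by
            field_simp
          rw [h7]
          field_simp

lemma sum_om (Q r : ℕ) (hQ : 1 ≤ Q) :
    ∑ h ∈ range Q, om Q r h ≤ 1 + r * (1 + Real.log Q) := by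
  have h0 : range Q = insert 0 (Ico 1 Q) := by
    ext r; rw [mem_insert, mem_Ico, mem_range]; omega
  rw [h0, Finset.sum_insert (by rw [mem_Ico]; omega)]
  have h1 : om Q r 0 = 1 := by unfold om; rw [if_pos rfl]
  rw [h1]
  have h2 : ∀ h ∈ Ico 1 Q, om Q r h = (r : ℝ) / 2 * (1 / (h : ℝ)) +
      (r : ℝ) / 2 * (1 / ((Q - h : ℕ) : ℝ)) := by
    intro h hh
    rw [mem_Ico] at hh
    unfold om
    rw [if_neg (by omega)]
    ring
  rw [Finset.sum_congr rfl h2, Finset.sum_add_distrib, ← Finset.mul_sum, ← Finset.mul_sum]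
  have h3 : ∑ h ∈ Ico 1 Q, (1 : ℝ) / ((Q - h : ℕ) : ℝ) = ∑ h ∈ Ico 1 Q, (1 : ℝ) / h := by
    apply Finset.sum_nbij' (fun r => Q - r) (fun r => Q - r)
    · intro r hr; rw [mem_Ico] at hr ⊢; omega
    · intro r hr; rw [mem_Ico] at hr ⊢; omega
    · intro r hr; rw [mem_Ico] at hr; omega
    · intro r hr; rw [mem_Ico] at hr; omega
    · intro r _; rfl
  rw [h3]
  have h4 := harm_le Q hQ
  have h5 := mul_le_mul_of_nonneg_left h4 (by positivity : (0 : ℝ) ≤ (r : ℝ) / 2)
  linarith

/-- counting: at most `K` solutions -/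
lemma count_sol (K D a s : ℕ) (hs : 1 ≤ s) (hD : 1 ≤ D) :
    ((range (K * D)).filter (fun h => (D * s) ∣ (h * s + a))).card ≤ K := by
  have h1 : ((range (K * D)).filter (fun h => (D * s) ∣ (h * s + a))).card ≤ (range K).card := by
    apply Finset.card_le_card_of_injOn (fun h => h / D)
    · intro h hh
      have hh' := mem_filter.1 (Finset.mem_coe.1 hh)
      apply Finset.mem_coe.2
      rw [mem_range] at hh' ⊢
      rw [Nat.div_lt_iff_lt_mul hD]
      exact hh'.1
    · intro x hx y hy hxy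
      have hx' := mem_filter.1 (Finset.mem_coe.1 hx)
      have hy' := mem_filter.1 (Finset.mem_coe.1 hy)
      simp only at hxy
      have h2 : ((D : ℤ) * s) ∣ ((x : ℤ) - y) * s := by
        have e1 : ((D : ℤ) * s) ∣ ((x : ℤ) * s + a) := by exact_mod_cast hx'.2
        have e2 : ((D : ℤ) * s) ∣ ((y : ℤ) * s + a) := by exact_mod_cast hy'.2
        have := dvd_sub e1 e2
        have e3 : ((x : ℤ) * s + a) - ((y : ℤ) * s + a) = ((x : ℤ) - y) * s := by ring
        rwa [e3] at this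
      have h3 : (D : ℤ) ∣ (x : ℤ) - y := by
        exact Int.dvd_of_mul_dvd_mul_right (by omega : (s : ℤ) ≠ 0) h2
      obtain ⟨c, hc⟩ := h3
      have h4 := Nat.div_add_mod x D
      have h5 := Nat.div_add_mod y D
      have h6 := Nat.mod_lt x (by omega : D > 0)
      have h7 := Nat.mod_lt y (by omega : D > 0)
      rw [hxy] at h4
      have h8 : |(x : ℤ) - y| < D := by
        rw [abs_lt]; constructor <;> omega
      have h9 : c = 0 := by
        by_contra hne
        have h10 : 1 ≤ |c| := Int.one_le_abs hne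
        rw [hc, abs_mul, Nat.abs_cast] at h8
        nlinarith
      rw [h9, mul_zero] at hc
      omega
  rwa [card_range] at h1

/-- one of the two frequencies is far from an integer -/
lemma far (K D s h h' : ℕ) (hs : 1 ≤ s) (hK : 1 ≤ K) (hh : h < K * D) (hh' : h' < K * D * s)
    (h1 : (D * s) ∣ (h * s + h')) (h2 : ¬ (K * D * s) ∣ (h * s + h')) :
    (D ≤ 2 * h ∧ D ≤ 2 * (K * D - h)) ∨ (D * s ≤ 2 * h' ∧ D * s ≤ 2 * (K * D * s - h')) := by
  by_contra hcon
  push Not at hcon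
  obtain ⟨hc1, hc2⟩ := hcon
  -- integer version
  obtain ⟨i, hi⟩ := h1
  have hD : 1 ≤ D := by
    rcases Nat.eq_zero_or_pos D with h | h
    · subst h; simp at hh
    · exact h
  have hDs : 0 < D * s := Nat.mul_pos hD hs
  have hX : h * s < K * D * s := Nat.mul_lt_mul_of_pos_right hh hs
  have hcase1 : 2 * (h * s) < D * s ∨ 2 * (K * D * s - h * s) < D * s := by
    by_cases h3 : D ≤ 2 * h
    · right
      have h4 := hc1 h3
      have h5 : K * D * s - h * s = (K * D - h) * s := by rw [Nat.sub_mul]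
      rw [h5, ← mul_assoc]
      exact Nat.mul_lt_mul_of_pos_right h4 hs
    · left
      rw [← mul_assoc]
      exact Nat.mul_lt_mul_of_pos_right (by omega) hs
  have hcase2 : 2 * h' < D * s ∨ 2 * (K * D * s - h') < D * s := by
    by_cases h3 : D * s ≤ 2 * h'
    · right; exact hc2 h3
    · left; omega
  set E := D * s with hE
  have hKE : K * D * s = K * E := by rw [hE]; ring
  rw [hKE] at h2 hX hh' hcase1 hcase2
  set X := h * s with hXdef
  -- now X + h' = E * i
  have key : E * i = X + h' := hi.symm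
  have hKK : K * E = E * K := mul_comm _ _
  have hEK : E ≤ E * K := Nat.le_mul_of_pos_right _ hK
  rcases hcase1 with c1 | c1 <;> rcases hcase2 with c2 | c2
  · have h3 : E * i < E * 1 := by omega
    have h4 : i < 1 := lt_of_mul_lt_mul_left h3 (Nat.zero_le _)
    have h5 : i = 0 := by omega
    subst h5
    apply h2
    rw [hi]; simp
  · have h3 : E * i < E * (K + 1) := by rw [Nat.mul_add]; omega
    have h4 : E * (K - 1) < E * i := by rw [Nat.mul_sub]; omega
    have h5 : i < K + 1 := lt_of_mul_lt_mul_left h3 (Nat.zero_le _)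
    have h6 : K - 1 < i := lt_of_mul_lt_mul_left h4 (Nat.zero_le _)
    have h7 : i = K := by omega
    apply h2
    rw [hi, h7, hKK]
  · have h3 : E * i < E * (K + 1) := by rw [Nat.mul_add]; omega
    have h4 : E * (K - 1) < E * i := by rw [Nat.mul_sub]; omega
    have h5 : i < K + 1 := lt_of_mul_lt_mul_left h3 (Nat.zero_le _)
    have h6 : K - 1 < i := lt_of_mul_lt_mul_left h4 (Nat.zero_le _)
    have h7 : i = K := by omega
    apply h2
    rw [hi, h7, hKK]
  · have h3 : E * i < E * (2 * K) := by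
      have : E * (2 * K) = E * K + E * K := by ring
      omega
    have h4 : E * (2 * K - 1) < E * i := by
      have : E * (2 * K - 1) + E = E * K + E * K := by
        have h8 : 2 * K - 1 + 1 = 2 * K := by omega
        calc E * (2 * K - 1) + E = E * (2 * K - 1 + 1) := by ring
          _ = E * K + E * K := by rw [h8]; ring
      omega
    have h5 : i < 2 * K := lt_of_mul_lt_mul_left h3 (Nat.zero_le _)
    have h6 : 2 * K - 1 < i := lt_of_mul_lt_mul_left h4 (Nat.zero_le _)
    omega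

lemma om_far (K D r h : ℕ) (hD : 1 ≤ D) (h1 : D ≤ 2 * h)
    (h2 : D ≤ 2 * (K * D - h)) : om (K * D) r h ≤ 2 * r / D := by
  have hD0 : (0 : ℝ) < D := by exact_mod_cast hD
  have hh0 : h ≠ 0 := by rintro rfl; omega
  unfold om
  rw [if_neg hh0]
  have e1 : 1 / (h : ℝ) ≤ 2 / D := by
    rw [div_le_div_iff₀ (by positivity) hD0]
    have : (D : ℝ) ≤ 2 * h := by exact_mod_cast h1
    linarith
  have e2 : 1 / ((K * D - h : ℕ) : ℝ) ≤ 2 / D := by
    have h3 : 0 < K * D - h := by omega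
    rw [div_le_div_iff₀ (by exact_mod_cast h3) hD0]
    have : (D : ℝ) ≤ 2 * ((K * D - h : ℕ) : ℝ) := by exact_mod_cast h2
    linarith
  calc (r : ℝ) / 2 * (1 / (h : ℝ) + 1 / ((K * D - h : ℕ) : ℝ)) ≤ (r : ℝ) / 2 * (2 / D + 2 / D) :=
        mul_le_mul_of_nonneg_left (add_le_add e1 e2) (by positivity)
    _ = 2 * r / D := by ring

end Pool.Agent.H94.Weyl
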