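import Pool.Agent.H94.FourB

/-!
Pair correlations of digit blocks from a power saving for exponential sums.
-/

namespace Pool.Agent.H94.Weyl

open Finset

/-- the reduced denominator of `H / Q` -/
def qq (Q H : ℕ) : ℕ := Q / Nat.gcd H Q

lemma dvd_pow_of_lt {q b n κ : ℕ} (hb : 2 ≤ b) (h1 : q ∣ b ^ n) (h2 : q < 2 ^ κ) : q ∣ b ^ κ := by
  have hb0 : b ^ n ≠ 0 := by positivity
  have hq0 : q ≠ 0 := fun h => by rw [h, zero_dvd_iff] at h1; exact hb0 h1
  have hbk : b ^ κ ≠ 0 := by positivity
  rw [← Nat.factorization_le_iff_dvd hq0 hbk]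
  intro π
  rw [Nat.factorization_pow]
  by_cases h3 : q.factorization π = 0
  · rw [h3]; exact Nat.zero_le _
  · have hπ : π.Prime := by
      by_contra hnp
      exact h3 (Nat.factorization_eq_zero_of_not_prime _ hnp)
    have h4 : π ∣ q := Nat.dvd_of_factorization_pos h3
    have h5 : π ∣ b := hπ.dvd_of_dvd_pow (h4.trans h1)
    have h6 : 1 ≤ b.factorization π := by
      have := (hπ.dvd_iff_one_le_factorization (by omega : b ≠ 0)).1 h5
      exact this
    have h7 : 2 ^ (q.factorization π) < 2 ^ κ := by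
      calc 2 ^ (q.factorization π) ≤ π ^ (q.factorization π) := Nat.pow_le_pow_left hπ.two_le _
        _ ≤ q := Nat.le_of_dvd (Nat.pos_of_ne_zero hq0) (Nat.ordProj_dvd q π)
        _ < 2 ^ κ := h2
    have h8 : q.factorization π < κ := (Nat.pow_lt_pow_iff_right (by norm_num)).1 h7
    simp only [Finsupp.smul_apply, smul_eq_mul]
    nlinarith

lemma qq_ge {b n κ E H : ℕ} (hb : 2 ≤ b) (hn : b ^ n = b ^ κ * E)
    (hH : ¬ E ∣ H) : 2 ^ κ ≤ qq (b ^ n) H := by
  by_contra hcon
  push Not at hcon
  have hbn : 0 < b ^ n := by positivity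
  have hg : Nat.gcd H (b ^ n) ∣ b ^ n := Nat.gcd_dvd_right _ _
  have hq : qq (b ^ n) H ∣ b ^ n := Nat.div_dvd_of_dvd hg
  have h1 := dvd_pow_of_lt hb hq hcon
  apply hH
  have h2 : qq (b ^ n) H * Nat.gcd H (b ^ n) = b ^ n := Nat.div_mul_cancel hg
  have h3 : b ^ n ∣ b ^ κ * H := by
    rw [← h2]
    exact Nat.mul_dvd_mul h1 (Nat.gcd_dvd_left _ _)
  rw [hn] at h3
  exact Nat.dvd_of_mul_dvd_mul_left (by positivity) h3

/-- the weighted sum over frequencies -/
lemma weighted_sum (b n κ D s r : ℕ) (hb : 2 ≤ b) (hD : 1 ≤ D) (hs : 1 ≤ s)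
    (hn : b ^ n = b ^ κ * D * s) (c : ℝ) (hc : 0 ≤ c) :
    ∑ h ∈ range (b ^ κ * D), ∑ h' ∈ range (b ^ κ * D * s),
      om (b ^ κ * D) r h * om (b ^ κ * D * s) r h' *
        (if (b ^ κ * D * s) ∣ (h * s + h') then 0 else (qq (b ^ n) (h * s + h') : ℝ) ^ (-c)) ≤
      ((2 : ℝ) ^ κ) ^ (-c) * (1 + r * (1 + Real.log (b ^ n : ℕ))) ^ 2 +
        4 * r * (1 + r * (1 + Real.log (b ^ n : ℕ))) * (b ^ κ : ℕ) / D := by
  set K := b ^ κ with hK
  have hK1 : 1 ≤ K := Nat.one_le_pow _ _ (by omega)
  set Λ : ℝ := 1 + r * (1 + Real.log (b ^ n : ℕ)) with hΛ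
  have hD0 : (0 : ℝ) < D := by exact_mod_cast hD
  have hKD : 1 ≤ K * D := Nat.mul_pos hK1 hD
  have hKDs : 1 ≤ K * D * s := Nat.mul_pos hKD hs
  have hlog : Real.log ((K * D : ℕ) : ℝ) ≤ Real.log ((b ^ n : ℕ) : ℝ) := by
    apply Real.log_le_log (by exact_mod_cast hKD)
    rw [hn]
    exact_mod_cast Nat.le_mul_of_pos_right _ hs
  have hr0 : (0 : ℝ) ≤ r := Nat.cast_nonneg r
  have hS1 : ∑ h ∈ range (K * D), om (K * D) r h ≤ Λ := by
    refine (sum_om (K * D) r hKD).trans ?_
    rw [hΛ]
    nlinarith
  have hS2 : ∑ h ∈ range (K * D * s), om (K * D * s) r h ≤ Λ := by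
    refine (sum_om (K * D * s) r hKDs).trans ?_
    rw [hΛ, hn]
  have hΛ0 : 0 ≤ Λ := (Finset.sum_nonneg (fun h _ => om_nonneg _ _ h)).trans hS1
  -- pointwise bound
  have hpt : ∀ h ∈ range (K * D), ∀ h' ∈ range (K * D * s),
      om (K * D) r h * om (K * D * s) r h' *
        (if (K * D * s) ∣ (h * s + h') then 0 else (qq (b ^ n) (h * s + h') : ℝ) ^ (-c)) ≤
      om (K * D) r h * om (K * D * s) r h' * ((2 : ℝ) ^ κ) ^ (-c) +
        (if (D * s) ∣ (h * s + h') then 2 * r / D * om (K * D) r h else 0) +
        (if (D * s) ∣ (h * s + h') then 2 * r / D * om (K * D * s) r h' else 0) := by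
    intro h hh h' hh'
    rw [mem_range] at hh hh'
    have ho1 := om_nonneg (K * D) r h
    have ho2 := om_nonneg (K * D * s) r h'
    have h2c : (0 : ℝ) ≤ ((2 : ℝ) ^ κ) ^ (-c) := by positivity
    have hrD : (0 : ℝ) ≤ 2 * r / D := by positivity
    by_cases hd : (K * D * s) ∣ (h * s + h')
    · rw [if_pos hd, mul_zero]
      split_ifs <;> positivity
    · rw [if_neg hd]
      by_cases he : (D * s) ∣ (h * s + h')
      · rw [if_pos he, if_pos he]
        have hq1 : (qq (b ^ n) (h * s + h') : ℝ) ^ (-c) ≤ 1 := by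
          have h3 : 1 ≤ qq (b ^ n) (h * s + h') := by
            have hbn : 0 < b ^ n := by positivity
            exact Nat.div_pos (Nat.le_of_dvd hbn (Nat.gcd_dvd_right _ _))
              (Nat.gcd_pos_of_pos_right _ hbn)
          exact Real.rpow_le_one_of_one_le_of_nonpos (by exact_mod_cast h3) (by linarith)
        have h4 : om (K * D) r h * om (K * D * s) r h' ≤
            2 * r / D * om (K * D) r h + 2 * r / D * om (K * D * s) r h' := by
          rcases far K D s h h' hs hK1 hh hh' he hd with ⟨f1, f2⟩ | ⟨f1, f2⟩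
          · have := om_far K D r h hD f1 f2
            nlinarith
          · have h5 : om (K * D * s) r h' ≤ 2 * r / D := by
              have h6 := om_far K (D * s) r h' (Nat.mul_pos hD hs) f1 (by rwa [← mul_assoc])
              rw [← mul_assoc] at h6
              refine h6.trans ?_
              apply div_le_div_of_nonneg_left (by positivity) hD0
              exact_mod_cast Nat.le_mul_of_pos_right _ hs
            nlinarith
        have h7 : om (K * D) r h * om (K * D * s) r h' *
            (qq (b ^ n) (h * s + h') : ℝ) ^ (-c) ≤ om (K * D) r h * om (K * D * s) r h' :=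
          mul_le_of_le_one_right (by positivity) hq1
        have h8 : 0 ≤ om (K * D) r h * om (K * D * s) r h' * ((2 : ℝ) ^ κ) ^ (-c) := by positivity
        linarith
      · rw [if_neg he, if_neg he, add_zero, add_zero]
        apply mul_le_mul_of_nonneg_left _ (by positivity)
        have h9 := qq_ge (H := h * s + h') (κ := κ) (E := D * s) hb
          (by rw [hn, mul_assoc]) he
        have h10 : ((2 : ℝ) ^ κ) ≤ (qq (b ^ n) (h * s + h') : ℝ) := by exact_mod_cast h9
        rw [Real.rpow_neg (by positivity), Real.rpow_neg (by positivity)]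
        apply inv_anti₀ (by positivity)
        exact Real.rpow_le_rpow (by positivity) h10 hc
  have hsum : ∑ h ∈ range (K * D), ∑ h' ∈ range (K * D * s),
      om (K * D) r h * om (K * D * s) r h' *
        (if (K * D * s) ∣ (h * s + h') then 0 else (qq (b ^ n) (h * s + h') : ℝ) ^ (-c)) ≤
      ∑ h ∈ range (K * D), ∑ h' ∈ range (K * D * s),
      (om (K * D) r h * om (K * D * s) r h' * ((2 : ℝ) ^ κ) ^ (-c) +
        (if (D * s) ∣ (h * s + h') then 2 * r / D * om (K * D) r h else 0) +
        (if (D * s) ∣ (h * s + h') then 2 * r / D * om (K * D * s) r h' else 0)) :=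
    Finset.sum_le_sum (fun h hh => Finset.sum_le_sum (fun h' hh' => hpt h hh h' hh'))
  refine hsum.trans ?_
  simp only [Finset.sum_add_distrib]
  have hT1 : ∑ h ∈ range (K * D), ∑ h' ∈ range (K * D * s),
      om (K * D) r h * om (K * D * s) r h' * ((2 : ℝ) ^ κ) ^ (-c) ≤
      ((2 : ℝ) ^ κ) ^ (-c) * Λ ^ 2 := by
    have e1 : ∑ h ∈ range (K * D), ∑ h' ∈ range (K * D * s),
      om (K * D) r h * om (K * D * s) r h' * ((2 : ℝ) ^ κ) ^ (-c) =
      ((2 : ℝ) ^ κ) ^ (-c) * ((∑ h ∈ range (K * D), om (K * D) r h) *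
        (∑ h' ∈ range (K * D * s), om (K * D * s) r h')) := by
      rw [Finset.sum_mul_sum, Finset.mul_sum]
      apply Finset.sum_congr rfl
      intro h _
      rw [Finset.mul_sum]
      apply Finset.sum_congr rfl
      intro h' _
      ring
    rw [e1, sq]
    apply mul_le_mul_of_nonneg_left _ (by positivity)
    exact mul_le_mul hS1 hS2 (Finset.sum_nonneg (fun h _ => om_nonneg _ _ h)) hΛ0
  have hT2 : ∑ h ∈ range (K * D), ∑ h' ∈ range (K * D * s),
      (if (D * s) ∣ (h * s + h') then 2 * r / D * om (K * D) r h else 0) ≤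
      2 * r / D * K * Λ := by
    calc ∑ h ∈ range (K * D), ∑ h' ∈ range (K * D * s),
        (if (D * s) ∣ (h * s + h') then 2 * r / D * om (K * D) r h else 0)
        ≤ ∑ h ∈ range (K * D), K * (2 * r / D * om (K * D) r h) := by
          apply Finset.sum_le_sum
          intro h _
          rw [← Finset.sum_filter, Finset.sum_const, nsmul_eq_mul]
          apply mul_le_mul_of_nonneg_right
          · have h1 := count_sol K (D * s) (h * s) 1 le_rfl (Nat.mul_pos hD hs)
            simp only [mul_one] at h1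
            rw [← mul_assoc] at h1
            have h2 : (range (K * D * s)).filter (fun h' => (D * s) ∣ (h' + h * s)) =
                (range (K * D * s)).filter (fun h' => (D * s) ∣ (h * s + h')) := by
              apply Finset.filter_congr
              intro x _
              rw [add_comm]
            rw [h2] at h1
            exact_mod_cast h1
          · have := om_nonneg (K * D) r h
            positivity
      _ = 2 * r / D * K * ∑ h ∈ range (K * D), om (K * D) r h := by
          rw [Finset.mul_sum]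
          apply Finset.sum_congr rfl
          intro h _; ring
      _ ≤ 2 * r / D * K * Λ := mul_le_mul_of_nonneg_left hS1 (by positivity)
  have hT3 : ∑ h ∈ range (K * D), ∑ h' ∈ range (K * D * s),
      (if (D * s) ∣ (h * s + h') then 2 * r / D * om (K * D * s) r h' else 0) ≤
      2 * r / D * K * Λ := by
    rw [Finset.sum_comm]
    calc ∑ h' ∈ range (K * D * s), ∑ h ∈ range (K * D),
        (if (D * s) ∣ (h * s + h') then 2 * r / D * om (K * D * s) r h' else 0)
        ≤ ∑ h' ∈ range (K * D * s), K * (2 * r / D * om (K * D * s) r h') := by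
          apply Finset.sum_le_sum
          intro h' _
          rw [← Finset.sum_filter, Finset.sum_const, nsmul_eq_mul]
          apply mul_le_mul_of_nonneg_right
          · exact_mod_cast count_sol K D h' s hs hD
          · have := om_nonneg (K * D * s) r h'
            positivity
      _ = 2 * r / D * K * ∑ h' ∈ range (K * D * s), om (K * D * s) r h' := by
          rw [Finset.mul_sum]
          apply Finset.sum_congr rfl
          intro h _; ring
      _ ≤ 2 * r / D * K * Λ := mul_le_mul_of_nonneg_left hS2 (by positivity)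
  have hfin : 4 * (r : ℝ) * Λ * (K : ℕ) / D = 2 * r / D * K * Λ + 2 * r / D * K * Λ := by
    field_simp; ring
  rw [hfin]
  linarith

end Pool.Agent.H94.Weyl
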