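import Pool.Agent.H94.FourC

/-!
Pair correlations of digit blocks from a power saving for exponential sums.
-/

namespace Pool.Agent.H94.Weyl

open Finset

/-- independence of two disjoint blocks for a uniform integer -/
lemma avg_blocks (P1 P2 r u : ℕ) (hP1 : 1 ≤ P1) (hr : 1 ≤ r) (hu : 1 ≤ u)
    (hP2 : P2 = P1 * r * u) (g1 g2 : ℕ → ℝ) :
    (1 / ((P2 * r : ℕ) : ℝ)) * ∑ z ∈ range (P2 * r), g1 ((z % (P1 * r)) / P1) * g2 (z / P2) =
      (∑ k ∈ range r, g1 k) / r * ((∑ k ∈ range r, g2 k) / r) := by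
  have hP2pos : 0 < P2 := by rw [hP2]; positivity
  have hQ : 0 < P1 * r := Nat.mul_pos hP1 hr
  have h1 : ∑ z ∈ range (P2 * r), g1 ((z % (P1 * r)) / P1) * g2 (z / P2) =
      (u * (P1 * ∑ k ∈ range r, g1 k)) * ∑ k ∈ range r, g2 k := by
    rw [sum_range_blocks, Finset.mul_sum]
    apply Finset.sum_congr rfl
    intro k _
    have h2 : ∀ i ∈ range P2, g1 (((P2 * k + i) % (P1 * r)) / P1) * g2 ((P2 * k + i) / P2) =
        g1 ((i % (P1 * r)) / P1) * g2 k := by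
      intro i hi
      rw [mem_range] at hi
      rw [Nat.mul_add_div hP2pos, Nat.div_eq_of_lt hi, add_zero]
      congr 3
      rw [hP2, show P1 * r * u * k + i = i + (P1 * r) * (u * k) by ring, Nat.add_mul_mod_self_left]
    rw [Finset.sum_congr rfl h2, ← Finset.sum_mul]
    congr 1
    rw [hP2, sum_range_blocks]
    have h3 : ∀ a ∈ range u, ∑ i ∈ range (P1 * r), g1 (((P1 * r * a + i) % (P1 * r)) / P1) =
        P1 * ∑ k ∈ range r, g1 k := by
      intro a _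
      have h4 : ∀ i ∈ range (P1 * r), g1 (((P1 * r * a + i) % (P1 * r)) / P1) = g1 (i / P1) := by
        intro i hi
        rw [mem_range] at hi
        rw [Nat.mul_add_mod, Nat.mod_eq_of_lt hi]
      rw [Finset.sum_congr rfl h4, sum_range_blocks, Finset.mul_sum]
      apply Finset.sum_congr rfl
      intro l _
      have h5 : ∀ i ∈ range P1, g1 ((P1 * l + i) / P1) = g1 l := by
        intro i hi
        rw [mem_range] at hi
        rw [Nat.mul_add_div hP1, Nat.div_eq_of_lt hi, add_zero]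
      rw [Finset.sum_congr rfl h5, Finset.sum_const, card_range, nsmul_eq_mul]
    rw [Finset.sum_congr rfl h3, Finset.sum_const, card_range, nsmul_eq_mul]
  rw [h1, hP2]
  have e1 : (P1 : ℝ) ≠ 0 := by positivity
  have e2 : (r : ℝ) ≠ 0 := by positivity
  have e3 : (u : ℝ) ≠ 0 := by positivity
  push_cast
  field_simp

/-- Pair correlations of blocks. -/
theorem pair_blocks {ι : Type*} (S : Finset ι) (v : ι → ℕ) (b m j j' κ : ℕ) (hb : 2 ≤ b)
    (hj : j + m ≤ j') (hκ : κ ≤ j + m) (g1 g2 : ℕ → ℝ) (A1 A2 : ℝ) (hA10 : 0 ≤ A1) (hA20 : 0 ≤ A2)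
    (hA1 : ∀ k < b ^ m, |g1 k| ≤ A1) (hA2 : ∀ k < b ^ m, |g2 k| ≤ A2) (W c : ℝ) (hW0 : 0 ≤ W)
    (hc : 0 ≤ c)
    (hW : ∀ H : ℕ, ¬ b ^ (j' + m) ∣ H →
      ‖∑ t ∈ S, ee ((v t : ℝ) * ((H : ℝ) / ((b ^ (j' + m) : ℕ) : ℝ)))‖ ≤
        W * (qq (b ^ (j' + m)) H : ℝ) ^ (-c)) :
    |∑ t ∈ S, g1 (v t / b ^ j % b ^ m) * g2 (v t / b ^ j' % b ^ m) -
      S.card * ((∑ k ∈ range (b ^ m), g1 k) / (b ^ m : ℕ) *
        ((∑ k ∈ range (b ^ m), g2 k) / (b ^ m : ℕ)))| ≤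
      A1 * A2 * W * (((2 : ℝ) ^ κ) ^ (-c) *
          (1 + (b ^ m : ℕ) * (1 + Real.log (b ^ (j' + m) : ℕ))) ^ 2 +
        4 * (b ^ m : ℕ) * (1 + (b ^ m : ℕ) * (1 + Real.log (b ^ (j' + m) : ℕ))) * (b ^ κ : ℕ) /
          (b ^ (j + m - κ) : ℕ)) := by
  set r := b ^ m with hr
  set D := b ^ (j + m - κ) with hD
  set s := b ^ (j' - j) with hs
  have hb0 : 0 < b := by omega
  have hr1 : 1 ≤ r := Nat.one_le_pow _ _ hb0
  have hD1 : 1 ≤ D := Nat.one_le_pow _ _ hb0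
  have hs1 : 1 ≤ s := Nat.one_le_pow _ _ hb0
  have hP1 : 1 ≤ b ^ j := Nat.one_le_pow _ _ hb0
  have hP2 : 1 ≤ b ^ j' := Nat.one_le_pow _ _ hb0
  have hQ1 : b ^ κ * D = b ^ j * r := by
    rw [hD, hr, ← pow_add, ← pow_add]; congr 1; omega
  have hQ2 : b ^ κ * D * s = b ^ j' * r := by
    rw [hQ1, hs, hr, mul_right_comm, ← pow_add]; congr 2; omega
  have hn : b ^ (j' + m) = b ^ κ * D * s := by rw [hQ2, hr, ← pow_add]
  have hQpos : 1 ≤ b ^ κ * D := Nat.mul_pos (Nat.one_le_pow _ _ hb0) hD1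
  -- apply the abstract estimate
  have h1 := pair_abstract S v (b ^ κ * D) s hQpos hs1 (fun z => g1 (z / b ^ j))
    (fun z => g2 (z / b ^ j')) (fun H => W * (qq (b ^ (j' + m)) H : ℝ) ^ (-c)) (by
      intro H hH
      rw [← hn] at hH ⊢
      exact hW H hH)
  have h2 : ∀ t ∈ S, g1 (v t % (b ^ κ * D) / b ^ j) * g2 (v t % (b ^ κ * D * s) / b ^ j') =
      g1 (v t / b ^ j % r) * g2 (v t / b ^ j' % r) := by
    intro t _
    rw [hQ1, ← hQ1, hQ2, hQ1, Nat.mod_mul_right_div_self, Nat.mod_mul_right_div_self]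
  rw [Finset.sum_congr rfl h2] at h1
  have h3 := avg_blocks (b ^ j) (b ^ j') r (b ^ (j' - j - m)) hP1 hr1
    (Nat.one_le_pow _ _ hb0) (by rw [hr, ← pow_add, ← pow_add]; congr 1; omega) g1 g2
  have h4 : (1 / ((b ^ κ * D * s : ℕ) : ℝ)) * ∑ z ∈ range (b ^ κ * D * s),
      g1 (z % (b ^ κ * D) / b ^ j) * g2 (z / b ^ j') =
      (∑ k ∈ range r, g1 k) / r * ((∑ k ∈ range r, g2 k) / r) := by
    rw [hQ2, hQ1]; exact h3
  rw [h4] at h1
  refine h1.trans ?_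
  have h5 := weighted_sum b (j' + m) κ D s r hb hD1 hs1 hn c hc
  have h6 : ∑ h ∈ range (b ^ κ * D), ∑ h' ∈ range (b ^ κ * D * s),
      ‖fhat (b ^ κ * D) (fun z => g1 (z / b ^ j)) h‖ *
        ‖fhat (b ^ κ * D * s) (fun z => g2 (z / b ^ j')) h'‖ *
        (if (b ^ κ * D * s) ∣ (h * s + h') then 0 else
          W * (qq (b ^ (j' + m)) (h * s + h') : ℝ) ^ (-c)) ≤
      A1 * A2 * W * ∑ h ∈ range (b ^ κ * D), ∑ h' ∈ range (b ^ κ * D * s),
      om (b ^ κ * D) r h * om (b ^ κ * D * s) r h' *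
        (if (b ^ κ * D * s) ∣ (h * s + h') then 0 else
          (qq (b ^ (j' + m)) (h * s + h') : ℝ) ^ (-c)) := by
    rw [Finset.mul_sum]
    apply Finset.sum_le_sum
    intro h hh
    rw [Finset.mul_sum]
    apply Finset.sum_le_sum
    intro h' hh'
    rw [mem_range] at hh hh'
    have e1 : ‖fhat (b ^ κ * D) (fun z => g1 (z / b ^ j)) h‖ ≤ A1 * om (b ^ κ * D) r h := by
      rw [hQ1] at hh ⊢
      exact fhat_block_le (b ^ j) r hP1 hr1 g1 A1 hA10 hA1 h hh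
    have e2 : ‖fhat (b ^ κ * D * s) (fun z => g2 (z / b ^ j')) h'‖ ≤
        A2 * om (b ^ κ * D * s) r h' := by
      rw [hQ2] at hh' ⊢
      exact fhat_block_le (b ^ j') r hP2 hr1 g2 A2 hA20 hA2 h' hh'
    have e3 : ‖fhat (b ^ κ * D) (fun z => g1 (z / b ^ j)) h‖ *
        ‖fhat (b ^ κ * D * s) (fun z => g2 (z / b ^ j')) h'‖ ≤
        (A1 * om (b ^ κ * D) r h) * (A2 * om (b ^ κ * D * s) r h') :=
      mul_le_mul e1 e2 (norm_nonneg _) (mul_nonneg hA10 (om_nonneg _ _ _))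
    split_ifs with hd
    · simp
    · have e4 : 0 ≤ W * (qq (b ^ (j' + m)) (h * s + h') : ℝ) ^ (-c) := by positivity
      calc _ ≤ (A1 * om (b ^ κ * D) r h) * (A2 * om (b ^ κ * D * s) r h') *
            (W * (qq (b ^ (j' + m)) (h * s + h') : ℝ) ^ (-c)) :=
            mul_le_mul_of_nonneg_right e3 e4
        _ = _ := by ring
  refine h6.trans ?_
  apply mul_le_mul_of_nonneg_left _ (by positivity)
  exact h5

end Pool.Agent.H94.Weyl
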