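import Pool.Agent.H94.Ineq

set_option autoImplicit false
open scoped ENNReal InnerProductSpace Classical
open Filter Topology MeasureTheory

noncomputable section

namespace Pool.Agent.H94

variable {Δ : ℕ} {lam : ℝ} {μ0 qh : Measure ℕ} [IsProbabilityMeasure μ0] [IsProbabilityMeasure qh]
  {m : ℝ≥0∞}

lemma ae_QQ_of {s : Set ℕ} (hs : ∀ᵐ k ∂qh, k ∈ s) : ∀ᵐ y ∂(QQ qh), ∀ v, y v ∈ s := by
  rw [ae_all_iff]
  intro v
  have h1 : (QQ qh).map (fun y => y v) = qh := Measure.infinitePi_map_eval _ v
  have h2 : ∀ᵐ k ∂((QQ qh).map (fun y => y v)), k ∈ s := by rw [h1]; exact hs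
  exact ae_of_ae_map (measurable_pi_apply v).aemeasurable h2

lemma ae_PP_root {s : Set ℕ} (hs : ∀ᵐ k ∂μ0, k ∈ s) : ∀ᵐ x ∂(PP μ0 qh), x [] ∈ s := by
  unfold PP
  rw [ae_map_iff measurable_updateNil'.aemeasurable
    (measurable_pi_apply (X := fun _ : List ℕ => ℕ) [] (MeasurableSet.of_discrete (s := s)))]
  simp only [Function.update_self]
  have h1 : (μ0.prod (QQ qh)).map Prod.fst = μ0 := by
    rw [Measure.map_fst_prod, measure_univ, one_smul]
  have h2 : ∀ᵐ k ∂((μ0.prod (QQ qh)).map Prod.fst), k ∈ s := by rw [h1]; exact hs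
  exact ae_of_ae_map measurable_fst.aemeasurable h2

lemma PP_sub_null {s : Set Env} (hs : MeasurableSet s) (c : ℕ) (h : QQ qh s = 0) :
    PP μ0 qh {x | sub x c ∈ s} = 0 := by
  have hm : MeasurableSet {x : Env | sub x c ∈ s} := measurable_sub c hs
  rw [← lintegral_indicator_one hm, lintegral_PP μ0 qh (measurable_one.indicator hm)]
  rw [ENNReal.tsum_eq_zero]
  intro D
  have : ∫⁻ y, ({x : Env | sub x c ∈ s}.indicator 1 (Function.update y [] D) : ℝ≥0∞) ∂(QQ qh) =
      ∫⁻ y, s.indicator 1 (sub y c) ∂(QQ qh) := by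
    apply lintegral_congr
    intro y
    have : sub (Function.update y [] D) c = sub y c := by
      ext v; simp [sub]
    by_cases h : sub y c ∈ s
    · rw [Set.indicator_of_mem h, Set.indicator_of_mem]
      · rfl
      · rw [Set.mem_ofPred_eq, this]; exact h
    · rw [Set.indicator_of_notMem h, Set.indicator_of_notMem]
      rw [Set.mem_ofPred_eq, this]; exact h
  rw [this, lintegral_sub qh c (measurable_one.indicator hs), lintegral_indicator_one hs, h,
    mul_zero]

lemma QQ_sub (s : Set Env) (hs : MeasurableSet s) (c : ℕ) :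
    QQ qh {x | sub x c ∈ s} = QQ qh s := by
  have hm : MeasurableSet {x : Env | sub x c ∈ s} := measurable_sub c hs
  rw [← lintegral_indicator_one hm, ← lintegral_indicator_one hs,
    ← lintegral_sub qh c (measurable_one.indicator hs)]
  rfl

/-- probability that two given children of the root are of type P -/
lemma PP_two : PP μ0 qh {x | Pp Δ lam (sub x 0) ∧ Pp Δ lam (sub x 1)} =
    (QQ qh {x | Pp Δ lam x}) ^ 2 := by
  set s : Set Env := {x | Pp Δ lam x} with hs
  have hms : MeasurableSet s := measurableSet_Pp Δ lam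
  have hm : MeasurableSet {x : Env | Pp Δ lam (sub x 0) ∧ Pp Δ lam (sub x 1)} :=
    (measurable_sub 0 hms).inter (measurable_sub 1 hms)
  have hind : Measurable (s.indicator (1 : Env → ℝ≥0∞)) := measurable_one.indicator hms
  have key : ∀ D, ∫⁻ y, ({x : Env | Pp Δ lam (sub x 0) ∧ Pp Δ lam (sub x 1)}.indicator 1
      (Function.update y [] D) : ℝ≥0∞) ∂(QQ qh) = (QQ qh s) ^ 2 := by
    intro D
    have h1 := lintegral_prod_sub qh (fun _ => s.indicator 1) (fun _ => hind) (Finset.range 2)
    simp only [Finset.prod_range_succ, Finset.prod_range_zero, one_mul] at h1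
    rw [lintegral_indicator_one hms, ← pow_two] at h1
    rw [← h1]
    apply lintegral_congr
    intro y
    have e0 : sub (Function.update y [] D) 0 = sub y 0 := by ext v; simp [sub]
    have e1 : sub (Function.update y [] D) 1 = sub y 1 := by ext v; simp [sub]
    simp only [Set.indicator_apply, Set.mem_ofPred_eq, e0, e1, hs, Pi.one_apply]
    by_cases a : Pp Δ lam (sub y 0) <;> by_cases b : Pp Δ lam (sub y 1) <;> simp [a, b]
  rw [← lintegral_indicator_one hm, lintegral_PP μ0 qh (measurable_one.indicator hm)]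
  simp only [key]
  rw [ENNReal.tsum_mul_right]
  have h2 : ∑' D : ℕ, μ0 {D} = 1 := by
    have := lintegral_countable' (μ := μ0) (fun _ => (1 : ℝ≥0∞))
    simp only [lintegral_const, measure_univ, mul_one, one_mul] at this
    exact this.symm
  rw [h2, one_mul]

lemma Zz_le : QQ qh {x | Zz Δ lam x} ≤ Δ * QQ qh {x | Pp Δ lam x} := by
  calc QQ qh {x | Zz Δ lam x} ≤ QQ qh (⋃ c ∈ Finset.range Δ, {x | sub x c ∈ {x | Pp Δ lam x}}) := by
        apply measure_mono
        rintro x ⟨c, hc, hP⟩
        simp only [Set.mem_iUnion]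
        exact ⟨c, Finset.mem_range.2 (lt_of_lt_of_le hc (dg_le _ _ _)), hP⟩
    _ ≤ ∑ c ∈ Finset.range Δ, QQ qh {x | sub x c ∈ {x | Pp Δ lam x}} :=
        measure_biUnion_finset_le _ _
    _ = ∑ c ∈ Finset.range Δ, QQ qh {x | Pp Δ lam x} := by
        apply Finset.sum_congr rfl
        intro c _
        exact QQ_sub _ (measurableSet_Pp Δ lam) c
    _ = Δ * QQ qh {x | Pp Δ lam x} := by
        rw [Finset.sum_const, Finset.card_range, nsmul_eq_mul]

/-- type P with infinite block has probability zero, unless type Z has probability zero -/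
lemma inf_mul_Z (hb : ∀ᵐ y ∂(QQ qh), Bdd Δ y) (hroot : ∀ᵐ x ∂(PP μ0 qh), x [] ≤ Δ)
    (hm : ∀ k : ℕ, ((k : ℝ≥0∞) + 1) * μ0 {k + 1} = m * qh {k}) (hm0 : m ≠ 0) :
    QQ qh {x | Zz Δ lam x} * QQ qh {x | Pp Δ lam x ∧ sz Δ lam x = ∞} = 0 := by
  have h1 := infinite_null (lam := lam) hb hroot hm
  set S : Set Env := {x | Pp Δ lam x ∧ sz Δ lam x = ∞} with hS
  have hmS : MeasurableSet S :=
    (measurableSet_Pp Δ lam).inter (measurable_sz Δ lam (measurableSet_singleton _))
  have hind : Measurable (S.indicator (1 : Env → ℝ≥0∞)) := measurable_one.indicator hmS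
  have h2 : ∫⁻ x, (x [] : ℝ≥0∞) * S.indicator 1 x ∂(PP μ0 qh) = 0 := by
    have hcast : Measurable (fun x : Env => (x [] : ℝ≥0∞)) :=
      (measurable_of_countable (fun n : ℕ => (n : ℝ≥0∞))).comp (measurable_pi_apply _)
    rw [lintegral_eq_zero_iff (f := fun x : Env => (x [] : ℝ≥0∞) * S.indicator 1 x)
      (hcast.mul hind)]
    rw [measure_eq_zero_iff_ae_notMem] at h1
    filter_upwards [h1] with x hx
    rw [Set.indicator_of_notMem hx, mul_zero]
    rfl
  rw [size_bias μ0 qh m hm hind] at h2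
  have h3 : ∫⁻ y, S.indicator 1 (bump y) ∂(QQ qh) = 0 := by
    rcases mul_eq_zero.1 h2 with h | h
    · exact absurd h hm0
    · exact h
  have hZm : Measurable ({x | Zz Δ lam x}.indicator (1 : Env → ℝ≥0∞)) :=
    measurable_one.indicator (measurableSet_Zz Δ lam)
  have h4 := lintegral_mul_rr qh hZm hind
  rw [lintegral_indicator_one (measurableSet_Zz Δ lam), lintegral_indicator_one hmS] at h4
  rw [← h4]
  refine le_antisymm ?_ bot_le
  rw [← h3]
  apply lintegral_mono_ae
  filter_upwards [hb] with y hy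
  by_cases hZ : Zz Δ lam (sub y 0)
  · by_cases hz : sub (rr y) 0 ∈ S
    · have hbS : bump y ∈ S := by
        refine ⟨extend_boundary hy hZ hz.1, ?_⟩
        rw [sz_bump hy, hz.2, add_top]
      rw [Set.indicator_of_mem hbS, Set.indicator_of_mem hz]
      have : sub y 0 ∈ {x | Zz Δ lam x} := hZ
      rw [Set.indicator_of_mem this]
      simp
    · rw [Set.indicator_of_notMem hz, mul_zero]
      exact bot_le
  · have : sub y 0 ∉ {x | Zz Δ lam x} := hZ
    rw [Set.indicator_of_notMem this, zero_mul]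
    exact bot_le

/-- truncated weight `t ^ size` -/
def gM (Δ : ℕ) (lam : ℝ) (t : ℝ≥0∞) : ℕ → Env → ℝ≥0∞
  | 0, _ => 0
  | M + 1, x => t * ∏ c ∈ Finset.range (dg Δ x []),
      if Zz Δ lam (sub x c) then 1 else gM Δ lam t M (sub x c)

lemma sz_nat_or_top (Δ : ℕ) (lam : ℝ) (x : Env) :
    sz Δ lam x = ∞ ∨ ∃ n : ℕ, sz Δ lam x = n := by
  have henc : sz Δ lam x = (({v | inC Δ lam v x} : Set (List ℕ)).encard : ℝ≥0∞) := by
    rw [← ENNReal.tsum_set_one, tsum_subtype {v | inC Δ lam v x} (fun _ => (1 : ℝ≥0∞))]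
    unfold sz
    congr 1
  rw [henc]
  cases h : ({v | inC Δ lam v x} : Set (List ℕ)).encard with
  | top => left; simp
  | coe n => right; exact ⟨n, by simp⟩

lemma gM_ge (t : ℝ≥0∞) (ht : 1 ≤ t) (M : ℕ) : ∀ x : Env, sz Δ lam x ≤ M → ∀ n : ℕ,
    (n : ℝ≥0∞) ≤ sz Δ lam x → t ^ n ≤ gM Δ lam t M x := by
  induction M with
  | zero =>
    intro x hx
    have := (one_le_sz Δ lam x).trans hx
    simp at this
  | succ M ih =>
    intro x hx n hn
    have hsz := sz_eq Δ lam x
    have hsum : ∑ c ∈ Finset.range (dg Δ x []), gz Δ lam x c ≤ M := by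
      rw [hsz] at hx
      have : 1 + ∑ c ∈ Finset.range (dg Δ x []), gz Δ lam x c ≤ 1 + (M : ℝ≥0∞) := by
        refine hx.trans (le_of_eq ?_)
        push_cast
        ring
      exact (ENNReal.add_le_add_iff_left ENNReal.one_ne_top).1 this
    have hg : ∀ c ∈ Finset.range (dg Δ x []), gz Δ lam x c ≤ M := fun c hc =>
      (Finset.single_le_sum (f := fun c => gz Δ lam x c) (fun _ _ => bot_le) hc).trans hsum
    have hex : ∀ c ∈ Finset.range (dg Δ x []), ∃ k : ℕ, gz Δ lam x c = k := by
      intro c hc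
      unfold gz
      split_ifs with hZ
      · exact ⟨0, by simp⟩
      · rcases sz_nat_or_top Δ lam (sub x c) with h | h
        · exfalso
          have := hg c hc
          unfold gz at this
          rw [if_neg hZ, h] at this
          simp at this
        · exact h
    choose! k hk using hex
    have hn' : n ≤ 1 + ∑ c ∈ Finset.range (dg Δ x []), k c := by
      rw [hsz, Finset.sum_congr rfl hk] at hn
      exact_mod_cast hn
    calc t ^ n ≤ t ^ (1 + ∑ c ∈ Finset.range (dg Δ x []), k c) := pow_le_pow_right₀ ht hn'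
      _ = t * ∏ c ∈ Finset.range (dg Δ x []), t ^ (k c) := by
          rw [pow_add, pow_one, Finset.prod_pow_eq_pow_sum]
      _ ≤ t * ∏ c ∈ Finset.range (dg Δ x []),
            (if Zz Δ lam (sub x c) then 1 else gM Δ lam t M (sub x c)) := by
          gcongr with c hc
          have hkc := hk c hc
          have hgc := hg c hc
          unfold gz at hkc hgc
          by_cases hZ : Zz Δ lam (sub x c)
          · rw [if_pos hZ] at hkc ⊢
            have : k c = 0 := by exact_mod_cast hkc.symm
            rw [this, pow_zero]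
          · rw [if_neg hZ] at hkc hgc ⊢
            exact ih (sub x c) hgc (k c) hkc.ge

lemma measurable_gM (t : ℝ≥0∞) (M : ℕ) : Measurable (gM Δ lam t M) := by
  induction M with
  | zero =>
    have : gM Δ lam t 0 = fun _ => 0 := by ext x; rfl
    rw [this]; exact measurable_const
  | succ M ih =>
    have : gM Δ lam t (M + 1) = fun x => t * ∏ c ∈ Finset.range Δ,
        if c < dg Δ x [] then (if Zz Δ lam (sub x c) then 1 else gM Δ lam t M (sub x c)) else 1 := by
      ext x
      change t * _ = _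
      congr 1
      rw [← Finset.prod_filter]
      congr 1
      ext c
      simp only [Finset.mem_filter, Finset.mem_range]
      have := dg_le Δ x []
      constructor
      · intro h; exact ⟨by omega, h⟩
      · rintro ⟨_, h⟩; exact h
    rw [this]
    refine Measurable.const_mul (Finset.measurable_prod _ (fun c _ => ?_)) t
    refine Measurable.ite (measurableSet_lt_dg Δ [] c) ?_ measurable_const
    exact Measurable.ite (measurable_sub c (measurableSet_Zz Δ lam)) measurable_const
      (ih.comp (measurable_sub c))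

lemma integral_gM_succ (t : ℝ≥0∞) (M : ℕ) :
    ∫⁻ x, gM Δ lam t (M + 1) x ∂(QQ qh) = ∑' D, qh {D} * (t *
      (∫⁻ x, (if Zz Δ lam x then 1 else gM Δ lam t M x) ∂(QQ qh)) ^ (min D Δ)) := by
  rw [lintegral_QQ qh (measurable_gM t (M + 1))]
  congr 1
  ext D
  congr 1
  have hψ : Measurable (fun x => if Zz Δ lam x then (1 : ℝ≥0∞) else gM Δ lam t M x) :=
    Measurable.ite (measurableSet_Zz Δ lam) measurable_const (measurable_gM t M)
  have h1 := lintegral_prod_sub qh (fun _ => fun x => if Zz Δ lam x then (1 : ℝ≥0∞) else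
    gM Δ lam t M x) (fun _ => hψ) (Finset.range (min D Δ))
  rw [Finset.prod_const, Finset.card_range] at h1
  rw [← h1]
  have hm2 : Measurable (fun y : Env => ∏ k ∈ Finset.range (min D Δ),
      if Zz Δ lam (sub y k) then (1 : ℝ≥0∞) else gM Δ lam t M (sub y k)) :=
    Finset.measurable_prod _ (fun c _ => hψ.comp (measurable_sub c))
  rw [← lintegral_const_mul t hm2]
  apply lintegral_congr
  intro y
  change t * _ = _
  have e : ∀ c, sub (Function.update y [] D) c = sub y c := by
    intro c; ext v; simp [sub]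
  have e2 : dg Δ (Function.update y [] D) [] = min D Δ := by unfold dg; simp
  simp only [e, e2]

/-- the generating function stays bounded -/
lemma integral_gM_le (hΔ : 2 ≤ Δ) (h0 : qh {0} = 0) (t Y : ℝ≥0∞)
    (hY1 : QQ qh {x | Zz Δ lam x} + Y ≤ 1)
    (hY2 : t * (qh {1} * (QQ qh {x | Zz Δ lam x} + Y) +
      (1 - qh {1}) * (QQ qh {x | Zz Δ lam x} + Y) ^ 2) ≤ Y) (M : ℕ) :
    ∫⁻ x, gM Δ lam t M x ∂(QQ qh) ≤ Y := by
  induction M with
  | zero =>
    have : ∀ x, gM Δ lam t 0 x = 0 := fun _ => rfl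
    simp [this]
  | succ M ih =>
    set r := QQ qh {x | Zz Δ lam x} with hr
    have hy : ∫⁻ x, (if Zz Δ lam x then 1 else gM Δ lam t M x) ∂(QQ qh) ≤ r + Y := by
      calc ∫⁻ x, (if Zz Δ lam x then 1 else gM Δ lam t M x) ∂(QQ qh) ≤
          ∫⁻ x, ({x | Zz Δ lam x}.indicator 1 x + gM Δ lam t M x) ∂(QQ qh) := by
            apply lintegral_mono
            intro x
            by_cases hZ : Zz Δ lam x
            · have : x ∈ {x | Zz Δ lam x} := hZ
              simp only [if_pos hZ, Set.indicator_of_mem this, Pi.one_apply]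
              exact le_self_add
            · simp only [if_neg hZ]
              exact le_add_self
        _ = r + ∫⁻ x, gM Δ lam t M x ∂(QQ qh) := by
            rw [lintegral_add_right _ (measurable_gM t M),
              lintegral_indicator_one (measurableSet_Zz Δ lam)]
        _ ≤ r + Y := by gcongr
    rw [integral_gM_succ]
    set z := ∫⁻ x, (if Zz Δ lam x then 1 else gM Δ lam t M x) ∂(QQ qh) with hz
    have hz1 : z ≤ 1 := hy.trans hY1
    have h1 : ∀ D, qh {D} * (t * z ^ (min D Δ)) ≤
        t * (qh {D} * (if D = 1 then z else z ^ 2)) := by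
      intro D
      rcases D with _ | _ | D
      · rw [h0]; simp
      · have : min (0 + 1) Δ = 1 := by omega
        rw [this, if_pos rfl, pow_one]
        exact le_of_eq (by ring)
      · rw [if_neg (by omega)]
        have h3 : z ^ (min (D + 1 + 1) Δ) ≤ z ^ 2 := pow_le_pow_of_le_one bot_le hz1 (by omega)
        calc qh {D + 1 + 1} * (t * z ^ (min (D + 1 + 1) Δ)) ≤ qh {D + 1 + 1} * (t * z ^ 2) := by
              gcongr
          _ = _ := by ring
    refine (ENNReal.tsum_le_tsum h1).trans ?_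
    rw [ENNReal.tsum_mul_left]
    have h2 : ∑' D, qh {D} * (if D = 1 then z else z ^ 2) = qh {1} * z + (1 - qh {1}) * z ^ 2 := by
      have e1 : ∑' D, qh {D} * (if D = 1 then z else z ^ 2) =
          ∫⁻ D, (if D = 1 then z else z ^ 2) ∂qh := by
        rw [lintegral_countable']
        congr 1
        ext D
        ring
      rw [e1]
      have e2 : (fun D : ℕ => if D = 1 then z else z ^ 2) =
          fun D => ({1} : Set ℕ).indicator (fun _ => z) D + ({1}ᶜ : Set ℕ).indicator
            (fun _ => z ^ 2) D := by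
        ext D
        by_cases h : D = 1
        · subst h; simp
        · rw [if_neg h, Set.indicator_of_notMem (by simpa using h),
            Set.indicator_of_mem (by simpa using h), zero_add]
      rw [e2, lintegral_add_left (measurable_const.indicator (measurableSet_singleton 1)),
        lintegral_indicator_const (measurableSet_singleton 1),
        lintegral_indicator_const (measurableSet_singleton 1).compl,
        prob_compl_eq_one_sub (measurableSet_singleton 1)]
      ring
    rw [h2]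
    refine le_trans ?_ hY2
    gcongr

/-- bound for the probability of large finite blocks -/
lemma P_finite_le (hΔ : 2 ≤ Δ) (h0 : qh {0} = 0) (t Y : ℝ≥0∞) (ht : 1 ≤ t) (N : ℕ)
    (hlam : lam ∉ Ev N)
    (hY1 : QQ qh {x | Zz Δ lam x} + Y ≤ 1)
    (hY2 : t * (qh {1} * (QQ qh {x | Zz Δ lam x} + Y) +
      (1 - qh {1}) * (QQ qh {x | Zz Δ lam x} + Y) ^ 2) ≤ Y) :
    t ^ N * QQ qh {x | Pp Δ lam x ∧ sz Δ lam x ≠ ∞} ≤ Y := by
  have hunion : {x | Pp Δ lam x ∧ sz Δ lam x ≠ ∞} =
      ⋃ M : ℕ, {x | Pp Δ lam x ∧ sz Δ lam x ≤ M} := by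
    ext x
    simp only [Set.mem_ofPred_eq, Set.mem_iUnion]
    constructor
    · rintro ⟨h1, h2⟩
      rcases sz_nat_or_top Δ lam x with h | ⟨n, hn⟩
      · exact absurd h h2
      · exact ⟨n, h1, hn.le⟩
    · rintro ⟨M, h1, h2⟩
      exact ⟨h1, ne_top_of_le_ne_top (ENNReal.natCast_ne_top M) h2⟩
  have hmono : Monotone (fun M : ℕ => {x | Pp Δ lam x ∧ sz Δ lam x ≤ M}) := by
    intro a b hab x hx
    refine ⟨hx.1, hx.2.trans ?_⟩
    exact_mod_cast hab
  rw [hunion, hmono.measure_iUnion, ENNReal.mul_iSup]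
  apply iSup_le
  intro M
  have hmS : MeasurableSet {x | Pp Δ lam x ∧ sz Δ lam x ≤ M} :=
    (measurableSet_Pp Δ lam).inter (measurable_sz Δ lam measurableSet_Iic)
  calc t ^ N * QQ qh {x | Pp Δ lam x ∧ sz Δ lam x ≤ M} =
      ∫⁻ x, {x | Pp Δ lam x ∧ sz Δ lam x ≤ M}.indicator (fun _ => t ^ N) x ∂(QQ qh) := by
        rw [lintegral_indicator_const hmS]
    _ ≤ ∫⁻ x, gM Δ lam t M x ∂(QQ qh) := by
        apply lintegral_mono
        intro x
        by_cases hx : x ∈ {x | Pp Δ lam x ∧ sz Δ lam x ≤ M}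
        · simp only [Set.indicator_of_mem hx]
          apply gM_ge t ht M x hx.2
          by_contra hN
          exact hlam (mem_Ev_of_sz_le hx.1 (not_le.1 hN).le)
        · simp only [Set.indicator_of_notMem hx]
          exact bot_le
    _ ≤ Y := integral_gM_le hΔ h0 t Y hY1 hY2 M

/-- if type Z is negligible, blocks are infinite -/
lemma finite_null (hpos : 0 < Δ) (h0 : ∀ᵐ y ∂(QQ qh), ∀ v, y v ≠ 0)
    (hZ : QQ qh {x | Zz Δ lam x} = 0) : QQ qh {x | sz Δ lam x ≠ ∞} = 0 := by
  have key : ∀ M : ℕ, QQ qh {x | sz Δ lam x ≤ M} = 0 := by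
    intro M
    induction M with
    | zero =>
      have : {x : Env | sz Δ lam x ≤ (0 : ℕ)} = ∅ := by
        ext x
        simp only [Set.mem_ofPred_eq, Set.mem_empty_iff_false, iff_false]
        intro h
        have := (one_le_sz Δ lam x).trans h
        simp at this
      rw [this, measure_empty]
    | succ M ih =>
      have h1 : QQ qh {x | sub x 0 ∈ {x | sz Δ lam x ≤ M}} = 0 := by
        rw [QQ_sub {x | sz Δ lam x ≤ M} (measurable_sz Δ lam measurableSet_Iic) 0]
        exact ih
      have h2 : QQ qh {x | sub x 0 ∈ {x | Zz Δ lam x}} = 0 := by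
        rw [QQ_sub _ (measurableSet_Zz Δ lam) 0]
        exact hZ
      rw [measure_eq_zero_iff_ae_notMem] at h1 h2 ⊢
      filter_upwards [h1, h2, h0] with x hx1 hx2 hx3 hx
      apply hx1
      have hx' : sz Δ lam x ≤ ((M + 1 : ℕ) : ℝ≥0∞) := hx
      rw [sz_eq] at hx'
      have hd : 0 < dg Δ x [] := by
        unfold dg
        have := hx3 []
        omega
      have hZ' : ¬ Zz Δ lam (sub x 0) := hx2
      have h4 : gz Δ lam x 0 ≤ ∑ c ∈ Finset.range (dg Δ x []), gz Δ lam x c :=
        Finset.single_le_sum (f := fun c => gz Δ lam x c) (fun _ _ => bot_le)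
          (Finset.mem_range.2 hd)
      have h5 : gz Δ lam x 0 = sz Δ lam (sub x 0) := by
        unfold gz; rw [if_neg hZ']
      rw [h5] at h4
      have h6 : 1 + sz Δ lam (sub x 0) ≤ 1 + (M : ℝ≥0∞) := by
        calc 1 + sz Δ lam (sub x 0) ≤ 1 + ∑ c ∈ Finset.range (dg Δ x []), gz Δ lam x c := by
              gcongr
          _ ≤ ((M + 1 : ℕ) : ℝ≥0∞) := hx'
          _ = 1 + (M : ℝ≥0∞) := by push_cast; ring
      exact (ENNReal.add_le_add_iff_left ENNReal.one_ne_top).1 h6
  have hunion : {x | sz Δ lam x ≠ ∞} = ⋃ M : ℕ, {x | sz Δ lam x ≤ M} := by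
    ext x
    simp only [Set.mem_ofPred_eq, Set.mem_iUnion]
    constructor
    · intro h2
      rcases sz_nat_or_top Δ lam x with h | ⟨n, hn⟩
      · exact absurd h h2
      · exact ⟨n, hn.le⟩
    · rintro ⟨M, h2⟩
      exact ne_top_of_le_ne_top (ENNReal.natCast_ne_top M) h2
  rw [hunion, measure_iUnion_null_iff]
  exact key

end Pool.Agent.H94
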