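import Pool.Agent.H94.WeylB

/-!
Growth of an integer valued polynomial.
-/

namespace Pool.Agent.H94.Grow

open Finset Polynomial Filter Topology

/-- clearing denominators -/
lemma clear_den (f : ℚ[X]) : ∃ (B : ℕ) (F : ℤ[X]), 1 ≤ B ∧ F.map (Int.castRingHom ℚ) = C (B : ℚ) * f := by
  obtain ⟨c, hc, hc2⟩ := IsLocalization.integerNormalization_spec (nonZeroDivisors ℤ) f
  have hc0 : c ≠ 0 := nonZeroDivisors.ne_zero hc
  refine ⟨(c * c).toNat, C c * IsLocalization.integerNormalization (nonZeroDivisors ℤ) f, ?_, ?_⟩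
  · have : 0 < c * c := mul_self_pos.2 hc0
    omega
  · have h1 : ((c * c).toNat : ℚ) = (c : ℚ) * c := by
      have h2 : (((c * c).toNat : ℤ) : ℚ) = ((c * c : ℤ) : ℚ) := by
        rw [Int.toNat_of_nonneg (mul_self_nonneg c)]
      push_cast at h2
      exact h2
    rw [h1, Polynomial.map_mul, Polynomial.map_C]
    have h3 : (IsLocalization.integerNormalization (nonZeroDivisors ℤ) f).map
        (Int.castRingHom ℚ) = c • f := by
      rw [← hc2]; rfl
    rw [h3]
    simp only [eq_intCast, map_mul]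
    rw [mul_assoc]
    congr 1
    ext n
    simp

/-- ratio limit -/
lemma tendsto_ratio (P : ℤ[X]) (k : ℕ) (hP : P.natDegree ≤ k) :
    Tendsto (fun n : ℕ => ((P.eval (n : ℤ) : ℤ) : ℝ) / (n : ℝ) ^ k) atTop (𝓝 (P.coeff k : ℝ)) := by
  have h1 : ∀ n : ℕ, 1 ≤ n → ((P.eval (n : ℤ) : ℤ) : ℝ) / (n : ℝ) ^ k =
      ∑ i ∈ range (k + 1), (P.coeff i : ℝ) * ((n : ℝ) ^ i / (n : ℝ) ^ k) := by
    intro n _
    rw [eval_eq_sum_range' (lt_of_le_of_lt hP (Nat.lt_succ_self k))]
    push_cast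
    rw [Finset.sum_div]
    apply Finset.sum_congr rfl
    intro i _
    ring
  have h2 : Tendsto (fun n : ℕ => ∑ i ∈ range (k + 1),
      (P.coeff i : ℝ) * ((n : ℝ) ^ i / (n : ℝ) ^ k)) atTop
      (𝓝 (∑ i ∈ range (k + 1), (P.coeff i : ℝ) * (if i = k then 1 else 0))) := by
    apply tendsto_finsetSum
    intro i hi
    rw [mem_range] at hi
    apply Tendsto.const_mul
    split_ifs with h
    · subst h
      apply tendsto_const_nhds.congr'
      filter_upwards [eventually_ge_atTop 1] with n hn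
      have : (n : ℝ) ≠ 0 := by positivity
      field_simp
    · have hik : i < k := by omega
      exact (tendsto_pow_div_pow_atTop_zero hik).comp tendsto_natCast_atTop_atTop
  have h3 : ∑ i ∈ range (k + 1), (P.coeff i : ℝ) * (if i = k then 1 else 0) = P.coeff k := by
    simp only [mul_ite, mul_one, mul_zero]
    rw [Finset.sum_ite_eq' (range (k + 1)) k, if_pos (by rw [mem_range]; omega)]
  rw [h3] at h2
  apply h2.congr'
  filter_upwards [eventually_ge_atTop 1] with n hn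
  exact (h1 n hn).symm

/-- growth data -/
theorem growth (f : ℚ[X]) (hf : 0 < f.degree) (g : ℕ → ℕ)
    (hg : ∀ n : ℕ, 1 ≤ n → 1 ≤ g n ∧ ((g n : ℚ) = f.eval (n : ℚ))) :
    ∃ (d : ℕ) (F : ℤ[X]) (B : ℕ) (α : ℝ) (n0 : ℕ) (cs cu : ℝ), 1 ≤ d ∧ F.natDegree = d ∧ 1 ≤ B ∧
      (∀ n : ℕ, 1 ≤ n → (B : ℤ) * g n = F.eval (n : ℤ)) ∧ 0 < α ∧
      Tendsto (fun n : ℕ => (g n : ℝ) / (n : ℝ) ^ d) atTop (𝓝 α) ∧ 1 ≤ n0 ∧ 0 < cs ∧ 1 ≤ cu ∧
      (∀ n ≥ n0, (g n : ℝ) ≤ cu * (n : ℝ) ^ d) ∧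
      (∀ n ≥ n0, (g n : ℝ) + cs * (n : ℝ) ^ (d - 1) ≤ g (n + 1)) := by
  obtain ⟨B, F, hB, hF⟩ := clear_den f
  have hB0 : (B : ℚ) ≠ 0 := by positivity
  have hdegF : F.natDegree = f.natDegree := by
    have h1 : (F.map (Int.castRingHom ℚ)).natDegree = F.natDegree :=
      natDegree_map_eq_of_injective (RingHom.injective_int _) F
    rw [← h1, hF, natDegree_C_mul hB0]
  have hd : 1 ≤ f.natDegree := natDegree_pos_iff_degree_pos.2 hf
  obtain ⟨k, hk⟩ : ∃ k, f.natDegree = k + 1 := ⟨f.natDegree - 1, by omega⟩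
  rw [hk] at hdegF
  have hBg : ∀ n : ℕ, 1 ≤ n → (B : ℤ) * g n = F.eval (n : ℤ) := by
    intro n hn
    have h1 := (hg n hn).2
    have h2 : ((F.eval (n : ℤ) : ℤ) : ℚ) = (B : ℚ) * f.eval (n : ℚ) := by
      have h3 : (F.map (Int.castRingHom ℚ)).eval ((n : ℤ) : ℚ) = ((F.eval (n : ℤ) : ℤ) : ℚ) := by
        rw [eval_intCast_map]
        simp
      rw [← h3, hF, eval_mul, eval_C]
      push_cast
      rfl
    rw [← h1] at h2
    exact_mod_cast h2.symm
  have hBr : (0 : ℝ) < B := by exact_mod_cast hB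
  set α : ℝ := (F.coeff (k + 1) : ℝ) / B with hα
  have hlim : Tendsto (fun n : ℕ => (g n : ℝ) / (n : ℝ) ^ (k + 1)) atTop (𝓝 α) := by
    have h1 := (tendsto_ratio F (k + 1) hdegF.le).div_const (B : ℝ)
    apply h1.congr'
    filter_upwards [eventually_ge_atTop 1] with n hn
    have h2 : ((F.eval (n : ℤ) : ℤ) : ℝ) = (B : ℝ) * g n := by
      rw [← hBg n hn]; push_cast; rfl
    rw [h2]
    field_simp
  have hcoeff : F.coeff (k + 1) ≠ 0 := by
    rw [← hdegF]
    intro h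
    rw [coeff_natDegree, leadingCoeff_eq_zero] at h
    rw [h] at hdegF
    simp at hdegF
  have hα0 : 0 < α := by
    have h1 : 0 ≤ α := ge_of_tendsto' hlim (fun n => by positivity)
    have h2 : α ≠ 0 := by
      rw [hα]
      have : (F.coeff (k + 1) : ℝ) ≠ 0 := by exact_mod_cast hcoeff
      positivity
    exact lt_of_le_of_ne h1 (Ne.symm h2)
  -- differences
  obtain ⟨hdeg2, hcoeff2⟩ := Pool.Agent.H94.Weyl.delta_natDegree (P := F) (k := k) hdegF.le 1
  have hdiff : Tendsto (fun n : ℕ => ((g (n + 1) : ℝ) - g n) / (n : ℝ) ^ k) atTop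
      (𝓝 ((k + 1) * α)) := by
    have h1 := (tendsto_ratio (taylor 1 F - F) k hdeg2).div_const (B : ℝ)
    rw [hcoeff2] at h1
    have h2 : (((((k : ℤ) + 1) * F.coeff (k + 1) * 1 : ℤ)) : ℝ) / (B : ℝ) = (k + 1) * α := by
      rw [hα]; push_cast; ring
    rw [h2] at h1
    apply h1.congr'
    filter_upwards [eventually_ge_atTop 1] with n hn
    have h3 : (((taylor 1 F - F).eval (n : ℤ) : ℤ) : ℝ) = (B : ℝ) * ((g (n + 1) : ℝ) - g n) := by
      rw [eval_sub, taylor_eval]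
      have h4 := hBg (n + 1) (by omega)
      have h5 := hBg n hn
      push_cast at h4
      rw [← h4, ← h5]
      push_cast
      ring
    rw [h3]
    field_simp
  have hpos2 : 0 < ((k : ℝ) + 1) * α := by positivity
  have e1 := hlim.eventually (eventually_le_nhds (show α < α + 1 by linarith))
  have e2 := hdiff.eventually (eventually_ge_nhds (show ((k : ℝ) + 1) * α / 2 < (k + 1) * α by
    linarith))
  obtain ⟨n1, hn1⟩ := eventually_atTop.1 (e1.and e2)
  refine ⟨k + 1, F, B, α, n1 + 1, (k + 1) * α / 2, α + 1, by omega, hdegF, hB, hBg, hα0, hlim,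
    by omega, by linarith, by linarith, ?_, ?_⟩
  · intro n hn
    have h1 := (hn1 n (by omega)).1
    have hn0 : (0 : ℝ) < n := by exact_mod_cast (by omega : 0 < n)
    rwa [div_le_iff₀ (by positivity)] at h1
  · intro n hn
    have h1 := (hn1 n (by omega)).2
    have hn0 : (0 : ℝ) < n := by exact_mod_cast (by omega : 0 < n)
    rw [le_div_iff₀ (by positivity)] at h1
    rw [Nat.add_sub_cancel]
    linarith

end Pool.Agent.H94.Grow
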