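import Pool.Agent.H94.GrowA

/-!
Thresholds and window lengths.
-/

namespace Pool.Agent.H94.Grow

open Finset Polynomial Filter Topology

lemma mono_of_step (g : ℕ → ℕ) (n0 d : ℕ) (cs : ℝ) (hcs : 0 < cs)
    (hstep : ∀ n ≥ n0, (g n : ℝ) + cs * (n : ℝ) ^ (d - 1) ≤ g (n + 1)) (n : ℕ) (hn : n0 ≤ n)
    (k : ℕ) : (g n : ℝ) + k * (cs * (n : ℝ) ^ (d - 1)) ≤ g (n + k) := by
  induction k with
  | zero => simp
  | succ k ih =>
    have h1 := hstep (n + k) (by omega)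
    have h2 : (n : ℝ) ^ (d - 1) ≤ ((n + k : ℕ) : ℝ) ^ (d - 1) := by
      apply pow_le_pow_left₀ (by positivity)
      push_cast
      have : (0 : ℝ) ≤ k := Nat.cast_nonneg k
      linarith
    have h3 := mul_le_mul_of_nonneg_left h2 hcs.le
    have h4 : n + (k + 1) = n + k + 1 := by ring
    rw [h4]
    push_cast at h1 h3 ⊢
    linarith

/-- threshold function -/
theorem exists_th (g : ℕ → ℕ) (n0 d : ℕ) (hn0 : 1 ≤ n0) (cs : ℝ) (hcs : 0 < cs)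
    (hstep : ∀ n ≥ n0, (g n : ℝ) + cs * (n : ℝ) ^ (d - 1) ≤ g (n + 1)) :
    ∃ th : ℕ → ℕ, (∀ V, n0 ≤ th V) ∧ (∀ V n, n0 ≤ n → (V ≤ g n ↔ th V ≤ n)) := by
  have hmono : ∀ n k, n0 ≤ n → g n ≤ g (n + k) := by
    intro n k hn
    have h1 := mono_of_step g n0 d cs hcs hstep n hn k
    have h2 : (0 : ℝ) ≤ k * (cs * (n : ℝ) ^ (d - 1)) := by positivity
    have h3 : (g n : ℝ) ≤ g (n + k) := by linarith
    exact_mod_cast h3
  have hunb : ∀ V : ℕ, ∃ n, n0 ≤ n ∧ V ≤ g n := by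
    intro V
    obtain ⟨k, hk⟩ := exists_nat_gt ((V : ℝ) / (cs * (n0 : ℝ) ^ (d - 1)))
    refine ⟨n0 + k, by omega, ?_⟩
    have h1 := mono_of_step g n0 d cs hcs hstep n0 le_rfl k
    have hpos : 0 < cs * (n0 : ℝ) ^ (d - 1) := by
      have : (0 : ℝ) < n0 := by exact_mod_cast (by omega : 0 < n0)
      positivity
    rw [div_lt_iff₀ hpos] at hk
    have h2 : (V : ℝ) ≤ g (n0 + k) := by
      have : (0 : ℝ) ≤ g n0 := Nat.cast_nonneg _
      linarith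
    exact_mod_cast h2
  classical
  refine ⟨fun V => Nat.find (hunb V), fun V => (Nat.find_spec (hunb V)).1, ?_⟩
  intro V n hn
  constructor
  · intro h
    exact Nat.find_min' (hunb V) ⟨hn, h⟩
  · intro h
    have h1 := Nat.find_spec (hunb V)
    have h2 := hmono (Nat.find (hunb V)) (n - Nat.find (hunb V)) h1.1
    rw [Nat.add_sub_cancel' h] at h2
    exact h1.2.trans h2

lemma th_mono {g : ℕ → ℕ} {n0 : ℕ} {th : ℕ → ℕ} (h1 : ∀ V, n0 ≤ th V)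
    (h2 : ∀ V n, n0 ≤ n → (V ≤ g n ↔ th V ≤ n)) {V V' : ℕ} (h : V ≤ V') : th V ≤ th V' := by
  rw [← h2 V (th V') (h1 V')]
  exact h.trans ((h2 V' (th V') (h1 V')).2 le_rfl)

/-- window lengths -/
theorem window_len (g : ℕ → ℕ) (n0 d b : ℕ) (hb : 2 ≤ b) (hd : 1 ≤ d) (cs cu : ℝ)
    (hcs : 0 < cs) (hcu : 1 ≤ cu) (hup : ∀ n ≥ n0, (g n : ℝ) ≤ cu * (n : ℝ) ^ d)
    (hstep : ∀ n ≥ n0, (g n : ℝ) + cs * (n : ℝ) ^ (d - 1) ≤ g (n + 1)) (th : ℕ → ℕ)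
    (h1 : ∀ V, n0 ≤ th V) (h2 : ∀ V n, n0 ≤ n → (V ≤ g n ↔ th V ≤ n)) :
    ∃ c2 : ℕ, 1 ≤ c2 ∧ ∀ Λ j V : ℕ, 1 ≤ Λ → (d - 1) * Λ ≤ j → b ^ (d * Λ - 1) ≤ V →
      th (V + b ^ j) - th V ≤ c2 * b ^ (j - (d - 1) * Λ) := by
  set c3 : ℝ := 1 / (b * cu) with hc3
  have hb0 : (0 : ℝ) < b := by exact_mod_cast (by omega : 0 < b)
  have hb2 : (2 : ℝ) ≤ b := by exact_mod_cast hb
  have hc30 : 0 < c3 := by positivity
  have hc31 : c3 ≤ 1 := by
    rw [hc3, div_le_one (by positivity)]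
    nlinarith
  refine ⟨⌈1 / (cs * c3 ^ (d - 1))⌉₊ + 1, by omega, ?_⟩
  intro Λ j V hΛ hj hV
  set n1 := th V with hn1
  set n2 := th (V + b ^ j) with hn2
  have hdΛ : 1 ≤ d * Λ := Nat.mul_pos hd hΛ
  -- lower bound for n1
  have hn1low : c3 * (b : ℝ) ^ Λ ≤ n1 := by
    by_contra hcon
    push Not at hcon
    have e1 : V ≤ g n1 := (h2 V n1 (h1 V)).2 le_rfl
    have e2 := hup n1 (h1 V)
    have e3 : (b : ℝ) ^ (d * Λ - 1) ≤ g n1 := by exact_mod_cast hV.trans e1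
    have e4 : (n1 : ℝ) ^ d < (c3 * (b : ℝ) ^ Λ) ^ d := pow_lt_pow_left₀ hcon (by positivity) (by omega)
    have e5 : c3 ^ d ≤ c3 := by
      calc c3 ^ d ≤ c3 ^ 1 := pow_le_pow_of_le_one hc30.le hc31 hd
        _ = c3 := pow_one _
    have e6 : cu * (c3 * (b : ℝ) ^ Λ) ^ d ≤ (b : ℝ) ^ (d * Λ - 1) := by
      have e7 : (b : ℝ) ^ (d * Λ) = (b : ℝ) ^ (d * Λ - 1) * b := by
        rw [← pow_succ]; congr 1; omega
      calc cu * (c3 * (b : ℝ) ^ Λ) ^ d = cu * (c3 ^ d * (b : ℝ) ^ (d * Λ)) := by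
            rw [mul_pow, ← pow_mul, mul_comm Λ d]
        _ ≤ cu * (c3 * (b : ℝ) ^ (d * Λ)) := by
            apply mul_le_mul_of_nonneg_left _ (by linarith)
            exact mul_le_mul_of_nonneg_right e5 (by positivity)
        _ = (b : ℝ) ^ (d * Λ - 1) := by
            rw [e7, hc3]; field_simp
    have e8 : cu * (n1 : ℝ) ^ d < cu * (c3 * (b : ℝ) ^ Λ) ^ d :=
      mul_lt_mul_of_pos_left e4 (by linarith)
    linarith
  have hX : (0 : ℝ) < (b : ℝ) ^ Λ := by positivity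
  have hpow : (c3 * (b : ℝ) ^ Λ) ^ (d - 1) ≤ (n1 : ℝ) ^ (d - 1) :=
    pow_le_pow_left₀ (by positivity) hn1low _
  set Y : ℝ := (b : ℝ) ^ (j - (d - 1) * Λ) with hY
  have hY1 : 1 ≤ Y := one_le_pow₀ (by linarith)
  rcases Nat.lt_or_ge n2 (n1 + 1) with hlt | hge
  · have : n2 - n1 = 0 := by omega
    rw [this]; exact Nat.zero_le _
  · -- n2 - 1 >= n1
    obtain ⟨k, hk⟩ : ∃ k, n2 = n1 + k + 1 := ⟨n2 - n1 - 1, by omega⟩
    have e1 : V ≤ g n1 := (h2 V n1 (h1 V)).2 le_rfl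
    have e2 : g (n1 + k) < V + b ^ j := by
      by_contra hcon
      push Not at hcon
      have := (h2 (V + b ^ j) (n1 + k) (by have := h1 V; omega)).1 hcon
      omega
    have e3 := mono_of_step g n0 d cs hcs hstep n1 (h1 V) k
    have e4 : (g (n1 + k) : ℝ) < V + (b : ℝ) ^ j := by exact_mod_cast e2
    have e5 : (V : ℝ) ≤ g n1 := by exact_mod_cast e1
    have e6 : (k : ℝ) * (cs * (n1 : ℝ) ^ (d - 1)) ≤ (b : ℝ) ^ j := by linarith
    have e7 : (b : ℝ) ^ j = Y * ((b : ℝ) ^ Λ) ^ (d - 1) := by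
      rw [hY, ← pow_mul, ← pow_add]; congr 1
      have : Λ * (d - 1) = (d - 1) * Λ := mul_comm _ _
      omega
    have e8 : (k : ℝ) * (cs * (c3 * (b : ℝ) ^ Λ) ^ (d - 1)) ≤ Y * ((b : ℝ) ^ Λ) ^ (d - 1) := by
      rw [← e7]
      refine le_trans ?_ e6
      apply mul_le_mul_of_nonneg_left _ (by positivity)
      exact mul_le_mul_of_nonneg_left hpow hcs.le
    have e9 : (k : ℝ) ≤ (1 / (cs * c3 ^ (d - 1))) * Y := by
      rw [mul_pow] at e8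
      have hZ : (0 : ℝ) < ((b : ℝ) ^ Λ) ^ (d - 1) := by positivity
      have hW : (0 : ℝ) < cs * c3 ^ (d - 1) := by positivity
      have e10 : (k : ℝ) * (cs * c3 ^ (d - 1)) ≤ Y := by
        have e11 : ((k : ℝ) * (cs * c3 ^ (d - 1))) * ((b : ℝ) ^ Λ) ^ (d - 1) ≤
            Y * ((b : ℝ) ^ Λ) ^ (d - 1) := by
          calc _ = (k : ℝ) * (cs * (c3 ^ (d - 1) * ((b : ℝ) ^ Λ) ^ (d - 1))) := by ring
            _ ≤ _ := e8
        exact le_of_mul_le_mul_right e11 hZ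
      rw [one_div, inv_mul_eq_div, le_div_iff₀ hW]
      exact e10
    have e12 : (k : ℝ) + 1 ≤ ((⌈1 / (cs * c3 ^ (d - 1))⌉₊ + 1 : ℕ) : ℝ) * Y := by
      have e13 := Nat.le_ceil (1 / (cs * c3 ^ (d - 1)))
      push_cast
      nlinarith
    have e14 : n2 - n1 = k + 1 := by omega
    rw [e14]
    have e15 : ((k + 1 : ℕ) : ℝ) ≤
        (((⌈1 / (cs * c3 ^ (d - 1))⌉₊ + 1) * b ^ (j - (d - 1) * Λ) : ℕ) : ℝ) := by
      push_cast at e12 ⊢
      exact e12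
    exact_mod_cast e15

end Pool.Agent.H94.Grow
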