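import Pool.Agent.H94.GrowB
import Pool.Agent.H17.PNT
import Pool.Agent.H17.WBT

/-!
Primes in windows: the prime number theorem for words of fixed length, Brun-Titchmarsh.
-/

namespace Pool.Agent.H94.Grow

open Finset Polynomial Filter Topology

/-- upper bound for thresholds -/
theorem th_upper (g : ℕ → ℕ) (n0 d b : ℕ) (hb : 2 ≤ b) (hd : 1 ≤ d) (α : ℝ) (hα : 0 < α)
    (hlim : Tendsto (fun n : ℕ => (g n : ℝ) / (n : ℝ) ^ d) atTop (𝓝 α)) (th : ℕ → ℕ)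
    (h2 : ∀ V n, n0 ≤ n → (V ≤ g n ↔ th V ≤ n)) :
    ∃ C4 : ℕ, 1 ≤ C4 ∧ ∀ Λ, th (b ^ (d * Λ)) ≤ C4 * b ^ Λ := by
  have e1 := hlim.eventually (eventually_ge_nhds (show α / 2 < α by linarith))
  obtain ⟨n2, hn2⟩ := eventually_atTop.1 e1
  refine ⟨n0 + n2 + ⌈2 / α⌉₊ + 1, by omega, ?_⟩
  intro Λ
  set C4 := n0 + n2 + ⌈2 / α⌉₊ + 1 with hC4
  have hX : 1 ≤ b ^ Λ := Nat.one_le_pow _ _ (by omega)
  set n := C4 * b ^ Λ with hn
  have hnC : C4 ≤ n := Nat.le_mul_of_pos_right _ hX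
  rw [← h2 _ n (by omega)]
  have h3 := hn2 n (by omega)
  have hn0 : (0 : ℝ) < n := by exact_mod_cast (by omega : 0 < n)
  rw [le_div_iff₀ (by positivity)] at h3
  have h4 : ((b ^ (d * Λ) : ℕ) : ℝ) ≤ g n := by
    refine le_trans ?_ h3
    have h5 : (2 / α : ℝ) ≤ C4 := by
      have := Nat.le_ceil (2 / α)
      have h6 : ((⌈2 / α⌉₊ : ℕ) : ℝ) ≤ C4 := by exact_mod_cast (by omega : ⌈2 / α⌉₊ ≤ C4)
      linarith
    have hC41 : (1 : ℝ) ≤ C4 := by exact_mod_cast (by omega : 1 ≤ C4)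
    have h7 : (C4 : ℝ) ≤ (C4 : ℝ) ^ d := le_self_pow₀ hC41 (by omega)
    rw [hn]
    push_cast
    rw [mul_pow, ← pow_mul, mul_comm Λ d]
    have h8 : (0 : ℝ) < (b : ℝ) ^ (d * Λ) := by positivity
    rw [div_le_iff₀ hα] at h5
    have h9 : (1 : ℝ) ≤ α / 2 * (C4 : ℝ) ^ d := by nlinarith
    nlinarith
  exact_mod_cast h4

lemma log_ratio (β : ℝ) (hβ : 0 < β) :
    Tendsto (fun X : ℝ => Real.log X / Real.log (β * X)) atTop (𝓝 1) := by
  have h1 : Tendsto (fun X : ℝ => 1 / (Real.log β / Real.log X + 1)) atTop (𝓝 (1 / (0 + 1))) := by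
    apply Tendsto.div tendsto_const_nhds _ (by norm_num)
    apply Tendsto.add _ tendsto_const_nhds
    exact Real.tendsto_log_atTop.const_div_atTop (Real.log β)
  have h2 : (1 : ℝ) / (0 + 1) = 1 := by norm_num
  rw [h2] at h1
  apply h1.congr'
  filter_upwards [eventually_gt_atTop (1 : ℝ), eventually_gt_atTop (1 / β)] with X hX hX2
  have hlog : 0 < Real.log X := Real.log_pos hX
  have h3 : Real.log (β * X) = Real.log β + Real.log X := Real.log_mul hβ.ne' (by linarith)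
  have h4 : 0 < Real.log (β * X) := by
    apply Real.log_pos
    rw [div_lt_iff₀ hβ] at hX2
    linarith
  rw [h3] at h4 ⊢
  field_simp

lemma pi_scaled (β : ℝ) (hβ : 0 < β) :
    Tendsto (fun X : ℝ => (Nat.primeCounting ⌊β * X⌋₊ : ℝ) * Real.log X / X) atTop (𝓝 β) := by
  have h1 : Tendsto (fun X : ℝ => β * X) atTop atTop := tendsto_id.const_mul_atTop hβ
  have h2 := (Pool.Agent.H17.pi_tendsto.comp h1).mul ((log_ratio β hβ).mul_const β)
  rw [one_mul, one_mul] at h2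
  apply h2.congr'
  filter_upwards [eventually_gt_atTop (1 : ℝ), eventually_gt_atTop (1 / β)] with X hX hX2
  have h4 : 0 < Real.log (β * X) := by
    apply Real.log_pos
    rw [div_lt_iff₀ hβ] at hX2
    linarith
  have hX0 : (0 : ℝ) < X := by linarith
  simp only [Function.comp_apply]
  field_simp

/-- many words of given length -/
theorem many_primes (g : ℕ → ℕ) (n0 d b : ℕ) (hb : 2 ≤ b) (hd : 1 ≤ d) (α : ℝ) (hα : 0 < α)
    (hlim : Tendsto (fun n : ℕ => (g n : ℝ) / (n : ℝ) ^ d) atTop (𝓝 α)) (th : ℕ → ℕ)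
    (h2 : ∀ V n, n0 ≤ n → (V ≤ g n ↔ th V ≤ n)) :
    ∃ cp : ℝ, 0 < cp ∧ ∀ᶠ Λ : ℕ in atTop, cp * (b : ℝ) ^ Λ / Λ ≤
      (((Ico (th (b ^ (d * Λ - 1))) (th (b ^ (d * Λ)))).filter Nat.Prime).card : ℝ) := by
  have hb0 : (0 : ℝ) < b := by exact_mod_cast (by omega : 0 < b)
  have hb1 : (1 : ℝ) < b := by exact_mod_cast (by omega : 1 < b)
  have hd0 : (0 : ℝ) < d := by exact_mod_cast hd
  have hdne : d ≠ 0 := by omega
  -- constants
  set t : ℝ := (1 / (b : ℝ)) ^ (1 / (d : ℝ)) with ht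
  have htd : t ^ d = 1 / b := by
    rw [ht, ← Real.rpow_natCast, ← Real.rpow_mul (by positivity)]
    rw [one_div_mul_cancel (by positivity), Real.rpow_one]
  have ht0 : 0 < t := by positivity
  have ht1 : t < 1 := by
    rw [ht]
    apply Real.rpow_lt_one (by positivity) _ (by positivity)
    rw [div_lt_one hb0]; exact hb1
  set β0 : ℝ := (1 / α) ^ (1 / (d : ℝ)) with hβ0
  have hβ0d : β0 ^ d = 1 / α := by
    rw [hβ0, ← Real.rpow_natCast, ← Real.rpow_mul (by positivity)]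
    rw [one_div_mul_cancel (by positivity), Real.rpow_one]
  have hβ00 : 0 < β0 := by positivity
  set t1 : ℝ := (2 * t + 1) / 3 with ht1d
  set t2 : ℝ := (t + 2) / 3 with ht2d
  have htt1 : t < t1 := by rw [ht1d]; linarith
  have ht12 : t1 < t2 := by rw [ht1d, ht2d]; linarith
  have ht2 : t2 < 1 := by rw [ht2d]; linarith
  have ht10 : 0 < t1 := by linarith
  have ht20 : 0 < t2 := by linarith
  have hp1 : 1 / b < t1 ^ d := by rw [← htd]; exact pow_lt_pow_left₀ htt1 ht0.le hdne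
  have hp2 : t2 ^ d < 1 := pow_lt_one₀ ht20.le ht2 hdne
  set β1 := β0 * t1 with hβ1
  set β2 := β0 * t2 with hβ2
  have hβ10 : 0 < β1 := by positivity
  have hβ20 : 0 < β2 := by positivity
  have hβ12 : β1 < β2 := by rw [hβ1, hβ2]; exact mul_lt_mul_of_pos_left ht12 hβ00
  have hαβ1 : 1 / b < α * β1 ^ d := by
    rw [hβ1, mul_pow, hβ0d]
    have : α * (1 / α * t1 ^ d) = t1 ^ d := by field_simp
    rw [this]; exact hp1
  have hαβ2 : α * β2 ^ d < 1 := by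
    rw [hβ2, mul_pow, hβ0d]
    have : α * (1 / α * t2 ^ d) = t2 ^ d := by field_simp
    rw [this]; exact hp2
  clear_value β1 β2
  -- powers tend to infinity
  have hXtend : Tendsto (fun Λ : ℕ => (b : ℝ) ^ Λ) atTop atTop := tendsto_pow_atTop_atTop_of_one_lt hb1
  -- lower threshold
  have hfl : ∀ β : ℝ, 0 < β → Tendsto (fun Λ : ℕ => ⌊β * (b : ℝ) ^ Λ⌋₊) atTop atTop := by
    intro β hβ
    exact tendsto_nat_floor_atTop.comp (hXtend.const_mul_atTop hβ)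
  have hlow : ∀ᶠ Λ : ℕ in atTop, th (b ^ (d * Λ - 1)) ≤ ⌊β1 * (b : ℝ) ^ Λ⌋₊ + 1 := by
    have hα' : (1 / b) / β1 ^ d < α := by
      rw [div_lt_iff₀ (by positivity)]; exact hαβ1
    have e1 := hlim.eventually (eventually_ge_nhds hα')
    obtain ⟨n3, hn3⟩ := eventually_atTop.1 e1
    filter_upwards [(hfl β1 hβ10).eventually_ge_atTop (n0 + n3), eventually_ge_atTop 1] with Λ hΛ hΛ1
    set n := ⌊β1 * (b : ℝ) ^ Λ⌋₊ + 1 with hn
    rw [← h2 _ n (by omega)]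
    have e2 := hn3 n (by omega)
    have hn0 : (0 : ℝ) < n := by exact_mod_cast (by omega : 0 < n)
    rw [le_div_iff₀ (by positivity)] at e2
    have e3 : β1 * (b : ℝ) ^ Λ ≤ n := by
      rw [hn]; push_cast
      exact (Nat.lt_floor_add_one _).le
    have e4 : (β1 * (b : ℝ) ^ Λ) ^ d ≤ (n : ℝ) ^ d := pow_le_pow_left₀ (by positivity) e3 d
    have e5 : ((b ^ (d * Λ - 1) : ℕ) : ℝ) ≤ g n := by
      refine le_trans ?_ e2
      have hdΛ : 1 ≤ d * Λ := Nat.mul_pos hd hΛ1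
      have e6 : (b : ℝ) ^ (d * Λ) = (b : ℝ) ^ (d * Λ - 1) * b := by
        rw [← pow_succ]; congr 1; omega
      calc ((b ^ (d * Λ - 1) : ℕ) : ℝ) = (1 / b) / β1 ^ d * (β1 * (b : ℝ) ^ Λ) ^ d := by
            push_cast
            rw [mul_pow, ← pow_mul, mul_comm Λ d, e6]
            field_simp
        _ ≤ _ := mul_le_mul_of_nonneg_left e4 (by positivity)
    exact_mod_cast e5
  have hupp : ∀ᶠ Λ : ℕ in atTop, ⌊β2 * (b : ℝ) ^ Λ⌋₊ < th (b ^ (d * Λ)) := by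
    have hα' : α < 1 / β2 ^ d := by
      rw [lt_div_iff₀ (by positivity)]; exact hαβ2
    have e1 := hlim.eventually (eventually_lt_nhds hα')
    obtain ⟨n3, hn3⟩ := eventually_atTop.1 e1
    filter_upwards [(hfl β2 hβ20).eventually_ge_atTop (n0 + n3 + 1)] with Λ hΛ
    set n := ⌊β2 * (b : ℝ) ^ Λ⌋₊ with hn
    by_contra hcon
    push Not at hcon
    rw [← h2 _ n (by omega)] at hcon
    have e2 := hn3 n (by omega)
    have hn0 : (0 : ℝ) < n := by exact_mod_cast (by omega : 0 < n)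
    rw [div_lt_iff₀ (by positivity)] at e2
    have e3 : (n : ℝ) ≤ β2 * (b : ℝ) ^ Λ := Nat.floor_le (by positivity)
    have e4 : (n : ℝ) ^ d ≤ (β2 * (b : ℝ) ^ Λ) ^ d := pow_le_pow_left₀ (by positivity) e3 d
    have e5 : ((b ^ (d * Λ) : ℕ) : ℝ) ≤ g n := by exact_mod_cast hcon
    have e6 : 1 / β2 ^ d * (n : ℝ) ^ d ≤ ((b ^ (d * Λ) : ℕ) : ℝ) := by
      calc 1 / β2 ^ d * (n : ℝ) ^ d ≤ 1 / β2 ^ d * (β2 * (b : ℝ) ^ Λ) ^ d :=
            mul_le_mul_of_nonneg_left e4 (by positivity)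
        _ = _ := by
            push_cast
            rw [mul_pow, ← pow_mul, mul_comm Λ d]
            field_simp
    linarith
  -- prime number theorem
  have hpnt : Tendsto (fun Λ : ℕ => ((Nat.primeCounting ⌊β2 * (b : ℝ) ^ Λ⌋₊ : ℝ) *
      Real.log ((b : ℝ) ^ Λ) / (b : ℝ) ^ Λ) - ((Nat.primeCounting ⌊β1 * (b : ℝ) ^ Λ⌋₊ : ℝ) *
      Real.log ((b : ℝ) ^ Λ) / (b : ℝ) ^ Λ)) atTop (𝓝 (β2 - β1)) :=
    ((pi_scaled β2 hβ20).comp hXtend).sub ((pi_scaled β1 hβ10).comp hXtend)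
  have hpnt' := hpnt.eventually (eventually_ge_nhds (show (β2 - β1) / 2 < β2 - β1 by linarith))
  have hlogb : 0 < Real.log b := Real.log_pos hb1
  refine ⟨(β2 - β1) / (2 * Real.log b), by
    have : 0 < β2 - β1 := by linarith
    positivity, ?_⟩
  filter_upwards [hlow, hupp, hpnt', eventually_ge_atTop 1] with Λ g1 g2 g3 g4
  have hX : (0 : ℝ) < (b : ℝ) ^ Λ := by positivity
  have hΛ0 : (0 : ℝ) < Λ := by exact_mod_cast g4
  rw [Real.log_pow] at g3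
  have g5 : (β2 - β1) / 2 * (b : ℝ) ^ Λ / (Λ * Real.log b) ≤
      (Nat.primeCounting ⌊β2 * (b : ℝ) ^ Λ⌋₊ : ℝ) - Nat.primeCounting ⌊β1 * (b : ℝ) ^ Λ⌋₊ := by
    rw [div_le_iff₀ (by positivity)]
    have g6 : (β2 - β1) / 2 ≤ ((Nat.primeCounting ⌊β2 * (b : ℝ) ^ Λ⌋₊ : ℝ) -
        Nat.primeCounting ⌊β1 * (b : ℝ) ^ Λ⌋₊) * (Λ * Real.log b) / (b : ℝ) ^ Λ := by
      refine g3.trans (le_of_eq ?_)
      ring
    rwa [le_div_iff₀ hX] at g6
  have g7 : (Nat.primeCounting ⌊β2 * (b : ℝ) ^ Λ⌋₊ : ℝ) - Nat.primeCounting ⌊β1 * (b : ℝ) ^ Λ⌋₊ ≤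
      (((Ico (th (b ^ (d * Λ - 1))) (th (b ^ (d * Λ)))).filter Nat.Prime).card : ℝ) := by
    have g8 : Nat.primeCounting ⌊β2 * (b : ℝ) ^ Λ⌋₊ ≤ Nat.primeCounting ⌊β1 * (b : ℝ) ^ Λ⌋₊ +
        ((Ico (th (b ^ (d * Λ - 1))) (th (b ^ (d * Λ)))).filter Nat.Prime).card := by
      rw [← Nat.primesLE_card_eq_primeCounting, ← Nat.primesLE_card_eq_primeCounting]
      refine (Finset.card_le_card ?_).trans (Finset.card_union_le _ _)
      intro p hp
      rw [Nat.mem_primesLE] at hp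
      rw [mem_union, Nat.mem_primesLE, mem_filter, mem_Ico]
      by_cases h : p ≤ ⌊β1 * (b : ℝ) ^ Λ⌋₊
      · left; exact ⟨h, hp.2⟩
      · right; exact ⟨⟨by omega, by omega⟩, hp.2⟩
    have g9 : (Nat.primeCounting ⌊β2 * (b : ℝ) ^ Λ⌋₊ : ℝ) ≤
        (Nat.primeCounting ⌊β1 * (b : ℝ) ^ Λ⌋₊ : ℝ) +
        (((Ico (th (b ^ (d * Λ - 1))) (th (b ^ (d * Λ)))).filter Nat.Prime).card : ℝ) := by
      exact_mod_cast g8
    linarith
  refine le_trans (le_of_eq ?_) (g5.trans g7)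
  field_simp

/-- Brun-Titchmarsh for windows -/
theorem bt_window : ∃ C : ℝ, 0 < C ∧ ∀ x y L : ℕ, 2 ≤ L → y - x ≤ L →
    (((Ico x y).filter Nat.Prime).card : ℝ) ≤ C * L / Real.log L := by
  obtain ⟨C, hC, h⟩ := Pool.Agent.H17.bt_interval
  refine ⟨C, hC, ?_⟩
  intro x y L hL hxy
  refine le_trans ?_ (h (x - 1) L hL)
  have : (Ico x y).filter Nat.Prime ⊆ (Ioc (x - 1) (x - 1 + L)).filter Nat.Prime := by
    intro p hp
    rw [mem_filter, mem_Ico] at hp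
    rw [mem_filter, mem_Ioc]
    have := hp.2.two_le
    exact ⟨⟨by omega, by omega⟩, hp.2⟩
  exact_mod_cast Finset.card_le_card this

end Pool.Agent.H94.Grow
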