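import Pool.Agent.H94.Meas

set_option autoImplicit false
open scoped ENNReal InnerProductSpace Classical
open Filter Topology MeasureTheory

noncomputable section

namespace Pool.Agent.H94

variable {Δ : ℕ} {lam : ℝ} {μ0 qh : Measure ℕ} [IsProbabilityMeasure μ0] [IsProbabilityMeasure qh]
  {m : ℝ≥0∞}

lemma int_symm {B : Set Env} (hB : MeasurableSet B) {f : Env → ℝ≥0∞} (hf : Measurable f)
    (h1 : ∀ᵐ y ∂(QQ qh), (y ∈ B ↔ rr y ∈ B))
    (h2 : ∀ᵐ y ∂(QQ qh), y ∈ B → f y + f (rr y) = 1) :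
    2 * ∫⁻ y, B.indicator f y ∂(QQ qh) = QQ qh B := by
  have hm : Measurable (B.indicator f) := hf.indicator hB
  have e1 := lintegral_rr qh hm
  calc 2 * ∫⁻ y, B.indicator f y ∂(QQ qh) =
      ∫⁻ y, B.indicator f y ∂(QQ qh) + ∫⁻ y, B.indicator f (rr y) ∂(QQ qh) := by
        rw [e1, two_mul]
    _ = ∫⁻ y, (B.indicator f y + B.indicator f (rr y)) ∂(QQ qh) :=
        (lintegral_add_left hm _).symm
    _ = ∫⁻ y, B.indicator 1 y ∂(QQ qh) := by
        apply lintegral_congr_ae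
        filter_upwards [h1, h2] with y hy1 hy2
        by_cases hy : y ∈ B
        · rw [Set.indicator_of_mem hy, Set.indicator_of_mem (hy1.1 hy), Set.indicator_of_mem hy,
            hy2 hy]
          rfl
        · rw [Set.indicator_of_notMem hy, Set.indicator_of_notMem (fun h => hy (hy1.2 h)),
            Set.indicator_of_notMem hy, add_zero]
    _ = QQ qh B := lintegral_indicator_one hB

/-- the set of trees considered: all, or those with infinite block -/
def Cs (Δ : ℕ) (lam : ℝ) (b : Bool) : Set Env := {x | b = true → sz Δ lam x = ∞}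

lemma measurableSet_Cs (Δ : ℕ) (lam : ℝ) (b : Bool) : MeasurableSet (Cs Δ lam b) := by
  unfold Cs
  cases b
  · simp
  · simp only [forall_const]
    exact measurable_sz Δ lam (measurableSet_singleton _)

lemma measurableSet_PC (Δ : ℕ) (lam : ℝ) (b : Bool) :
    MeasurableSet {x | Pp Δ lam x ∧ x ∈ Cs Δ lam b} :=
  (measurableSet_Pp Δ lam).inter (measurableSet_Cs Δ lam b)

lemma swEnv_mem_Cs {b : Bool} {x : Env} {i : ℕ} (hi : i < dg Δ x []) :
    swEnv i x ∈ Cs Δ lam b ↔ x ∈ Cs Δ lam b := by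
  unfold Cs
  rw [Set.mem_ofPred_eq, Set.mem_ofPred_eq, sz_swEnv hi]

/-- root of type P, in the class `b`, child `0` in the block -/
def Bs (Δ : ℕ) (lam : ℝ) (b : Bool) : Set Env :=
  {y | Pp Δ lam (bump y) ∧ bump y ∈ Cs Δ lam b ∧ ¬ Zz Δ lam (sub y 0)}

lemma measurableSet_Bs (Δ : ℕ) (lam : ℝ) (b : Bool) : MeasurableSet (Bs Δ lam b) := by
  have h1 := measurable_bump (measurableSet_Pp Δ lam)
  have h2 := measurable_bump (measurableSet_Cs Δ lam b)
  have h3 := (measurable_sub 0 (measurableSet_Zz Δ lam)).compl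
  exact h1.inter (h2.inter h3)

lemma Bs_rr {b : Bool} {y : Env} (hy : Bdd Δ y) (h : y ∈ Bs Δ lam b) : rr y ∈ Bs Δ lam b := by
  obtain ⟨h1, h2, h3⟩ := h
  obtain ⟨h4, h5, _⟩ := reroot_block hy h1 h3
  refine ⟨h4, ?_, h5⟩
  intro hb
  have h6 := h2 hb
  rw [sz_bump hy] at h6
  rw [sz_bump hy.rr]
  unfold gz at h6 ⊢
  rw [if_neg h3] at h6
  rw [if_neg h5, rr_rr]
  rw [← h6]
  ring

lemma Bs_rr_iff {b : Bool} {y : Env} (hy : Bdd Δ y) : y ∈ Bs Δ lam b ↔ rr y ∈ Bs Δ lam b := by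
  constructor
  · exact Bs_rr hy
  · intro h
    have := Bs_rr hy.rr h
    rwa [rr_rr] at this

lemma integral_th (hb : ∀ᵐ y ∂(QQ qh), Bdd Δ y) (b : Bool) :
    2 * ∫⁻ y, (Bs Δ lam b).indicator (fun y => ENNReal.ofReal (th Δ lam (bump y) 0)) y ∂(QQ qh) =
      QQ qh (Bs Δ lam b) := by
  apply int_symm (measurableSet_Bs Δ lam b)
  · exact ENNReal.measurable_ofReal.comp ((measurable_th Δ lam 0).comp measurable_bump)
  · filter_upwards [hb] with y hy using Bs_rr_iff hy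
  · filter_upwards [hb] with y hy
    intro h
    obtain ⟨h1, h2, h3⟩ := h
    obtain ⟨_, _, h6⟩ := reroot_block hy h1 h3
    rw [← ENNReal.ofReal_add (th_nonneg _ _ _ _) (th_nonneg _ _ _ _), h6, ENNReal.ofReal_one]

lemma integral_tt (hb : ∀ᵐ y ∂(QQ qh), Bdd Δ y) (b : Bool) :
    2 * ∫⁻ y, (Bs Δ lam b).indicator
      (fun y => tt (sz Δ lam (sub y 0)) (sz Δ lam (sub (rr y) 0))) y ∂(QQ qh) =
      QQ qh (Bs Δ lam b) := by
  apply int_symm (measurableSet_Bs Δ lam b)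
  · exact measurable_tt.comp (Measurable.prodMk ((measurable_sz Δ lam).comp (measurable_sub 0))
      ((measurable_sz Δ lam).comp ((measurable_sub 0).comp measurable_rr)))
  · filter_upwards [hb] with y hy using Bs_rr_iff hy
  · filter_upwards with y
    intro _
    rw [rr_rr]
    apply tt_add
    have := one_le_sz Δ lam (sub y 0)
    intro h
    rw [h] at this
    simp at this

lemma integral_th_eq_tt (hb : ∀ᵐ y ∂(QQ qh), Bdd Δ y) (b : Bool) :
    ∫⁻ y, (Bs Δ lam b).indicator (fun y => ENNReal.ofReal (th Δ lam (bump y) 0)) y ∂(QQ qh) =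
    ∫⁻ y, (Bs Δ lam b).indicator
      (fun y => tt (sz Δ lam (sub y 0)) (sz Δ lam (sub (rr y) 0))) y ∂(QQ qh) := by
  have h1 := integral_th (lam := lam) hb b
  have h2 := integral_tt (lam := lam) hb b
  rw [← h2] at h1
  exact (ENNReal.mul_right_inj (by norm_num) (by norm_num)).1 h1

/-- mass on child `0`, restricted -/
def G1 (Δ : ℕ) (lam : ℝ) (b : Bool) (x : Env) : ℝ≥0∞ :=
  if Pp Δ lam x ∧ x ∈ Cs Δ lam b then ENNReal.ofReal (th Δ lam x 0) else 0

lemma measurable_G1 (Δ : ℕ) (lam : ℝ) (b : Bool) : Measurable (G1 Δ lam b) := by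
  unfold G1
  exact Measurable.ite ((measurableSet_Pp Δ lam).inter (measurableSet_Cs Δ lam b))
    (ENNReal.measurable_ofReal.comp (measurable_th Δ lam 0)) measurable_const

lemma G1_swEnv {b : Bool} {x : Env} {i : ℕ} (hi : i < dg Δ x []) :
    G1 Δ lam b (swEnv i x) =
      if Pp Δ lam x ∧ x ∈ Cs Δ lam b then ENNReal.ofReal (th Δ lam x i) else 0 := by
  unfold G1
  rw [th_swEnv hi]
  have h1 := (swEnv_iso hi).Pp (lam := lam) (sw_nil i)
  simp only [h1, swEnv_mem_Cs hi]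

/-- first inequality -/
lemma step1 (hroot : ∀ᵐ x ∂(PP μ0 qh), x [] ≤ Δ) (b : Bool) :
    ∫⁻ x, (Cs Δ lam b).indicator (fun x => ENNReal.ofReal (aa Δ lam x)) x ∂(PP μ0 qh) +
      ∫⁻ x, (x [] : ℝ≥0∞) * G1 Δ lam b x ∂(PP μ0 qh) ≤
      PP μ0 qh {x | Pp Δ lam x ∧ x ∈ Cs Δ lam b} := by
  rw [exchange μ0 qh (measurable_G1 Δ lam b)]
  have hmA : Measurable ((Cs Δ lam b).indicator (fun x => ENNReal.ofReal (aa Δ lam x))) :=
    (ENNReal.measurable_ofReal.comp (measurable_aa Δ lam)).indicator (measurableSet_Cs Δ lam b)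
  rw [← lintegral_add_left hmA]
  rw [← lintegral_indicator_one (measurableSet_PC Δ lam b)]
  apply lintegral_mono_ae
  filter_upwards [hroot] with x hx
  have hdg : dg Δ x [] = x [] := by unfold dg; omega
  by_cases hP : Pp Δ lam x
  · by_cases hC : x ∈ Cs Δ lam b
    · rw [Set.indicator_of_mem hC, Set.indicator_of_mem
        (show x ∈ {x | Pp Δ lam x ∧ x ∈ Cs Δ lam b} from ⟨hP, hC⟩)]
      have h1 : ∀ i ∈ Finset.range (x []), G1 Δ lam b (swEnv i x) =
          ENNReal.ofReal (th Δ lam x i) := by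
        intro i hi
        rw [G1_swEnv (by rw [hdg]; exact Finset.mem_range.1 hi), if_pos ⟨hP, hC⟩]
      rw [Finset.sum_congr rfl h1, ← ENNReal.ofReal_sum_of_nonneg (fun i _ => th_nonneg _ _ _ _),
        ← ENNReal.ofReal_add (aa_nonneg _ _ _) (Finset.sum_nonneg (fun i _ => th_nonneg _ _ _ _))]
      rw [← hdg]
      have h2 := aa_add_sum_th_le hP
      calc ENNReal.ofReal (aa Δ lam x + ∑ i ∈ Finset.range (dg Δ x []), th Δ lam x i) ≤
          ENNReal.ofReal 1 := ENNReal.ofReal_le_ofReal h2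
        _ = 1 := ENNReal.ofReal_one
        _ = _ := rfl
    · rw [Set.indicator_of_notMem hC, zero_add]
      have h1 : ∀ i ∈ Finset.range (x []), G1 Δ lam b (swEnv i x) = 0 := by
        intro i hi
        rw [G1_swEnv (by rw [hdg]; exact Finset.mem_range.1 hi), if_neg (fun h => hC h.2)]
      rw [Finset.sum_congr rfl h1]
      simp
  · have h0 : aa Δ lam x = 0 := by
      unfold Pp at hP
      exact le_antisymm (not_lt.1 hP) (aa_nonneg _ _ _)
    have h2 : (Cs Δ lam b).indicator (fun x => ENNReal.ofReal (aa Δ lam x)) x = 0 := by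
      rw [Set.indicator_apply]
      split_ifs
      · simp only [h0, ENNReal.ofReal_zero]
      · rfl
    rw [h2, zero_add]
    have h1 : ∀ i ∈ Finset.range (x []), G1 Δ lam b (swEnv i x) = 0 := by
      intro i hi
      rw [G1_swEnv (by rw [hdg]; exact Finset.mem_range.1 hi), if_neg (fun h => hP h.1)]
    rw [Finset.sum_congr rfl h1]
    simp

/-- the comparison function -/
def G2 (Δ : ℕ) (lam : ℝ) (b : Bool) (x : Env) : ℝ≥0∞ :=
  if Pp Δ lam x ∧ x ∈ Cs Δ lam b then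
    tt (gz Δ lam x 0) (1 + ∑ j ∈ (Finset.range (dg Δ x [])).erase 0, gz Δ lam x j) else 0

lemma sum_erase_eq (Δ : ℕ) (x : Env) (g : ℕ → ℝ≥0∞) (i : ℕ) :
    ∑ j ∈ (Finset.range (dg Δ x [])).erase i, g j =
      ∑ j ∈ Finset.range Δ, if j < dg Δ x [] ∧ j ≠ i then g j else 0 := by
  rw [← Finset.sum_filter]
  congr 1
  ext j
  simp only [Finset.mem_erase, Finset.mem_range, Finset.mem_filter]
  have := dg_le Δ x []
  constructor
  · rintro ⟨h1, h2⟩; exact ⟨by omega, h2, h1⟩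
  · rintro ⟨h1, h2, h3⟩; exact ⟨h3, h2⟩

lemma measurable_G2 (Δ : ℕ) (lam : ℝ) (b : Bool) : Measurable (G2 Δ lam b) := by
  unfold G2
  refine Measurable.ite ((measurableSet_Pp Δ lam).inter (measurableSet_Cs Δ lam b)) ?_
    measurable_const
  refine measurable_tt.comp (Measurable.prodMk (measurable_gz Δ lam 0) ?_)
  simp only [sum_erase_eq]
  refine Measurable.const_add (Finset.measurable_sum _ (fun j _ => ?_)) 1
  by_cases hj : j = 0
  · simp [hj]
  · simp only [ne_eq, hj, not_false_eq_true, and_true]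
    exact Measurable.ite (measurableSet_lt_dg Δ [] j) (measurable_gz Δ lam j) measurable_const

lemma G2_bump {b : Bool} {y : Env} (hy : Bdd Δ y) :
    G2 Δ lam b (bump y) = (Bs Δ lam b).indicator
      (fun y => tt (sz Δ lam (sub y 0)) (sz Δ lam (sub (rr y) 0))) y := by
  have h1 : ∀ c, gz Δ lam (bump y) (c + 1) = gz Δ lam (sub (rr y) 0) c := by
    intro c
    unfold gz
    rw [sub_bump, sub_sub_rr]
  have h2 : gz Δ lam (bump y) 0 = gz Δ lam y 0 := by
    unfold gz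
    rw [sub_bump]
  have h3 : 1 + ∑ j ∈ (Finset.range (dg Δ (bump y) [])).erase 0, gz Δ lam (bump y) j =
      sz Δ lam (sub (rr y) 0) := by
    rw [sz_eq, dg_bump_nil hy, dg_sub_rr_nil hy]
    congr 1
    have h4 : (Finset.range (y [] + 1)).erase 0 = (Finset.range (y [])).image (· + 1) := by
      ext j
      simp only [Finset.mem_erase, Finset.mem_range, Finset.mem_image]
      constructor
      · rintro ⟨h1, h2⟩; exact ⟨j - 1, by omega, by omega⟩
      · rintro ⟨k, h1, rfl⟩; omega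
    rw [h4, Finset.sum_image (fun a _ b _ h => by simpa using h)]
    exact Finset.sum_congr rfl (fun c _ => h1 c)
  unfold G2
  rw [h3, h2]
  by_cases hZ : Zz Δ lam (sub y 0)
  · have : y ∉ Bs Δ lam b := fun h => h.2.2 hZ
    rw [Set.indicator_of_notMem this]
    unfold gz
    rw [if_pos hZ, tt_zero]
    simp
  · by_cases hPC : Pp Δ lam (bump y) ∧ bump y ∈ Cs Δ lam b
    · have : y ∈ Bs Δ lam b := ⟨hPC.1, hPC.2, hZ⟩
      rw [Set.indicator_of_mem this, if_pos hPC]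
      unfold gz
      rw [if_neg hZ]
    · have : y ∉ Bs Δ lam b := fun h => hPC ⟨h.1, h.2.1⟩
      rw [Set.indicator_of_notMem this, if_neg hPC]

lemma G2_swEnv {b : Bool} {x : Env} {i : ℕ} (hi : i < dg Δ x []) :
    G2 Δ lam b (swEnv i x) = if Pp Δ lam x ∧ x ∈ Cs Δ lam b then
      tt (gz Δ lam x i) (1 + ∑ j ∈ (Finset.range (dg Δ x [])).erase i, gz Δ lam x j) else 0 := by
  unfold G2
  have h1 := (swEnv_iso hi).Pp (lam := lam) (sw_nil i)
  simp only [h1, swEnv_mem_Cs hi, gz_swEnv, dg_swEnv_nil, Equiv.swap_apply_left]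
  have h2 : ∑ j ∈ (Finset.range (dg Δ x [])).erase 0, gz Δ lam x (Equiv.swap 0 i j) =
      ∑ j ∈ (Finset.range (dg Δ x [])).erase i, gz Δ lam x j := by
    refine Finset.sum_equiv (Equiv.swap 0 i) ?_ (fun _ _ => rfl)
    intro j
    simp only [Finset.mem_erase, Finset.mem_range]
    rw [Equiv.swap_apply_def]
    split_ifs with h3 h4
    · subst h3; simp
    · subst h4
      constructor
      · rintro ⟨h5, h6⟩; exact ⟨fun h => h5 h.symm, by omega⟩
      · rintro ⟨h5, h6⟩; exact ⟨fun h => h5 h.symm, hi⟩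
    · simp [h3, h4]
  rw [h2]

/-- reciprocal of the size of a finite block, else `0` -/
def isz (Δ : ℕ) (lam : ℝ) (x : Env) : ℝ≥0∞ := if sz Δ lam x = ∞ then 0 else (sz Δ lam x)⁻¹

lemma measurable_isz (Δ : ℕ) (lam : ℝ) : Measurable (isz Δ lam) := by
  unfold isz
  exact Measurable.ite (measurable_sz Δ lam (measurableSet_singleton _)) measurable_const
    (measurable_sz Δ lam).inv

/-- second inequality -/
lemma step2 (hroot : ∀ᵐ x ∂(PP μ0 qh), x [] ≤ Δ) (b : Bool) :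
    PP μ0 qh {x | Pp Δ lam x ∧ x ∈ Cs Δ lam b} ≤
      ∫⁻ x, (x [] : ℝ≥0∞) * G2 Δ lam b x ∂(PP μ0 qh) +
      ∫⁻ x, {x | Pp Δ lam x ∧ x ∈ Cs Δ lam b}.indicator (isz Δ lam) x ∂(PP μ0 qh) := by
  have hmS : MeasurableSet {x | Pp Δ lam x ∧ x ∈ Cs Δ lam b} :=
    (measurableSet_Pp Δ lam).inter (measurableSet_Cs Δ lam b)
  rw [exchange μ0 qh (measurable_G2 Δ lam b),
    ← lintegral_add_right _ ((measurable_isz Δ lam).indicator hmS),
    ← lintegral_indicator_one hmS]
  apply lintegral_mono_ae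
  filter_upwards [hroot] with x hx
  have hdg : dg Δ x [] = x [] := by unfold dg; omega
  by_cases h : Pp Δ lam x ∧ x ∈ Cs Δ lam b
  · have h' : x ∈ {x | Pp Δ lam x ∧ x ∈ Cs Δ lam b} := h
    rw [Set.indicator_of_mem h', Set.indicator_of_mem h']
    have h1 : ∀ i ∈ Finset.range (x []), G2 Δ lam b (swEnv i x) =
        tt (gz Δ lam x i) (1 + ∑ j ∈ (Finset.range (dg Δ x [])).erase i, gz Δ lam x j) := by
      intro i hi
      rw [G2_swEnv (by rw [hdg]; exact Finset.mem_range.1 hi), if_pos h]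
    rw [Finset.sum_congr rfl h1]
    have h2 := sum_tt (Finset.range (dg Δ x [])) (gz Δ lam x)
    rw [← sz_eq] at h2
    rw [← hdg]
    exact h2
  · have h' : x ∉ {x | Pp Δ lam x ∧ x ∈ Cs Δ lam b} := h
    rw [Set.indicator_of_notMem h']
    exact bot_le

/-- the two comparison integrals agree -/
lemma step3 (hb : ∀ᵐ y ∂(QQ qh), Bdd Δ y)
    (hm : ∀ k : ℕ, ((k : ℝ≥0∞) + 1) * μ0 {k + 1} = m * qh {k}) (b : Bool) :
    ∫⁻ x, (x [] : ℝ≥0∞) * G2 Δ lam b x ∂(PP μ0 qh) =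
      m * ∫⁻ y, (Bs Δ lam b).indicator (fun y => ENNReal.ofReal (th Δ lam (bump y) 0)) y
        ∂(QQ qh) := by
  rw [size_bias μ0 qh m hm (measurable_G2 Δ lam b), integral_th_eq_tt hb b]
  congr 1
  apply lintegral_congr_ae
  filter_upwards [hb] with y hy using G2_bump hy

/-- infinite blocks carry no atom -/
lemma infinite_null (hb : ∀ᵐ y ∂(QQ qh), Bdd Δ y) (hroot : ∀ᵐ x ∂(PP μ0 qh), x [] ≤ Δ)
    (hm : ∀ k : ℕ, ((k : ℝ≥0∞) + 1) * μ0 {k + 1} = m * qh {k}) :
    PP μ0 qh {x | Pp Δ lam x ∧ sz Δ lam x = ∞} = 0 := by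
  have e : {x | Pp Δ lam x ∧ x ∈ Cs Δ lam true} = {x | Pp Δ lam x ∧ sz Δ lam x = ∞} := by
    ext x
    simp [Cs]
  have h1 := step1 (lam := lam) hroot true
  have h2 := step2 (lam := lam) hroot true
  have h3 := step3 (lam := lam) hb hm true
  have h4 : ∫⁻ x, {x | Pp Δ lam x ∧ x ∈ Cs Δ lam true}.indicator (isz Δ lam) x ∂(PP μ0 qh) = 0 := by
    rw [lintegral_eq_zero_iff ((measurable_isz Δ lam).indicator (measurableSet_PC Δ lam true))]
    filter_upwards with x
    by_cases h : x ∈ {x | Pp Δ lam x ∧ x ∈ Cs Δ lam true}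
    · rw [Set.indicator_of_mem h]
      unfold isz
      rw [if_pos (h.2 rfl)]
      rfl
    · rw [Set.indicator_of_notMem h]
      rfl
  rw [h4, add_zero] at h2
  have h5 : ∫⁻ x, (x [] : ℝ≥0∞) * G2 Δ lam true x ∂(PP μ0 qh) ≤
      ∫⁻ x, (x [] : ℝ≥0∞) * G1 Δ lam true x ∂(PP μ0 qh) := by
    rw [h3, size_bias μ0 qh m hm (measurable_G1 Δ lam true)]
    gcongr with y
    by_cases h : y ∈ Bs Δ lam true
    · rw [Set.indicator_of_mem h]
      unfold G1
      rw [if_pos ⟨h.1, h.2.1⟩]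
    · rw [Set.indicator_of_notMem h]
      exact bot_le
  have hfin : ∫⁻ x, (x [] : ℝ≥0∞) * G1 Δ lam true x ∂(PP μ0 qh) ≠ ∞ := by
    have : ∫⁻ x, (x [] : ℝ≥0∞) * G1 Δ lam true x ∂(PP μ0 qh) ≤ 1 :=
      (le_add_self.trans h1).trans prob_le_one
    exact ne_top_of_le_ne_top ENNReal.one_ne_top this
  have h6 : ∫⁻ x, (Cs Δ lam true).indicator (fun x => ENNReal.ofReal (aa Δ lam x)) x
      ∂(PP μ0 qh) = 0 := by
    have h7 := (h1.trans h2).trans h5
    have h8 : ∫⁻ x, (Cs Δ lam true).indicator (fun x => ENNReal.ofReal (aa Δ lam x)) x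
      ∂(PP μ0 qh) + ∫⁻ x, (x [] : ℝ≥0∞) * G1 Δ lam true x ∂(PP μ0 qh) ≤
      0 + ∫⁻ x, (x [] : ℝ≥0∞) * G1 Δ lam true x ∂(PP μ0 qh) := by rw [zero_add]; exact h7
    exact le_antisymm ((ENNReal.add_le_add_iff_right hfin).1 h8) bot_le
  have hmA : Measurable ((Cs Δ lam true).indicator (fun x => ENNReal.ofReal (aa Δ lam x))) :=
    (ENNReal.measurable_ofReal.comp (measurable_aa Δ lam)).indicator (measurableSet_Cs Δ lam true)
  rw [lintegral_eq_zero_iff hmA] at h6
  rw [← e]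
  rw [measure_eq_zero_iff_ae_notMem]
  filter_upwards [h6] with x hx h
  rw [Set.indicator_of_mem h.2] at hx
  have h9 : 0 < aa Δ lam x := h.1
  simp only [Pi.zero_apply, ENNReal.ofReal_eq_zero] at hx
  linarith

/-- the quantity for the boundary -/
def G3 (Δ : ℕ) (lam : ℝ) (x : Env) : ℝ≥0∞ :=
  if Pp Δ lam (sub x 0) ∧ (∃ j, j ≠ 0 ∧ j < dg Δ x [] ∧ Pp Δ lam (sub x j)) then
    ENNReal.ofReal (aa Δ lam (sub x 0) / Sa Δ lam x) else 0

lemma measurable_G3 (Δ : ℕ) (lam : ℝ) : Measurable (G3 Δ lam) := by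
  unfold G3
  refine Measurable.ite ?_ ?_ measurable_const
  · refine MeasurableSet.inter (measurable_sub 0 (measurableSet_Pp Δ lam)) ?_
    have : {x : Env | ∃ j, j ≠ 0 ∧ j < dg Δ x [] ∧ Pp Δ lam (sub x j)} =
        ⋃ j : ℕ, {x : Env | j ≠ 0} ∩ ({x : Env | j < dg Δ x []} ∩
          {x : Env | Pp Δ lam (sub x j)}) := by
      ext x
      simp
    have h2 : MeasurableSet {x : Env | ∃ j, j ≠ 0 ∧ j < dg Δ x [] ∧ Pp Δ lam (sub x j)} := by
      rw [this]
      exact MeasurableSet.iUnion (fun j => (MeasurableSet.const _).inter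
        ((measurableSet_lt_dg Δ [] j).inter (measurable_sub j (measurableSet_Pp Δ lam))))
    exact h2
  · exact ENNReal.measurable_ofReal.comp
      (((measurable_aa Δ lam).comp (measurable_sub 0)).div (measurable_Sa Δ lam))

lemma Sa_swEnv {x : Env} {i : ℕ} (hi : i < dg Δ x []) :
    Sa Δ lam (swEnv i x) = Sa Δ lam x := by
  unfold Sa
  simp only [dg_swEnv_nil, sub_swEnv]
  exact sum_swap (fun j => aa Δ lam (sub x j)) hi

lemma G3_swEnv {x : Env} {i : ℕ} (hi : i < dg Δ x []) :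
    G3 Δ lam (swEnv i x) = if Pp Δ lam (sub x i) ∧ (∃ j, j ≠ i ∧ j < dg Δ x [] ∧
      Pp Δ lam (sub x j)) then ENNReal.ofReal (aa Δ lam (sub x i) / Sa Δ lam x) else 0 := by
  unfold G3
  rw [Sa_swEnv hi]
  simp only [sub_swEnv, dg_swEnv_nil, Equiv.swap_apply_left]
  have : (∃ j, j ≠ 0 ∧ j < dg Δ x [] ∧ Pp Δ lam (sub x (Equiv.swap 0 i j))) ↔
      (∃ j, j ≠ i ∧ j < dg Δ x [] ∧ Pp Δ lam (sub x j)) := by
    constructor
    · rintro ⟨j, h1, h2, h3⟩
      refine ⟨Equiv.swap 0 i j, ?_, ?_, h3⟩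
      · intro h
        rw [Equiv.swap_apply_eq_iff, Equiv.swap_apply_right] at h
        exact h1 h
      · rw [Equiv.swap_apply_def]
        split_ifs
        · exact hi
        · omega
        · exact h2
    · rintro ⟨j, h1, h2, h3⟩
      refine ⟨Equiv.swap 0 i j, ?_, ?_, ?_⟩
      · intro h
        rw [Equiv.swap_apply_eq_iff, Equiv.swap_apply_left] at h
        exact h1 h
      · rw [Equiv.swap_apply_def]
        split_ifs <;> omega
      · rw [Equiv.swap_apply_self]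
        exact h3
  rw [this]

/-- boundary vertices contribute at least the probability of two P children -/
lemma step4 (hroot : ∀ᵐ x ∂(PP μ0 qh), x [] ≤ Δ) (hroot2 : ∀ᵐ x ∂(PP μ0 qh), 2 ≤ x []) :
    PP μ0 qh {x | Pp Δ lam (sub x 0) ∧ Pp Δ lam (sub x 1)} ≤
      ∫⁻ x, (x [] : ℝ≥0∞) * G3 Δ lam x ∂(PP μ0 qh) := by
  rw [exchange μ0 qh (measurable_G3 Δ lam)]
  have hmS : MeasurableSet {x : Env | Pp Δ lam (sub x 0) ∧ Pp Δ lam (sub x 1)} :=
    (measurable_sub 0 (measurableSet_Pp Δ lam)).inter (measurable_sub 1 (measurableSet_Pp Δ lam))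
  rw [← lintegral_indicator_one hmS]
  apply lintegral_mono_ae
  filter_upwards [hroot, hroot2] with x hx hx2
  have hdg : dg Δ x [] = x [] := by unfold dg; omega
  by_cases h : x ∈ {x : Env | Pp Δ lam (sub x 0) ∧ Pp Δ lam (sub x 1)}
  · rw [Set.indicator_of_mem h]
    obtain ⟨h0, h1⟩ := h
    have hS : 0 < Sa Δ lam x := Zz_iff_Sa.1 ⟨0, by omega, h0⟩
    have h2 : ∀ i ∈ Finset.range (x []), G3 Δ lam (swEnv i x) =
        ENNReal.ofReal (aa Δ lam (sub x i) / Sa Δ lam x) := by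
      intro i hi
      rw [Finset.mem_range] at hi
      rw [G3_swEnv (by rw [hdg]; exact hi)]
      by_cases hP : Pp Δ lam (sub x i)
      · rw [if_pos]
        refine ⟨hP, ?_⟩
        by_cases hi0 : i = 0
        · exact ⟨1, by omega, by omega, h1⟩
        · exact ⟨0, by omega, by omega, h0⟩
      · rw [if_neg (fun h => hP h.1)]
        have : aa Δ lam (sub x i) = 0 := by
          unfold Pp at hP
          exact le_antisymm (not_lt.1 hP) (aa_nonneg _ _ _)
        rw [this, zero_div, ENNReal.ofReal_zero]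
    rw [Finset.sum_congr rfl h2, ← ENNReal.ofReal_sum_of_nonneg
      (fun i _ => div_nonneg (aa_nonneg _ _ _) hS.le), ← Finset.sum_div]
    have h3 : ∑ i ∈ Finset.range (x []), aa Δ lam (sub x i) = Sa Δ lam x := by
      unfold Sa; rw [hdg]
    rw [h3, div_self (ne_of_gt hS), ENNReal.ofReal_one]
    rfl
  · rw [Set.indicator_of_notMem h]
    exact bot_le

lemma G3_bump_le {y : Env} (hy : Bdd Δ y) :
    G3 Δ lam (bump y) ≤ if Pp Δ lam (bump (rr y)) ∧ Zz Δ lam (sub (rr y) 0) then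
      ENNReal.ofReal (th Δ lam (bump (rr y)) 0) else 0 := by
  unfold G3
  by_cases h : Pp Δ lam (sub (bump y) 0) ∧
      (∃ j, j ≠ 0 ∧ j < dg Δ (bump y) [] ∧ Pp Δ lam (sub (bump y) j))
  · rw [if_pos h]
    obtain ⟨h1, j, hj0, hj, hPj⟩ := h
    rw [sub_bump] at h1 hPj
    rw [dg_bump_nil hy] at hj
    have hZ : Zz Δ lam (sub (rr y) 0) := by
      refine ⟨j - 1, ?_, ?_⟩
      · rw [dg_sub_rr_nil hy]; omega
      · rw [sub_sub_rr]
        have : j - 1 + 1 = j := by omega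
        rw [this]
        exact hPj
    obtain ⟨h2, h3⟩ := reroot_boundary hy h1 hZ
    rw [if_pos ⟨h2, hZ⟩, h3, sub_bump]
  · rw [if_neg h]
    exact bot_le

/-- the basic inequality -/
lemma basic_ineq (hb : ∀ᵐ y ∂(QQ qh), Bdd Δ y) (hroot : ∀ᵐ x ∂(PP μ0 qh), x [] ≤ Δ)
    (hroot2 : ∀ᵐ x ∂(PP μ0 qh), 2 ≤ x [])
    (hm : ∀ k : ℕ, ((k : ℝ≥0∞) + 1) * μ0 {k + 1} = m * qh {k}) :
    ∫⁻ x, ENNReal.ofReal (aa Δ lam x) ∂(PP μ0 qh) +
      PP μ0 qh {x | Pp Δ lam (sub x 0) ∧ Pp Δ lam (sub x 1)} ≤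
      ∫⁻ x, {x | Pp Δ lam x}.indicator (isz Δ lam) x ∂(PP μ0 qh) := by
  have e : {x | Pp Δ lam x ∧ x ∈ Cs Δ lam false} = {x | Pp Δ lam x} := by
    ext x
    simp [Cs]
  have e2 : Cs Δ lam false = Set.univ := by
    ext x
    simp [Cs]
  have h1 := step1 (lam := lam) hroot false
  have h2 := step2 (lam := lam) hroot false
  have h3 := step3 (lam := lam) hb hm false
  have h4 := step4 (lam := lam) hroot hroot2
  rw [e, e2] at h1
  rw [e] at h2
  simp only [Set.indicator_univ] at h1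
  have hmT : Measurable (fun y : Env => if Pp Δ lam (bump y) ∧ Zz Δ lam (sub y 0) then
      ENNReal.ofReal (th Δ lam (bump y) 0) else 0) :=
    Measurable.ite ((measurable_bump (measurableSet_Pp Δ lam)).inter
      (measurable_sub 0 (measurableSet_Zz Δ lam)))
      (ENNReal.measurable_ofReal.comp ((measurable_th Δ lam 0).comp measurable_bump))
      measurable_const
  have h5 : ∫⁻ x, (x [] : ℝ≥0∞) * G2 Δ lam false x ∂(PP μ0 qh) +
      PP μ0 qh {x | Pp Δ lam (sub x 0) ∧ Pp Δ lam (sub x 1)} ≤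
      ∫⁻ x, (x [] : ℝ≥0∞) * G1 Δ lam false x ∂(PP μ0 qh) := by
    calc _ ≤ ∫⁻ x, (x [] : ℝ≥0∞) * G2 Δ lam false x ∂(PP μ0 qh) +
          ∫⁻ x, (x [] : ℝ≥0∞) * G3 Δ lam x ∂(PP μ0 qh) := by gcongr
      _ = m * ∫⁻ y, (Bs Δ lam false).indicator
            (fun y => ENNReal.ofReal (th Δ lam (bump y) 0)) y ∂(QQ qh) +
          m * ∫⁻ y, G3 Δ lam (bump y) ∂(QQ qh) := by
          rw [h3, size_bias μ0 qh m hm (measurable_G3 Δ lam)]
      _ ≤ m * ∫⁻ y, (Bs Δ lam false).indicator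
            (fun y => ENNReal.ofReal (th Δ lam (bump y) 0)) y ∂(QQ qh) +
          m * ∫⁻ y, (if Pp Δ lam (bump (rr y)) ∧ Zz Δ lam (sub (rr y) 0) then
            ENNReal.ofReal (th Δ lam (bump (rr y)) 0) else 0) ∂(QQ qh) := by
          have h7 : ∫⁻ y, G3 Δ lam (bump y) ∂(QQ qh) ≤
              ∫⁻ y, (if Pp Δ lam (bump (rr y)) ∧ Zz Δ lam (sub (rr y) 0) then
                ENNReal.ofReal (th Δ lam (bump (rr y)) 0) else 0) ∂(QQ qh) := by
            apply lintegral_mono_ae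
            filter_upwards [hb] with y hy using G3_bump_le hy
          gcongr
      _ = m * ∫⁻ y, (Bs Δ lam false).indicator
            (fun y => ENNReal.ofReal (th Δ lam (bump y) 0)) y ∂(QQ qh) +
          m * ∫⁻ y, (if Pp Δ lam (bump y) ∧ Zz Δ lam (sub y 0) then
            ENNReal.ofReal (th Δ lam (bump y) 0) else 0) ∂(QQ qh) := by
          rw [lintegral_rr qh hmT]
      _ = m * ∫⁻ y, G1 Δ lam false (bump y) ∂(QQ qh) := by
          rw [← mul_add, ← lintegral_add_right _ hmT]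
          congr 1
          apply lintegral_congr
          intro y
          unfold G1
          rw [e2]
          by_cases hP : Pp Δ lam (bump y)
          · by_cases hZ : Zz Δ lam (sub y 0)
            · have : y ∉ Bs Δ lam false := fun h => h.2.2 hZ
              rw [Set.indicator_of_notMem this, if_pos ⟨hP, hZ⟩, if_pos ⟨hP, trivial⟩, zero_add]
            · have : y ∈ Bs Δ lam false := ⟨hP, by rw [e2]; trivial, hZ⟩
              rw [Set.indicator_of_mem this, if_neg (fun h => hZ h.2), if_pos ⟨hP, trivial⟩,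
                add_zero]
          · have : y ∉ Bs Δ lam false := fun h => hP h.1
            rw [Set.indicator_of_notMem this, if_neg (fun h => hP h.1), if_neg (fun h => hP h.1),
              add_zero]
      _ = ∫⁻ x, (x [] : ℝ≥0∞) * G1 Δ lam false x ∂(PP μ0 qh) := by
          rw [size_bias μ0 qh m hm (measurable_G1 Δ lam false)]
  have hfin : ∫⁻ x, (x [] : ℝ≥0∞) * G2 Δ lam false x ∂(PP μ0 qh) ≠ ∞ := by
    have : ∫⁻ x, (x [] : ℝ≥0∞) * G2 Δ lam false x ∂(PP μ0 qh) ≤ 1 :=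
      ((le_self_add.trans h5).trans (le_add_self.trans h1)).trans prob_le_one
    exact ne_top_of_le_ne_top ENNReal.one_ne_top this
  set X := ∫⁻ x, ENNReal.ofReal (aa Δ lam x) ∂(PP μ0 qh)
  set V := PP μ0 qh {x | Pp Δ lam (sub x 0) ∧ Pp Δ lam (sub x 1)}
  set J := ∫⁻ x, (x [] : ℝ≥0∞) * G2 Δ lam false x ∂(PP μ0 qh)
  set I := ∫⁻ x, (x [] : ℝ≥0∞) * G1 Δ lam false x ∂(PP μ0 qh)
  set Y := ∫⁻ x, {x | Pp Δ lam x}.indicator (isz Δ lam) x ∂(PP μ0 qh)
  have h6 : J + (X + V) ≤ J + Y := by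
    calc J + (X + V) = X + (J + V) := by ring
      _ ≤ X + I := by gcongr
      _ ≤ _ := h1
      _ ≤ J + Y := h2
  exact (ENNReal.add_le_add_iff_left hfin).1 h6

end Pool.Agent.H94
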