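import Pool.Agent.H94.Ker

set_option autoImplicit false
open scoped ENNReal InnerProductSpace

noncomputable section

namespace Pool.Agent.H94

/-- neighbours of a word -/
def nbr (Δ : ℕ) (x : Env) (v : List ℕ) : Finset (List ℕ) :=
  (Finset.range (dg Δ x v)).image (fun c => v ++ [c]) ∪
    (if v ≠ [] ∧ v.getLastD 0 < dg Δ x v.dropLast then {v.dropLast} else ∅)

lemma mem_nbr {Δ : ℕ} {x : Env} {v w : List ℕ} :
    w ∈ nbr Δ x v ↔ (∃ c < dg Δ x v, w = v ++ [c]) ∨ (∃ c < dg Δ x w, v = w ++ [c]) := by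
  unfold nbr
  rw [Finset.mem_union, Finset.mem_image]
  constructor
  · rintro (⟨c, hc, rfl⟩ | h)
    · exact Or.inl ⟨c, Finset.mem_range.1 hc, rfl⟩
    · split_ifs at h with h1
      · rw [Finset.mem_singleton] at h
        subst h
        right
        refine ⟨v.getLastD 0, h1.2, ?_⟩
        rcases List.eq_nil_or_concat v with h | ⟨u, d, h⟩
        · exact absurd h h1.1
        · subst h
          simp
      · simp at h
  · rintro (⟨c, hc, rfl⟩ | ⟨c, hc, rfl⟩)
    · exact Or.inl ⟨c, Finset.mem_range.2 hc, rfl⟩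
    · right
      rw [if_pos]
      · simp
      · constructor
        · simp
        · simpa using hc

lemma mem_nbr_symm {Δ : ℕ} {x : Env} {v w : List ℕ} : w ∈ nbr Δ x v ↔ v ∈ nbr Δ x w := by
  rw [mem_nbr, mem_nbr, or_comm]

lemma Aop_eq_sum_nbr (Δ : ℕ) (x : Env) (f : H) (v : List ℕ) :
    Aop Δ x f v = ∑ w ∈ nbr Δ x v, f w := by
  unfold nbr
  rw [Finset.sum_union]
  · rw [Finset.sum_image (fun a _ b _ h => by simpa using h)]
    rcases List.eq_nil_or_concat v with h | ⟨u, d, h⟩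
    · subst h
      rw [Aop_apply_nil]
      simp
    · rw [List.concat_eq_append] at h
      subst h
      rw [Aop_apply_concat]
      congr 1
      simp only [ne_eq, List.append_eq_nil_iff, List.cons_ne_self, and_false, not_false_eq_true,
        List.getLastD_concat, List.dropLast_concat, true_and]
      split_ifs <;> simp
  · rw [Finset.disjoint_left]
    intro w hw hw2
    rw [Finset.mem_image] at hw
    obtain ⟨c, _, rfl⟩ := hw
    split_ifs at hw2 with h
    · rw [Finset.mem_singleton] at hw2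
      have := congrArg List.length hw2
      simp at this
      omega
    · simp at hw2

/-- isomorphism of the forests of two environments -/
structure EnvIso (Δ : ℕ) (x' x : Env) (e : List ℕ ≃ List ℕ) : Prop where
  h1 : ∀ v c, c < dg Δ x' v → e (v ++ [c]) ∈ nbr Δ x (e v)
  h2 : ∀ v c, c < dg Δ x v → e.symm (v ++ [c]) ∈ nbr Δ x' (e.symm v)

lemma EnvIso.symm {Δ : ℕ} {x' x : Env} {e : List ℕ ≃ List ℕ} (h : EnvIso Δ x' x e) :
    EnvIso Δ x x' e.symm := ⟨h.h2, h.h1⟩

lemma EnvIso.nbr_imp {Δ : ℕ} {x' x : Env} {e : List ℕ ≃ List ℕ} (h : EnvIso Δ x' x e)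
    {v w : List ℕ} (hw : w ∈ nbr Δ x' v) : e w ∈ nbr Δ x (e v) := by
  rw [mem_nbr] at hw
  rcases hw with ⟨c, hc, rfl⟩ | ⟨c, hc, rfl⟩
  · exact h.h1 _ _ hc
  · exact mem_nbr_symm.1 (h.h1 _ _ hc)

lemma EnvIso.nbr_iff {Δ : ℕ} {x' x : Env} {e : List ℕ ≃ List ℕ} (h : EnvIso Δ x' x e)
    {v w : List ℕ} : w ∈ nbr Δ x' v ↔ e w ∈ nbr Δ x (e v) := by
  constructor
  · exact h.nbr_imp
  · intro hw
    have := h.symm.nbr_imp hw
    simpa using this

/-- relabelling a function -/
def relab (e : List ℕ ≃ List ℕ) : H →L[ℝ] H := compL e e.injective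

@[simp] lemma relab_apply (e : List ℕ ≃ List ℕ) (f : H) (v : List ℕ) : relab e f v = f (e v) := rfl

lemma relab_symm (e : List ℕ ≃ List ℕ) (f : H) : relab e (relab e.symm f) = f := by
  ext v; simp

lemma inner_relab (e : List ℕ ≃ List ℕ) (f g : H) : ⟪relab e f, relab e g⟫_ℝ = ⟪f, g⟫_ℝ := by
  rw [H.inner_eq, H.inner_eq]
  exact e.tsum_eq (fun v => f v * g v)

lemma norm_relab (e : List ℕ ≃ List ℕ) (f : H) : ‖relab e f‖ = ‖f‖ := by
  have := inner_relab e f f
  rw [real_inner_self_eq_norm_sq, real_inner_self_eq_norm_sq] at this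
  nlinarith [norm_nonneg (relab e f), norm_nonneg f, sq_nonneg (‖relab e f‖ + ‖f‖)]

lemma EnvIso.Aop_relab {Δ : ℕ} {x' x : Env} {e : List ℕ ≃ List ℕ} (h : EnvIso Δ x' x e) (f : H) :
    Aop Δ x' (relab e f) = relab e (Aop Δ x f) := by
  ext v
  rw [Aop_eq_sum_nbr, relab_apply, Aop_eq_sum_nbr]
  refine Finset.sum_bij (fun w _ => e w) ?_ ?_ ?_ ?_
  · intro w hw; exact h.nbr_imp hw
  · intro a _ b _ hab; exact e.injective hab
  · intro b hb
    refine ⟨e.symm b, ?_, by simp⟩
    rw [h.nbr_iff]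
    simpa using hb
  · intro w _; rfl

lemma EnvIso.mem_Kx {Δ : ℕ} {lam : ℝ} {x' x : Env} {e : List ℕ ≃ List ℕ} (h : EnvIso Δ x' x e)
    {f : H} (hf : f ∈ Kx Δ lam x) : relab e f ∈ Kx Δ lam x' := by
  rw [H94.mem_Kx] at hf ⊢
  unfold Lop at hf ⊢
  simp only [_root_.sub_apply, _root_.smul_apply, ContinuousLinearMap.id_apply] at hf ⊢
  rw [h.Aop_relab, ← map_smul, ← map_sub, hf, map_zero]

lemma EnvIso.phi {Δ : ℕ} {lam : ℝ} {x' x : Env} {e : List ℕ ≃ List ℕ} (h : EnvIso Δ x' x e)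
    (u : List ℕ) : phi Δ lam x' u = relab e (phi Δ lam x (e u)) := by
  symm
  apply phi_unique
  · exact h.mem_Kx (phi_mem _ _ _ _)
  · intro k hk
    have h1 : relab e.symm k ∈ Kx Δ lam x := h.symm.mem_Kx hk
    rw [← relab_symm e k, inner_relab, phi_inner _ _ _ _ h1]
    simp

lemma EnvIso.phi_apply {Δ : ℕ} {lam : ℝ} {x' x : Env} {e : List ℕ ≃ List ℕ} (h : EnvIso Δ x' x e)
    (u v : List ℕ) : H94.phi Δ lam x' u v = H94.phi Δ lam x (e u) (e v) := by
  rw [h.phi]; rfl

lemma EnvIso.aa {Δ : ℕ} {lam : ℝ} {x' x : Env} {e : List ℕ ≃ List ℕ} (h : EnvIso Δ x' x e)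
    (h0 : e [] = []) : aa Δ lam x' = aa Δ lam x := by
  unfold H94.aa
  rw [h.phi_apply, h0]

lemma EnvIso.Pp {Δ : ℕ} {lam : ℝ} {x' x : Env} {e : List ℕ ≃ List ℕ} (h : EnvIso Δ x' x e)
    (h0 : e [] = []) : Pp Δ lam x' ↔ Pp Δ lam x := by
  unfold H94.Pp
  rw [h.aa h0]

/-- exchange of the children `0` and `i` of the root -/
def swf (i : ℕ) : List ℕ → List ℕ
  | [] => []
  | c :: v => Equiv.swap 0 i c :: v

lemma swf_swf (i : ℕ) (v : List ℕ) : swf i (swf i v) = v := by
  cases v with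
  | nil => rfl
  | cons c v => simp [swf]

/-- exchange of the children `0` and `i` of the root -/
def sw (i : ℕ) : List ℕ ≃ List ℕ := ⟨swf i, swf i, swf_swf i, swf_swf i⟩

@[simp] lemma sw_nil (i : ℕ) : sw i [] = [] := rfl
@[simp] lemma sw_cons (i c : ℕ) (v : List ℕ) : sw i (c :: v) = Equiv.swap 0 i c :: v := rfl
@[simp] lemma sw_symm (i : ℕ) : (sw i).symm = sw i := rfl
@[simp] lemma sw_sw (i : ℕ) (v : List ℕ) : sw i (sw i v) = v := swf_swf i v

/-- the environment with the children `0` and `i` of the root exchanged -/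
def swEnv (i : ℕ) (x : Env) : Env := fun v => x (sw i v)

lemma swEnv_swEnv (i : ℕ) (x : Env) : swEnv i (swEnv i x) = x := by
  ext v; simp [swEnv]

lemma swEnv_iso_aux {Δ : ℕ} {x : Env} {i : ℕ} (hi : i < dg Δ x []) (v : List ℕ) (c : ℕ)
    (hc : c < dg Δ (swEnv i x) v) : sw i (v ++ [c]) ∈ nbr Δ x (sw i v) := by
  rw [mem_nbr]
  left
  cases v with
  | nil =>
    refine ⟨Equiv.swap 0 i c, ?_, rfl⟩
    have hc' : c < dg Δ x [] := hc
    rw [Equiv.swap_apply_def]
    simp only [sw_nil]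
    split_ifs
    · exact hi
    · omega
    · exact hc'
  | cons d v =>
    refine ⟨c, ?_, rfl⟩
    exact hc

lemma swEnv_iso {Δ : ℕ} {x : Env} {i : ℕ} (hi : i < dg Δ x []) :
    EnvIso Δ (swEnv i x) x (sw i) := by
  constructor
  · exact swEnv_iso_aux hi
  · intro v c hc
    rw [sw_symm]
    have h : i < dg Δ (swEnv i x) [] := hi
    refine swEnv_iso_aux h v c ?_
    rw [swEnv_swEnv]
    exact hc

lemma sub_swEnv (i : ℕ) (x : Env) (c : ℕ) : sub (swEnv i x) c = sub x (Equiv.swap 0 i c) := rfl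

/-- moving the root to child `0` -/
def prf : List ℕ → List ℕ
  | [] => [0]
  | [0] => []
  | 0 :: c :: v => (c + 1) :: v
  | (c + 1) :: v => 0 :: c :: v

lemma prf_prf (v : List ℕ) : prf (prf v) = v := by
  match v with
  | [] => rfl
  | [0] => rfl
  | 0 :: c :: v => rfl
  | (c + 1) :: v => rfl

/-- moving the root to child `0` -/
def pr : List ℕ ≃ List ℕ := ⟨prf, prf, prf_prf, prf_prf⟩

@[simp] lemma pr_nil : pr [] = [0] := rfl
@[simp] lemma pr_zero : pr [0] = [] := rfl
@[simp] lemma pr_zero_cons (c : ℕ) (v : List ℕ) : pr (0 :: c :: v) = (c + 1) :: v := rfl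
@[simp] lemma pr_succ_cons (c : ℕ) (v : List ℕ) : pr ((c + 1) :: v) = 0 :: c :: v := rfl
@[simp] lemma pr_symm : pr.symm = pr := rfl
@[simp] lemma pr_pr (v : List ℕ) : pr (pr v) = v := prf_prf v

/-- one more child at the root -/
def bump (y : Env) : Env := Function.update y [] (y [] + 1)

lemma bump_nil (y : Env) : bump y [] = y [] + 1 := by simp [bump]
lemma bump_cons (y : Env) (c : ℕ) (v : List ℕ) : bump y (c :: v) = y (c :: v) := by simp [bump]

/-- the environment read after moving the root to child `0` -/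
def rr (y : Env) : Env := fun v => y (pr v)

@[simp] lemma rr_rr (y : Env) : rr (rr y) = y := by ext v; simp [rr]

lemma sub_bump (y : Env) (c : ℕ) : sub (bump y) c = sub y c := by
  ext v; simp [sub, bump_cons]

lemma bump_iso_aux {Δ : ℕ} {y : Env} (hy : ∀ v, y v < Δ) (v : List ℕ) (c : ℕ)
    (hc : c < dg Δ (bump (rr y)) v) : pr (v ++ [c]) ∈ nbr Δ (bump y) (pr v) := by
  have hΔ : 0 < Δ := lt_of_le_of_lt (Nat.zero_le _) (hy [])
  rw [mem_nbr]
  unfold dg at *
  match v with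
  | [] =>
    rw [bump_nil] at hc
    have h1 : rr y [] = y [0] := rfl
    rw [h1] at hc
    cases c with
    | zero =>
      right
      refine ⟨0, ?_, rfl⟩
      simp only [List.nil_append, pr_zero]
      rw [bump_nil]
      omega
    | succ c =>
      left
      refine ⟨c, ?_, rfl⟩
      rw [pr_nil, bump_cons]
      omega
  | [0] =>
    rw [bump_cons] at hc
    have h1 : rr y [0] = y [] := rfl
    rw [h1] at hc
    left
    refine ⟨c + 1, ?_, rfl⟩
    rw [pr_zero, bump_nil]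
    have := hy []
    omega
  | 0 :: d :: v =>
    rw [bump_cons] at hc
    left
    refine ⟨c, ?_, rfl⟩
    rw [pr_zero_cons, bump_cons]
    exact hc
  | (d + 1) :: v =>
    rw [bump_cons] at hc
    left
    refine ⟨c, ?_, rfl⟩
    rw [pr_succ_cons, bump_cons]
    exact hc

lemma bump_iso {Δ : ℕ} {y : Env} (hy : ∀ v, y v < Δ) :
    EnvIso Δ (bump (rr y)) (bump y) pr := by
  constructor
  · exact bump_iso_aux hy
  · intro v c hc
    rw [pr_symm]
    have h := bump_iso_aux (y := rr y) (fun v => hy _) v c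
    rw [rr_rr] at h
    exact h hc

end Pool.Agent.H94
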