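import Pool.Agent.H94.Ops

set_option autoImplicit false
open scoped ENNReal InnerProductSpace

noncomputable section

namespace Pool.Agent.H94

/-- extension by zero from the subtree of child `c` -/
def iot (c : ℕ) : H →L[ℝ] H := ContinuousLinearMap.adjoint (rho c)

lemma iot_apply_nil (c : ℕ) (f : H) : iot c f [] = 0 := by
  unfold iot rho
  exact adjoint_compL_apply_of_notMem _ _ _ _ (fun v h => by simp at h)

lemma iot_apply_cons (c d : ℕ) (f : H) (v : List ℕ) :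
    iot c f (d :: v) = if d = c then f v else 0 := by
  unfold iot rho
  split_ifs with h
  · subst h
    exact adjoint_compL_apply (fun v => d :: v) (cons_inj d) f v
  · refine adjoint_compL_apply_of_notMem _ _ _ _ (fun w h' => ?_)
    simp only [List.cons.injEq] at h'
    exact h h'.1.symm

lemma inner_iot (c : ℕ) (f g : H) : ⟪iot c f, g⟫_ℝ = ⟪f, rho c g⟫_ℝ := by
  unfold iot
  rw [ContinuousLinearMap.adjoint_inner_left]

lemma rho_iot_same (c : ℕ) (f : H) : rho c (iot c f) = f := by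
  ext v
  rw [rho_apply, iot_apply_cons, if_pos rfl]

lemma rho_iot_ne (c d : ℕ) (h : c ≠ d) (f : H) : rho c (iot d f) = 0 := by
  ext v
  rw [rho_apply, iot_apply_cons, if_neg h]
  rfl

/-- `A - lam` -/
def Lop (Δ : ℕ) (lam : ℝ) (x : Env) : H →L[ℝ] H := Aop Δ x - lam • ContinuousLinearMap.id ℝ H

lemma Lop_apply (Δ : ℕ) (lam : ℝ) (x : Env) (f : H) (v : List ℕ) :
    Lop Δ lam x f v = Aop Δ x f v - lam * f v := by
  rfl

lemma inner_Lop (Δ : ℕ) (lam : ℝ) (x : Env) (f g : H) :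
    ⟪Lop Δ lam x f, g⟫_ℝ = ⟪f, Lop Δ lam x g⟫_ℝ := by
  unfold Lop
  simp only [_root_.sub_apply, _root_.smul_apply, ContinuousLinearMap.id_apply, inner_sub_left,
    inner_sub_right, inner_smul_left, inner_smul_right, inner_Aop]
  simp

lemma Lop_apply_nil (Δ : ℕ) (lam : ℝ) (x : Env) (f : H) :
    Lop Δ lam x f [] = ∑ c ∈ Finset.range (dg Δ x []), f [c] - lam * f [] := by
  rw [Lop_apply, Aop_apply_nil]

/-- restriction of `(A - lam) f` to the subtree at child `c` -/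
lemma rho_Lop (Δ : ℕ) (lam : ℝ) (x : Env) (f : H) (c : ℕ) :
    rho c (Lop Δ lam x f) = Lop Δ lam (sub x c) (rho c f) +
      (if c < dg Δ x [] then f [] else 0) • δ [] := by
  ext v
  rw [lp.coeFn_add, Pi.add_apply, lp.coeFn_smul, Pi.smul_apply, rho_apply, Lop_apply, Lop_apply,
    Aop_apply_cons, δ_apply, rho_apply]
  by_cases hv : v = []
  · subst hv
    simp
    ring
  · simp [hv]

lemma H_ext_iff_cons (f g : H) : f = g ↔ f [] = g [] ∧ ∀ c, rho c f = rho c g := by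
  constructor
  · rintro rfl; exact ⟨rfl, fun _ => rfl⟩
  · rintro ⟨h1, h2⟩
    ext v
    cases v with
    | nil => exact h1
    | cons c w =>
      have := h2 c
      calc f (c :: w) = rho c f w := rfl
        _ = rho c g w := by rw [this]
        _ = g (c :: w) := rfl

/-- eigenspace for `lam` -/
def Kx (Δ : ℕ) (lam : ℝ) (x : Env) : Submodule ℝ H := (Lop Δ lam x).ker

lemma mem_Kx {Δ : ℕ} {lam : ℝ} {x : Env} {f : H} : f ∈ Kx Δ lam x ↔ Lop Δ lam x f = 0 := by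
  unfold Kx
  exact LinearMap.mem_ker

instance (Δ : ℕ) (lam : ℝ) (x : Env) : CompleteSpace (Kx Δ lam x) :=
  ContinuousLinearMap.completeSpace_ker _

/-- projection of the basis vector at `u` to the eigenspace -/
def phi (Δ : ℕ) (lam : ℝ) (x : Env) (u : List ℕ) : H := (Kx Δ lam x).starProjection (δ u)

lemma phi_mem (Δ : ℕ) (lam : ℝ) (x : Env) (u : List ℕ) : phi Δ lam x u ∈ Kx Δ lam x :=
  Submodule.starProjection_apply_mem _ _

lemma phi_inner (Δ : ℕ) (lam : ℝ) (x : Env) (u : List ℕ) {k : H} (hk : k ∈ Kx Δ lam x) :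
    ⟪phi Δ lam x u, k⟫_ℝ = k u := by
  have h := Submodule.starProjection_inner_eq_zero (K := Kx Δ lam x) (δ u) k hk
  rw [inner_sub_left, inner_δ_left] at h
  unfold phi
  linarith

lemma phi_unique {Δ : ℕ} {lam : ℝ} {x : Env} {u : List ℕ} {ψ : H} (h1 : ψ ∈ Kx Δ lam x)
    (h2 : ∀ k ∈ Kx Δ lam x, ⟪ψ, k⟫_ℝ = k u) : ψ = phi Δ lam x u := by
  have h3 : ψ - phi Δ lam x u ∈ Kx Δ lam x := Submodule.sub_mem _ h1 (phi_mem _ _ _ _)
  have h4 : ⟪ψ - phi Δ lam x u, ψ - phi Δ lam x u⟫_ℝ = 0 := by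
    rw [inner_sub_left, h2 _ h3, phi_inner _ _ _ _ h3, sub_self]
  exact sub_eq_zero.1 (inner_self_eq_zero.1 h4)

lemma phi_norm_sq (Δ : ℕ) (lam : ℝ) (x : Env) (u : List ℕ) :
    ‖phi Δ lam x u‖ ^ 2 = phi Δ lam x u u := by
  rw [← real_inner_self_eq_norm_sq, phi_inner _ _ _ _ (phi_mem _ _ _ _)]

lemma phi_self_nonneg (Δ : ℕ) (lam : ℝ) (x : Env) (u : List ℕ) : 0 ≤ phi Δ lam x u u := by
  rw [← phi_norm_sq]; positivity

lemma phi_self_le_one (Δ : ℕ) (lam : ℝ) (x : Env) (u : List ℕ) : phi Δ lam x u u ≤ 1 := by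
  have h1 := phi_norm_sq Δ lam x u
  have h2 : ‖phi Δ lam x u‖ ^ 2 = ⟪phi Δ lam x u, δ u⟫_ℝ := by rw [h1, inner_δ_right]
  have h3 : ⟪phi Δ lam x u, δ u⟫_ℝ ≤ ‖phi Δ lam x u‖ * ‖δ u‖ := real_inner_le_norm _ _
  have h4 : ‖δ u‖ = 1 := by
    have : ‖δ u‖ ^ 2 = 1 := by
      rw [← real_inner_self_eq_norm_sq, inner_δ_left, δ_apply, if_pos rfl]
    nlinarith [norm_nonneg (δ u)]
  rw [h4, mul_one, ← h2] at h3
  nlinarith [norm_nonneg (phi Δ lam x u)]

/-- atom mass at `lam` of the spectral measure of the root -/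
def aa (Δ : ℕ) (lam : ℝ) (x : Env) : ℝ := phi Δ lam x [] []

/-- existence of an eigenfunction not vanishing at the root -/
def Pp (Δ : ℕ) (lam : ℝ) (x : Env) : Prop := 0 < aa Δ lam x

lemma Pp_of_mem {Δ : ℕ} {lam : ℝ} {x : Env} {k : H} (hk : k ∈ Kx Δ lam x) (h : k [] ≠ 0) :
    Pp Δ lam x := by
  unfold Pp aa
  have h1 := phi_inner Δ lam x [] hk
  have h2 : phi Δ lam x [] ≠ 0 := by
    intro h0
    rw [h0, inner_zero_left] at h1
    exact h h1.symm
  rw [← phi_norm_sq]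
  have := norm_pos_iff.2 h2
  positivity

lemma Pp_iff {Δ : ℕ} {lam : ℝ} {x : Env} :
    Pp Δ lam x ↔ ∃ k ∈ Kx Δ lam x, k [] ≠ 0 := by
  constructor
  · intro h
    exact ⟨phi Δ lam x [], phi_mem _ _ _ _, ne_of_gt h⟩
  · rintro ⟨k, hk, h⟩
    exact Pp_of_mem hk h

lemma aa_nonneg (Δ : ℕ) (lam : ℝ) (x : Env) : 0 ≤ aa Δ lam x := phi_self_nonneg _ _ _ _

lemma aa_le_one (Δ : ℕ) (lam : ℝ) (x : Env) : aa Δ lam x ≤ 1 := phi_self_le_one _ _ _ _

/-- some child of the root carries an eigenfunction not vanishing there -/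
def Zz (Δ : ℕ) (lam : ℝ) (x : Env) : Prop := ∃ c < dg Δ x [], Pp Δ lam (sub x c)

/-- `f` solves `(A - lam) f = s δ` -/
def HK (Δ : ℕ) (lam : ℝ) (x : Env) (s : ℝ) (f : H) : Prop := Lop Δ lam x f = s • δ []

lemma HK_zero_iff {Δ : ℕ} {lam : ℝ} {x : Env} {f : H} : HK Δ lam x 0 f ↔ f ∈ Kx Δ lam x := by
  unfold HK
  rw [mem_Kx, zero_smul]

/-- if the right-hand side is nonzero then the root carries no eigenfunction -/
lemma HK_not_Pp {Δ : ℕ} {lam : ℝ} {x : Env} {s : ℝ} {f : H} (h : HK Δ lam x s f)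
    (hP : Pp Δ lam x) : s = 0 := by
  obtain ⟨k, hk, hk0⟩ := Pp_iff.1 hP
  have h1 : ⟪Lop Δ lam x f, k⟫_ℝ = 0 := by
    rw [inner_Lop, mem_Kx.1 hk, inner_zero_right]
  rw [show Lop Δ lam x f = s • δ [] from h, inner_smul_left, inner_δ_left] at h1
  have h2 : s * k [] = 0 := h1
  rcases mul_eq_zero.1 h2 with h3 | h3
  · exact h3
  · exact absurd h3 hk0

lemma rho_smul_δ_nil (c : ℕ) (s : ℝ) : rho c (s • δ []) = 0 := by
  ext v
  rw [map_smul, lp.coeFn_smul, Pi.smul_apply, rho_apply, δ_apply]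
  simp

/-- restriction of a solution to the subtree of a child -/
lemma HK_rho {Δ : ℕ} {lam : ℝ} {x : Env} {s : ℝ} {f : H} (h : HK Δ lam x s f) (c : ℕ) :
    HK Δ lam (sub x c) (-(if c < dg Δ x [] then f [] else 0)) (rho c f) := by
  have h1 := rho_Lop Δ lam x f c
  rw [show Lop Δ lam x f = s • δ [] from h, rho_smul_δ_nil] at h1
  unfold HK
  rw [neg_smul]
  exact eq_neg_of_add_eq_zero_left h1.symm

lemma HK_rho_lt {Δ : ℕ} {lam : ℝ} {x : Env} {s : ℝ} {f : H} (h : HK Δ lam x s f) {c : ℕ}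
    (hc : c < dg Δ x []) : HK Δ lam (sub x c) (-f []) (rho c f) := by
  have := HK_rho h c
  rwa [if_pos hc] at this

/-- the equation at the root -/
lemma HK_nil {Δ : ℕ} {lam : ℝ} {x : Env} {s : ℝ} {f : H} (h : HK Δ lam x s f) :
    ∑ c ∈ Finset.range (dg Δ x []), f [c] = lam * f [] + s := by
  have h1 := Lop_apply_nil Δ lam x f
  rw [show Lop Δ lam x f = s • δ [] from h] at h1
  have h2 : (s • δ [] : H) [] = s := by
    rw [lp.coeFn_smul, Pi.smul_apply, δ_apply]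
    simp
  rw [h2] at h1
  linarith

/-- converse: solution from its restrictions -/
lemma HK_of {Δ : ℕ} {lam : ℝ} {x : Env} {s : ℝ} {f : H}
    (h0 : ∑ c ∈ Finset.range (dg Δ x []), f [c] = lam * f [] + s)
    (h1 : ∀ c, HK Δ lam (sub x c) (-(if c < dg Δ x [] then f [] else 0)) (rho c f)) :
    HK Δ lam x s f := by
  unfold HK
  rw [H_ext_iff_cons]
  constructor
  · rw [Lop_apply_nil, h0, lp.coeFn_smul, Pi.smul_apply, δ_apply]
    simp
  · intro c
    rw [rho_Lop, rho_smul_δ_nil, show Lop Δ lam (sub x c) (rho c f) = _ from h1 c, neg_smul]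
    simp

/-- for a solution with nonzero value at the root: children are not of type P -/
lemma HK_child_not_Pp {Δ : ℕ} {lam : ℝ} {x : Env} {s : ℝ} {f : H} (h : HK Δ lam x s f)
    (hf : f [] ≠ 0) {c : ℕ} (hc : c < dg Δ x []) : ¬ Pp Δ lam (sub x c) := by
  intro hP
  have := HK_not_Pp (HK_rho_lt h hc) hP
  exact hf (neg_eq_zero.1 this)

lemma HK_not_Zz {Δ : ℕ} {lam : ℝ} {x : Env} {s : ℝ} {f : H} (h : HK Δ lam x s f)
    (hf : f [] ≠ 0) : ¬ Zz Δ lam x := by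
  rintro ⟨c, hc, hP⟩
  exact HK_child_not_Pp h hf hc hP

/-- value zero at a vertex of type Z -/
lemma HK_Zz_zero {Δ : ℕ} {lam : ℝ} {x : Env} {s : ℝ} {f : H} (h : HK Δ lam x s f)
    (hZ : Zz Δ lam x) : f [] = 0 := by
  by_contra hf
  exact HK_not_Zz h hf hZ

/-- value nonzero at a vertex not of type Z if the right-hand side is nonzero -/
lemma HK_ne_zero {Δ : ℕ} {lam : ℝ} {x : Env} {s : ℝ} {f : H} (h : HK Δ lam x s f)
    (hs : s ≠ 0) (hZ : ¬ Zz Δ lam x) : f [] ≠ 0 := by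
  intro hf
  have h0 := HK_nil h
  rw [hf, mul_zero, zero_add] at h0
  have : ∃ c ∈ Finset.range (dg Δ x []), f [c] ≠ 0 := by
    apply Finset.exists_ne_zero_of_sum_ne_zero
    rw [h0]; exact hs
  obtain ⟨c, hc, hfc⟩ := this
  rw [Finset.mem_range] at hc
  apply hZ
  refine ⟨c, hc, ?_⟩
  have h1 := HK_rho_lt h hc
  rw [hf, neg_zero, HK_zero_iff] at h1
  exact Pp_of_mem h1 hfc

/-- membership in the block of the root -/
def inC (Δ : ℕ) (lam : ℝ) : List ℕ → Env → Prop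
  | [], _ => True
  | c :: v, x => c < dg Δ x [] ∧ ¬ Zz Δ lam (sub x c) ∧ inC Δ lam v (sub x c)

lemma HK_block_ne_zero {Δ : ℕ} {lam : ℝ} (v : List ℕ) : ∀ {x : Env} {s : ℝ} {f : H},
    HK Δ lam x s f → f [] ≠ 0 → inC Δ lam v x → f v ≠ 0 := by
  induction v with
  | nil => intro x s f _ h _; exact h
  | cons c v ih =>
    intro x s f h hf hv
    obtain ⟨hc, hZ, hv⟩ := hv
    have h1 := HK_rho_lt h hc
    have h2 : rho c f [] ≠ 0 := HK_ne_zero h1 (neg_ne_zero.2 hf) hZ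
    exact ih h1 h2 hv

lemma HK_boundary_zero {Δ : ℕ} {lam : ℝ} (v : List ℕ) : ∀ {x : Env} {s : ℝ} {f : H} {c : ℕ},
    HK Δ lam x s f → f [] ≠ 0 → inC Δ lam v x → c < dg Δ x v →
      ¬ inC Δ lam (v ++ [c]) x → f (v ++ [c]) = 0 := by
  induction v with
  | nil =>
    intro x s f c h hf _ hc hn
    have h1 := HK_rho_lt h hc
    simp only [List.nil_append, inC, and_true, not_and, not_not] at hn
    exact HK_Zz_zero h1 (hn hc)
  | cons d v ih =>
    intro x s f c h hf hv hc hn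
    obtain ⟨hd, hZ, hv⟩ := hv
    have h1 := HK_rho_lt h hd
    have h2 : rho d f [] ≠ 0 := HK_ne_zero h1 (neg_ne_zero.2 hf) hZ
    have h3 : ¬ inC Δ lam (v ++ [c]) (sub x d) := by
      intro h4
      apply hn
      exact ⟨hd, hZ, h4⟩
    exact ih h1 h2 hv hc h3

lemma inC_of_append {Δ : ℕ} {lam : ℝ} (v : List ℕ) : ∀ {x : Env} {c : ℕ},
    inC Δ lam (v ++ [c]) x → inC Δ lam v x ∧ c < dg Δ x v := by
  induction v with
  | nil => intro x c h; exact ⟨trivial, h.1⟩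
  | cons d v ih =>
    intro x c h
    obtain ⟨hd, hZ, h⟩ := h
    obtain ⟨h1, h2⟩ := ih h
    exact ⟨⟨hd, hZ, h1⟩, h2⟩

end Pool.Agent.H94
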