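import Pool.Agent.H94.Iso

set_option autoImplicit false
open scoped ENNReal
open MeasureTheory ProbabilityTheory

noncomputable section

namespace Pool.Agent.H94

lemma measurable_sub (c : ℕ) : Measurable (fun x : Env => sub x c) := by
  rw [measurable_pi_iff]
  intro v
  exact measurable_pi_apply _

lemma measurable_rr : Measurable (fun x : Env => rr x) := by
  rw [measurable_pi_iff]
  intro v
  exact measurable_pi_apply _

lemma measurable_swEnv (i : ℕ) : Measurable (fun x : Env => swEnv i x) := by
  rw [measurable_pi_iff]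
  intro v
  exact measurable_pi_apply _

lemma measurable_updateNil (D : ℕ) : Measurable (fun x : Env => Function.update x [] D) := by
  rw [measurable_pi_iff]
  intro v
  by_cases h : v = []
  · subst h; simp only [Function.update_self]; exact measurable_const
  · simp only [Function.update_of_ne h]; exact measurable_pi_apply _

lemma measurable_updateNil' :
    Measurable (fun p : ℕ × Env => Function.update p.2 [] p.1) := by
  rw [measurable_pi_iff]
  intro v
  by_cases h : v = []
  · subst h; simp only [Function.update_self]; exact measurable_fst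
  · simp only [Function.update_of_ne h]; exact (measurable_pi_apply _).comp measurable_snd

lemma measurable_bump : Measurable (fun x : Env => bump x) := by
  rw [measurable_pi_iff]
  intro v
  unfold bump
  by_cases h : v = []
  · subst h; simp only [Function.update_self]
    exact (measurable_pi_apply _).add_const 1
  · simp only [Function.update_of_ne h]; exact measurable_pi_apply _

/-- all words carry independent offspring numbers of law `qh` -/
def QQ (qh : Measure ℕ) [IsProbabilityMeasure qh] : Measure Env :=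
  Measure.infinitePi (fun _ : List ℕ => qh)

instance (qh : Measure ℕ) [IsProbabilityMeasure qh] : IsProbabilityMeasure (QQ qh) := by
  unfold QQ; infer_instance

/-- the root has offspring law `μ0`, the others `qh` -/
def PP (μ0 qh : Measure ℕ) [IsProbabilityMeasure μ0] [IsProbabilityMeasure qh] : Measure Env :=
  (μ0.prod (QQ qh)).map (fun p : ℕ × Env => Function.update p.2 [] p.1)

instance (μ0 qh : Measure ℕ) [IsProbabilityMeasure μ0] [IsProbabilityMeasure qh] :
    IsProbabilityMeasure (PP μ0 qh) := by
  unfold PP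
  exact Measure.isProbabilityMeasure_map measurable_updateNil'.aemeasurable

lemma infinitePi_eq_PP (μ : List ℕ → Measure ℕ) [∀ v, IsProbabilityMeasure (μ v)]
    (qh : Measure ℕ) [IsProbabilityMeasure qh] (h : ∀ v, v ≠ [] → μ v = qh) :
    Measure.infinitePi μ = PP (μ []) qh := by
  symm
  apply Measure.eq_infinitePi
  intro s t ht
  unfold PP
  rw [Measure.map_apply measurable_updateNil' (.pi s.countable_toSet (fun i _ => ht i))]
  have h1 : (fun p : ℕ × Env => Function.update p.2 [] p.1) ⁻¹' (Set.pi s t) =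
      (if [] ∈ s then t [] else Set.univ) ×ˢ (Set.pi (s.erase []) t) := by
    ext ⟨D, y⟩
    simp only [Set.mem_preimage, Set.mem_pi, Set.mem_prod, Finset.mem_coe, Finset.mem_erase]
    constructor
    · intro hh
      constructor
      · split_ifs with h0
        · have := hh [] h0
          simpa using this
        · trivial
      · rintro v ⟨hv0, hv⟩
        have := hh v hv
        rwa [Function.update_of_ne hv0] at this
    · rintro ⟨hh1, hh2⟩ v hv
      by_cases hv0 : v = []
      · subst hv0
        rw [if_pos hv] at hh1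
        simpa using hh1
      · rw [Function.update_of_ne hv0]
        exact hh2 v ⟨hv0, hv⟩
  rw [h1, Measure.prod_prod]
  unfold QQ
  rw [Measure.infinitePi_pi _ (fun i _ => ht i)]
  have h2 : ∏ i ∈ s.erase [], qh (t i) = ∏ i ∈ s.erase [], μ i (t i) := by
    apply Finset.prod_congr rfl
    intro i hi
    rw [h i (Finset.mem_erase.1 hi).1]
  rw [h2]
  by_cases h0 : [] ∈ s
  · rw [if_pos h0, Finset.mul_prod_erase s (fun i => μ i (t i)) h0]
  · rw [if_neg h0, measure_univ, one_mul, Finset.erase_eq_of_notMem h0]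

lemma QQ_eq_PP (qh : Measure ℕ) [IsProbabilityMeasure qh] : QQ qh = PP qh qh :=
  infinitePi_eq_PP (fun _ => qh) qh (fun _ _ => rfl)

lemma PP_eq_infinitePi (μ0 qh : Measure ℕ) [IsProbabilityMeasure μ0] [IsProbabilityMeasure qh] :
    PP μ0 qh = Measure.infinitePi (fun v : List ℕ => Function.update (fun _ => qh) [] μ0 v) := by
  have : ∀ v : List ℕ, IsProbabilityMeasure (Function.update (fun _ : List ℕ => qh) [] μ0 v) := by
    intro v
    by_cases h : v = []
    · subst h; rw [Function.update_self]; infer_instance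
    · rw [Function.update_of_ne h]; infer_instance
  have h1 := infinitePi_eq_PP (fun v => Function.update (fun _ : List ℕ => qh) [] μ0 v) qh
    (fun v hv => by simp only [Function.update_of_ne hv])
  simp only [Function.update_self] at h1
  exact h1.symm

lemma lintegral_PP (μ0 qh : Measure ℕ) [IsProbabilityMeasure μ0] [IsProbabilityMeasure qh]
    {G : Env → ℝ≥0∞} (hG : Measurable G) :
    ∫⁻ x, G x ∂(PP μ0 qh) = ∑' D, μ0 {D} * ∫⁻ y, G (Function.update y [] D) ∂(QQ qh) := by
  unfold PP
  rw [lintegral_map hG measurable_updateNil',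
    lintegral_prod (fun p : ℕ × Env => G (Function.update p.2 [] p.1))
      (hG.comp measurable_updateNil').aemeasurable, lintegral_countable']
  congr 1
  ext D
  rw [mul_comm]

lemma lintegral_QQ (qh : Measure ℕ) [IsProbabilityMeasure qh]
    {G : Env → ℝ≥0∞} (hG : Measurable G) :
    ∫⁻ x, G x ∂(QQ qh) = ∑' D, qh {D} * ∫⁻ y, G (Function.update y [] D) ∂(QQ qh) := by
  conv_lhs => rw [QQ_eq_PP]
  exact lintegral_PP qh qh hG

/-- size bias -/
lemma size_bias (μ0 qh : Measure ℕ) [IsProbabilityMeasure μ0] [IsProbabilityMeasure qh]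
    (m : ℝ≥0∞) (hm : ∀ k : ℕ, ((k : ℝ≥0∞) + 1) * μ0 {k + 1} = m * qh {k})
    {G : Env → ℝ≥0∞} (hG : Measurable G) :
    ∫⁻ x, (x [] : ℝ≥0∞) * G x ∂(PP μ0 qh) = m * ∫⁻ y, G (bump y) ∂(QQ qh) := by
  have hcast : Measurable (fun x : Env => (x [] : ℝ≥0∞)) :=
    (measurable_of_countable (fun n : ℕ => (n : ℝ≥0∞))).comp (measurable_pi_apply _)
  rw [lintegral_PP μ0 qh (G := fun x => (x [] : ℝ≥0∞) * G x) (hcast.mul hG),
    lintegral_QQ qh (G := fun y => G (bump y)) (hG.comp measurable_bump)]
  simp only [Function.update_self]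
  rw [tsum_eq_zero_add' ENNReal.summable, ← ENNReal.tsum_mul_left]
  simp only [Nat.cast_zero, zero_mul, lintegral_zero, mul_zero, zero_add]
  congr 1
  ext k
  have h1 : ∀ y : Env, bump (Function.update y [] k) = Function.update y [] (k + 1) := by
    intro y
    unfold bump
    simp
  simp only [h1]
  rw [lintegral_const_mul (f := fun y => G (Function.update y [] (k + 1))) _
    (hG.comp (measurable_updateNil (k + 1)))]
  rw [← mul_assoc, ← mul_assoc, ← hm k]
  push_cast
  ring

lemma map_QQ (qh : Measure ℕ) [IsProbabilityMeasure qh] (f : List ℕ → List ℕ)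
    (hf : Function.Injective f) : (QQ qh).map (fun y v => y (f v)) = QQ qh := by
  unfold QQ
  exact Measure.map_infinitePi_infinitePi_of_inj hf

lemma measurable_reindex {κ : Type*} (f : κ → List ℕ) :
    Measurable (fun (y : Env) (k : κ) => y (f k)) := by
  rw [measurable_pi_iff]
  intro v
  exact measurable_pi_apply _

lemma lintegral_rr (qh : Measure ℕ) [IsProbabilityMeasure qh]
    {G : Env → ℝ≥0∞} (hG : Measurable G) :
    ∫⁻ y, G (rr y) ∂(QQ qh) = ∫⁻ y, G y ∂(QQ qh) := by
  conv_rhs => rw [← map_QQ qh pr pr.injective]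
  rw [lintegral_map hG (measurable_reindex _)]
  rfl

lemma lintegral_sub (qh : Measure ℕ) [IsProbabilityMeasure qh] (c : ℕ)
    {G : Env → ℝ≥0∞} (hG : Measurable G) :
    ∫⁻ y, G (sub y c) ∂(QQ qh) = ∫⁻ y, G y ∂(QQ qh) := by
  conv_rhs => rw [← map_QQ qh _ (cons_inj c)]
  rw [lintegral_map hG (measurable_reindex _)]
  rfl

lemma map_PP_swEnv (μ0 qh : Measure ℕ) [IsProbabilityMeasure μ0] [IsProbabilityMeasure qh]
    (i : ℕ) : (PP μ0 qh).map (swEnv i) = PP μ0 qh := by
  have hp : ∀ v : List ℕ, IsProbabilityMeasure (Function.update (fun _ : List ℕ => qh) [] μ0 v) := by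
    intro v
    by_cases h : v = []
    · subst h; rw [Function.update_self]; infer_instance
    · rw [Function.update_of_ne h]; infer_instance
  rw [PP_eq_infinitePi]
  have h1 := Measure.map_infinitePi_infinitePi_of_inj
    (P := fun v : List ℕ => Function.update (fun _ => qh) [] μ0 v) (sw i).injective
  have h2 : (fun ω : Env => fun v => ω ((sw i) v)) = swEnv i := rfl
  rw [h2] at h1
  rw [h1]
  congr 1
  ext v
  have h3 : Function.update (fun _ : List ℕ => qh) [] μ0 (sw i v) =
      Function.update (fun _ : List ℕ => qh) [] μ0 v := by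
    cases v with
    | nil => rfl
    | cons c v => simp
  rw [h3]

lemma lintegral_swEnv (μ0 qh : Measure ℕ) [IsProbabilityMeasure μ0] [IsProbabilityMeasure qh]
    (i : ℕ) {G : Env → ℝ≥0∞} (hG : Measurable G) :
    ∫⁻ y, G (swEnv i y) ∂(PP μ0 qh) = ∫⁻ y, G y ∂(PP μ0 qh) := by
  conv_rhs => rw [← map_PP_swEnv μ0 qh i]
  rw [lintegral_map hG (measurable_swEnv i)]

/-- exchangeability of the children of the root -/
lemma exchange (μ0 qh : Measure ℕ) [IsProbabilityMeasure μ0] [IsProbabilityMeasure qh]
    {G : Env → ℝ≥0∞} (hG : Measurable G) :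
    ∫⁻ x, (x [] : ℝ≥0∞) * G x ∂(PP μ0 qh) =
      ∫⁻ x, ∑ i ∈ Finset.range (x []), G (swEnv i x) ∂(PP μ0 qh) := by
  have h1 : ∀ x : Env, (x [] : ℝ≥0∞) * G x = ∑' i : ℕ, if i < x [] then G x else 0 := by
    intro x
    rw [tsum_eq_sum (s := Finset.range (x []))]
    · rw [Finset.sum_congr rfl (fun i hi => if_pos (Finset.mem_range.1 hi)), Finset.sum_const,
        Finset.card_range, nsmul_eq_mul]
    · intro i hi
      rw [if_neg (by simpa using hi)]
  have h2 : ∀ x : Env, ∑ i ∈ Finset.range (x []), G (swEnv i x) =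
      ∑' i : ℕ, if i < (swEnv i x) [] then G (swEnv i x) else 0 := by
    intro x
    rw [tsum_eq_sum (s := Finset.range (x []))]
    · apply Finset.sum_congr rfl
      intro i hi
      rw [if_pos]
      exact Finset.mem_range.1 hi
    · intro i hi
      rw [if_neg]
      intro h
      exact hi (Finset.mem_range.2 h)
  have hm : ∀ i : ℕ, Measurable (fun x : Env => if i < x [] then G x else 0) := by
    intro i
    exact Measurable.ite (measurableSet_lt measurable_const (measurable_pi_apply _)) hG
      measurable_const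
  simp only [h1, h2]
  rw [lintegral_tsum (fun i => (hm i).aemeasurable),
    lintegral_tsum (f := fun i x => if i < (swEnv i x) [] then G (swEnv i x) else 0)
      (fun i => ((hm i).comp (measurable_swEnv i)).aemeasurable)]
  congr 1
  ext i
  exact (lintegral_swEnv μ0 qh i (hm i)).symm

/-- restrictions to disjoint parts are independent -/
lemma map_QQ_pi {κ : Type*} (qh : Measure ℕ) [IsProbabilityMeasure qh] (f : κ → List ℕ → List ℕ)
    (hf : Function.Injective (fun p : κ × List ℕ => f p.1 p.2)) :
    (QQ qh).map (fun y (k : κ) v => y (f k v)) = Measure.infinitePi (fun _ : κ => QQ qh) := by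
  have h1 := Measure.map_infinitePi_infinitePi_of_inj (P := fun _ : List ℕ => qh) hf
  have h2 := Measure.infinitePi_map_curry (fun (_ : κ) (_ : List ℕ) => qh)
  unfold QQ
  rw [← h2, ← h1, Measure.map_map (by fun_prop) (by fun_prop)]
  rfl

lemma lintegral_prod_parts {κ : Type*} (qh : Measure ℕ) [IsProbabilityMeasure qh]
    (f : κ → List ℕ → List ℕ) (hf : Function.Injective (fun p : κ × List ℕ => f p.1 p.2))
    (ψ : κ → Env → ℝ≥0∞) (hψ : ∀ k, Measurable (ψ k)) (s : Finset κ) :
    ∫⁻ y, ∏ k ∈ s, ψ k (fun v => y (f k v)) ∂(QQ qh) = ∏ k ∈ s, ∫⁻ y, ψ k y ∂(QQ qh) := by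
  have h1 : Measurable (fun (y : Env) (k : κ) (v : List ℕ) => y (f k v)) := by
    rw [measurable_pi_iff]
    intro k
    exact measurable_reindex _
  have h2 : Measurable (fun z : κ → Env => ∏ k ∈ s, ψ k (z k)) := by
    apply Finset.measurable_prod
    intro k _
    exact (hψ k).comp (measurable_pi_apply k)
  have h3 : ∫⁻ y, ∏ k ∈ s, ψ k (fun v => y (f k v)) ∂(QQ qh) =
      ∫⁻ z, ∏ k ∈ s, ψ k (z k) ∂((QQ qh).map (fun y (k : κ) v => y (f k v))) := by
    rw [lintegral_map h2 h1]
  rw [h3, map_QQ_pi qh f hf]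
  have h4 : iIndepFun (fun (k : κ) (z : κ → Env) => ψ k (z k))
      (Measure.infinitePi (fun _ : κ => QQ qh)) :=
    iIndepFun_infinitePi (P := fun _ : κ => QQ qh) (X := fun k => ψ k) hψ
  rw [lintegral_prod_eq_prod_lintegral_of_indepFun s _ h4
    (fun k => (hψ k).comp (measurable_pi_apply k))]
  apply Finset.prod_congr rfl
  intro k _
  have h5 := Measure.infinitePi_map_eval (fun _ : κ => QQ qh) k
  conv_rhs => rw [← h5]
  rw [lintegral_map (hψ k) (measurable_pi_apply k)]

/-- the subtrees of the children are independent -/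
lemma lintegral_prod_sub (qh : Measure ℕ) [IsProbabilityMeasure qh]
    (ψ : ℕ → Env → ℝ≥0∞) (hψ : ∀ k, Measurable (ψ k)) (s : Finset ℕ) :
    ∫⁻ y, ∏ k ∈ s, ψ k (sub y k) ∂(QQ qh) = ∏ k ∈ s, ∫⁻ y, ψ k y ∂(QQ qh) :=
  lintegral_prod_parts qh (fun k v => k :: v) (by
    rintro ⟨a, b⟩ ⟨c, d⟩ h
    simp only [List.cons.injEq] at h
    exact Prod.ext h.1 h.2) ψ hψ s

lemma lintegral_mul_rr (qh : Measure ℕ) [IsProbabilityMeasure qh]
    {F G : Env → ℝ≥0∞} (hF : Measurable F) (hG : Measurable G) :
    ∫⁻ y, F (sub y 0) * G (sub (rr y) 0) ∂(QQ qh) =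
      (∫⁻ y, F y ∂(QQ qh)) * ∫⁻ y, G y ∂(QQ qh) := by
  have h := lintegral_prod_parts qh (fun (k : Bool) v => if k then pr (0 :: v) else 0 :: v) (by
    rintro ⟨a, v⟩ ⟨b, w⟩ h
    have key : ∀ v w : List ℕ, pr (0 :: v) ≠ 0 :: w := by
      intro v w h
      match v with
      | [] => simp at h
      | c :: v => simp at h
    cases a <;> cases b <;> simp only [if_true, if_false, Bool.false_eq_true] at h
    · simp at h; simp [h]
    · exact absurd h.symm (key _ _)
    · exact absurd h (key _ _)
    · have := pr.injective h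
      simp at this; simp [this]) (fun k => if k then G else F) (by
      intro k; cases k
      · simpa using hF
      · simpa using hG) Finset.univ
  simp only [Fintype.prod_bool, if_true, if_false, Bool.false_eq_true] at h
  rw [mul_comm (∫⁻ y, F y ∂(QQ qh)), ← h]
  congr 1
  ext y
  rw [mul_comm]
  rfl

end Pool.Agent.H94
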