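import Pool.Agent.H94.Erg
import Pool.Agent.H94.Prob

set_option autoImplicit false
open scoped ENNReal InnerProductSpace Classical
open Filter Topology MeasureTheory

noncomputable section

namespace Pool.Agent.H94

lemma measurableSet_Pp (Δ : ℕ) (lam : ℝ) : MeasurableSet {x : Env | Pp Δ lam x} :=
  measurableSet_lt measurable_const (measurable_aa Δ lam)

lemma measurableSet_Zz (Δ : ℕ) (lam : ℝ) : MeasurableSet {x : Env | Zz Δ lam x} := by
  have : {x : Env | Zz Δ lam x} =
      ⋃ c : ℕ, ({x : Env | c < dg Δ x []} ∩ {x : Env | Pp Δ lam (sub x c)}) := by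
    ext x
    simp [Zz]
  rw [this]
  exact MeasurableSet.iUnion (fun c => (measurableSet_lt_dg Δ [] c).inter
    (measurable_sub c (measurableSet_Pp Δ lam)))

lemma measurableSet_inC (Δ : ℕ) (lam : ℝ) (v : List ℕ) :
    MeasurableSet {x : Env | inC Δ lam v x} := by
  induction v with
  | nil => simp [inC]
  | cons c v ih =>
    have : {x : Env | inC Δ lam (c :: v) x} =
        {x : Env | c < dg Δ x []} ∩ ({x : Env | Zz Δ lam (sub x c)}ᶜ ∩
          {x : Env | inC Δ lam v (sub x c)}) := by
      ext x
      simp [inC]
    rw [this]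
    exact (measurableSet_lt_dg Δ [] c).inter
      (((measurable_sub c (measurableSet_Zz Δ lam))).compl.inter (measurable_sub c ih))

lemma measurable_sz (Δ : ℕ) (lam : ℝ) : Measurable (fun x : Env => sz Δ lam x) := by
  unfold sz
  refine Measurable.ennreal_tsum (fun v => ?_)
  exact Measurable.ite (measurableSet_inC Δ lam v) measurable_const measurable_const

lemma measurable_norm_sq_of_Mf {F : Env → H} (hF : Mf F) :
    Measurable (fun x => ‖F x‖ ^ 2) := by
  refine measurable_of_tendsto_metrizable' (atTop : Filter (Finset (List ℕ)))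
    (f := fun (s : Finset (List ℕ)) x => ∑ v ∈ s, F x v ^ 2) ?_ ?_
  · intro s
    exact Finset.measurable_sum _ (fun v _ => (hF v).pow_const 2)
  · rw [tendsto_pi_nhds]
    intro x
    exact H.hasSum_norm_sq (F x)

lemma Mf_phi (Δ : ℕ) (lam : ℝ) (u : List ℕ) : Mf (fun x => phi Δ lam x u) :=
  fun v => measurable_phi Δ lam u v

lemma measurable_th (Δ : ℕ) (lam : ℝ) (i : ℕ) : Measurable (fun x : Env => th Δ lam x i) := by
  unfold th
  refine Measurable.div (measurable_norm_sq_of_Mf ?_) (measurable_aa Δ lam)
  intro v
  exact measurable_phi Δ lam [] (i :: v)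

lemma measurable_gz (Δ : ℕ) (lam : ℝ) (c : ℕ) : Measurable (fun x : Env => gz Δ lam x c) := by
  unfold gz
  exact Measurable.ite (measurable_sub c (measurableSet_Zz Δ lam)) measurable_const
    ((measurable_sz Δ lam).comp (measurable_sub c))

lemma measurable_tt : Measurable (fun p : ℝ≥0∞ × ℝ≥0∞ => tt p.1 p.2) := by
  unfold tt
  refine Measurable.ite (measurable_fst (measurableSet_singleton _)) ?_ ?_
  · refine Measurable.ite (measurable_snd (measurableSet_singleton _)) measurable_const
      measurable_const
  · refine Measurable.ite (measurable_snd (measurableSet_singleton _)) measurable_const ?_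
    exact measurable_fst.div (measurable_fst.add measurable_snd)

lemma measurable_Sa (Δ : ℕ) (lam : ℝ) : Measurable (fun x : Env => Sa Δ lam x) := by
  have : (fun x : Env => Sa Δ lam x) = fun x => ∑ c ∈ Finset.range Δ,
      if c < dg Δ x [] then aa Δ lam (sub x c) else 0 := by
    ext x
    unfold Sa
    rw [← Finset.sum_filter]
    congr 1
    ext c
    simp only [Finset.mem_filter, Finset.mem_range]
    constructor
    · intro h; exact ⟨lt_of_lt_of_le h (dg_le _ _ _), h⟩
    · rintro ⟨_, h⟩; exact h
  rw [this]
  refine Finset.measurable_sum _ (fun c _ => ?_)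
  exact Measurable.ite (measurableSet_lt_dg Δ [] c)
    ((measurable_aa Δ lam).comp (measurable_sub c)) measurable_const

end Pool.Agent.H94
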