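import Pool.Agent.H94.WeylF

/-!
Power saving for exponential sums over values of an integer polynomial, all degrees and all
scales.
-/

namespace Pool.Agent.H94.Weyl

open Finset Polynomial

lemma split_interval (R : ℕ) (P : ℤ[X]) (n : ℕ) (M : ℝ) (hM : 0 ≤ M)
    (h : ∀ x y : ℤ, y - x ≤ n → ‖SS R P x y‖ ≤ M) (m : ℕ) :
    ∀ x y : ℤ, y - x ≤ m * n → ‖SS R P x y‖ ≤ m * M := by
  induction m with
  | zero =>
    intro x y hxy
    have : Ico x y = ∅ := by
      apply Finset.Ico_eq_empty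
      push_cast at hxy
      omega
    unfold SS
    rw [this, sum_empty, norm_zero]
    push_cast
    linarith
  | succ m ih =>
    intro x y hxy
    push_cast at hxy ⊢
    by_cases hy : y ≤ x + n
    · have h1 := h x y (by omega)
      have h2 : 0 ≤ (m : ℝ) * M := by positivity
      linarith
    · have h1 : SS R P x y = SS R P x (x + n) + SS R P (x + n) y := by
        unfold SS
        rw [← Finset.sum_union (Finset.Ico_disjoint_Ico_consecutive _ _ _),
          Finset.Ico_union_Ico_eq_Ico (by omega) (by omega)]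
      rw [h1]
      refine (norm_add_le _ _).trans ?_
      have h2 := h x (x + n) (by omega)
      have h3 := ih (x + n) y (by
        have : ((m : ℤ) + 1) * n = m * n + n := by ring
        omega)
      linarith

lemma lb_coprime_le (N : ℝ) (a : ℤ) (R : ℕ) (hR : 2 ≤ R) (ha : IsCoprime a (R : ℤ)) :
    lb N ((a : ℝ) / R) ≤ R := by
  have hRz : (R : ℤ) ≠ 0 := by omega
  have hR0 : (0 : ℝ) < R := by exact_mod_cast (by omega : 0 < R)
  obtain ⟨r, hr⟩ := Int.eq_ofNat_of_zero_le (Int.emod_nonneg a hRz)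
  have hrR : r < R := by
    have := Int.emod_lt_of_pos a (by omega : (0 : ℤ) < R)
    omega
  have hr0 : r ≠ 0 := by
    rintro rfl
    have h1 : (R : ℤ) ∣ a := Int.dvd_of_emod_eq_zero (by simpa using hr)
    have h2 : IsCoprime (R : ℤ) (R : ℤ) := ha.of_isCoprime_of_dvd_left h1
    have h3 := Int.isCoprime_iff_gcd_eq_one.1 h2
    rw [Int.gcd_self] at h3
    simp at h3
    omega
  have h1 : (a : ℝ) / R = (r : ℝ) / R + ((a / (R : ℤ) : ℤ) : ℝ) := by
    have h3 := Int.emod_add_mul_ediv a (R : ℤ)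
    rw [hr] at h3
    have h4 : (a : ℝ) = (r : ℝ) + (R : ℝ) * ((a / (R : ℤ) : ℤ) : ℝ) := by
      exact_mod_cast h3.symm
    rw [h4]
    field_simp
  rw [h1, lb_add_int]
  have hr1 : (1 : ℝ) ≤ r := by exact_mod_cast (by omega : 1 ≤ r)
  have hr2 : (1 : ℝ) ≤ R - r := by
    have : (r : ℝ) + 1 ≤ R := by exact_mod_cast hrR
    linarith
  have hfr : Int.fract ((r : ℝ) / R) = (r : ℝ) / R := by
    rw [Int.fract_eq_self]
    exact ⟨by positivity, by rw [div_lt_one hR0]; linarith⟩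
  unfold lb
  rw [hfr, if_neg (by positivity)]
  refine (min_le_right _ _).trans ?_
  have h4 : (1 : ℝ) - r / R = (R - r) / R := by field_simp
  rw [h4, one_div_div, one_div_div]
  have h5 : (R : ℝ) / r ≤ R := div_le_self hR0.le hr1
  have h6 : (R : ℝ) / (R - r) ≤ R := div_le_self hR0.le hr2
  linarith

/-- Power saving at all scales. -/
theorem weyl_star (F : ℤ[X]) (d : ℕ) (hd : 1 ≤ d) (hF : F.natDegree = d) (B b : ℕ)
    (hB : 1 ≤ B) : ∃ C c : ℝ, 1 ≤ C ∧ 0 < c ∧ c ≤ 1 ∧ ∀ (e : ℕ), e.Coprime b → ∀ (q : ℕ), 1 ≤ q →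
      (∃ j, q ∣ b ^ j) → ∀ c0 : ℤ, IsCoprime c0 (q : ℤ) → ∀ N : ℕ, 1 ≤ N →
      q ^ 4 ≤ N ^ (4 * d - 1) → ∀ x y : ℤ, y - x ≤ N →
      ‖SS (B * q) (dil F c0 e) x y‖ ≤ C * N * (q : ℝ) ^ (-c) := by
  obtain ⟨k, rfl⟩ : ∃ k, d = k + 1 := ⟨d - 1, by omega⟩
  rcases Nat.eq_zero_or_pos k with hk | hk
  · -- degree one
    subst hk
    have hA : F.coeff 1 ≠ 0 := by
      have h0 : F.coeff F.natDegree ≠ 0 := by
        rw [coeff_natDegree]
        intro h
        rw [leadingCoeff_eq_zero] at h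
        rw [h] at hF
        simp at hF
      rwa [hF] at h0
    set M0 := (0 + 1).factorial * (F.coeff 1).natAbs with hM0
    have hM01 : 1 ≤ M0 := Nat.mul_pos (Nat.factorial_pos _) (Int.natAbs_pos.2 hA)
    refine ⟨max (B : ℝ) (M0 : ℝ), 1 / 3, ?_, by norm_num, by norm_num, ?_⟩
    · have : (1 : ℝ) ≤ B := by exact_mod_cast hB
      exact le_max_of_le_left this
    intro e he q hq hqb c0 hc N hN hq4 x y hxy
    obtain ⟨R', a', hR'1, ha', hR'B, hqR', hred⟩ :=
      reduced (F.coeff 1) hA (0 + 1) B b hB e he q hq hqb c0 hc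
    have hPd : (dil F c0 e).natDegree ≤ 0 + 1 := (dil_natDegree F c0 e).trans hF.le
    have hW := weyl_ineq (B * q) N hN 0 (dil F c0 e) hPd x y hxy
    have hN1 : (1 : ℝ) ≤ N := by exact_mod_cast hN
    have hq1 : (1 : ℝ) ≤ q := by exact_mod_cast hq
    have hq0 : (0 : ℝ) < q := by linarith
    simp only [zero_add, pow_one, pow_zero, psi, dil_coeff] at hW
    have h1 : ‖SS (B * q) (dil F c0 e) x y‖ ≤ lb N ((a' : ℝ) / R') := by
      have h2 := le_of_mul_le_mul_left hW (by linarith)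
      rw [← hred]
      simpa using h2
    refine h1.trans ?_
    rcases Nat.lt_or_ge R' 2 with h | h
    · -- `R' = 1`
      have hR1 : R' = 1 := by omega
      rw [hR1, one_mul] at hqR'
      have h3 : (q : ℝ) ^ ((1 : ℝ) / 3) ≤ M0 := by
        calc (q : ℝ) ^ ((1 : ℝ) / 3) ≤ (q : ℝ) ^ (1 : ℝ) :=
              Real.rpow_le_rpow_of_exponent_le hq1 (by norm_num)
          _ = q := Real.rpow_one _
          _ ≤ M0 := by exact_mod_cast hqR'
      have h4 : (1 : ℝ) ≤ max (B : ℝ) (M0 : ℝ) * (q : ℝ) ^ (-(1 / 3) : ℝ) := by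
        rw [Real.rpow_neg hq0.le, ← div_eq_mul_inv, le_div_iff₀ (by positivity), one_mul]
        exact h3.trans (le_max_right _ _)
      refine (lb_le _ _).trans ?_
      have h5 := mul_le_mul_of_nonneg_right h4 (by linarith : (0 : ℝ) ≤ N)
      linarith
    · have h3 := lb_coprime_le N a' R' h ha'
      refine h3.trans ?_
      have h4 : (R' : ℝ) ≤ B * q := by exact_mod_cast hR'B
      have h5 : (q : ℝ) ≤ N * (q : ℝ) ^ (-(1 / 3) : ℝ) := by
        have h6 : (q : ℝ) ^ ((4 : ℝ) / 3) ≤ N := by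
          have h7 : ((q : ℝ) ^ ((4 : ℝ) / 3)) ^ (3 : ℕ) ≤ (N : ℝ) ^ (3 : ℕ) := by
            rw [← Real.rpow_natCast, ← Real.rpow_mul hq0.le]
            have h8 : (4 : ℝ) / 3 * ((3 : ℕ) : ℝ) = ((4 : ℕ) : ℝ) := by norm_num
            rw [h8, Real.rpow_natCast]
            exact_mod_cast hq4
          exact (pow_le_pow_iff_left₀ (by positivity) (by positivity) (by norm_num)).1 h7
        calc (q : ℝ) = (q : ℝ) ^ ((4 : ℝ) / 3) * (q : ℝ) ^ (-(1 / 3) : ℝ) := by
              rw [← Real.rpow_add hq0]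
              norm_num
          _ ≤ _ := mul_le_mul_of_nonneg_right h6 (by positivity)
      calc (R' : ℝ) ≤ B * q := h4
        _ ≤ B * (N * (q : ℝ) ^ (-(1 / 3) : ℝ)) := mul_le_mul_of_nonneg_left h5 (by positivity)
        _ ≤ max (B : ℝ) (M0 : ℝ) * (N * (q : ℝ) ^ (-(1 / 3) : ℝ)) :=
            mul_le_mul_of_nonneg_right (le_max_left _ _) (by positivity)
        _ = _ := by ring
  · obtain ⟨C1, hC1, hone⟩ := one_scale F k hk hF B b hB
    set c1 : ℝ := 3 / (16 * (2 : ℝ) ^ k) with hc1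
    have hc1pos : 0 < c1 := by positivity
    have hk1 : (1 : ℝ) ≤ (k : ℝ) + 1 := by
      have : (0 : ℝ) ≤ k := Nat.cast_nonneg k
      linarith
    have hc1le : c1 ≤ 1 := by
      rw [hc1, div_le_one (by positivity)]
      have : (1 : ℝ) ≤ 2 ^ k := one_le_pow₀ (by norm_num)
      linarith
    refine ⟨2 * C1, c1 / (k + 1), by linarith, by positivity, ?_, ?_⟩
    · exact (div_le_self hc1pos.le hk1).trans hc1le
    intro e he q hq hqb c0 hc N hN hq4 x y hxy
    have hexp : 4 * (k + 1) - 1 = 4 * k + 3 := by omega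
    rw [hexp] at hq4
    set n := min N (B * q) with hn
    have hn1 : 1 ≤ n := le_min hN (Nat.mul_pos hB hq)
    have hnBq : n ≤ B * q := min_le_right _ _
    have hnN : n ≤ N := min_le_left _ _
    have hqB : q ≤ B * q := Nat.le_mul_of_pos_left q hB
    have hq4n : q ^ 4 ≤ n ^ (4 * k + 3) := by
      rcases le_total N (B * q) with h | h
      · rw [hn, min_eq_left h]; exact hq4
      · rw [hn, min_eq_right h]
        calc q ^ 4 ≤ (B * q) ^ 4 := Nat.pow_le_pow_left hqB 4
          _ ≤ (B * q) ^ (4 * k + 3) := Nat.pow_le_pow_right (Nat.mul_pos hB hq) (by omega)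
    have hn1' : (1 : ℝ) ≤ n := by exact_mod_cast hn1
    have hn0 : (0 : ℝ) < n := by linarith
    have hq1 : (1 : ℝ) ≤ q := by exact_mod_cast hq
    have hq0 : (0 : ℝ) < q := by linarith
    have hM : 0 ≤ C1 * (n : ℝ) ^ (1 - c1) := by positivity
    have h1 := split_interval (B * q) (dil F c0 e) n (C1 * (n : ℝ) ^ (1 - c1)) hM
      (fun x y hxy => hone e he q hq hqb c0 hc n hn1 hnBq hq4n x y hxy) (N / n + 1) x y (by
        have h2 := Nat.lt_div_mul_add (a := N) (b := n) (by omega)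
        have h3 : (((N / n + 1 : ℕ) : ℤ)) * (n : ℤ) = ((N / n * n + n : ℕ) : ℤ) := by
          push_cast; ring
        rw [h3]
        omega)
    refine h1.trans ?_
    have h4 : (((N / n + 1 : ℕ)) : ℝ) ≤ 2 * (N / n) := by
      push_cast
      have h5 := @Nat.cast_div_le ℝ _ _ _ N n
      have h6 : (1 : ℝ) ≤ (N : ℝ) / n := by
        rw [le_div_iff₀ hn0, one_mul]; exact_mod_cast hnN
      linarith
    have h7 : (n : ℝ) ^ (-c1) ≤ (q : ℝ) ^ (-(c1 / (k + 1))) := by
      rcases le_total N (B * q) with h | h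
      · have hnN' : n = N := by rw [hn, min_eq_left h]
        have h8 : (q : ℝ) ≤ (n : ℝ) ^ ((k : ℝ) + 1) := by
          have h9 : (q : ℝ) ^ (4 : ℕ) ≤ ((n : ℝ) ^ ((k : ℝ) + 1)) ^ (4 : ℕ) := by
            rw [← Real.rpow_natCast ((n : ℝ) ^ ((k : ℝ) + 1)), ← Real.rpow_mul hn0.le]
            have h10 : ((k : ℝ) + 1) * ((4 : ℕ) : ℝ) = ((4 * k + 4 : ℕ) : ℝ) := by
              push_cast; ring
            rw [h10, Real.rpow_natCast]
            have h11 : q ^ 4 ≤ n ^ (4 * k + 4) :=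
              hq4n.trans (Nat.pow_le_pow_right hn1 (by omega))
            exact_mod_cast h11
          exact (pow_le_pow_iff_left₀ (by positivity) (by positivity) (by norm_num)).1 h9
        have h12 : (q : ℝ) ^ (c1 / (k + 1)) ≤ (n : ℝ) ^ c1 := by
          calc (q : ℝ) ^ (c1 / (k + 1)) ≤ ((n : ℝ) ^ ((k : ℝ) + 1)) ^ (c1 / (k + 1)) :=
                Real.rpow_le_rpow hq0.le h8 (by positivity)
            _ = (n : ℝ) ^ c1 := by
                rw [← Real.rpow_mul hn0.le]
                congr 1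
                field_simp
        rw [Real.rpow_neg hn0.le, Real.rpow_neg hq0.le]
        exact inv_anti₀ (by positivity) h12
      · have hnB : n = B * q := by rw [hn, min_eq_right h]
        have h8 : (q : ℝ) ≤ n := by rw [hnB]; exact_mod_cast hqB
        rw [Real.rpow_neg hn0.le, Real.rpow_neg hq0.le]
        apply inv_anti₀ (by positivity)
        calc (q : ℝ) ^ (c1 / (k + 1)) ≤ (q : ℝ) ^ c1 :=
              Real.rpow_le_rpow_of_exponent_le hq1 (div_le_self hc1pos.le hk1)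
          _ ≤ (n : ℝ) ^ c1 := Real.rpow_le_rpow hq0.le h8 hc1pos.le
    calc (((N / n + 1 : ℕ)) : ℝ) * (C1 * (n : ℝ) ^ (1 - c1))
        ≤ 2 * (N / n) * (C1 * (n : ℝ) ^ (1 - c1)) := mul_le_mul_of_nonneg_right h4 hM
      _ = 2 * C1 * N * (n : ℝ) ^ (-c1) := by
          rw [sub_eq_add_neg, Real.rpow_add hn0, Real.rpow_one]
          field_simp
      _ ≤ 2 * C1 * N * (q : ℝ) ^ (-(c1 / (k + 1))) := by
          apply mul_le_mul_of_nonneg_left h7
          have : (0 : ℝ) ≤ N := Nat.cast_nonneg N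
          nlinarith

end Pool.Agent.H94.Weyl
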