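import Pool.Agent.H94.FourD
import Pool.Agent.H94.WeylG
import Pool.Agent.H17.WBT

/-!
Second moments of sums over digit blocks along multiples of `e`.
-/

namespace Pool.Agent.H94.Weyl

open Finset Polynomial

/-- multiples of `e` in an interval -/
lemma sum_multiples (x y e : ℕ) (he : 1 ≤ e) (Φ : ℕ → ℝ) :
    ∑ n ∈ (Ico x y).filter (fun n => e ∣ n), Φ n =
      ∑ t ∈ Ico ((x + e - 1) / e) ((y + e - 1) / e), Φ (e * t) := by
  have key : ∀ z t : ℕ, (z + e - 1) / e ≤ t ↔ z ≤ e * t := by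
    intro z t
    rw [Nat.div_le_iff_le_mul_add_pred he]
    omega
  symm
  apply Finset.sum_nbij' (fun t => e * t) (fun n => n / e)
  · intro t ht
    rw [mem_Ico] at ht
    rw [mem_filter, mem_Ico]
    have h1 := (key x t).1 ht.1
    have h2 : ¬ (y ≤ e * t) := fun h => absurd ((key y t).2 h) (by omega)
    exact ⟨⟨h1, by omega⟩, Dvd.intro _ rfl⟩
  · intro n hn
    rw [mem_filter, mem_Ico] at hn
    obtain ⟨⟨h1, h2⟩, t, rfl⟩ := hn
    rw [Nat.mul_div_cancel_left _ he, mem_Ico]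
    refine ⟨(key x t).2 h1, ?_⟩
    by_contra h3
    have := (key y t).1 (by omega)
    omega
  · intro t _
    exact Nat.mul_div_cancel_left _ he
  · intro n hn
    rw [mem_filter] at hn
    exact Nat.mul_div_cancel' hn.2
  · intro t _; rfl

lemma card_multiples (x y e L : ℕ) (he : 1 ≤ e) (hxy : x ≤ y) (hL : y - x ≤ L) :
    (y + e - 1) / e - (x + e - 1) / e ≤ L / e + 1 ∧
    |(((y + e - 1) / e - (x + e - 1) / e : ℕ) : ℝ) - ((y - x : ℕ) : ℝ) / e| ≤ 1 := by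
  set p := (y + e - 1) / e with hp
  set q := (x + e - 1) / e with hq
  have h1 := Nat.div_add_mod (y + e - 1) e
  have h2 := Nat.mod_lt (y + e - 1) (by omega : e > 0)
  have h3 := Nat.div_add_mod (x + e - 1) e
  have h4 := Nat.mod_lt (x + e - 1) (by omega : e > 0)
  rw [← hp] at h1
  rw [← hq] at h3
  have hqp : q ≤ p := Nat.div_le_div_right (by omega)
  have h5 : e * (p - q) + e * q = e * p := by rw [← Nat.mul_add]; congr 1; omega
  constructor
  · have h6 := Nat.div_add_mod L e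
    have h7 := Nat.mod_lt L (by omega : e > 0)
    by_contra hcon
    push Not at hcon
    have h8 : e * (L / e + 2) ≤ e * (p - q) := Nat.mul_le_mul_left _ (by omega)
    have h9 : e * (L / e + 2) = e * (L / e) + e + e := by ring
    omega
  · have he0 : (0 : ℝ) < e := by exact_mod_cast he
    rw [abs_le]
    constructor
    · have h6 : y - x ≤ e * (p - q) + e := by omega
      have h7 : ((y - x : ℕ) : ℝ) ≤ (e : ℝ) * ((p - q : ℕ) : ℝ) + e := by exact_mod_cast h6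
      have h8 : ((y - x : ℕ) : ℝ) / e ≤ ((p - q : ℕ) : ℝ) + 1 := by
        rw [div_le_iff₀ he0]; linarith
      linarith
    · have h6 : e * (p - q) ≤ y - x + e := by omega
      have h7 : (e : ℝ) * ((p - q : ℕ) : ℝ) ≤ ((y - x : ℕ) : ℝ) + e := by exact_mod_cast h6
      have h8 : ((p - q : ℕ) : ℝ) - 1 ≤ ((y - x : ℕ) : ℝ) / e := by
        rw [le_div_iff₀ he0]; linarith
      linarith

/-- exponential sums over `g (e t)` -/
lemma exp_sum_g (F : ℤ[X]) (B b : ℕ) (hB : 1 ≤ B) (hb : 2 ≤ b) (g : ℕ → ℕ)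
    (hg : ∀ n : ℕ, 1 ≤ n → (B : ℤ) * g n = F.eval (n : ℤ)) (d : ℕ) (C c : ℝ)
    (hW : ∀ (e : ℕ), e.Coprime b → ∀ (q : ℕ), 1 ≤ q →
      (∃ j, q ∣ b ^ j) → ∀ c0 : ℤ, IsCoprime c0 (q : ℤ) → ∀ N : ℕ, 1 ≤ N →
      q ^ 4 ≤ N ^ (4 * d - 1) → ∀ x y : ℤ, y - x ≤ N →
      ‖SS (B * q) (dil F c0 e) x y‖ ≤ C * N * (q : ℝ) ^ (-c))
    (e : ℕ) (he : 1 ≤ e) (heb : e.Coprime b) (x y N n : ℕ) (hx : 1 ≤ x) (hN : 1 ≤ N)
    (hxy : y - x ≤ N) (hn : (b ^ n) ^ 4 ≤ N ^ (4 * d - 1)) (H : ℕ) :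
    ‖∑ t ∈ Ico x y, ee (((g (e * t) : ℕ) : ℝ) * ((H : ℝ) / ((b ^ n : ℕ) : ℝ)))‖ ≤
      C * N * (qq (b ^ n) H : ℝ) ^ (-c) := by
  have hbn : 0 < b ^ n := by positivity
  set G := Nat.gcd H (b ^ n) with hG
  have hGpos : 0 < G := Nat.gcd_pos_of_pos_right _ hbn
  set q := qq (b ^ n) H with hq
  have hqG : q * G = b ^ n := Nat.div_mul_cancel (Nat.gcd_dvd_right _ _)
  have hqpos : 1 ≤ q := by
    rcases Nat.eq_zero_or_pos q with h | h
    · rw [h, zero_mul] at hqG; omega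
    · exact h
  set c0 : ℕ := H / G with hc0
  have hc0G : c0 * G = H := Nat.div_mul_cancel (Nat.gcd_dvd_left _ _)
  have hcop : IsCoprime (c0 : ℤ) (q : ℤ) := by
    rw [Nat.isCoprime_iff_coprime]
    exact Nat.coprime_div_gcd_div_gcd hGpos
  have hqdvd : q ∣ b ^ n := Dvd.intro _ hqG
  have h1 := hW e heb q hqpos ⟨n, hqdvd⟩ c0 hcop N hN
    ((Nat.pow_le_pow_left (Nat.le_of_dvd hbn hqdvd) 4).trans hn) x y (by omega)
  refine le_of_eq_of_le ?_ h1
  congr 1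
  unfold SS
  symm
  apply Finset.sum_nbij' (fun t : ℤ => t.toNat) (fun t : ℕ => (t : ℤ))
  · intro t ht
    rw [mem_Ico] at ht ⊢
    omega
  · intro t ht
    rw [mem_Ico] at ht ⊢
    omega
  · intro t ht
    rw [mem_Ico] at ht
    omega
  · intro t _
    simp
  · intro t ht
    rw [mem_Ico] at ht
    obtain ⟨s, rfl⟩ : ∃ s : ℕ, t = s := ⟨t.toNat, by omega⟩
    rw [Int.toNat_natCast, dil_eval]
    congr 1
    have hs : 1 ≤ e * s := Nat.mul_pos he (by omega)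
    have h2 := hg (e * s) hs
    have h3 : F.eval ((e : ℤ) * (s : ℤ)) = (B : ℤ) * g (e * s) := by
      rw [h2]; push_cast; rfl
    rw [h3]
    have h4 : (H : ℝ) = (c0 : ℝ) * G := by exact_mod_cast hc0G.symm
    have h5 : ((b ^ n : ℕ) : ℝ) = (q : ℝ) * G := by exact_mod_cast hqG.symm
    rw [h4, h5]
    have e1 : (B : ℝ) ≠ 0 := by positivity
    have e2 : (q : ℝ) ≠ 0 := by positivity
    have e3 : (G : ℝ) ≠ 0 := by positivity
    push_cast
    field_simp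

end Pool.Agent.H94.Weyl
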