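import Pool.Agent.H94.MidA

/-!
Second moments of sums over digit blocks.
-/

namespace Pool.Agent.H94.Weyl

open Finset Polynomial

lemma eta_bound (b m κ j n nmax : ℕ) (hb : 2 ≤ b) (hκ : 3 * κ ≤ j + m) (hn : n ≤ nmax)
    (c : ℝ) (hc1 : c ≤ 1) :
    (((2 : ℝ) ^ κ) ^ (-c) * (1 + (b ^ m : ℕ) * (1 + Real.log (b ^ n : ℕ))) ^ 2 +
        4 * (b ^ m : ℕ) * (1 + (b ^ m : ℕ) * (1 + Real.log (b ^ n : ℕ))) * (b ^ κ : ℕ) /
          (b ^ (j + m - κ) : ℕ)) ≤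
      5 * (1 + (b ^ m : ℕ) * (1 + Real.log (b ^ nmax : ℕ))) ^ 2 * ((2 : ℝ) ^ κ) ^ (-c) := by
  have hb0 : (0 : ℝ) < b := by exact_mod_cast (by omega : 0 < b)
  have hb1 : (1 : ℝ) ≤ b := by exact_mod_cast (by omega : 1 ≤ b)
  have hlog0 : 0 ≤ Real.log ((b ^ n : ℕ) : ℝ) := Real.log_natCast_nonneg _
  have hlog1 : Real.log ((b ^ n : ℕ) : ℝ) ≤ Real.log ((b ^ nmax : ℕ) : ℝ) := by
    apply Real.log_le_log (by positivity)
    exact_mod_cast Nat.pow_le_pow_right (by omega) hn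
  set r : ℝ := ((b ^ m : ℕ) : ℝ) with hr
  have hr0 : 0 ≤ r := Nat.cast_nonneg _
  have hr1 : 1 ≤ r := by rw [hr]; exact_mod_cast Nat.one_le_pow _ _ (by omega)
  set Λ0 : ℝ := 1 + r * (1 + Real.log ((b ^ n : ℕ) : ℝ)) with hΛ0
  set Λ : ℝ := 1 + r * (1 + Real.log ((b ^ nmax : ℕ) : ℝ)) with hΛ
  have h1 : Λ0 ≤ Λ := by
    rw [hΛ0, hΛ]; nlinarith
  have h2 : r ≤ Λ0 := by rw [hΛ0]; nlinarith
  have h3 : 0 ≤ Λ0 := hr0.trans h2
  have h4 : ((b ^ κ : ℕ) : ℝ) / ((b ^ (j + m - κ) : ℕ) : ℝ) ≤ ((2 : ℝ) ^ κ) ^ (-c) := by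
    have e1 : ((b ^ κ : ℕ) : ℝ) / ((b ^ (j + m - κ) : ℕ) : ℝ) ≤ 1 / ((b : ℝ) ^ κ) := by
      rw [div_le_div_iff₀ (by positivity) (by positivity)]
      push_cast
      rw [← pow_add, one_mul]
      exact pow_le_pow_right₀ hb1 (by omega)
    have e2 : (1 : ℝ) / ((b : ℝ) ^ κ) ≤ 1 / ((2 : ℝ) ^ κ) := by
      apply one_div_le_one_div_of_le (by positivity)
      exact pow_le_pow_left₀ (by norm_num) (by exact_mod_cast hb) κ
    have e3 : (1 : ℝ) / ((2 : ℝ) ^ κ) ≤ ((2 : ℝ) ^ κ) ^ (-c) := by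
      have h2k : (1 : ℝ) ≤ 2 ^ κ := one_le_pow₀ (by norm_num)
      calc (1 : ℝ) / ((2 : ℝ) ^ κ) = ((2 : ℝ) ^ κ) ^ (-1 : ℝ) := by
            rw [Real.rpow_neg_one, one_div]
        _ ≤ _ := Real.rpow_le_rpow_of_exponent_le h2k (by linarith)
    exact e1.trans (e2.trans e3)
  have hX : (0 : ℝ) ≤ ((2 : ℝ) ^ κ) ^ (-c) := by positivity
  have hΛsq : Λ0 ^ 2 ≤ Λ ^ 2 := pow_le_pow_left₀ h3 h1 2
  have h5 : 4 * r * Λ0 * ((b ^ κ : ℕ) : ℝ) / ((b ^ (j + m - κ) : ℕ) : ℝ) ≤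
      4 * Λ ^ 2 * ((2 : ℝ) ^ κ) ^ (-c) := by
    rw [mul_div_assoc]
    apply mul_le_mul _ h4 (by positivity) (by positivity)
    nlinarith
  have h6 : ((2 : ℝ) ^ κ) ^ (-c) * Λ0 ^ 2 ≤ ((2 : ℝ) ^ κ) ^ (-c) * Λ ^ 2 :=
    mul_le_mul_of_nonneg_left hΛsq hX
  linarith

/-- Second moment of sums over blocks. -/
theorem second_moment {ι : Type*} (S : Finset ι) (v : ι → ℕ) (b m r0 a0 a1 κ nmax : ℕ)
    (hb : 2 ≤ b) (G : ℕ → ℝ) (A : ℝ) (hA0 : 0 ≤ A)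
    (hA : ∀ k < b ^ m, |G k| ≤ A) (hG0 : ∑ k ∈ range (b ^ m), G k = 0) (W c : ℝ)
    (hW0 : 0 ≤ W) (hc : 0 ≤ c) (hc1 : c ≤ 1) (hnmax : r0 + m * (a1 + 1) ≤ nmax)
    (hκ : 3 * κ ≤ r0 + m * a0 + m)
    (hW : ∀ n ≤ nmax, ∀ H : ℕ, ¬ b ^ n ∣ H →
      ‖∑ t ∈ S, ee ((v t : ℝ) * ((H : ℝ) / ((b ^ n : ℕ) : ℝ)))‖ ≤
        W * (qq (b ^ n) H : ℝ) ^ (-c)) :
    |∑ t ∈ S, (∑ a ∈ Ico a0 a1, G (v t / b ^ (r0 + m * a) % b ^ m)) ^ 2 -
      S.card * (((a1 - a0 : ℕ) : ℝ) * ((∑ k ∈ range (b ^ m), G k ^ 2) / (b ^ m : ℕ)))| ≤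
      ((a1 - a0 : ℕ) : ℝ) ^ 2 * (A ^ 2 * W *
        (5 * (1 + (b ^ m : ℕ) * (1 + Real.log (b ^ nmax : ℕ))) ^ 2 * ((2 : ℝ) ^ κ) ^ (-c))) := by
  set V : ℝ := (∑ k ∈ range (b ^ m), G k ^ 2) / (b ^ m : ℕ) with hV
  set E : ℝ := A ^ 2 * W *
        (5 * (1 + (b ^ m : ℕ) * (1 + Real.log (b ^ nmax : ℕ))) ^ 2 * ((2 : ℝ) ^ κ) ^ (-c)) with hE
  set P : ℕ → ι → ℝ := fun a t => G (v t / b ^ (r0 + m * a) % b ^ m) with hP
  have hbm : 0 < b ^ m := by positivity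
  -- off-diagonal, ordered
  have hoff : ∀ a ∈ Ico a0 a1, ∀ a' ∈ Ico a0 a1, a < a' → |∑ t ∈ S, P a t * P a' t| ≤ E := by
    intro a ha a' ha' haa
    rw [mem_Ico] at ha ha'
    have h0 : m * (a + 1) ≤ m * a' := Nat.mul_le_mul_left m haa
    have h0' : m * (a + 1) = m * a + m := by ring
    have h1' : m * (a' + 1) ≤ m * (a1 + 1) := Nat.mul_le_mul_left m (by omega)
    have h1'' : m * (a' + 1) = m * a' + m := by ring
    have h2' : m * a0 ≤ m * a := Nat.mul_le_mul_left m ha.1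
    have h1 := pair_blocks S v b m (r0 + m * a) (r0 + m * a') κ hb (by omega) (by omega) G G A A
      hA0 hA0 hA hA W c hW0 hc (by
        intro H hH
        have := hW (r0 + m * a' + m) (by omega) H hH
        exact this)
    rw [hG0, zero_div, zero_mul, mul_zero, sub_zero] at h1
    refine h1.trans ?_
    rw [hE]
    have h3 := eta_bound b m κ (r0 + m * a) (r0 + m * a' + m) nmax hb (by omega) (by omega) c hc1
    have h4 : 0 ≤ A * A * W := by positivity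
    calc A * A * W * _ ≤ A * A * W * (5 * (1 + (b ^ m : ℕ) *
          (1 + Real.log (b ^ nmax : ℕ))) ^ 2 * ((2 : ℝ) ^ κ) ^ (-c)) :=
          mul_le_mul_of_nonneg_left h3 h4
      _ = _ := by ring
  have hdiag : ∀ a ∈ Ico a0 a1, |∑ t ∈ S, P a t * P a t - S.card * V| ≤ E := by
    intro a ha
    rw [mem_Ico] at ha
    have h1' : m * (a + 1 + 1) ≤ m * (a1 + 1) := Nat.mul_le_mul_left m (by omega)
    have h1'' : m * (a + 1 + 1) = m * (a + 1) + m := by ring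
    have h0' : m * (a + 1) = m * a + m := by ring
    have h2' : m * a0 ≤ m * a := Nat.mul_le_mul_left m ha.1
    have h1 := pair_blocks S v b m (r0 + m * a) (r0 + m * (a + 1)) κ hb (by omega) (by omega)
      (fun k => G k ^ 2) (fun _ => 1) (A ^ 2) 1 (by positivity) zero_le_one (by
        intro k hk
        rw [abs_pow]
        exact pow_le_pow_left₀ (abs_nonneg _) (hA k hk) 2) (by simp) W c hW0 hc (by
        intro H hH
        have := hW (r0 + m * (a + 1) + m) (by omega) H hH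
        exact this)
    have h5 : (∑ k ∈ range (b ^ m), (1 : ℝ)) / ((b ^ m : ℕ) : ℝ) = 1 := by
      rw [Finset.sum_const, card_range, nsmul_eq_mul, mul_one]
      exact div_self (by exact_mod_cast hbm.ne')
    rw [h5, mul_one, ← hV] at h1
    have h6 : ∀ t ∈ S, P a t * P a t = G (v t / b ^ (r0 + m * a) % b ^ m) ^ 2 * 1 := by
      intro t _
      rw [hP, mul_one, sq]
    rw [Finset.sum_congr rfl h6]
    refine h1.trans ?_
    rw [hE]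
    have h3 := eta_bound b m κ (r0 + m * a) (r0 + m * (a + 1) + m) nmax hb (by omega) (by omega)
      c hc1
    have h4 : 0 ≤ A ^ 2 * 1 * W := by positivity
    calc A ^ 2 * 1 * W * _ ≤ A ^ 2 * 1 * W * (5 * (1 + (b ^ m : ℕ) *
          (1 + Real.log (b ^ nmax : ℕ))) ^ 2 * ((2 : ℝ) ^ κ) ^ (-c)) :=
          mul_le_mul_of_nonneg_left h3 h4
      _ = _ := by ring
  have hall : ∀ a ∈ Ico a0 a1, ∀ a' ∈ Ico a0 a1,
      |∑ t ∈ S, P a t * P a' t - (if a = a' then S.card * V else 0)| ≤ E := by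
    intro a ha a' ha'
    rcases lt_trichotomy a a' with h | h | h
    · rw [if_neg h.ne, sub_zero]
      exact hoff a ha a' ha' h
    · subst h
      rw [if_pos rfl]
      exact hdiag a ha
    · rw [if_neg h.ne', sub_zero]
      have := hoff a' ha' a ha h
      simp only [mul_comm (P a _)]
      exact this
  -- expand
  have h1 : ∑ t ∈ S, (∑ a ∈ Ico a0 a1, G (v t / b ^ (r0 + m * a) % b ^ m)) ^ 2 =
      ∑ a ∈ Ico a0 a1, ∑ a' ∈ Ico a0 a1, ∑ t ∈ S, P a t * P a' t := by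
    have h2 : ∀ t ∈ S, (∑ a ∈ Ico a0 a1, G (v t / b ^ (r0 + m * a) % b ^ m)) ^ 2 =
        ∑ a ∈ Ico a0 a1, ∑ a' ∈ Ico a0 a1, P a t * P a' t := by
      intro t _
      rw [sq, Finset.sum_mul_sum]
    rw [Finset.sum_congr rfl h2, Finset.sum_comm]
    apply Finset.sum_congr rfl
    intro a _
    rw [Finset.sum_comm]
  have h2 : (S.card : ℝ) * (((a1 - a0 : ℕ) : ℝ) * V) =
      ∑ a ∈ Ico a0 a1, ∑ a' ∈ Ico a0 a1, (if a = a' then S.card * V else 0) := by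
    have h3 : ∀ a ∈ Ico a0 a1, ∑ a' ∈ Ico a0 a1, (if a = a' then S.card * V else 0) =
        S.card * V := by
      intro a ha
      rw [Finset.sum_ite_eq (Ico a0 a1) a, if_pos ha]
    rw [Finset.sum_congr rfl h3, Finset.sum_const, Nat.card_Ico, nsmul_eq_mul]
    ring
  rw [h1, h2, ← Finset.sum_sub_distrib]
  calc |∑ a ∈ Ico a0 a1, (∑ a' ∈ Ico a0 a1, ∑ t ∈ S, P a t * P a' t -
        ∑ a' ∈ Ico a0 a1, (if a = a' then S.card * V else 0))|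
      ≤ ∑ a ∈ Ico a0 a1, ∑ a' ∈ Ico a0 a1, E := by
        refine (Finset.abs_sum_le_sum_abs _ _).trans (Finset.sum_le_sum (fun a ha => ?_))
        rw [← Finset.sum_sub_distrib]
        exact (Finset.abs_sum_le_sum_abs _ _).trans
          (Finset.sum_le_sum (fun a' ha' => hall a ha a' ha'))
    _ = ((a1 - a0 : ℕ) : ℝ) ^ 2 * E := by
        rw [Finset.sum_const, Finset.sum_const, Nat.card_Ico, nsmul_eq_mul, nsmul_eq_mul]
        ring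

end Pool.Agent.H94.Weyl
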