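import Pool.Agent.H94.Core

set_option autoImplicit false
open scoped ENNReal InnerProductSpace Polynomial
open Filter Topology MeasureTheory

noncomputable section

namespace Pool.Agent.H94

lemma abs_apply_le (f : H) (v : List ℕ) : |f v| ≤ ‖f‖ := by
  have := lp.norm_apply_le_norm (by norm_num : (2 : ℝ≥0∞) ≠ 0) f v
  simpa using this

lemma norm_δ (v : List ℕ) : ‖δ v‖ = 1 := by
  have : ‖δ v‖ ^ 2 = 1 := by
    rw [← real_inner_self_eq_norm_sq, inner_δ_left, δ_apply, if_pos rfl]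
  nlinarith [norm_nonneg (δ v)]

lemma Mf_Aop_pow (Δ : ℕ) (k : ℕ) (f : H) : Mf (fun x => (Aop Δ x ^ k) f) := by
  induction k with
  | zero =>
    intro v
    simp only [pow_zero]
    exact measurable_const
  | succ k ih =>
    simp only [pow_succ']
    exact Mf_Aop Δ ih

lemma Aop_pow_norm_le (Δ : ℕ) (x : Env) (k : ℕ) : ‖Aop Δ x ^ k‖ ≤ (2 * Δ) ^ k := by
  induction k with
  | zero =>
    rw [pow_zero, pow_zero]
    exact ContinuousLinearMap.norm_id_le
  | succ k ih =>
    rw [pow_succ', pow_succ']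
    calc ‖Aop Δ x * Aop Δ x ^ k‖ ≤ ‖Aop Δ x‖ * ‖Aop Δ x ^ k‖ := norm_mul_le _ _
      _ ≤ (2 * Δ) * (2 * Δ) ^ k := by
        gcongr
        exact Aop_norm_le Δ x

section
variable {Δ : ℕ} {μ : Measure Env} [IsProbabilityMeasure μ] {ν : Measure ℝ}
  [IsProbabilityMeasure ν] {R : ℝ}

omit [IsProbabilityMeasure ν] in
lemma ae_abs_le (hR : ν (Set.Icc (-R) R)ᶜ = 0) : ∀ᵐ t ∂ν, |t| ≤ R := by
  rw [measure_eq_zero_iff_ae_notMem] at hR
  filter_upwards [hR] with t ht
  rw [Set.mem_compl_iff, not_not, Set.mem_Icc] at ht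
  exact abs_le.2 ht

lemma mom_poly (hR : ν (Set.Icc (-R) R)ᶜ = 0)
    (hmom : ∀ k : ℕ, ∫ t, t ^ k ∂ν = ∫ x, (Aop Δ x ^ k) (δ []) [] ∂μ) (p : ℝ[X]) :
    Integrable (fun t => p.eval t) ν ∧
    Integrable (fun x => (Polynomial.aeval (Aop Δ x) p : H →L[ℝ] H) (δ []) []) μ ∧
    ∫ t, p.eval t ∂ν = ∫ x, (Polynomial.aeval (Aop Δ x) p : H →L[ℝ] H) (δ []) [] ∂μ := by
  induction p using Polynomial.induction_on' with
  | add p q hp hq =>
    obtain ⟨a1, a2, a3⟩ := hp
    obtain ⟨b1, b2, b3⟩ := hq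
    have e : ∀ x, (Polynomial.aeval (Aop Δ x) (p + q) : H →L[ℝ] H) (δ []) [] =
        (Polynomial.aeval (Aop Δ x) p : H →L[ℝ] H) (δ []) [] +
        (Polynomial.aeval (Aop Δ x) q : H →L[ℝ] H) (δ []) [] := by
      intro x
      rw [map_add]
      rfl
    simp only [e, Polynomial.eval_add]
    refine ⟨a1.add b1, a2.add b2, ?_⟩
    rw [integral_add a1 b1, integral_add a2 b2, a3, b3]
  | monomial k a =>
    have e : ∀ x, (Polynomial.aeval (Aop Δ x) (Polynomial.monomial k a) : H →L[ℝ] H) (δ []) [] =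
        a * (Aop Δ x ^ k) (δ []) [] := by
      intro x
      rw [Polynomial.aeval_monomial, Algebra.algebraMap_eq_smul_one, smul_mul_assoc, one_mul]
      rfl
    have i1 : Integrable (fun t : ℝ => t ^ k) ν := by
      refine Integrable.of_bound (by fun_prop) (R ^ k) ?_
      filter_upwards [ae_abs_le hR] with t ht
      rw [Real.norm_eq_abs, abs_pow]
      gcongr
    have i2 : Integrable (fun x => (Aop Δ x ^ k) (δ []) []) μ := by
      refine Integrable.of_bound (Mf_Aop_pow Δ k (δ []) []).aestronglyMeasurable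
        ((2 * Δ) ^ k) ?_
      filter_upwards with x
      rw [Real.norm_eq_abs]
      refine (abs_apply_le _ _).trans ?_
      refine ((Aop Δ x ^ k).le_opNorm (δ [])).trans ?_
      rw [norm_δ, mul_one]
      exact Aop_pow_norm_le Δ x k
    simp only [e, Polynomial.eval_monomial]
    refine ⟨i1.const_mul a, i2.const_mul a, ?_⟩
    rw [integral_const_mul, integral_const_mul, hmom k]

/-- the polynomial `1 - C⁻² (X - lam)²` -/
def bp (lam C : ℝ) : ℝ[X] :=
  1 - (C⁻¹ ^ 2) • (Polynomial.X - Polynomial.C lam) ^ 2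

lemma bp_eval (lam C t : ℝ) : (bp lam C).eval t = 1 - C⁻¹ ^ 2 * (t - lam) ^ 2 := by
  unfold bp
  simp

lemma aeval_bp (Δ : ℕ) (lam C : ℝ) (x : Env) :
    Polynomial.aeval (Aop Δ x) (bp lam C) = Bgen (Lop Δ lam x) C := by
  unfold bp Bgen
  rw [map_sub, map_one, map_smul, map_pow, map_sub, Polynomial.aeval_X, Polynomial.aeval_C,
    Algebra.algebraMap_eq_smul_one]
  rfl

lemma atom_le (hR : ν (Set.Icc (-R) R)ᶜ = 0)
    (hmom : ∀ k : ℕ, ∫ t, t ^ k ∂ν = ∫ x, (Aop Δ x ^ k) (δ []) [] ∂μ) (lam : ℝ) :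
    (ν {lam}).toReal ≤ ∫ x, aa Δ lam x ∂μ := by
  set C : ℝ := 2 * Δ + |lam| + |R| + 1 with hC
  have hC0 : 0 < C := by positivity
  have hC2 : 2 * Δ + |lam| ≤ C := by rw [hC]; linarith [abs_nonneg R]
  have h1 : ∀ k : ℕ, (ν {lam}).toReal ≤ ∫ x, (Bgen (Lop Δ lam x) C ^ k) (δ []) [] ∂μ := by
    intro k
    obtain ⟨i1, _, i3⟩ := mom_poly (Δ := Δ) (μ := μ) hR hmom (bp lam C ^ k)
    have e : ∀ x, (Polynomial.aeval (Aop Δ x) (bp lam C ^ k) : H →L[ℝ] H) (δ []) [] =
        (Bgen (Lop Δ lam x) C ^ k) (δ []) [] := by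
      intro x
      rw [map_pow, aeval_bp]
    simp only [e] at i3
    rw [← i3]
    have h2 : (ν {lam}).toReal = ∫ t, ({lam} : Set ℝ).indicator 1 t ∂ν := by
      rw [integral_indicator_one (measurableSet_singleton lam)]
      rfl
    rw [h2]
    apply integral_mono_ae
    · exact (integrable_const (1 : ℝ)).indicator (measurableSet_singleton lam)
    · exact i1
    · filter_upwards [ae_abs_le hR] with t ht
      rw [Polynomial.eval_pow, bp_eval]
      by_cases h : t = lam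
      · subst h
        simp
      · rw [Set.indicator_of_notMem (by simpa using h)]
        apply pow_nonneg
        have h3 : |t - lam| ≤ C := by
          calc |t - lam| ≤ |t| + |lam| := abs_sub _ _
            _ ≤ |R| + |lam| := by linarith [le_abs_self R]
            _ ≤ C := by rw [hC]; linarith [(Nat.cast_nonneg Δ : (0 : ℝ) ≤ Δ)]
        have h4 : (t - lam) ^ 2 ≤ C ^ 2 := by
          rw [← sq_abs]
          gcongr
        have h5 : C⁻¹ ^ 2 * (t - lam) ^ 2 ≤ 1 := by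
          calc C⁻¹ ^ 2 * (t - lam) ^ 2 ≤ C⁻¹ ^ 2 * C ^ 2 := by gcongr
            _ = 1 := by field_simp
        linarith
  have hBn : ∀ x, ‖Bgen (Lop Δ lam x) C‖ ≤ 1 := fun x =>
    Bgen_norm_le _ C hC0 ((Lop_norm_le Δ lam x).trans hC2) (inner_Lop Δ lam x)
  have hBk : ∀ x k, ‖(Bgen (Lop Δ lam x) C ^ k) (δ [])‖ ≤ 1 := by
    intro x k
    refine ((Bgen (Lop Δ lam x) C ^ k).le_opNorm (δ [])).trans ?_
    rw [norm_δ, mul_one]
    induction k with
    | zero =>
      rw [pow_zero]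
      exact ContinuousLinearMap.norm_id_le
    | succ k ih =>
      rw [pow_succ']
      calc ‖Bgen (Lop Δ lam x) C * Bgen (Lop Δ lam x) C ^ k‖ ≤
          ‖Bgen (Lop Δ lam x) C‖ * ‖Bgen (Lop Δ lam x) C ^ k‖ := norm_mul_le _ _
        _ ≤ 1 * 1 := by gcongr; exact hBn x
        _ = 1 := by ring
  have hBint : ∀ k : ℕ, Integrable (fun x => (Bgen (Lop Δ lam x) C ^ k) (δ []) []) μ := by
    intro k
    refine Integrable.of_bound (Mf_Bgen_pow Δ lam C k (δ []) []).aestronglyMeasurable 1 ?_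
    filter_upwards with x
    rw [Real.norm_eq_abs]
    exact (abs_apply_le _ _).trans (hBk x k)
  have havg : ∀ (N : ℕ) x, ((N : ℝ)⁻¹ • ∑ k ∈ Finset.range N,
      (Bgen (Lop Δ lam x) C ^ k) (δ []) : H) [] =
      (N : ℝ)⁻¹ * ∑ k ∈ Finset.range N, (Bgen (Lop Δ lam x) C ^ k) (δ []) [] := by
    intro N x
    rw [lp.coeFn_smul, Pi.smul_apply, lp.coeFn_sum, Finset.sum_apply, smul_eq_mul]
  have h3 : Tendsto (fun N : ℕ => ∫ x, ((N : ℝ)⁻¹ • ∑ k ∈ Finset.range N,
      (Bgen (Lop Δ lam x) C ^ k) (δ []) : H) [] ∂μ) atTop (𝓝 (∫ x, aa Δ lam x ∂μ)) := by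
    apply tendsto_integral_of_dominated_convergence (fun _ => (1 : ℝ))
    · intro N
      exact (Mf_smul _ (Mf_sum _ (fun k _ => Mf_Bgen_pow Δ lam C k (δ []))) []).aestronglyMeasurable
    · exact integrable_const _
    · intro N
      filter_upwards with x
      rw [havg, Real.norm_eq_abs, abs_mul]
      rcases Nat.eq_zero_or_pos N with hN | hN
      · subst hN; simp
      · have hNR : (0 : ℝ) < N := by exact_mod_cast hN
        calc |(N : ℝ)⁻¹| * |∑ k ∈ Finset.range N, (Bgen (Lop Δ lam x) C ^ k) (δ []) []| ≤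
            |(N : ℝ)⁻¹| * ∑ k ∈ Finset.range N, |(Bgen (Lop Δ lam x) C ^ k) (δ []) []| := by
              gcongr
              exact Finset.abs_sum_le_sum_abs _ _
          _ ≤ |(N : ℝ)⁻¹| * ∑ k ∈ Finset.range N, (1 : ℝ) := by
              gcongr with k _
              exact (abs_apply_le _ _).trans (hBk x k)
          _ = 1 := by
              rw [Finset.sum_const, Finset.card_range, nsmul_eq_mul, mul_one,
                abs_of_pos (inv_pos.2 hNR)]
              field_simp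
    · filter_upwards with x
      exact tendsto_apply (tendsto_phi Δ lam C hC0 hC2 x []) []
  refine ge_of_tendsto h3 ?_
  filter_upwards [eventually_gt_atTop 0] with N hN
  have hNR : (0 : ℝ) < N := by exact_mod_cast hN
  simp only [havg]
  rw [integral_const_mul, integral_finsetSum _ (fun k _ => hBint k)]
  calc (ν {lam}).toReal = (N : ℝ)⁻¹ * ∑ k ∈ Finset.range N, (ν {lam}).toReal := by
        rw [Finset.sum_const, Finset.card_range, nsmul_eq_mul]
        field_simp
    _ ≤ (N : ℝ)⁻¹ * ∑ k ∈ Finset.range N, ∫ x, (Bgen (Lop Δ lam x) C ^ k) (δ []) [] ∂μ := by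
        gcongr with k _
        exact h1 k

end

end Pool.Agent.H94
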