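import Mathlib

set_option autoImplicit false
open scoped ENNReal InnerProductSpace

noncomputable section

namespace Pool.Agent.H94

/-- square summable real functions on finite words -/
abbrev H := lp (fun _ : List ℕ => ℝ) 2

lemma H.summable_sq (f : H) : Summable (fun v => f v ^ 2) := by
  have h := (lp.memℓp f).summable (by norm_num : 0 < (2 : ℝ≥0∞).toReal)
  simpa using h

lemma H.inner_eq (f g : H) : ⟪f, g⟫_ℝ = ∑' v, f v * g v := by
  rw [lp.inner_eq_tsum]
  congr 1
  ext v
  simp [mul_comm]

lemma H.hasSum_inner (f g : H) : HasSum (fun v => f v * g v) ⟪f, g⟫_ℝ := by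
  have h := lp.hasSum_inner (𝕜 := ℝ) f g
  have e : (fun v => f v * g v) = fun v => ⟪f v, g v⟫_ℝ := by
    ext v
    simp [mul_comm]
  rw [e]
  exact h

lemma H.norm_sq (f : H) : ‖f‖ ^ 2 = ∑' v, f v ^ 2 := by
  rw [← real_inner_self_eq_norm_sq, H.inner_eq]
  congr 1
  ext v
  ring

lemma H.hasSum_norm_sq (f : H) : HasSum (fun v => f v ^ 2) (‖f‖ ^ 2) := by
  rw [← real_inner_self_eq_norm_sq]
  convert H.hasSum_inner f f using 1
  ext v
  ring

lemma memℓp_of_summable_sq {f : List ℕ → ℝ} (h : Summable (fun v => f v ^ 2)) :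
    Memℓp f 2 := by
  apply memℓp_gen
  simpa using h

/-- basis vector -/
def δ (v : List ℕ) : H := lp.single 2 v 1

lemma δ_apply (v w : List ℕ) : δ v w = if w = v then 1 else 0 := by
  unfold δ
  rw [lp.single_apply]
  by_cases h : w = v
  · subst h; simp
  · simp [h]

lemma inner_δ_left (v : List ℕ) (f : H) : ⟪δ v, f⟫_ℝ = f v := by
  rw [H.inner_eq]
  rw [tsum_eq_single v]
  · simp [δ_apply]
  · intro w hw
    simp [δ_apply, hw]

lemma inner_δ_right (v : List ℕ) (f : H) : ⟪f, δ v⟫_ℝ = f v := by
  rw [real_inner_comm, inner_δ_left]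

/-- composition with an injective map -/
def compL (e : List ℕ → List ℕ) (he : Function.Injective e) : H →L[ℝ] H :=
  LinearMap.mkContinuous
    { toFun := fun f => ⟨fun v => f (e v),
        memℓp_of_summable_sq ((H.summable_sq f).comp_injective he)⟩
      map_add' := by
        intro f g
        ext v
        rfl
      map_smul' := by
        intro c f
        ext v
        rfl } 1 (by
      intro f
      have h1 : ‖(⟨fun v => f (e v),
        memℓp_of_summable_sq ((H.summable_sq f).comp_injective he)⟩ : H)‖ ^ 2 ≤ ‖f‖ ^ 2 := by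
        rw [H.norm_sq, H.norm_sq]
        exact tsum_comp_le_tsum_of_inj (H.summable_sq f) (fun _ => sq_nonneg _) he
      have h2 := abs_le_of_sq_le_sq h1 (norm_nonneg _)
      rw [abs_of_nonneg (norm_nonneg _)] at h2
      rw [one_mul]
      exact h2)

@[simp] lemma compL_apply (e : List ℕ → List ℕ) (he : Function.Injective e) (f : H)
    (v : List ℕ) : compL e he f v = f (e v) := rfl

/-- restriction to a set of words -/
def indL (s : List ℕ → Prop) [DecidablePred s] : H →L[ℝ] H :=
  LinearMap.mkContinuous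
    { toFun := fun f => ⟨fun v => if s v then f v else 0,
        memℓp_of_summable_sq (by
          refine Summable.of_nonneg_of_le (fun _ => sq_nonneg _) (fun v => ?_) (H.summable_sq f)
          split_ifs
          · exact le_rfl
          · simpa using sq_nonneg (f v))⟩
      map_add' := by
        intro f g
        ext v
        change (if s v then (f + g) v else 0) = (if s v then f v else 0) + (if s v then g v else 0)
        split_ifs
        · rfl
        · simp
      map_smul' := by
        intro c f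
        ext v
        change (if s v then (c • f) v else 0) = c • (if s v then f v else 0)
        split_ifs
        · rfl
        · simp } 1 (by
      intro f
      rw [one_mul]
      refine lp.norm_mono (by norm_num) ?_
      intro v
      change ‖(if s v then f v else 0)‖ ≤ _
      split_ifs
      · exact le_rfl
      · simp)

@[simp] lemma indL_apply (s : List ℕ → Prop) [DecidablePred s] (f : H) (v : List ℕ) :
    indL s f v = if s v then f v else 0 := rfl

lemma inner_indL (s : List ℕ → Prop) [DecidablePred s] (f g : H) :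
    ⟪indL s f, g⟫_ℝ = ⟪f, indL s g⟫_ℝ := by
  rw [H.inner_eq, H.inner_eq]
  congr 1
  ext v
  simp only [indL_apply]
  split_ifs <;> simp

lemma adjoint_indL (s : List ℕ → Prop) [DecidablePred s] :
    ContinuousLinearMap.adjoint (indL s) = indL s := by
  refine (ContinuousLinearMap.eq_adjoint_iff _ _).2 ?_ |>.symm
  intro f g
  exact inner_indL s f g

lemma compL_δ (e : List ℕ → List ℕ) (he : Function.Injective e) (v : List ℕ) :
    compL e he (δ (e v)) = δ v := by
  ext w
  simp only [compL_apply, δ_apply]
  by_cases h : w = v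
  · simp [h]
  · rw [if_neg h, if_neg (fun h' => h (he h'))]

lemma compL_δ_of_notMem (e : List ℕ → List ℕ) (he : Function.Injective e) (w : List ℕ)
    (hw : ∀ v, e v ≠ w) : compL e he (δ w) = 0 := by
  ext v
  simp only [compL_apply, δ_apply]
  rw [if_neg (hw v)]
  rfl

lemma adjoint_compL_apply (e : List ℕ → List ℕ) (he : Function.Injective e) (f : H)
    (v : List ℕ) : ContinuousLinearMap.adjoint (compL e he) f (e v) = f v := by
  rw [← inner_δ_left (e v), ContinuousLinearMap.adjoint_inner_right, compL_δ, inner_δ_left]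

lemma adjoint_compL_apply_of_notMem (e : List ℕ → List ℕ) (he : Function.Injective e) (f : H)
    (w : List ℕ) (hw : ∀ v, e v ≠ w) :
    ContinuousLinearMap.adjoint (compL e he) f w = 0 := by
  rw [← inner_δ_left w, ContinuousLinearMap.adjoint_inner_right, compL_δ_of_notMem e he w hw,
    inner_zero_left]

/-- environments: number of children attached to each word -/
abbrev Env := List ℕ → ℕ

/-- the environment seen from child `c` of the root -/
def sub (x : Env) (c : ℕ) : Env := fun v => x (c :: v)

/-- truncated number of children -/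
def dg (Δ : ℕ) (x : Env) (v : List ℕ) : ℕ := min (x v) Δ

lemma dg_le (Δ : ℕ) (x : Env) (v : List ℕ) : dg Δ x v ≤ Δ := min_le_right _ _

lemma dg_sub (Δ : ℕ) (x : Env) (c : ℕ) (v : List ℕ) : dg Δ (sub x c) v = dg Δ x (c :: v) := rfl

lemma append_inj (c : ℕ) : Function.Injective (fun v : List ℕ => v ++ [c]) := by
  intro v w h
  simpa using h

lemma cons_inj (c : ℕ) : Function.Injective (fun v : List ℕ => c :: v) := by
  intro v w h
  simpa using h

/-- the part of the adjacency operator going to child number `c` -/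
def Rop (Δ : ℕ) (x : Env) (c : ℕ) : H →L[ℝ] H :=
  (indL (fun v => c < dg Δ x v)).comp (compL (fun v => v ++ [c]) (append_inj c))

lemma Rop_apply (Δ : ℕ) (x : Env) (c : ℕ) (f : H) (v : List ℕ) :
    Rop Δ x c f v = if c < dg Δ x v then f (v ++ [c]) else 0 := rfl

lemma adjoint_Rop_apply (Δ : ℕ) (x : Env) (c d : ℕ) (f : H) (v : List ℕ) :
    ContinuousLinearMap.adjoint (Rop Δ x c) f (v ++ [d]) =
      if d = c ∧ c < dg Δ x v then f v else 0 := by
  unfold Rop
  rw [ContinuousLinearMap.adjoint_comp, adjoint_indL]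
  change ContinuousLinearMap.adjoint (compL (fun v => v ++ [c]) (append_inj c))
    (indL (fun v => c < dg Δ x v) f) (v ++ [d]) = _
  by_cases h : d = c
  · subst h
    have h2 := adjoint_compL_apply (fun v => v ++ [d]) (append_inj d)
      (indL (fun v => d < dg Δ x v) f) v
    simp only at h2
    rw [h2]
    simp
  · rw [adjoint_compL_apply_of_notMem]
    · simp [h]
    · intro w hw
      have := List.append_inj_right' hw rfl
      simp at this
      exact h this.symm

lemma adjoint_Rop_apply_nil (Δ : ℕ) (x : Env) (c : ℕ) (f : H) :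
    ContinuousLinearMap.adjoint (Rop Δ x c) f [] = 0 := by
  unfold Rop
  rw [ContinuousLinearMap.adjoint_comp, adjoint_indL]
  change ContinuousLinearMap.adjoint (compL (fun v => v ++ [c]) (append_inj c))
    (indL (fun v => c < dg Δ x v) f) [] = _
  rw [adjoint_compL_apply_of_notMem]
  intro w hw
  simp at hw

/-- the part of the adjacency operator going to the children -/
def Dop (Δ : ℕ) (x : Env) : H →L[ℝ] H := ∑ c ∈ Finset.range Δ, Rop Δ x c

/-- the adjacency operator of the forest on all words in which `v` has the children `v ++ [c]`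
for `c < min (x v) Δ` -/
def Aop (Δ : ℕ) (x : Env) : H →L[ℝ] H := Dop Δ x + ContinuousLinearMap.adjoint (Dop Δ x)

lemma coe_sum_apply {ι : Type*} (s : Finset ι) (F : ι → H →L[ℝ] H) (f : H) (v : List ℕ) :
    (∑ i ∈ s, F i) f v = ∑ i ∈ s, F i f v := by
  rw [_root_.sum_apply, lp.coeFn_sum, Finset.sum_apply]

lemma Dop_apply (Δ : ℕ) (x : Env) (f : H) (v : List ℕ) :
    Dop Δ x f v = ∑ c ∈ Finset.range (dg Δ x v), f (v ++ [c]) := by
  unfold Dop
  rw [coe_sum_apply]
  simp only [Rop_apply]
  rw [← Finset.sum_filter]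
  congr 1
  ext c
  simp only [Finset.mem_filter, Finset.mem_range]
  constructor
  · rintro ⟨_, h⟩; exact h
  · intro h; exact ⟨lt_of_lt_of_le h (dg_le _ _ _), h⟩

lemma adjoint_Dop_apply (Δ : ℕ) (x : Env) (f : H) (v : List ℕ) (d : ℕ) :
    ContinuousLinearMap.adjoint (Dop Δ x) f (v ++ [d]) = if d < dg Δ x v then f v else 0 := by
  unfold Dop
  rw [map_sum, coe_sum_apply]
  simp only [adjoint_Rop_apply]
  by_cases h : d < dg Δ x v
  · rw [if_pos h]
    rw [Finset.sum_eq_single d]
    · simp [h]
    · intro b _ hb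
      simp [Ne.symm hb]
    · intro hd
      exact absurd (Finset.mem_range.2 (lt_of_lt_of_le h (dg_le _ _ _))) hd
  · rw [if_neg h]
    apply Finset.sum_eq_zero
    intro c _
    rw [if_neg]
    rintro ⟨rfl, h'⟩
    exact h h'

lemma adjoint_Dop_apply_nil (Δ : ℕ) (x : Env) (f : H) :
    ContinuousLinearMap.adjoint (Dop Δ x) f [] = 0 := by
  unfold Dop
  rw [map_sum, coe_sum_apply]
  simp only [adjoint_Rop_apply_nil]
  simp

lemma Aop_apply_nil (Δ : ℕ) (x : Env) (f : H) :
    Aop Δ x f [] = ∑ c ∈ Finset.range (dg Δ x []), f [c] := by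
  change Dop Δ x f [] + ContinuousLinearMap.adjoint (Dop Δ x) f [] = _
  rw [Dop_apply, adjoint_Dop_apply_nil, add_zero]
  rfl

lemma Aop_apply_concat (Δ : ℕ) (x : Env) (f : H) (v : List ℕ) (d : ℕ) :
    Aop Δ x f (v ++ [d]) = ∑ c ∈ Finset.range (dg Δ x (v ++ [d])), f (v ++ [d] ++ [c])
      + if d < dg Δ x v then f v else 0 := by
  change Dop Δ x f (v ++ [d]) + ContinuousLinearMap.adjoint (Dop Δ x) f (v ++ [d]) = _
  rw [Dop_apply, adjoint_Dop_apply]

lemma Aop_isSelfAdjoint (Δ : ℕ) (x : Env) :
    ContinuousLinearMap.adjoint (Aop Δ x) = Aop Δ x := by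
  unfold Aop
  rw [map_add, ContinuousLinearMap.adjoint_adjoint, add_comm]

lemma inner_Aop (Δ : ℕ) (x : Env) (f g : H) : ⟪Aop Δ x f, g⟫_ℝ = ⟪f, Aop Δ x g⟫_ℝ := by
  conv_rhs => rw [← ContinuousLinearMap.adjoint_inner_left, Aop_isSelfAdjoint]

/-- restriction to the subtree of child `c` -/
def rho (c : ℕ) : H →L[ℝ] H := compL (fun v => c :: v) (cons_inj c)

@[simp] lemma rho_apply (c : ℕ) (f : H) (v : List ℕ) : rho c f v = f (c :: v) := rfl

lemma Aop_apply_cons (Δ : ℕ) (x : Env) (f : H) (c : ℕ) (v : List ℕ) :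
    Aop Δ x f (c :: v) = Aop Δ (sub x c) (rho c f) v +
      if v = [] ∧ c < dg Δ x [] then f [] else 0 := by
  rcases List.eq_nil_or_concat v with h | ⟨w, d, h⟩
  · subst h
    have h1 := Aop_apply_concat Δ x f [] c
    simp only [List.nil_append] at h1
    rw [h1, Aop_apply_nil]
    simp only [true_and]
    rfl
  · rw [List.concat_eq_append] at h
    subst h
    have h1 := Aop_apply_concat Δ x f (c :: w) d
    rw [← List.cons_append, h1, Aop_apply_concat]
    have h2 : ¬ (w ++ [d] = [] ∧ c < dg Δ x []) := by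
      rintro ⟨h, _⟩
      simp at h
    rw [if_neg h2, add_zero]
    rfl

end Pool.Agent.H94
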