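import Pool.Agent.H94.FourB

/-!
Block statistics of uniform integers: second moments and the chi-square statistic.
-/

namespace Pool.Agent.H94.Weyl

open Finset

/-- sum of `G` over the lowest `n` base-`q` digits of `v` -/
noncomputable def bsum (q : ℕ) (G : ℕ → ℝ) (n v : ℕ) : ℝ := ∑ a ∈ range n, G (v / q ^ a % q)

lemma bsum_succ (q : ℕ) (hq : 1 ≤ q) (G : ℕ → ℝ) (n k i : ℕ) (hk : k < q) (hi : i < q ^ n) :
    bsum q G (n + 1) (q ^ n * k + i) = bsum q G n i + G k := by
  unfold bsum
  rw [Finset.sum_range_succ]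
  congr 1
  · apply Finset.sum_congr rfl
    intro a ha
    rw [mem_range] at ha
    congr 1
    have h1 : q ^ n = q ^ a * q * q ^ (n - a - 1) := by
      rw [← pow_succ, ← pow_add]; congr 1; omega
    have h2 : q ^ n * k + i = i + q ^ a * (q * (q ^ (n - a - 1) * k)) := by
      rw [h1]; ring
    rw [h2, Nat.add_mul_div_left _ _ (by positivity), Nat.add_mul_mod_self_left]
  · congr 1
    have hqn : 0 < q ^ n := by positivity
    rw [Nat.mul_add_div hqn, Nat.div_eq_of_lt hi, add_zero, Nat.mod_eq_of_lt hk]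

lemma bsum_mod (q : ℕ) (hq : 1 ≤ q) (G : ℕ → ℝ) (n v : ℕ) :
    bsum q G n (v % q ^ n) = bsum q G n v := by
  unfold bsum
  apply Finset.sum_congr rfl
  intro a ha
  rw [mem_range] at ha
  congr 1
  have h1 : q ^ n = q ^ a * q * q ^ (n - a - 1) := by
    rw [← pow_succ, ← pow_add]; congr 1; omega
  have h3 : v = v % q ^ n + q ^ a * (q * (q ^ (n - a - 1) * (v / q ^ n))) := by
    have h2 := Nat.mod_add_div v (q ^ n)
    calc v = v % q ^ n + q ^ n * (v / q ^ n) := h2.symm
      _ = v % q ^ n + (q ^ a * q * q ^ (n - a - 1)) * (v / q ^ n) := by rw [← h1]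
      _ = _ := by ring
  conv_rhs => rw [h3]
  rw [Nat.add_mul_div_left _ _ (by positivity), Nat.add_mul_mod_self_left]

lemma sum_bsum (q : ℕ) (hq : 1 ≤ q) (G : ℕ → ℝ) (hG : ∑ k ∈ range q, G k = 0) (n : ℕ) :
    ∑ v ∈ range (q ^ n), bsum q G n v = 0 := by
  induction n with
  | zero => simp [bsum]
  | succ n ih =>
    rw [pow_succ, sum_range_blocks]
    have h1 : ∀ k ∈ range q, ∑ i ∈ range (q ^ n), bsum q G (n + 1) (q ^ n * k + i) =
        q ^ n * G k := by
      intro k hk
      have h2 : ∀ i ∈ range (q ^ n), bsum q G (n + 1) (q ^ n * k + i) = bsum q G n i + G k :=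
        fun i hi => bsum_succ q hq G n k i (mem_range.1 hk) (mem_range.1 hi)
      rw [Finset.sum_congr rfl h2, Finset.sum_add_distrib, ih, Finset.sum_const, card_range,
        nsmul_eq_mul, zero_add]
      push_cast; rfl
    rw [Finset.sum_congr rfl h1, ← Finset.mul_sum, hG, mul_zero]

/-- second moment for a uniform integer -/
lemma sum_bsum_sq (q : ℕ) (hq : 1 ≤ q) (G : ℕ → ℝ) (hG : ∑ k ∈ range q, G k = 0) (n : ℕ) :
    ∑ v ∈ range (q ^ n), bsum q G n v ^ 2 = n * (q : ℝ) ^ n * ((∑ k ∈ range q, G k ^ 2) / q) := by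
  have hq0 : (q : ℝ) ≠ 0 := by positivity
  induction n with
  | zero => simp [bsum]
  | succ n ih =>
    rw [pow_succ, sum_range_blocks]
    have h1 : ∀ k ∈ range q, ∑ i ∈ range (q ^ n), bsum q G (n + 1) (q ^ n * k + i) ^ 2 =
        (∑ i ∈ range (q ^ n), bsum q G n i ^ 2) + (q : ℝ) ^ n * G k ^ 2 := by
      intro k hk
      have h2 : ∀ i ∈ range (q ^ n), bsum q G (n + 1) (q ^ n * k + i) ^ 2 =
          bsum q G n i ^ 2 + 2 * G k * bsum q G n i + G k ^ 2 := by
        intro i hi
        rw [bsum_succ q hq G n k i (mem_range.1 hk) (mem_range.1 hi)]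
        ring
      rw [Finset.sum_congr rfl h2, Finset.sum_add_distrib, Finset.sum_add_distrib,
        ← Finset.mul_sum, sum_bsum q hq G hG n, Finset.sum_const, card_range, nsmul_eq_mul]
      push_cast
      ring
    rw [Finset.sum_congr rfl h1, Finset.sum_add_distrib, ih, Finset.sum_const, card_range,
      nsmul_eq_mul, ← Finset.mul_sum]
    push_cast
    field_simp
    ring

/-- the deviation `q N_k - n` of the number of digits equal to `k` -/
noncomputable def dev (q n u k : ℕ) : ℝ :=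
  ∑ a ∈ range n, ((if u / q ^ a % q = k then (q : ℝ) else 0) - 1)

/-- the chi-square statistic -/
noncomputable def chi (q n u : ℕ) : ℝ := (∑ k ∈ range q, dev q n u k ^ 2) / q

lemma dev_eq_bsum (q n u k : ℕ) :
    dev q n u k = bsum q (fun x => (if x = k then (q : ℝ) else 0) - 1) n u := rfl

lemma sum_dev (q : ℕ) (hq : 1 ≤ q) (n u : ℕ) : ∑ k ∈ range q, dev q n u k = 0 := by
  unfold dev
  rw [Finset.sum_comm]
  apply Finset.sum_eq_zero
  intro a _
  rw [Finset.sum_sub_distrib, Finset.sum_ite_eq (range q) (u / q ^ a % q), if_pos (by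
    rw [mem_range]; exact Nat.mod_lt _ (by omega))]
  simp

/-- the sum of the deviations over the digits of `u` is the chi-square statistic -/
lemma bsum_dev (q : ℕ) (hq : 1 ≤ q) (n u : ℕ) : bsum q (dev q n u) n u = chi q n u := by
  have hq0 : (q : ℝ) ≠ 0 := by positivity
  have h1 : ∑ k ∈ range q, dev q n u k ^ 2 = q * bsum q (dev q n u) n u := by
    have h2 : ∀ k ∈ range q, dev q n u k ^ 2 =
        ∑ a ∈ range n, ((if u / q ^ a % q = k then (q : ℝ) * dev q n u k else 0) -
          dev q n u k) := by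
      intro k _
      have h3 : dev q n u k ^ 2 =
          (∑ a ∈ range n, ((if u / q ^ a % q = k then (q : ℝ) else 0) - 1)) * dev q n u k := by
        rw [sq]; rfl
      rw [h3, Finset.sum_mul]
      apply Finset.sum_congr rfl
      intro a _
      split_ifs <;> ring
    rw [Finset.sum_congr rfl h2, Finset.sum_comm]
    unfold bsum
    rw [Finset.mul_sum]
    apply Finset.sum_congr rfl
    intro a _
    rw [Finset.sum_sub_distrib, sum_dev q hq, sub_zero,
      Finset.sum_ite_eq (range q) (u / q ^ a % q), if_pos (by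
        rw [mem_range]; exact Nat.mod_lt _ (by omega))]
  unfold chi
  rw [h1]
  field_simp

lemma dev_succ (q : ℕ) (hq : 1 ≤ q) (n k0 i k : ℕ) (hk : k0 < q) (hi : i < q ^ n) :
    dev q (n + 1) (q ^ n * k0 + i) k = dev q n i k + ((if k0 = k then (q : ℝ) else 0) - 1) := by
  rw [dev_eq_bsum, dev_eq_bsum, bsum_succ q hq _ n k0 i hk hi]

lemma chi_succ (q : ℕ) (hq : 1 ≤ q) (n k0 i : ℕ) (hk : k0 < q) (hi : i < q ^ n) :
    chi q (n + 1) (q ^ n * k0 + i) = chi q n i + 2 * dev q n i k0 + (q - 1) := by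
  have hq0 : (q : ℝ) ≠ 0 := by positivity
  unfold chi
  have h1 : ∀ k ∈ range q, dev q (n + 1) (q ^ n * k0 + i) k ^ 2 =
      dev q n i k ^ 2 + ((if k0 = k then 2 * (q : ℝ) * dev q n i k + (q : ℝ) ^ 2 - 2 * q else 0) -
        2 * dev q n i k + 1) := by
    intro k _
    rw [dev_succ q hq n k0 i k hk hi]
    split_ifs <;> ring
  rw [Finset.sum_congr rfl h1, Finset.sum_add_distrib, Finset.sum_add_distrib,
    Finset.sum_sub_distrib, ← Finset.mul_sum, sum_dev q hq, Finset.sum_ite_eq (range q) k0,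
    if_pos (mem_range.2 hk)]
  simp only [Finset.sum_const, card_range, nsmul_eq_mul]
  field_simp
  ring

lemma sum_chi (q : ℕ) (hq : 1 ≤ q) (n : ℕ) :
    ∑ u ∈ range (q ^ n), chi q n u = n * (q - 1) * (q : ℝ) ^ n := by
  induction n with
  | zero => simp [chi, dev]
  | succ n ih =>
    rw [pow_succ, sum_range_blocks]
    have h1 : ∀ k ∈ range q, ∑ i ∈ range (q ^ n), chi q (n + 1) (q ^ n * k + i) =
        (∑ i ∈ range (q ^ n), chi q n i) + 2 * (∑ i ∈ range (q ^ n), dev q n i k) +
          (q : ℝ) ^ n * (q - 1) := by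
      intro k hk
      have h2 : ∀ i ∈ range (q ^ n), chi q (n + 1) (q ^ n * k + i) =
          chi q n i + 2 * dev q n i k + (q - 1) :=
        fun i hi => chi_succ q hq n k i (mem_range.1 hk) (mem_range.1 hi)
      rw [Finset.sum_congr rfl h2, Finset.sum_add_distrib, Finset.sum_add_distrib,
        ← Finset.mul_sum, Finset.sum_const, card_range, nsmul_eq_mul]
      push_cast
      ring
    have h3 : ∑ k ∈ range q, ∑ i ∈ range (q ^ n), dev q n i k = 0 := by
      rw [Finset.sum_comm]
      apply Finset.sum_eq_zero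
      intro i _
      exact sum_dev q hq n i
    rw [Finset.sum_congr rfl h1, Finset.sum_add_distrib, Finset.sum_add_distrib,
      ← Finset.mul_sum, h3, ih, Finset.sum_const, Finset.sum_const, card_range, nsmul_eq_mul,
      nsmul_eq_mul]
    push_cast
    ring

/-- variance of the chi-square statistic -/
lemma var_chi (q : ℕ) (hq : 1 ≤ q) (n : ℕ) :
    ∑ u ∈ range (q ^ n), (chi q n u - n * (q - 1)) ^ 2 = 2 * n * (n - 1) * (q - 1) * (q : ℝ) ^ n := by
  induction n with
  | zero => simp [chi, dev]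
  | succ n ih =>
    have hq0 : (q : ℝ) ≠ 0 := by positivity
    rw [pow_succ, sum_range_blocks]
    have h1 : ∀ k ∈ range q, ∑ i ∈ range (q ^ n),
        (chi q (n + 1) (q ^ n * k + i) - ((n + 1 : ℕ) : ℝ) * (q - 1)) ^ 2 =
        ∑ i ∈ range (q ^ n), ((chi q n i - n * (q - 1)) ^ 2 +
          4 * (chi q n i - n * (q - 1)) * dev q n i k + 4 * dev q n i k ^ 2) := by
      intro k hk
      apply Finset.sum_congr rfl
      intro i hi
      rw [chi_succ q hq n k i (mem_range.1 hk) (mem_range.1 hi)]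
      push_cast
      ring
    rw [Finset.sum_congr rfl h1, Finset.sum_comm]
    have h2 : ∀ i ∈ range (q ^ n), ∑ k ∈ range q, ((chi q n i - n * (q - 1)) ^ 2 +
          4 * (chi q n i - n * (q - 1)) * dev q n i k + 4 * dev q n i k ^ 2) =
        q * (chi q n i - n * (q - 1)) ^ 2 + 4 * q * chi q n i := by
      intro i _
      rw [Finset.sum_add_distrib, Finset.sum_add_distrib, ← Finset.mul_sum, ← Finset.mul_sum,
        sum_dev q hq, Finset.sum_const, card_range, nsmul_eq_mul]
      unfold chi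
      field_simp
      ring
    rw [Finset.sum_congr rfl h2, Finset.sum_add_distrib, ← Finset.mul_sum, ← Finset.mul_sum, ih,
      sum_chi q hq]
    push_cast
    ring

/-- most integers have a large chi-square statistic -/
lemma count_small_chi (q : ℕ) (hq : 2 ≤ q) (n : ℕ) (hn : 1 ≤ n) :
    (((range (q ^ n)).filter (fun u => chi q n u < n * (q - 1) / 2)).card : ℝ) * (q - 1) ≤
      8 * (q : ℝ) ^ n := by
  have hn0 : (1 : ℝ) ≤ n := by exact_mod_cast hn
  have hq1 : (2 : ℝ) ≤ q := by exact_mod_cast hq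
  set S := (range (q ^ n)).filter (fun u => chi q n u < n * (q - 1) / 2) with hS
  have h1 : (S.card : ℝ) * (n * (q - 1) / 2) ^ 2 ≤
      ∑ u ∈ range (q ^ n), (chi q n u - n * (q - 1)) ^ 2 := by
    rw [← nsmul_eq_mul, ← Finset.sum_const]
    have hsub : S ⊆ range (q ^ n) := Finset.filter_subset _ _
    refine le_trans ?_ (Finset.sum_le_sum_of_subset_of_nonneg hsub
      (fun _ _ _ => by positivity))
    apply Finset.sum_le_sum
    intro u hu
    rw [mem_filter] at hu
    have h2 : 0 ≤ (n : ℝ) * (q - 1) / 2 := by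
      have : (0 : ℝ) ≤ q - 1 := by linarith
      positivity
    nlinarith [hu.2]
  rw [var_chi q (by omega) n] at h1
  have hpos : 0 < (n : ℝ) * (q - 1) := by
    have : (0 : ℝ) < q - 1 := by linarith
    positivity
  have h3 : (n : ℝ) ^ 2 * (q - 1) * ((S.card : ℝ) * (q - 1)) ≤
      (n : ℝ) ^ 2 * (q - 1) * (8 * (q : ℝ) ^ n) := by
    have hqn : (0 : ℝ) ≤ (q : ℝ) ^ n := by positivity
    have hq10 : (0 : ℝ) ≤ q - 1 := by linarith
    have h4 : 2 * (n : ℝ) * (n - 1) * (q - 1) * (q : ℝ) ^ n ≤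
        2 * (n : ℝ) * n * (q - 1) * (q : ℝ) ^ n := by
      apply mul_le_mul_of_nonneg_right _ hqn
      apply mul_le_mul_of_nonneg_right _ hq10
      nlinarith
    nlinarith
  have h5 : 0 < (n : ℝ) ^ 2 * (q - 1) := by
    have : (0 : ℝ) < q - 1 := by linarith
    positivity
  exact le_of_mul_le_mul_left h3 h5

lemma chi_mod (q : ℕ) (hq : 1 ≤ q) (n u : ℕ) : chi q n (u % q ^ n) = chi q n u := by
  unfold chi
  simp only [dev_eq_bsum, bsum_mod q hq]

lemma dev_mod (q : ℕ) (hq : 1 ≤ q) (n u k : ℕ) : dev q n (u % q ^ n) k = dev q n u k := by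
  simp only [dev_eq_bsum, bsum_mod q hq]

/-- the same with extra leading digits -/
lemma count_small_chi' (q : ℕ) (hq : 2 ≤ q) (n : ℕ) (hn : 1 ≤ n) (t : ℕ) :
    (((range (q ^ n * t)).filter (fun u => chi q n u < n * (q - 1) / 2)).card : ℝ) * (q - 1) ≤
      8 * (q : ℝ) ^ n * t := by
  have h1 : ((range (q ^ n * t)).filter (fun u => chi q n u < n * (q - 1) / 2)).card =
      t * ((range (q ^ n)).filter (fun u => chi q n u < n * (q - 1) / 2)).card := by
    rw [Finset.card_filter, Finset.card_filter, sum_range_blocks]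
    have h2 : ∀ k ∈ range t, ∑ i ∈ range (q ^ n),
        (if chi q n (q ^ n * k + i) < n * (q - 1) / 2 then 1 else 0) =
        ∑ i ∈ range (q ^ n), (if chi q n i < n * (q - 1) / 2 then 1 else 0) := by
      intro k _
      apply Finset.sum_congr rfl
      intro i hi
      rw [← chi_mod q (by omega) n (q ^ n * k + i), Nat.mul_add_mod,
        Nat.mod_eq_of_lt (mem_range.1 hi)]
    rw [Finset.sum_congr rfl h2, Finset.sum_const, card_range, smul_eq_mul]
  rw [h1]
  have h3 := count_small_chi q hq n hn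
  push_cast
  have h4 : (0 : ℝ) ≤ t := Nat.cast_nonneg t
  nlinarith

end Pool.Agent.H94.Weyl
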