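import Pool.Agent.H94.Iso

set_option autoImplicit false
open scoped ENNReal InnerProductSpace

noncomputable section

namespace Pool.Agent.H94

/-- walks of length `k` from the root to `w` -/
def WF (Δ : ℕ) (x : Env) : (k : ℕ) → List ℕ → Finset (Fin (k + 1) → List ℕ)
  | 0, w => if w = [] then {fun _ => []} else ∅
  | k + 1, w => (nbr Δ x w).biUnion
      (fun u => (WF Δ x k u).image (fun f => (Fin.snoc f w : Fin (k + 2) → List ℕ)))

lemma mem_WF {Δ : ℕ} {x : Env} (k : ℕ) : ∀ (w : List ℕ) (f : Fin (k + 1) → List ℕ),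
    f ∈ WF Δ x k w ↔ f 0 = [] ∧ f (Fin.last k) = w ∧
      ∀ i : Fin k, f i.succ ∈ nbr Δ x (f i.castSucc) := by
  induction k with
  | zero =>
    intro w f
    unfold WF
    constructor
    · intro h
      split_ifs at h with hw
      · rw [Finset.mem_singleton] at h
        subst h
        exact ⟨rfl, hw.symm, fun i => i.elim0⟩
      · simp at h
    · rintro ⟨h1, h2, _⟩
      have h3 : (Fin.last 0 : Fin 1) = 0 := rfl
      rw [h3, h1] at h2
      rw [if_pos h2.symm, Finset.mem_singleton]
      ext1 i
      have : i = 0 := Fin.ext (by omega)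
      rw [this]
      exact h1
  | succ k ih =>
    intro w f
    unfold WF
    rw [Finset.mem_biUnion]
    constructor
    · rintro ⟨u, hu, hf⟩
      rw [Finset.mem_image] at hf
      obtain ⟨g, hg, rfl⟩ := hf
      rw [ih] at hg
      obtain ⟨h1, h2, h3⟩ := hg
      refine ⟨?_, ?_, ?_⟩
      · have : (0 : Fin (k + 2)) = Fin.castSucc 0 := rfl
        rw [this, Fin.snoc_castSucc]
        exact h1
      · rw [Fin.snoc_last]
      · intro i
        rw [Fin.snoc_castSucc]
        refine Fin.lastCases ?_ ?_ i
        · rw [Fin.succ_last, Fin.snoc_last, h2]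
          exact mem_nbr_symm.1 hu
        · intro j
          rw [Fin.succ_castSucc, Fin.snoc_castSucc]
          exact h3 j
    · rintro ⟨h1, h2, h3⟩
      refine ⟨f (Fin.last k).castSucc, ?_, ?_⟩
      · have := h3 (Fin.last k)
        rw [Fin.succ_last, h2] at this
        exact mem_nbr_symm.1 this
      · rw [Finset.mem_image]
        refine ⟨fun i => f i.castSucc, ?_, ?_⟩
        · rw [ih]
          refine ⟨h1, rfl, ?_⟩
          intro i
          have := h3 i.castSucc
          rw [Fin.succ_castSucc] at this
          exact this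
        · rw [← h2]
          exact Fin.snoc_init_self f

lemma card_WF_succ {Δ : ℕ} {x : Env} (k : ℕ) (w : List ℕ) :
    (WF Δ x (k + 1) w).card = ∑ u ∈ nbr Δ x w, (WF Δ x k u).card := by
  change ((nbr Δ x w).biUnion
      (fun u => (WF Δ x k u).image (fun f => (Fin.snoc f w : Fin (k + 2) → List ℕ)))).card = _
  rw [Finset.card_biUnion]
  · apply Finset.sum_congr rfl
    intro u _
    rw [Finset.card_image_of_injective]
    intro f g hfg
    have := congrArg (Fin.init) hfg
    simpa using this
  · intro u _ v _ huv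
    rw [Function.onFun, Finset.disjoint_left]
    intro f hf hg
    rw [Finset.mem_image] at hf hg
    obtain ⟨a, ha, rfl⟩ := hf
    obtain ⟨b, hb, hab⟩ := hg
    have := congrArg (Fin.init) hab
    simp at this
    subst this
    rw [mem_WF] at ha hb
    exact huv (ha.2.1.symm.trans hb.2.1)

lemma Aop_pow_apply {Δ : ℕ} {x : Env} (k : ℕ) : ∀ w : List ℕ,
    (Aop Δ x ^ k) (δ []) w = ((WF Δ x k w).card : ℝ) := by
  induction k with
  | zero =>
    intro w
    unfold WF
    rw [pow_zero, one_apply_eq_self, δ_apply]
    split_ifs <;> simp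
  | succ k ih =>
    intro w
    rw [pow_succ', card_WF_succ]
    change Aop Δ x ((Aop Δ x ^ k) (δ [])) w = _
    rw [Aop_eq_sum_nbr, Nat.cast_sum]
    exact Finset.sum_congr rfl (fun u _ => ih u)

/-- validity of a vertex, as in the frozen statement -/
def Vld (x : Env) (v : List ℕ) : Prop := ∀ j < v.length, v.getD j 0 < x (v.take j)

lemma Vld_nil (x : Env) : Vld x [] := by
  intro j hj
  simp at hj

lemma Vld_append {x : Env} {v : List ℕ} {a : ℕ} : Vld x (v ++ [a]) ↔ Vld x v ∧ a < x v := by
  unfold Vld
  constructor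
  · intro h
    constructor
    · intro j hj
      have := h j (by simp; omega)
      rw [List.getD_append _ _ _ _ hj, List.take_append_of_le_length (by omega)] at this
      exact this
    · have := h v.length (by simp)
      simpa using this
  · rintro ⟨h1, h2⟩ j hj
    simp only [List.length_append, List.length_cons, List.length_nil] at hj
    by_cases h : j < v.length
    · rw [List.getD_append _ _ _ _ h, List.take_append_of_le_length (by omega)]
      exact h1 j h
    · have : j = v.length := by omega
      subst this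
      simpa using h2

lemma walk_set_eq {Δ : ℕ} {x : Env} (hx : ∀ v, x v ≤ Δ) (k : ℕ) :
    {f : Fin (k + 1) → List ℕ | f 0 = [] ∧ f (Fin.last k) = [] ∧
      (∀ i, ∀ j < (f i).length, (f i).getD j 0 < x ((f i).take j)) ∧
      ∀ i : Fin k, (∃ a : ℕ, f i.succ = f i.castSucc ++ [a]) ∨
                   (∃ a : ℕ, f i.castSucc = f i.succ ++ [a])} = ↑(WF Δ x k []) := by
  have hdg : ∀ v, dg Δ x v = x v := fun v => by unfold dg; have := hx v; omega
  ext f
  rw [Finset.mem_coe, mem_WF]
  constructor
  · rintro ⟨h1, h2, h3, h4⟩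
    refine ⟨h1, h2, ?_⟩
    intro i
    rw [mem_nbr]
    rcases h4 i with ⟨a, ha⟩ | ⟨a, ha⟩
    · left
      refine ⟨a, ?_, ha⟩
      have : Vld x (f i.succ) := h3 i.succ
      rw [ha, Vld_append] at this
      rw [hdg]
      exact this.2
    · right
      refine ⟨a, ?_, ha⟩
      have : Vld x (f i.castSucc) := h3 i.castSucc
      rw [ha, Vld_append] at this
      rw [hdg]
      exact this.2
  · rintro ⟨h1, h2, h3⟩
    refine ⟨h1, h2, ?_, ?_⟩
    · have key : ∀ i : Fin (k + 1), Vld x (f i) := by
        intro i
        induction i using Fin.induction with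
        | zero => rw [h1]; exact Vld_nil x
        | succ i ih =>
          have := h3 i
          rw [mem_nbr] at this
          rcases this with ⟨c, hc, h⟩ | ⟨c, hc, h⟩
          · rw [h, Vld_append]
            rw [hdg] at hc
            exact ⟨ih, hc⟩
          · rw [h, Vld_append] at ih
            exact ih.1
      exact key
    · intro i
      have := h3 i
      rw [mem_nbr] at this
      rcases this with ⟨c, _, h⟩ | ⟨c, _, h⟩
      · left; exact ⟨c, h⟩
      · right; exact ⟨c, h⟩

lemma ncard_walks {Δ : ℕ} {x : Env} (hx : ∀ v, x v ≤ Δ) (k : ℕ) :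
    ((Set.ncard {f : Fin (k + 1) → List ℕ | f 0 = [] ∧ f (Fin.last k) = [] ∧
      (∀ i, ∀ j < (f i).length, (f i).getD j 0 < x ((f i).take j)) ∧
      ∀ i : Fin k, (∃ a : ℕ, f i.succ = f i.castSucc ++ [a]) ∨
                   (∃ a : ℕ, f i.castSucc = f i.succ ++ [a])} : ℕ) : ℝ) =
      (Aop Δ x ^ k) (δ []) [] := by
  rw [walk_set_eq hx, Set.ncard_coe_finset, Aop_pow_apply]

end Pool.Agent.H94
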