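import Mathlib

/-!
Weyl differencing for integer polynomials modulo a natural number.
-/

namespace Pool.Agent.H94.Weyl

open Finset Polynomial

/-- the additive character `x ↦ exp (2 π i x)` -/
noncomputable def ee (x : ℝ) : ℂ := Complex.exp ((2 * Real.pi * x : ℝ) * Complex.I)

lemma ee_add (x y : ℝ) : ee (x + y) = ee x * ee y := by
  unfold ee
  rw [← Complex.exp_add]
  congr 1
  push_cast
  ring

lemma norm_ee (x : ℝ) : ‖ee x‖ = 1 := by
  unfold ee
  rw [Complex.norm_exp_ofReal_mul_I]

lemma ee_int (n : ℤ) : ee (n : ℝ) = 1 := by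
  unfold ee
  rw [Complex.exp_eq_one_iff]
  exact ⟨n, by push_cast; ring⟩

lemma ee_zero : ee 0 = 1 := by
  have := ee_int 0
  simpa using this

lemma ee_neg (x : ℝ) : ee (-x) = (starRingEnd ℂ) (ee x) := by
  unfold ee
  rw [← Complex.exp_conj, map_mul, Complex.conj_ofReal, Complex.conj_I]
  congr 1
  push_cast
  ring

lemma ee_sub (x y : ℝ) : ee (x - y) = ee x * (starRingEnd ℂ) (ee y) := by
  rw [sub_eq_add_neg, ee_add, ee_neg]

lemma ee_add_int (x : ℝ) (n : ℤ) : ee (x + n) = ee x := by
  rw [ee_add, ee_int, mul_one]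

lemma ee_fract (x : ℝ) : ee (Int.fract x) = ee x := by
  conv_rhs => rw [← Int.fract_add_floor x]
  rw [ee_add_int]

lemma ee_natMul (n : ℕ) (x : ℝ) : ee (n * x) = ee x ^ n := by
  induction n with
  | zero => simp [ee_zero]
  | succ n ih =>
    rw [pow_succ, ← ih, ← ee_add]
    congr 1
    push_cast
    ring

/-- `|e(x) - 1| ≥ 4 min(x, 1 - x)` for `0 ≤ x ≤ 1` -/
lemma norm_ee_sub_one_ge {x : ℝ} (h0 : 0 ≤ x) (h1 : x ≤ 1) : 4 * min x (1 - x) ≤ ‖ee x - 1‖ := by
  have h2 : ‖ee x - 1‖ = ‖2 * Real.sin (Real.pi * x)‖ := by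
    unfold ee
    rw [mul_comm, Complex.norm_exp_I_mul_ofReal_sub_one]
    congr 2
    ring_nf
  rw [h2, Real.norm_eq_abs, abs_mul, abs_two]
  have hpi := Real.pi_pos
  have key : ∀ y : ℝ, 0 ≤ y → y ≤ 1 / 2 → 2 * y ≤ Real.sin (Real.pi * y) := by
    intro y hy0 hy1
    have := Real.mul_le_sin (x := Real.pi * y) (by positivity) (by nlinarith)
    have h3 : 2 / Real.pi * (Real.pi * y) = 2 * y := by field_simp
    rwa [h3] at this
  rcases le_total x (1 / 2) with h | h
  · have h4 := key x h0 h
    have h5 : min x (1 - x) = x := min_eq_left (by linarith)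
    rw [h5]
    have h6 : Real.sin (Real.pi * x) ≤ |Real.sin (Real.pi * x)| := le_abs_self _
    linarith
  · have h4 := key (1 - x) (by linarith) (by linarith)
    have h5 : min x (1 - x) = 1 - x := min_eq_right (by linarith)
    rw [h5]
    have h7 : Real.sin (Real.pi * (1 - x)) = Real.sin (Real.pi * x) := by
      rw [mul_sub, mul_one, Real.sin_pi_sub]
    rw [h7] at h4
    have h6 : Real.sin (Real.pi * x) ≤ |Real.sin (Real.pi * x)| := le_abs_self _
    linarith

/-- the bound for linear exponential sums -/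
noncomputable def lb (N : ℝ) (α : ℝ) : ℝ :=
  if Int.fract α = 0 then N else min N ((1 / Int.fract α + 1 / (1 - Int.fract α)) / 2)

lemma lb_le (N α : ℝ) : lb N α ≤ N := by
  unfold lb
  split_ifs
  · exact le_rfl
  · exact min_le_left _ _

lemma lb_nonneg {N : ℝ} (hN : 0 ≤ N) (α : ℝ) : 0 ≤ lb N α := by
  unfold lb
  split_ifs
  · exact hN
  · have h1 := Int.fract_nonneg α
    have h2 := (Int.fract_lt_one α).le
    apply le_min hN
    have : 0 ≤ 1 - Int.fract α := by linarith
    positivity

lemma lb_neg (N α : ℝ) : lb N (-α) = lb N α := by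
  unfold lb
  by_cases h : Int.fract α = 0
  · have : Int.fract (-α) = 0 := Int.fract_neg_eq_zero.2 h
    rw [if_pos h, if_pos this]
  · have h1 : Int.fract (-α) ≠ 0 := fun h2 => h (Int.fract_neg_eq_zero.1 h2)
    rw [if_neg h, if_neg h1, Int.fract_neg h]
    congr 1
    rw [show (1 : ℝ) - (1 - Int.fract α) = Int.fract α by ring, add_comm]

lemma lb_add_int (N α : ℝ) (n : ℤ) : lb N (α + n) = lb N α := by
  unfold lb
  rw [Int.fract_add_intCast]

lemma geom_bound (n : ℕ) (α : ℝ) {N : ℝ} (hN : (n : ℝ) ≤ N) :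
    ‖∑ t ∈ range n, ee (α * t)‖ ≤ lb N α := by
  have htriv : ‖∑ t ∈ range n, ee (α * t)‖ ≤ N := by
    refine (norm_sum_le _ _).trans ?_
    simp only [norm_ee, sum_const, card_range, nsmul_eq_mul, mul_one]
    exact hN
  unfold lb
  split_ifs with h
  · exact htriv
  · apply le_min htriv
    set x := Int.fract α with hx
    have hx0 : 0 < x := lt_of_le_of_ne (Int.fract_nonneg α) (Ne.symm h)
    have hx1 : x < 1 := Int.fract_lt_one α
    have h1 : ∀ t : ℕ, ee (α * t) = ee x ^ t := by
      intro t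
      rw [mul_comm, ee_natMul, hx, ee_fract]
    simp only [h1]
    have hmin : 0 < min x (1 - x) := lt_min hx0 (by linarith)
    have hne : ee x ≠ 1 := by
      intro h2
      have h3 := norm_ee_sub_one_ge hx0.le hx1.le
      rw [h2, sub_self, norm_zero] at h3
      linarith
    rw [geom_sum_eq hne, norm_div]
    have h4 : ‖ee x ^ n - 1‖ ≤ 2 := by
      calc ‖ee x ^ n - 1‖ ≤ ‖ee x ^ n‖ + ‖(1 : ℂ)‖ := norm_sub_le _ _
        _ = 2 := by rw [norm_pow, norm_ee, one_pow, norm_one]; norm_num
    have h5 := norm_ee_sub_one_ge hx0.le hx1.le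
    have h6 : 0 < ‖ee x - 1‖ := lt_of_lt_of_le (by linarith) h5
    rw [div_le_iff₀ h6]
    refine h4.trans ?_
    have h7 : 1 / min x (1 - x) ≤ 1 / x + 1 / (1 - x) := by
      rcases min_cases x (1 - x) with ⟨h8, _⟩ | ⟨h8, _⟩
      · rw [h8]
        have : 0 ≤ 1 / (1 - x) := by
          apply div_nonneg zero_le_one; linarith
        linarith
      · rw [h8]
        have : 0 ≤ 1 / x := by positivity
        linarith
    calc (2 : ℝ) = (1 / min x (1 - x)) / 2 * (4 * min x (1 - x)) := by
          field_simp; norm_num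
      _ ≤ (1 / x + 1 / (1 - x)) / 2 * ‖ee x - 1‖ := by
          apply mul_le_mul _ h5 (by positivity)
          · have h9 : 0 < 1 - x := by linarith
            positivity
          · linarith

/-- linear exponential sums over an interval -/
lemma linear_bound (α β : ℝ) (a b : ℤ) {N : ℝ} (hN : ((b - a : ℤ) : ℝ) ≤ N) (hN0 : 0 ≤ N) :
    ‖∑ t ∈ Ico a b, ee (α * t + β)‖ ≤ lb N α := by
  rcases le_total b a with hab | hab
  · rw [Finset.Ico_eq_empty (by omega), sum_empty, norm_zero]
    exact lb_nonneg hN0 α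
  · obtain ⟨n, hn⟩ := Int.eq_ofNat_of_zero_le (sub_nonneg.2 hab)
    have hb : b = a + n := by omega
    subst hb
    have h1 : ∑ t ∈ Ico a (a + n), ee (α * t + β) =
        ∑ t ∈ range n, ee (α * t) * ee (α * a + β) := by
      symm
      apply Finset.sum_bij (fun (t : ℕ) _ => a + (t : ℤ))
      · intro t ht
        rw [mem_range] at ht
        rw [mem_Ico]; omega
      · intro s _ t _ h; simpa using h
      · intro t ht
        rw [mem_Ico] at ht
        refine ⟨(t - a).toNat, ?_, ?_⟩
        · rw [mem_range]; omega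
        · omega
      · intro t _
        rw [← ee_add]
        congr 1
        push_cast
        ring
    rw [h1, ← Finset.sum_mul, norm_mul, norm_ee, mul_one]
    apply geom_bound
    have : ((a + n - a : ℤ) : ℝ) = n := by push_cast; ring
    rw [this] at hN
    exact hN

end Pool.Agent.H94.Weyl
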