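import Pool.Agent.H94.WeylA

/-!
Weyl differencing for integer polynomials modulo a natural number.
-/

namespace Pool.Agent.H94.Weyl

open Finset Polynomial

/-- the exponential sum -/
noncomputable def SS (R : ℕ) (P : ℤ[X]) (a b : ℤ) : ℂ :=
  ∑ t ∈ Ico a b, ee (((P.eval t : ℤ) : ℝ) / R)

lemma norm_sq_SS (R N : ℕ) (P : ℤ[X]) (a b : ℤ) (hab : b - a ≤ N) :
    ‖SS R P a b‖ ^ 2 ≤
      ∑ h ∈ Ioo (-(N : ℤ)) N, ‖SS R (taylor h P - P) (max a (a - h)) (min b (b - h))‖ := by
  have h1 : ((‖SS R P a b‖ ^ 2 : ℝ) : ℂ) = (SS R P a b) * (starRingEnd ℂ) (SS R P a b) := by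
    rw [Complex.mul_conj, Complex.normSq_eq_norm_sq]
  have h2 : (SS R P a b) * (starRingEnd ℂ) (SS R P a b) =
      ∑ h ∈ Ioo (-(N : ℤ)) N, SS R (taylor h P - P) (max a (a - h)) (min b (b - h)) := by
    unfold SS
    rw [map_sum, Finset.sum_mul_sum, Finset.sum_comm]
    have h3 : ∀ t ∈ Ico a b, ∑ s ∈ Ico a b,
        ee (((P.eval s : ℤ) : ℝ) / R) * (starRingEnd ℂ) (ee (((P.eval t : ℤ) : ℝ) / R)) =
        ∑ h ∈ Ioo (-(N : ℤ)) N, if t + h ∈ Ico a b then
          ee ((((taylor h P - P).eval t : ℤ) : ℝ) / R) else 0 := by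
      intro t ht
      rw [← Finset.sum_filter]
      apply Finset.sum_nbij' (fun s => s - t) (fun h => t + h)
      · intro s hs
        rw [mem_Ico] at ht hs
        rw [mem_filter, mem_Ioo, mem_Ico]
        refine ⟨⟨by omega, by omega⟩, by omega, by omega⟩
      · intro h hh
        rw [mem_filter] at hh
        exact hh.2
      · intro s _; ring
      · intro h _; ring
      · intro s _
        rw [← ee_sub]
        congr 1
        rw [eval_sub, taylor_eval, show t + (s - t) = s by ring]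
        push_cast
        ring
    rw [Finset.sum_congr rfl h3, Finset.sum_comm]
    apply Finset.sum_congr rfl
    intro h _
    rw [← Finset.sum_filter]
    apply Finset.sum_congr _ (fun _ _ => rfl)
    ext t
    simp only [mem_filter, mem_Ico]
    omega
  have h4 : (‖SS R P a b‖ ^ 2 : ℝ) = ‖((‖SS R P a b‖ ^ 2 : ℝ) : ℂ)‖ := by
    rw [Complex.norm_real, Real.norm_eq_abs, abs_of_nonneg (by positivity)]
  rw [h4, h1, h2]
  exact norm_sum_le _ _

lemma delta_natDegree {P : ℤ[X]} {k : ℕ} (hP : P.natDegree ≤ k + 1) (h : ℤ) :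
    (taylor h P - P).natDegree ≤ k ∧
      (taylor h P - P).coeff k = (k + 1) * P.coeff (k + 1) * h := by
  have hc : ∀ n, k + 1 < n → P.coeff n = 0 := fun n hn =>
    coeff_eq_zero_of_natDegree_lt (lt_of_le_of_lt hP hn)
  constructor
  · rw [natDegree_le_iff_coeff_eq_zero]
    intro n hn
    rw [coeff_sub, taylor_coeff]
    have h1 : hasseDeriv n P = C (P.coeff n) := by
      ext j
      rw [hasseDeriv_coeff, coeff_C]
      split_ifs with hj
      · subst hj; simp
      · rw [hc (j + n) (by omega), mul_zero]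
    rw [h1, eval_C, sub_self]
  · rw [coeff_sub, taylor_coeff]
    have h1 : hasseDeriv k P = C (P.coeff k) + C ((k + 1 : ℤ) * P.coeff (k + 1)) * X := by
      ext j
      rw [hasseDeriv_coeff, coeff_add, coeff_C, coeff_C_mul, coeff_X]
      rcases j with _ | _ | j
      · simp
      · simp only [zero_add, one_ne_zero, if_false, if_true, mul_one]
        rw [show 1 + k = k + 1 by ring, Nat.choose_succ_self_right]
        push_cast; ring
      · rw [hc (j + 1 + 1 + k) (by omega), if_neg (by omega), if_neg (by omega)]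
        ring
    rw [h1]
    simp

/-- iterated sums of linear bounds -/
noncomputable def psi (R N : ℕ) : ℕ → ℤ → ℝ
  | 0, L => lb N ((L : ℝ) / R)
  | (k + 1), L => ∑ h ∈ Ioo (-(N : ℤ)) N, psi R N k ((k + 2) * L * h)

lemma psi_nonneg (R N k : ℕ) (L : ℤ) : 0 ≤ psi R N k L := by
  induction k generalizing L with
  | zero => exact lb_nonneg (Nat.cast_nonneg N) _
  | succ k ih => exact Finset.sum_nonneg (fun h _ => ih _)

lemma card_Ioo_le (N : ℕ) : ((Ioo (-(N : ℤ)) N).card : ℝ) ≤ 2 * N := by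
  rw [Int.card_Ioo]
  have : ((N : ℤ) - -(N : ℤ) - 1).toNat ≤ 2 * N := by omega
  exact_mod_cast this

/-- Weyl differencing down to linear sums -/
theorem weyl_ineq (R N : ℕ) (hN : 1 ≤ N) (k : ℕ) : ∀ (P : ℤ[X]), P.natDegree ≤ k + 1 →
    ∀ a b : ℤ, b - a ≤ N →
    (2 * N : ℝ) ^ (k + 1) * ‖SS R P a b‖ ^ (2 ^ k) ≤
      (2 * N : ℝ) ^ (2 ^ k) * psi R N k (P.coeff (k + 1)) := by
  induction k with
  | zero =>
    intro P hP a b hab
    have h1 : ∀ t : ℤ, P.eval t = P.coeff 1 * t + P.coeff 0 := by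
      intro t
      conv_lhs => rw [eq_X_add_C_of_natDegree_le_one hP]
      simp
    have h2 : SS R P a b = ∑ t ∈ Ico a b, ee (((P.coeff 1 : ℤ) : ℝ) / R * t +
        ((P.coeff 0 : ℤ) : ℝ) / R) := by
      unfold SS
      apply Finset.sum_congr rfl
      intro t _
      rw [h1]
      congr 1
      push_cast
      ring
    have h3 : ‖SS R P a b‖ ≤ lb N (((P.coeff 1 : ℤ) : ℝ) / R) := by
      rw [h2]
      apply linear_bound
      · have : ((b - a : ℤ) : ℝ) ≤ ((N : ℤ) : ℝ) := by exact_mod_cast hab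
        simpa using this
      · exact Nat.cast_nonneg N
    simp only [zero_add, pow_one, pow_zero]
    have h4 : (0 : ℝ) ≤ 2 * N := by positivity
    exact mul_le_mul_of_nonneg_left h3 h4
  | succ k ih =>
    intro P hP a b hab
    have hN0 : (0 : ℝ) < 2 * N := by
      have : (1 : ℝ) ≤ N := by exact_mod_cast hN
      linarith
    have h1 := norm_sq_SS R N P a b hab
    have h2 : ∀ h ∈ Ioo (-(N : ℤ)) N, (2 * N : ℝ) ^ (k + 1) *
        ‖SS R (taylor h P - P) (max a (a - h)) (min b (b - h))‖ ^ (2 ^ k) ≤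
        (2 * N : ℝ) ^ (2 ^ k) * psi R N k ((k + 2) * P.coeff (k + 2) * h) := by
      intro h _
      obtain ⟨hd, hc⟩ := delta_natDegree (k := k + 1) hP h
      have h3 := ih (taylor h P - P) hd (max a (a - h)) (min b (b - h)) (by omega)
      rw [hc] at h3
      have h5 : (((k + 1 : ℕ) : ℤ) + 1) * P.coeff (k + 1 + 1) * h =
          (k + 2) * P.coeff (k + 2) * h := by push_cast; ring
      rw [h5] at h3
      exact h3
    have h6 : (∑ h ∈ Ioo (-(N : ℤ)) N,
        ‖SS R (taylor h P - P) (max a (a - h)) (min b (b - h))‖) ^ (2 ^ k) ≤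
        (2 * N : ℝ) ^ (2 ^ k - 1) * ∑ h ∈ Ioo (-(N : ℤ)) N,
        ‖SS R (taylor h P - P) (max a (a - h)) (min b (b - h))‖ ^ (2 ^ k) := by
      obtain ⟨m, hm⟩ : ∃ m, 2 ^ k = m + 1 := ⟨2 ^ k - 1, by
        have : 1 ≤ 2 ^ k := Nat.one_le_two_pow
        omega⟩
      rw [hm, Nat.add_sub_cancel]
      have h7 := pow_sum_div_card_le_sum_pow (s := Ioo (-(N : ℤ)) N)
        (f := fun h => ‖SS R (taylor h P - P) (max a (a - h)) (min b (b - h))‖)
        (fun h _ => norm_nonneg _) m
      have hcard : (0 : ℝ) < (Ioo (-(N : ℤ)) N).card := by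
        have : 0 < (Ioo (-(N : ℤ)) N).card := by
          rw [Finset.card_pos]
          exact ⟨0, by rw [mem_Ioo]; omega⟩
        exact_mod_cast this
      rw [div_le_iff₀ (by positivity)] at h7
      refine h7.trans ?_
      rw [mul_comm]
      apply mul_le_mul_of_nonneg_right
      · exact pow_le_pow_left₀ hcard.le (card_Ioo_le N) m
      · exact Finset.sum_nonneg (fun h _ => by positivity)
    calc (2 * N : ℝ) ^ (k + 1 + 1) * ‖SS R P a b‖ ^ (2 ^ (k + 1))
        = (2 * N : ℝ) ^ (k + 1 + 1) * (‖SS R P a b‖ ^ 2) ^ (2 ^ k) := by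
          rw [← pow_mul, ← pow_succ']
      _ ≤ (2 * N : ℝ) ^ (k + 1 + 1) * ((2 * N : ℝ) ^ (2 ^ k - 1) * ∑ h ∈ Ioo (-(N : ℤ)) N,
        ‖SS R (taylor h P - P) (max a (a - h)) (min b (b - h))‖ ^ (2 ^ k)) := by
          apply mul_le_mul_of_nonneg_left _ (by positivity)
          exact (pow_le_pow_left₀ (by positivity) h1 _).trans h6
      _ = (2 * N : ℝ) ^ (2 ^ k) * ∑ h ∈ Ioo (-(N : ℤ)) N, (2 * N : ℝ) ^ (k + 1) *
        ‖SS R (taylor h P - P) (max a (a - h)) (min b (b - h))‖ ^ (2 ^ k) := by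
          rw [← Finset.mul_sum]
          have h8 : (2 * N : ℝ) ^ (2 ^ k) = (2 * N : ℝ) ^ (2 ^ k - 1) * (2 * N) := by
            rw [← pow_succ]
            congr 1
            have : 1 ≤ 2 ^ k := Nat.one_le_two_pow
            omega
          rw [h8]
          ring
      _ ≤ (2 * N : ℝ) ^ (2 ^ k) * ∑ h ∈ Ioo (-(N : ℤ)) N, (2 * N : ℝ) ^ (2 ^ k) *
          psi R N k ((k + 2) * P.coeff (k + 2) * h) := by
          apply mul_le_mul_of_nonneg_left _ (by positivity)
          exact Finset.sum_le_sum h2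
      _ = (2 * N : ℝ) ^ (2 ^ (k + 1)) * psi R N (k + 1) (P.coeff (k + 1 + 1)) := by
          rw [← Finset.mul_sum, ← mul_assoc, ← pow_add]
          congr 2
          ring

end Pool.Agent.H94.Weyl
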