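import Pool.Agent.H94.WeylD

/-!
Power saving for exponential sums over values of an integer polynomial, with denominators
dividing a power of `b`.
-/

namespace Pool.Agent.H94.Weyl

open Finset Polynomial

/-- the polynomial `t ↦ c F(e t)` -/
noncomputable def dil (F : ℤ[X]) (c : ℤ) (e : ℕ) : ℤ[X] := C c * F.comp (C (e : ℤ) * X)

lemma dil_eval (F : ℤ[X]) (c : ℤ) (e : ℕ) (t : ℤ) : (dil F c e).eval t = c * F.eval (e * t) := by
  simp [dil, eval_comp]

lemma dil_natDegree (F : ℤ[X]) (c : ℤ) (e : ℕ) : (dil F c e).natDegree ≤ F.natDegree := by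
  unfold dil
  refine (natDegree_C_mul_le _ _).trans ?_
  refine natDegree_comp_le.trans ?_
  calc F.natDegree * (C (e : ℤ) * X).natDegree ≤ F.natDegree * 1 := by
        apply Nat.mul_le_mul_left
        exact (natDegree_C_mul_le _ _).trans natDegree_X_le
    _ = F.natDegree := mul_one _

lemma dil_coeff (F : ℤ[X]) (c : ℤ) (e : ℕ) (n : ℕ) :
    (dil F c e).coeff n = c * (F.coeff n * (e : ℤ) ^ n) := by
  unfold dil
  rw [coeff_C_mul, comp_C_mul_X_coeff]

/-- the reduced denominator is comparable with `q` -/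
lemma reduced (A : ℤ) (hA : A ≠ 0) (d B b : ℕ) (hB : 1 ≤ B) (e : ℕ)
    (heb : e.Coprime b) (q : ℕ) (hq : 1 ≤ q) (hqb : ∃ j, q ∣ b ^ j) (c : ℤ)
    (hc : IsCoprime c (q : ℤ)) :
    ∃ (R' : ℕ) (a' : ℤ), 1 ≤ R' ∧ IsCoprime a' (R' : ℤ) ∧ R' ≤ B * q ∧
      q ≤ R' * (d.factorial * A.natAbs) ∧
      (((d.factorial : ℤ) * (c * (A * (e : ℤ) ^ d)) : ℤ) : ℝ) / ((B * q : ℕ) : ℝ) =
        (a' : ℝ) / R' := by
  set L : ℤ := (d.factorial : ℤ) * (c * (A * (e : ℤ) ^ d)) with hL
  set G : ℕ := Int.gcd L ((B * q : ℕ) : ℤ) with hG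
  have hBq : 0 < B * q := Nat.mul_pos hB hq
  have hGpos : 0 < G := Int.gcd_pos_of_ne_zero_right _ (by exact_mod_cast hBq.ne')
  have hG1 : (G : ℤ) ∣ L := Int.gcd_dvd_left ..
  have hG2 : (G : ℤ) ∣ ((B * q : ℕ) : ℤ) := Int.gcd_dvd_right ..
  have hG2' : G ∣ B * q := by exact_mod_cast hG2
  obtain ⟨R', hR'⟩ := hG2'
  obtain ⟨a', ha'⟩ := hG1
  have hR'pos : 0 < R' := by
    rcases Nat.eq_zero_or_pos R' with h | h
    · subst h; omega
    · exact h
  have heq : e.Coprime q := by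
    obtain ⟨j, hj⟩ := hqb
    exact (Nat.Coprime.pow_right j heb).coprime_dvd_right hj
  refine ⟨R', a', hR'pos, ?_, ?_, ?_, ?_⟩
  · have h1 := Int.gcd_ediv_gcd_ediv_gcd (i := L) (j := ((B * q : ℕ) : ℤ)) hGpos
    rw [← hG] at h1
    have h2 : L / (G : ℤ) = a' := by
      rw [ha']; exact Int.mul_ediv_cancel_left _ (by omega)
    have h3 : ((B * q : ℕ) : ℤ) / (G : ℤ) = R' := by
      rw [hR']; push_cast
      exact Int.mul_ediv_cancel_left _ (by omega)
    rw [h2, h3] at h1
    exact Int.isCoprime_iff_gcd_eq_one.2 h1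
  · rw [hR']
    exact Nat.le_mul_of_pos_left _ hGpos
  · -- G divides B * d! * |A|
    have hdiv : (G : ℤ) ∣ (B : ℤ) * ((d.factorial : ℤ) * A) := by
      have h1 : (G : ℤ) ∣ (B : ℤ) * q := by exact_mod_cast hG2
      have h2 : (G : ℤ) ∣ (B : ℤ) * (((d.factorial : ℤ) * A) * (c * (e : ℤ) ^ d)) := by
        apply Dvd.dvd.mul_left
        have : ((d.factorial : ℤ) * A) * (c * (e : ℤ) ^ d) = L := by rw [hL]; ring
        rw [this]
        exact Dvd.intro _ ha'.symm
      have h3 : IsCoprime (c * (e : ℤ) ^ d) (q : ℤ) := by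
        apply IsCoprime.mul_left hc
        apply IsCoprime.pow_left
        exact Nat.isCoprime_iff_coprime.2 heq
      obtain ⟨u, v, huv⟩ := h3
      have h4 : (B : ℤ) * ((d.factorial : ℤ) * A) =
          (B : ℤ) * (((d.factorial : ℤ) * A) * (c * (e : ℤ) ^ d)) * u +
          (B : ℤ) * q * (((d.factorial : ℤ) * A) * v) := by
        have h5 : ((d.factorial : ℤ) * A) =
          ((d.factorial : ℤ) * A) * (u * (c * (e : ℤ) ^ d) + v * q) := by rw [huv, mul_one]
        calc (B : ℤ) * ((d.factorial : ℤ) * A) = (B : ℤ) * (((d.factorial : ℤ) * A) *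
              (u * (c * (e : ℤ) ^ d) + v * q)) := by rw [← h5]
          _ = _ := by ring
      rw [h4]
      exact dvd_add (h2.mul_right _) (h1.mul_right _)
    have hle : G ≤ B * (d.factorial * A.natAbs) := by
      have h6 : G ∣ B * (d.factorial * A.natAbs) := by
        have := Int.natAbs_dvd_natAbs.2 hdiv
        rw [Int.natAbs_mul, Int.natAbs_mul, Int.natAbs_natCast, Int.natAbs_natCast,
          Int.natAbs_natCast] at this
        exact this
      apply Nat.le_of_dvd _ h6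
      have h7 : 0 < A.natAbs := Int.natAbs_pos.2 hA
      have h8 : 0 < d.factorial := Nat.factorial_pos d
      positivity
    have h9 : B * q ≤ B * (R' * (d.factorial * A.natAbs)) := by
      calc B * q = G * R' := hR'
        _ ≤ (B * (d.factorial * A.natAbs)) * R' := Nat.mul_le_mul_right _ hle
        _ = B * (R' * (d.factorial * A.natAbs)) := by ring
    exact Nat.le_of_mul_le_mul_left h9 hB
  · rw [ha', hR']
    push_cast
    have h1 : (G : ℝ) ≠ 0 := by exact_mod_cast hGpos.ne'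
    have h2 : (R' : ℝ) ≠ 0 := by exact_mod_cast hR'pos.ne'
    field_simp

end Pool.Agent.H94.Weyl
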