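import Pool.Agent.H94.WeylE

/-!
Power saving for exponential sums over values of an integer polynomial (degree at least two,
one scale).
-/

namespace Pool.Agent.H94.Weyl

open Finset Polynomial

/-- The numerical heart: bounding the right-hand side of Weyl's inequality. -/
lemma rhs_bound (k : ℕ) (hk : 1 ≤ k) (B M0 : ℕ) (hB : 1 ≤ B) (hM0 : 1 ≤ M0) :
    ∃ C3 : ℝ, 1 ≤ C3 ∧ ∀ (n : ℕ), 1 ≤ n → ∀ (q R' : ℕ), 1 ≤ q → n ≤ B * q →
      q ^ 4 ≤ n ^ (4 * k + 3) → q ≤ R' * M0 → R' ≤ B * q → 1 ≤ R' →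
      ∃ T : ℝ, 1 ≤ T ∧ (∀ m, 1 ≤ m → m ≤ n ^ k → (m.divisors.card : ℝ) ≤ T) ∧
      (k * (2 * n : ℝ) ^ k + (2 * T) ^ k *
        (((n : ℝ) ^ k / R' + 1) * (n + R' * (1 + Real.log R')))) ≤
        C3 * (n : ℝ) ^ ((k : ℝ) + 13 / 16) := by
  have hk0 : (0 : ℝ) < k := by exact_mod_cast hk
  obtain ⟨Cd, hCd1, hCd⟩ := card_divisors_le (1 / (32 * (k : ℝ) ^ 2)) (by positivity)
  -- constant for the logarithm
  set δ : ℝ := 1 / (32 * ((k : ℝ) + 1)) with hδ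
  have hδ0 : 0 < δ := by positivity
  set C2 : ℝ := 1 + (B : ℝ) ^ δ / δ with hC2
  have hB1 : (1 : ℝ) ≤ B := by exact_mod_cast hB
  have hM1 : (1 : ℝ) ≤ M0 := by exact_mod_cast hM0
  have hC21 : 1 ≤ C2 := by
    rw [hC2]
    have : 0 ≤ (B : ℝ) ^ δ / δ := by positivity
    linarith
  set K1 : ℝ := (B * M0 : ℝ) + C2 + 1 + B * C2 with hK1
  have hK10 : 0 < K1 := by positivity
  refine ⟨1 + k * 2 ^ k + (2 * Cd) ^ k * K1, ?_, ?_⟩
  · have : 0 ≤ (k : ℝ) * 2 ^ k + (2 * Cd) ^ k * K1 := by positivity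
    linarith
  intro n hn q R' hq hnBq hq4 hqR hRB hR'
  have hn1 : (1 : ℝ) ≤ n := by exact_mod_cast hn
  have hn0 : (0 : ℝ) < n := by linarith
  have hq1 : (1 : ℝ) ≤ q := by exact_mod_cast hq
  have hR1 : (1 : ℝ) ≤ R' := by exact_mod_cast hR'
  have hpow : ∀ {x y : ℝ}, x ≤ y → (n : ℝ) ^ x ≤ (n : ℝ) ^ y := fun h =>
    Real.rpow_le_rpow_of_exponent_le hn1 h
  set T : ℝ := Cd * (n : ℝ) ^ (1 / (32 * (k : ℝ))) with hT
  have hTone : (1 : ℝ) ≤ (n : ℝ) ^ (1 / (32 * (k : ℝ))) := Real.one_le_rpow hn1 (by positivity)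
  refine ⟨T, ?_, ?_, ?_⟩
  · rw [hT]; nlinarith
  · intro m hm hmn
    refine (hCd m hm).trans ?_
    rw [hT]
    apply mul_le_mul_of_nonneg_left _ (by linarith)
    have h1 : ((m : ℝ)) ≤ (n : ℝ) ^ (k : ℝ) := by
      rw [Real.rpow_natCast]; exact_mod_cast hmn
    calc (m : ℝ) ^ (1 / (32 * (k : ℝ) ^ 2)) ≤ ((n : ℝ) ^ (k : ℝ)) ^ (1 / (32 * (k : ℝ) ^ 2)) :=
          Real.rpow_le_rpow (by positivity) h1 (by positivity)
      _ = (n : ℝ) ^ (1 / (32 * (k : ℝ))) := by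
          rw [← Real.rpow_mul hn0.le]
          congr 1
          field_simp
  · -- bound q
    have hqn : (q : ℝ) ≤ (n : ℝ) ^ ((k : ℝ) + 3 / 4) := by
      have h1 : ((q : ℝ)) ^ (4 : ℕ) ≤ ((n : ℝ) ^ ((k : ℝ) + 3 / 4)) ^ (4 : ℕ) := by
        rw [← Real.rpow_natCast ((n : ℝ) ^ ((k : ℝ) + 3 / 4)), ← Real.rpow_mul hn0.le]
        have h2 : ((k : ℝ) + 3 / 4) * ((4 : ℕ) : ℝ) = ((4 * k + 3 : ℕ) : ℝ) := by push_cast; ring
        rw [h2, Real.rpow_natCast]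
        exact_mod_cast hq4
      exact (pow_le_pow_iff_left₀ (by positivity) (by positivity) (by norm_num)).1 h1
    have hRn : (R' : ℝ) ≤ B * (n : ℝ) ^ ((k : ℝ) + 3 / 4) := by
      have h1 : (R' : ℝ) ≤ (B : ℝ) * q := by exact_mod_cast hRB
      exact h1.trans (mul_le_mul_of_nonneg_left hqn (by linarith))
    have hlog : 1 + Real.log R' ≤ C2 * (n : ℝ) ^ ((1 : ℝ) / 32) := by
      have h1 := Real.log_le_rpow_div (by positivity : (0 : ℝ) ≤ (R' : ℝ)) hδ0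
      have h2 : (R' : ℝ) ≤ B * (n : ℝ) ^ ((k : ℝ) + 1) :=
        hRn.trans (mul_le_mul_of_nonneg_left (hpow (by linarith)) (by linarith))
      have h3 : (R' : ℝ) ^ δ ≤ (B : ℝ) ^ δ * (n : ℝ) ^ ((1 : ℝ) / 32) := by
        calc (R' : ℝ) ^ δ ≤ (B * (n : ℝ) ^ ((k : ℝ) + 1)) ^ δ :=
              Real.rpow_le_rpow (by positivity) h2 hδ0.le
          _ = (B : ℝ) ^ δ * (n : ℝ) ^ ((1 : ℝ) / 32) := by
              rw [Real.mul_rpow (by positivity) (by positivity), ← Real.rpow_mul hn0.le]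
              congr 2
              rw [hδ]; field_simp
      have h4 : (1 : ℝ) ≤ (n : ℝ) ^ ((1 : ℝ) / 32) := Real.one_le_rpow hn1 (by norm_num)
      have h5 : Real.log R' ≤ (B : ℝ) ^ δ / δ * (n : ℝ) ^ ((1 : ℝ) / 32) := by
        refine h1.trans ?_
        rw [div_mul_eq_mul_div]
        exact div_le_div_of_nonneg_right h3 hδ0.le
      rw [hC2]
      nlinarith
    -- sum of four terms
    have hlog0 : 0 ≤ 1 + Real.log R' := by
      have := Real.log_nonneg hR1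
      linarith
    have hnk : (n : ℝ) ^ (k : ℕ) = (n : ℝ) ^ (k : ℝ) := (Real.rpow_natCast _ _).symm
    have hdiv : (n : ℝ) / R' ≤ B * M0 := by
      rw [div_le_iff₀ (by linarith)]
      have h1 : (n : ℝ) ≤ B * q := by exact_mod_cast hnBq
      have h2 : (q : ℝ) ≤ R' * M0 := by exact_mod_cast hqR
      nlinarith
    have hinner : ((n : ℝ) ^ k / R' + 1) * (n + R' * (1 + Real.log R')) ≤
        K1 * (n : ℝ) ^ ((k : ℝ) + 3 / 4 + 1 / 32) := by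
      have e1 : ((n : ℝ) ^ k / R' + 1) * (n + R' * (1 + Real.log R')) =
          (n : ℝ) ^ k * (n / R') + (n : ℝ) ^ k * (1 + Real.log R') + n +
          R' * (1 + Real.log R') := by
        field_simp
        ring
      have t1 : (n : ℝ) ^ k * (n / R') ≤ (B * M0) * (n : ℝ) ^ ((k : ℝ) + 3 / 4 + 1 / 32) := by
        rw [mul_comm]
        apply mul_le_mul hdiv _ (by positivity) (by positivity)
        rw [hnk]; exact hpow (by linarith)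
      have t2 : (n : ℝ) ^ k * (1 + Real.log R') ≤ C2 * (n : ℝ) ^ ((k : ℝ) + 3 / 4 + 1 / 32) := by
        calc (n : ℝ) ^ k * (1 + Real.log R') ≤ (n : ℝ) ^ k * (C2 * (n : ℝ) ^ ((1 : ℝ) / 32)) :=
              mul_le_mul_of_nonneg_left hlog (by positivity)
          _ = C2 * (n : ℝ) ^ ((k : ℝ) + 1 / 32) := by
              rw [hnk, Real.rpow_add hn0]; ring
          _ ≤ _ := mul_le_mul_of_nonneg_left (hpow (by linarith)) (by linarith)
      have t3 : (n : ℝ) ≤ 1 * (n : ℝ) ^ ((k : ℝ) + 3 / 4 + 1 / 32) := by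
        rw [one_mul]
        have h1 : (n : ℝ) = (n : ℝ) ^ (1 : ℝ) := (Real.rpow_one _).symm
        have hk1 : (1 : ℝ) ≤ k := by exact_mod_cast hk
        calc (n : ℝ) = (n : ℝ) ^ (1 : ℝ) := h1
          _ ≤ _ := hpow (by linarith)
      have t4 : R' * (1 + Real.log R') ≤ (B * C2) * (n : ℝ) ^ ((k : ℝ) + 3 / 4 + 1 / 32) := by
        calc R' * (1 + Real.log R') ≤ (B * (n : ℝ) ^ ((k : ℝ) + 3 / 4)) *
              (C2 * (n : ℝ) ^ ((1 : ℝ) / 32)) :=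
              mul_le_mul hRn hlog hlog0 (by positivity)
          _ = (B * C2) * (n : ℝ) ^ ((k : ℝ) + 3 / 4 + 1 / 32) := by
              rw [Real.rpow_add hn0 ((k : ℝ) + 3 / 4)]; ring
      rw [e1, hK1]
      linarith
    have hTk : (2 * T) ^ k = (2 * Cd) ^ k * (n : ℝ) ^ ((1 : ℝ) / 32) := by
      rw [hT, ← mul_assoc, mul_pow]
      congr 1
      rw [← Real.rpow_natCast, ← Real.rpow_mul hn0.le]
      congr 1
      field_simp
    have hlast : (n : ℝ) ^ ((1 : ℝ) / 32) * (n : ℝ) ^ ((k : ℝ) + 3 / 4 + 1 / 32) =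
        (n : ℝ) ^ ((k : ℝ) + 13 / 16) := by
      rw [← Real.rpow_add hn0]; congr 1; ring
    have hCk : 0 ≤ (2 * Cd) ^ k := by positivity
    calc k * (2 * n : ℝ) ^ k + (2 * T) ^ k *
          (((n : ℝ) ^ k / R' + 1) * (n + R' * (1 + Real.log R')))
        ≤ k * 2 ^ k * (n : ℝ) ^ ((k : ℝ) + 13 / 16) +
          (2 * Cd) ^ k * (n : ℝ) ^ ((1 : ℝ) / 32) * (K1 * (n : ℝ) ^ ((k : ℝ) + 3 / 4 + 1 / 32)) := by
          apply add_le_add
          · rw [mul_pow, ← mul_assoc]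
            apply mul_le_mul_of_nonneg_left _ (by positivity)
            rw [hnk]; exact hpow (by linarith)
          · rw [hTk]
            apply mul_le_mul_of_nonneg_left hinner (by positivity)
      _ = (k * 2 ^ k + (2 * Cd) ^ k * K1) * (n : ℝ) ^ ((k : ℝ) + 13 / 16) := by
          rw [← hlast]; ring
      _ ≤ (1 + k * 2 ^ k + (2 * Cd) ^ k * K1) * (n : ℝ) ^ ((k : ℝ) + 13 / 16) := by
          apply mul_le_mul_of_nonneg_right _ (by positivity)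
          linarith

/-- one scale, degree `k + 1 ≥ 2` -/
theorem one_scale (F : ℤ[X]) (k : ℕ) (hk : 1 ≤ k) (hF : F.natDegree = k + 1) (B b : ℕ)
    (hB : 1 ≤ B) : ∃ C1 : ℝ, 1 ≤ C1 ∧ ∀ (e : ℕ), e.Coprime b → ∀ (q : ℕ), 1 ≤ q →
      (∃ j, q ∣ b ^ j) → ∀ c : ℤ, IsCoprime c (q : ℤ) → ∀ n : ℕ, 1 ≤ n → n ≤ B * q →
      q ^ 4 ≤ n ^ (4 * k + 3) → ∀ x y : ℤ, y - x ≤ n →
      ‖SS (B * q) (dil F c e) x y‖ ≤ C1 * (n : ℝ) ^ (1 - 3 / (16 * (2 : ℝ) ^ k)) := by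
  have hA : F.coeff (k + 1) ≠ 0 := by
    rw [← hF]
    intro h
    rw [coeff_natDegree, leadingCoeff_eq_zero] at h
    rw [h] at hF
    simp at hF
  set A := F.coeff (k + 1) with hAdef
  have hM0 : 1 ≤ (k + 1).factorial * A.natAbs :=
    Nat.mul_pos (Nat.factorial_pos _) (Int.natAbs_pos.2 hA)
  obtain ⟨C3, hC31, hC3⟩ := rhs_bound k hk B ((k + 1).factorial * A.natAbs) hB hM0
  refine ⟨2 * C3, by linarith, ?_⟩
  intro e he q hq hqb c hc n hn hnBq hq4 x y hxy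
  obtain ⟨R', a', hR'1, ha', hR'B, hqR', hred⟩ := reduced A hA (k + 1) B b hB e he q hq hqb c hc
  obtain ⟨T, hT1, hT, hrhs⟩ := hC3 n hn q R' hq hnBq hq4 hqR' hR'B hR'1
  have hPd : (dil F c e).natDegree ≤ k + 1 := (dil_natDegree F c e).trans hF.le
  have hW := weyl_final (B * q) n hn T hT1 k hT (dil F c e) hPd x y hxy R' hR'1 a' ha' (by
    rw [dil_coeff]; exact hred)
  have hn1 : (1 : ℝ) ≤ n := by exact_mod_cast hn
  have hn0 : (0 : ℝ) < n := by linarith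
  have hm : 0 < (2 : ℕ) ^ k := by positivity
  -- combine
  have h1 : (2 * n : ℝ) ^ (k + 1) * ‖SS (B * q) (dil F c e) x y‖ ^ (2 ^ k) ≤
      (2 * n : ℝ) ^ (2 ^ k) * (C3 * (n : ℝ) ^ ((k : ℝ) + 13 / 16)) :=
    hW.trans (mul_le_mul_of_nonneg_left hrhs (by positivity))
  have h2 : ‖SS (B * q) (dil F c e) x y‖ ^ (2 ^ k) ≤
      (2 * C3 * (n : ℝ) ^ (1 - 3 / (16 * (2 : ℝ) ^ k))) ^ (2 ^ k) := by
    have h3 : (2 * n : ℝ) ^ (k + 1) = 2 ^ (k + 1) * ((n : ℝ) ^ ((k : ℝ) + 13 / 16) *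
        (n : ℝ) ^ ((3 : ℝ) / 16)) := by
      rw [mul_pow, ← Real.rpow_add hn0]
      congr 1
      rw [← Real.rpow_natCast]
      congr 1
      push_cast; ring
    have hX : (0 : ℝ) < (n : ℝ) ^ ((k : ℝ) + 13 / 16) := by positivity
    have hY : (0 : ℝ) < (n : ℝ) ^ ((3 : ℝ) / 16) := by positivity
    rw [h3] at h1
    have h4 : (n : ℝ) ^ ((3 : ℝ) / 16) * ‖SS (B * q) (dil F c e) x y‖ ^ (2 ^ k) ≤
        (2 * n : ℝ) ^ (2 ^ k) * C3 := by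
      have h5 : (n : ℝ) ^ ((k : ℝ) + 13 / 16) * ((n : ℝ) ^ ((3 : ℝ) / 16) *
          ‖SS (B * q) (dil F c e) x y‖ ^ (2 ^ k)) ≤
          (n : ℝ) ^ ((k : ℝ) + 13 / 16) * ((2 * n : ℝ) ^ (2 ^ k) * C3) := by
        have h6 : (1 : ℝ) ≤ 2 ^ (k + 1) := one_le_pow₀ (by norm_num)
        have h7 : 0 ≤ (n : ℝ) ^ ((k : ℝ) + 13 / 16) * ((n : ℝ) ^ ((3 : ℝ) / 16) *
          ‖SS (B * q) (dil F c e) x y‖ ^ (2 ^ k)) := by positivity
        nlinarith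
      exact le_of_mul_le_mul_left h5 hX
    have h8 : (2 * C3 * (n : ℝ) ^ (1 - 3 / (16 * (2 : ℝ) ^ k))) ^ (2 ^ k) =
        2 ^ (2 ^ k) * C3 ^ (2 ^ k) * ((n : ℝ) ^ (2 ^ k) / (n : ℝ) ^ ((3 : ℝ) / 16)) := by
      rw [mul_pow, mul_pow]
      congr 1
      rw [← Real.rpow_natCast, ← Real.rpow_mul hn0.le, ← Real.rpow_natCast (n : ℝ) (2 ^ k),
        ← Real.rpow_sub hn0]
      congr 1
      push_cast
      field_simp
    rw [h8]
    rw [← mul_div_assoc, le_div_iff₀ hY]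
    have h9 : C3 ≤ C3 ^ (2 ^ k) := le_self_pow₀ hC31 hm.ne'
    calc ‖SS (B * q) (dil F c e) x y‖ ^ (2 ^ k) * (n : ℝ) ^ ((3 : ℝ) / 16)
        ≤ (2 * n : ℝ) ^ (2 ^ k) * C3 := by linarith
      _ ≤ (2 * n : ℝ) ^ (2 ^ k) * C3 ^ (2 ^ k) := mul_le_mul_of_nonneg_left h9 (by positivity)
      _ = 2 ^ (2 ^ k) * C3 ^ (2 ^ k) * (n : ℝ) ^ (2 ^ k) := by rw [mul_pow]; ring
  exact (pow_le_pow_iff_left₀ (norm_nonneg _) (by positivity) hm.ne').1 h2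

end Pool.Agent.H94.Weyl
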